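import Pool.Agent.Lib.MP_56e41f_co.LD.Defs

/-!
# Bounds for `P ^ r g` and the test functions
-/

open Finset

namespace Pool.Agent.Lib.MP_56e41f_co.LD

variable {V : Type} [Fintype V] [DecidableEq V]

theorem sd_zero (s : Bool) : sd s 0 = s := rfl

theorem sd_succ (s : Bool) (k : ℕ) : sd s (k + 1) = !(sd s k) := by
  unfold sd
  rw [Function.iterate_succ_apply']

theorem sd_add (s : Bool) (k m : ℕ) : sd (sd s k) m = sd s (k + m) := by
  unfold sd
  rw [add_comm k m, Function.iterate_add_apply]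

theorem mem_nb (G : SimpleGraph V) (X : Finset (V × Bool)) (x : V × Bool) (u : V) :
    u ∈ nb G X x ↔ G.Adj x.1 u ∧ (u, !x.2) ∈ X := by
  simp [nb]

theorem dg_pos {G : SimpleGraph V} {X : Finset (V × Bool)} {P : Pm} (hO : P.Ok) (hH : Hs G X P)
    {x : V × Bool} (hx : x ∈ X) : 0 < dg G X x := hO.mu0.trans_le (hH.deg x hx)

theorem Gr_zero (G : SimpleGraph V) (X : Finset (V × Bool)) (x : V × Bool) :
    Gr G X 0 x = 1 / dg G X x := rfl

theorem Gr_succ (G : SimpleGraph V) (X : Finset (V × Bool)) (r : ℕ) (x : V × Bool) :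
    Gr G X (r + 1) x = (∑ u ∈ nb G X x, Gr G X r (u, !x.2)) / dg G X x := by
  unfold Gr
  rw [Function.iterate_succ_apply']
  rfl

theorem Gr_nonneg (G : SimpleGraph V) (X : Finset (V × Bool)) (r : ℕ) (x : V × Bool) :
    0 ≤ Gr G X r x := by
  have hd : ∀ y, 0 ≤ dg G X y := fun y => Nat.cast_nonneg _
  induction r generalizing x with
  | zero =>
    rw [Gr_zero]
    exact div_nonneg zero_le_one (hd x)
  | succ r ih =>
    rw [Gr_succ]
    exact div_nonneg (sum_nonneg fun u _ => ih _) (hd x)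

theorem Gr_le {G : SimpleGraph V} {X : Finset (V × Bool)} {P : Pm} (hO : P.Ok) (hH : Hs G X P)
    (r : ℕ) {x : V × Bool} (hx : x ∈ X) : Gr G X r x ≤ 1 / P.mu := by
  induction r generalizing x with
  | zero =>
    rw [Gr_zero]
    exact one_div_le_one_div_of_le hO.mu0 (hH.deg x hx)
  | succ r ih =>
    rw [Gr_succ, div_le_iff₀ (dg_pos hO hH hx)]
    calc ∑ u ∈ nb G X x, Gr G X r (u, !x.2) ≤ ∑ _u ∈ nb G X x, 1 / P.mu :=
          sum_le_sum fun u hu => ih ((mem_nb G X x u).1 hu).2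
      _ = 1 / P.mu * dg G X x := by
          rw [sum_const, nsmul_eq_mul, mul_comm]
          rfl

theorem fk_nonneg {G : SimpleGraph V} {X : Finset (V × Bool)} {P : Pm} (hO : P.Ok) (k : ℕ)
    (y : V × Bool) : 0 ≤ fk G X P k y := by
  unfold fk
  split_ifs
  · exact zero_le_one
  · exact mul_nonneg hO.mu0.le (Gr_nonneg G X _ y)

theorem fk_le {G : SimpleGraph V} {X : Finset (V × Bool)} {P : Pm} (hO : P.Ok) (hH : Hs G X P)
    (k : ℕ) {y : V × Bool} (hy : y ∈ X) : fk G X P k y ≤ 1 := by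
  unfold fk
  split_ifs
  · exact le_refl _
  · calc P.mu * Gr G X (k - 1) y ≤ P.mu * (1 / P.mu) :=
          mul_le_mul_of_nonneg_left (Gr_le hO hH _ hy) hO.mu0.le
      _ = 1 := mul_one_div_cancel hO.mu0.ne'

theorem Ys_zero (G : SimpleGraph V) (X : Finset (V × Bool)) (P : Pm) (x : V × Bool)
    (F : Finset V) : Ys G X P 0 x F = ((nb G X x ∩ F).card : ℝ) := by
  unfold Ys
  rw [sum_congr rfl (fun u _ => show fk G X P 0 (u, !x.2) = 1 from if_pos rfl), sum_const,
    nsmul_eq_mul, mul_one]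

theorem Ys_zero_univ (G : SimpleGraph V) (X : Finset (V × Bool)) (P : Pm) (x : V × Bool) :
    Ys G X P 0 x univ = dg G X x := by
  rw [Ys_zero, inter_univ]
  rfl

theorem Ys_succ_univ {G : SimpleGraph V} {X : Finset (V × Bool)} {P : Pm} (hO : P.Ok)
    (hH : Hs G X P) (r : ℕ) {x : V × Bool} (hx : x ∈ X) :
    Ys G X P (r + 1) x univ = P.mu * dg G X x * Gr G X (r + 1) x := by
  have hd := (dg_pos hO hH hx).ne'
  have h1 : Ys G X P (r + 1) x univ = P.mu * ∑ u ∈ nb G X x, Gr G X r (u, !x.2) := by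
    unfold Ys
    rw [inter_univ, mul_sum]
    rfl
  rw [h1, Gr_succ, mul_assoc, mul_div_cancel₀ _ hd]

/-- `0 ≤ Cst ≤ 2 / mu` : `sz X b / mm ≤ |X| / (mu |X|)` and `xi ≤ 1`; the case `X = ∅` gives
`0 / 0 = 0`. -/
theorem Cst_bd {G : SimpleGraph V} {X : Finset (V × Bool)} {P : Pm} (hO : P.Ok) (hH : Hs G X P)
    (b : Bool) : 0 ≤ Cst G X P b ∧ Cst G X P b ≤ 2 / P.mu := by
  have hmu := hO.mu0
  have hsz0 : 0 ≤ sz X b := Nat.cast_nonneg _
  have hsz : sz X b ≤ (X.card : ℝ) := by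
    unfold sz
    exact_mod_cast card_filter_le _ _
  have h1 : 0 ≤ P.xi / P.mu := div_nonneg hO.xi0.le hmu.le
  have h2 : P.xi / P.mu ≤ 1 / P.mu := div_le_div_of_nonneg_right hO.xi1 hmu.le
  have h3 : sz X b / mm G X ≤ 1 / P.mu := by
    rw [hH.sum]
    rcases (Nat.cast_nonneg (α := ℝ) X.card).eq_or_lt with h | h
    · rw [← h, mul_zero, div_zero]
      exact (one_div_pos.2 hmu).le
    · rw [div_le_div_iff₀ (mul_pos hmu h) hmu, one_mul, mul_comm]
      exact mul_le_mul_of_nonneg_left hsz hmu.le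
  have h4 : 0 ≤ sz X b / mm G X := by
    rw [hH.sum]
    exact div_nonneg hsz0 (mul_nonneg hmu.le (Nat.cast_nonneg _))
  unfold Cst
  refine ⟨add_nonneg h4 h1, (add_le_add h3 h2).trans (le_of_eq ?_)⟩
  rw [← add_div]
  norm_num

end Pool.Agent.Lib.MP_56e41f_co.LD
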