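import Pool.Agent.Lib.MP_56e41f_co.LD.XDef

/-!
# A dense expanding vertex set
-/

open Finset

namespace Pool.Agent.Lib.MP_56e41f_co.LD

variable {Y : Type} [Fintype Y] [DecidableEq Y]

open Classical in
/-- adjacency indicator -/
private noncomputable def ai (H : SimpleGraph Y) (x y : Y) : ℝ := if H.Adj x y then 1 else 0

private theorem ai_comm (H : SimpleGraph Y) (x y : Y) : ai H x y = ai H y x := by
  unfold ai
  by_cases h : H.Adj x y
  · rw [if_pos h, if_pos h.symm]
  · rw [if_neg h, if_neg (fun h' => h h'.symm)]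

private theorem ai_self (H : SimpleGraph Y) (x : Y) : ai H x x = 0 := by
  unfold ai
  rw [if_neg (H.loopless.irrefl x)]

private theorem dgr_ai (H : SimpleGraph Y) (X : Finset Y) (x : Y) :
    dgr H X x = ∑ y ∈ X, ai H x y := by
  classical
  unfold dgr nbr ai
  rw [Finset.sum_ite, Finset.sum_const_zero, add_zero, Finset.sum_const, nsmul_eq_mul, mul_one]

private theorem E2_ai (H : SimpleGraph Y) (X : Finset Y) :
    E2 H X = ∑ x ∈ X, ∑ y ∈ X, ai H x y := by
  unfold E2
  exact Finset.sum_congr rfl (fun x _ => dgr_ai H X x)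

private theorem vol_ai (H : SimpleGraph Y) (X Z : Finset Y) :
    vol H X Z = ∑ x ∈ Z, ∑ y ∈ X, ai H x y := by
  unfold vol
  exact Finset.sum_congr rfl (fun x _ => dgr_ai H X x)

private theorem ct_ai (H : SimpleGraph Y) (X Z : Finset Y) :
    ct H X Z = ∑ x ∈ Z, ∑ y ∈ X \ Z, ai H x y := by
  unfold ct
  refine Finset.sum_congr rfl (fun x _ => ?_)
  have h : nbr H X x \ Z = nbr H (X \ Z) x := by
    ext y
    simp only [nbr, Finset.mem_sdiff, Finset.mem_filter]
    tauto
  rw [h]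
  exact dgr_ai H (X \ Z) x

private theorem sum_split (X Z : Finset Y) (hZ : Z ⊆ X) (f : Y → ℝ) :
    ∑ y ∈ X, f y = ∑ y ∈ Z, f y + ∑ y ∈ X \ Z, f y := by
  rw [add_comm]
  exact (Finset.sum_sdiff hZ).symm

private theorem swap_ai (H : SimpleGraph Y) (A B : Finset Y) :
    ∑ x ∈ A, ∑ y ∈ B, ai H x y = ∑ x ∈ B, ∑ y ∈ A, ai H x y := by
  rw [Finset.sum_comm]
  exact Finset.sum_congr rfl (fun x _ => Finset.sum_congr rfl (fun y _ => ai_comm H y x))

/-- `vol Z = E2 Z + ct Z` -/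
theorem vol_eq (H : SimpleGraph Y) (X Z : Finset Y) (hZ : Z ⊆ X) :
    vol H X Z = E2 H Z + ct H X Z := by
  rw [vol_ai, E2_ai, ct_ai, ← Finset.sum_add_distrib]
  exact Finset.sum_congr rfl (fun x _ => sum_split X Z hZ _)

/-- the cut is symmetric -/
theorem ct_compl (H : SimpleGraph Y) (X Z : Finset Y) (hZ : Z ⊆ X) :
    ct H X (X \ Z) = ct H X Z := by
  rw [ct_ai, ct_ai, Finset.sdiff_sdiff_eq_self hZ]
  exact swap_ai H (X \ Z) Z

/-- `E2 X = E2 Z + E2 (X \ Z) + 2 ct Z` -/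
theorem E2_split (H : SimpleGraph Y) (X Z : Finset Y) (hZ : Z ⊆ X) :
    E2 H X = E2 H Z + E2 H (X \ Z) + 2 * ct H X Z := by
  have h1 : E2 H X = vol H X Z + vol H X (X \ Z) := by
    rw [E2, vol, vol]
    exact sum_split X Z hZ _
  rw [h1, vol_eq H X Z hZ, vol_eq H X (X \ Z) Finset.sdiff_subset, ct_compl H X Z hZ]
  ring

/-- removing a vertex: `E2 (X.erase x) = E2 X - 2 dgr x` -/
theorem E2_erase (H : SimpleGraph Y) (X : Finset Y) (x : Y) (hx : x ∈ X) :
    E2 H (X.erase x) = E2 H X - 2 * dgr H X x := by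
  have hs : ({x} : Finset Y) ⊆ X := Finset.singleton_subset_iff.mpr hx
  have h1 := E2_split H X {x} hs
  have h2 : E2 H {x} = 0 := by
    rw [E2_ai, Finset.sum_singleton, Finset.sum_singleton, ai_self]
  have h3 : ct H X {x} = dgr H X x := by
    have h4 := vol_eq H X {x} hs
    rw [h2, zero_add] at h4
    rw [← h4, vol, Finset.sum_singleton]
  have h5 : X \ {x} = X.erase x := Finset.sdiff_singleton_eq_erase x X
  rw [h2, h3, h5] at h1
  linarith

end Pool.Agent.Lib.MP_56e41f_co.LD
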