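import Pool.Agent.Lib.MP_56e41f_co.LD.XDef
import Pool.Agent.Lib.MP_56e41f_co.LD.XMaA

/-!
# A dense expanding vertex set
-/

open Finset

namespace Pool.Agent.Lib.MP_56e41f_co.LD

variable {Y : Type} [Fintype Y] [DecidableEq Y]

omit [DecidableEq Y] [Fintype Y] in
private lemma xMaB_dgr_nonneg (H : SimpleGraph Y) (X : Finset Y) (x : Y) : 0 ≤ dgr H X x :=
  Nat.cast_nonneg _

omit [DecidableEq Y] [Fintype Y] in
private lemma xMaB_E2_nonneg (H : SimpleGraph Y) (X : Finset Y) : 0 ≤ E2 H X :=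
  Finset.sum_nonneg fun x _ => xMaB_dgr_nonneg H X x

/-- Take a nonempty `X` maximising `(E2 X / |X|) * w |X|`, where
`w m = 1 + c / 8 * (1 - log m / log |Y|)` (a decreasing function of `m` with
`1 ≤ w m ≤ 1 + c / 8` for `1 ≤ m ≤ |Y|`, `w |Y| = 1`).
(1) compare with `univ`; (2) compare with `X.erase x`; (3) compare with `Z`, `w |Z| ≥ w |X|`;
(4) with `Φ` the maximum, `E2 Z ≤ Φ z / w z`, `E2 (X \ Z) ≤ Φ (m - z) / w (m - z) ≤
Φ (m - z) / w m`, `E2 X = Φ m / w m`, so `2 ct ≥ ν z (w z - w m) / w z ≥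
ν z (c / 8) (log 2 / log |Y|) / (1 + c / 8) ≥ ν z c / (16 log |Y|)`. -/
theorem exists_max (H : SimpleGraph Y) (hN : 2 ≤ Fintype.card Y) {c : ℝ} (hc : 0 < c)
    (hc1 : c ≤ 1) :
    ∃ X : Finset Y, X.Nonempty ∧
      E2 H univ / (Fintype.card Y : ℝ) ≤ (1 + c / 8) * (E2 H X / (X.card : ℝ)) ∧
      (∀ x ∈ X, E2 H X / (X.card : ℝ) / 2 ≤ dgr H X x) ∧
      (∀ Z ⊆ X, E2 H Z ≤ E2 H X / (X.card : ℝ) * (Z.card : ℝ)) ∧
      (∀ Z ⊆ X, 2 * (Z.card : ℝ) ≤ (X.card : ℝ) →
        c / (16 * Real.log (Fintype.card Y)) * (E2 H X / (X.card : ℝ) / 2) * (Z.card : ℝ)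
          ≤ ct H X Z) := by
  have hNr : (2 : ℝ) ≤ (Fintype.card Y : ℝ) := by exact_mod_cast hN
  have hL : 0 < Real.log (Fintype.card Y) := Real.log_pos (by linarith)
  obtain ⟨L, hLe⟩ : ∃ L : ℝ, L = Real.log (Fintype.card Y) := ⟨_, rfl⟩
  rw [← hLe] at hL
  rw [← hLe]
  obtain ⟨w, hw⟩ : ∃ w : ℕ → ℝ, ∀ m, w m = 1 + c / 8 * (1 - Real.log m / L) :=
    ⟨_, fun _ => rfl⟩
  have w_anti : ∀ z m : ℕ, 1 ≤ z → z ≤ m → w m ≤ w z := by
    intro z m hz hzm
    have hzr : (0 : ℝ) < (z : ℝ) := by exact_mod_cast hz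
    have hzmr : (z : ℝ) ≤ (m : ℝ) := by exact_mod_cast hzm
    have h1 : Real.log z ≤ Real.log m := Real.log_le_log hzr hzmr
    have h2 : Real.log z / L ≤ Real.log m / L := div_le_div_of_nonneg_right h1 hL.le
    rw [hw, hw]
    have h3 : 0 ≤ c / 8 * (Real.log m / L - Real.log z / L) :=
      mul_nonneg (by linarith) (sub_nonneg.2 h2)
    nlinarith [h3]
  have wN : w (Fintype.card Y) = 1 := by
    rw [hw, ← hLe, div_self hL.ne', sub_self, mul_zero, add_zero]
  have w1 : w 1 = 1 + c / 8 := by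
    rw [hw, Nat.cast_one, Real.log_one, zero_div, sub_zero, mul_one]
  have w_ge : ∀ m : ℕ, 1 ≤ m → m ≤ Fintype.card Y → 1 ≤ w m := by
    intro m hm hmN
    rw [← wN]
    exact w_anti m _ hm hmN
  have w_le : ∀ m : ℕ, 1 ≤ m → w m ≤ 1 + c / 8 := by
    intro m hm
    rw [← w1]
    exact w_anti 1 m le_rfl hm
  have hYne : (univ : Finset Y).Nonempty := by
    rw [← Finset.card_pos, Finset.card_univ]
    omega
  obtain ⟨X, hXm, hmax⟩ := Finset.exists_max_image
    ((univ : Finset (Finset Y)).filter fun X => X.Nonempty)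
    (fun X => E2 H X / (X.card : ℝ) * w X.card)
    ⟨univ, Finset.mem_filter.2 ⟨Finset.mem_univ _, hYne⟩⟩
  have hX : X.Nonempty := (Finset.mem_filter.1 hXm).2
  have hmax' : ∀ Z : Finset Y, Z.Nonempty →
      E2 H Z / (Z.card : ℝ) * w Z.card ≤ E2 H X / (X.card : ℝ) * w X.card := fun Z hZ =>
    hmax Z (Finset.mem_filter.2 ⟨Finset.mem_univ _, hZ⟩)
  have hm1 : 1 ≤ X.card := Finset.card_pos.2 hX
  have hmN : X.card ≤ Fintype.card Y := Finset.card_le_univ X
  have hmr : (0 : ℝ) < (X.card : ℝ) := by exact_mod_cast hm1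
  obtain ⟨d, hd⟩ : ∃ d : ℝ, d = E2 H X / (X.card : ℝ) := ⟨_, rfl⟩
  rw [← hd] at hmax'
  have hd0 : 0 ≤ d := by
    rw [hd]
    exact div_nonneg (xMaB_E2_nonneg H X) hmr.le
  have hEX : E2 H X = d * (X.card : ℝ) := by
    rw [hd, div_mul_cancel₀ _ hmr.ne']
  have hwX1 := w_ge _ hm1 hmN
  have hwX2 := w_le _ hm1
  -- subsets
  have hsub : ∀ Z ⊆ X, Z.Nonempty → E2 H Z * w Z.card ≤ d * (Z.card : ℝ) * w X.card := by
    intro Z _ hZn
    have hz : (0 : ℝ) < (Z.card : ℝ) := by exact_mod_cast Finset.card_pos.2 hZn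
    have h1 := hmax' Z hZn
    have h2 := mul_le_mul_of_nonneg_right h1 hz.le
    rw [mul_right_comm, div_mul_cancel₀ _ hz.ne'] at h2
    linarith
  have h3 : ∀ Z ⊆ X, E2 H Z ≤ d * (Z.card : ℝ) := by
    intro Z hZ
    rcases Z.eq_empty_or_nonempty with rfl | hZn
    · have e0 : E2 H (∅ : Finset Y) = 0 := Finset.sum_empty
      rw [e0, Finset.card_empty, Nat.cast_zero, mul_zero]
    · have h1 := hsub Z hZ hZn
      have hz1 : 1 ≤ Z.card := Finset.card_pos.2 hZn
      have hzm : Z.card ≤ X.card := Finset.card_le_card hZ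
      have h2 := w_anti _ _ hz1 hzm
      have h4 := w_ge _ hz1 (hzm.trans hmN)
      have h5 : d * (Z.card : ℝ) * w X.card ≤ d * (Z.card : ℝ) * w Z.card :=
        mul_le_mul_of_nonneg_left h2 (mul_nonneg hd0 (Nat.cast_nonneg _))
      exact le_of_mul_le_mul_right (h1.trans h5) (by linarith)
  refine ⟨X, hX, ?_⟩
  rw [← hd]
  refine ⟨?_, ?_, h3, ?_⟩
  · have h1 := hmax' univ hYne
    rw [Finset.card_univ, wN, mul_one] at h1
    refine h1.trans ?_
    rw [mul_comm]
    exact mul_le_mul_of_nonneg_right hwX2 hd0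
  · intro x hx
    have h1 := h3 (X.erase x) (Finset.erase_subset x X)
    rw [E2_erase H X x hx, Finset.card_erase_of_mem hx, Nat.cast_sub hm1, Nat.cast_one, hEX] at h1
    nlinarith [h1]
  · intro Z hZ hZ2
    rcases Z.eq_empty_or_nonempty with rfl | hZn
    · simp [ct]
    · have hz1 : 1 ≤ Z.card := Finset.card_pos.2 hZn
      have hz : (1 : ℝ) ≤ (Z.card : ℝ) := by exact_mod_cast hz1
      have hzm : Z.card ≤ X.card := Finset.card_le_card hZ
      have h1 := hsub Z hZ hZn
      have h2 := h3 (X \ Z) Finset.sdiff_subset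
      have h4 := E2_split H X Z hZ
      rw [Finset.card_sdiff_of_subset hZ, Nat.cast_sub hzm] at h2
      have hw1 := w_ge _ hz1 (hzm.trans hmN)
      have hw2 := w_le _ hz1
      -- the gap of the weights
      have hgap : c / 8 * (Real.log 2 / L) ≤ w Z.card - w X.card := by
        have e1 : Real.log 2 + Real.log Z.card ≤ Real.log X.card := by
          rw [← Real.log_mul two_ne_zero (by linarith)]
          exact Real.log_le_log (by linarith) hZ2
        have e2 : Real.log 2 / L ≤ Real.log X.card / L - Real.log Z.card / L := by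
          rw [← sub_div]
          exact div_le_div_of_nonneg_right (by linarith) hL.le
        have e3 : c / 8 * (Real.log 2 / L) ≤
            c / 8 * (Real.log X.card / L - Real.log Z.card / L) :=
          mul_le_mul_of_nonneg_left e2 (by linarith)
        rw [hw, hw]
        linarith
      have hlog : (9 : ℝ) / 16 ≤ Real.log 2 := by
        have := Real.log_two_gt_d9
        linarith
      have hgap2 : c / (16 * L) * w Z.card ≤ w Z.card - w X.card := by
        refine le_trans ?_ hgap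
        have e1 : c / (16 * L) * w Z.card ≤ c / (16 * L) * (9 / 8) :=
          mul_le_mul_of_nonneg_left (by linarith) (by positivity)
        have e2 : c / (16 * L) * (9 / 8) = c / 8 * (9 / 16 / L) := by
          field_simp
        have e3 : c / 8 * (9 / 16 / L) ≤ c / 8 * (Real.log 2 / L) :=
          mul_le_mul_of_nonneg_left (div_le_div_of_nonneg_right hlog hL.le) (by linarith)
        linarith
      -- the cut
      have hdz : 0 ≤ d * (Z.card : ℝ) := mul_nonneg hd0 (by linarith)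
      have h5 : d * (Z.card : ℝ) * (c / (16 * L) * w Z.card) ≤
          d * (Z.card : ℝ) * (w Z.card - w X.card) := mul_le_mul_of_nonneg_left hgap2 hdz
      have h6 : 2 * ct H X Z ≥ d * (Z.card : ℝ) - E2 H Z := by
        rw [hEX] at h4
        linarith
      have h7 : d * (Z.card : ℝ) * (c / (16 * L)) * w Z.card ≤
          (d * (Z.card : ℝ) - E2 H Z) * w Z.card := by
        have e1 : (d * (Z.card : ℝ) - E2 H Z) * w Z.card =
            d * (Z.card : ℝ) * w Z.card - E2 H Z * w Z.card := by ring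
        rw [e1]
        linarith
      have h8 := le_of_mul_le_mul_right h7 (by linarith)
      have e : c / (16 * L) * (d / 2) * (Z.card : ℝ) =
          d * (Z.card : ℝ) * (c / (16 * L)) / 2 := by ring
      rw [e]
      linarith

end Pool.Agent.Lib.MP_56e41f_co.LD
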