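import Pool.Agent.Lib.MP_56e41f_co.LD.XDef
import Pool.Agent.Lib.MP_56e41f_co.LD.XMaA

/-!
# A dense expanding vertex set
-/

open Finset

namespace Pool.Agent.Lib.MP_56e41f_co.LD

variable {Y : Type} [Fintype Y] [DecidableEq Y]

private theorem xMaC_ct_nonneg (H : SimpleGraph Y) (X Z : Finset Y) : 0 ≤ ct H X Z := by
  rw [ct]
  exact sum_nonneg fun x _ => Nat.cast_nonneg _

/-- the small sets -/
private theorem xMaC_small (H : SimpleGraph Y) (X : Finset Y) {ν η : ℝ} (hν : 0 ≤ ν) (hη : 0 < η)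
    (hη1 : η ≤ 1) (h1 : ∀ Z ⊆ X, E2 H Z ≤ ν * (Z.card : ℝ))
    (h2 : ∀ Z ⊆ X, 2 * (Z.card : ℝ) ≤ (X.card : ℝ) → η * (ν / 2) * (Z.card : ℝ) ≤ ct H X Z)
    (Z : Finset Y) (hZ : Z ⊆ X) (hc : 2 * (Z.card : ℝ) ≤ (X.card : ℝ)) :
    η / 3 * vol H X Z ≤ ct H X Z := by
  have h3 := h1 Z hZ
  have h4 := h2 Z hZ hc
  have h5 := xMaC_ct_nonneg H X Z
  have h6 : η * E2 H Z ≤ η * (ν * (Z.card : ℝ)) := mul_le_mul_of_nonneg_left h3 hη.le
  have h7 : η * ct H X Z ≤ 1 * ct H X Z := mul_le_mul_of_nonneg_right hη1 h5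
  rw [vol_eq H X Z hZ]
  linarith

/-- volume conductance: for `2 |Z| ≤ |X|`, `vol Z = E2 Z + ct Z ≤ ν |Z| + ct Z ≤
(2 / η + 1) ct Z ≤ (3 / η) ct Z`; for the other sets pass to the complement -/
theorem conduct (H : SimpleGraph Y) (X : Finset Y) {ν η : ℝ} (hν : 0 ≤ ν) (hη : 0 < η)
    (hη1 : η ≤ 1) (h1 : ∀ Z ⊆ X, E2 H Z ≤ ν * (Z.card : ℝ))
    (h2 : ∀ Z ⊆ X, 2 * (Z.card : ℝ) ≤ (X.card : ℝ) → η * (ν / 2) * (Z.card : ℝ) ≤ ct H X Z) :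
    ∀ Z ⊆ X, η / 3 * min (vol H X Z) (vol H X (X \ Z)) ≤ ct H X Z := by
  intro Z hZ
  have h0 : 0 ≤ η / 3 := by positivity
  rcases le_total (2 * (Z.card : ℝ)) (X.card : ℝ) with hc | hc
  · exact (mul_le_mul_of_nonneg_left (min_le_left _ _) h0).trans
      (xMaC_small H X hν hη hη1 h1 h2 Z hZ hc)
  · have h3 : (((X \ Z).card : ℕ) : ℝ) + (Z.card : ℝ) = (X.card : ℝ) := by
      exact_mod_cast Finset.card_sdiff_add_card_eq_card hZ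
    have h4 := xMaC_small H X hν hη hη1 h1 h2 (X \ Z) sdiff_subset (by linarith)
    rw [ct_compl H X Z hZ] at h4
    exact (mul_le_mul_of_nonneg_left (min_le_right _ _) h0).trans h4

end Pool.Agent.Lib.MP_56e41f_co.LD
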