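import Pool.Agent.Lib.MP_56e41f_co.LD.XChe

/-!
# Mixing of the random walk in a bipartite graph
-/

open Finset

namespace Pool.Agent.Lib.MP_56e41f_co.LD

variable {Y : Type} [Fintype Y] [DecidableEq Y]

private theorem xmi_mem (H : SimpleGraph Y) (X : Finset Y) (x y : Y) :
    y ∈ nbr H X x ↔ y ∈ X ∧ H.Adj x y := by
  simp only [nbr, mem_filter]

/-- swap of a double sum over the edges between the two sides -/
private theorem xmi_swap (H : SimpleGraph Y) (X : Finset Y) (col : Y → Bool)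
    (hcol : ∀ x y, H.Adj x y → col y = !(col x)) (b : Bool) (h : Y → Y → ℝ) :
    ∑ x ∈ X.filter (fun x => col x = !b), ∑ y ∈ nbr H X x, h x y =
      ∑ y ∈ X.filter (fun x => col x = b), ∑ x ∈ nbr H X y, h x y := by
  refine sum_comm' ?_
  intro x y
  rw [mem_filter, mem_filter, xmi_mem, xmi_mem]
  constructor
  · rintro ⟨⟨h1, h2⟩, h3, h4⟩
    refine ⟨⟨h1, h4.symm⟩, h3, ?_⟩
    rw [hcol x y h4, h2, Bool.not_not]
  · rintro ⟨⟨h1, h2⟩, h3, h4⟩
    refine ⟨⟨h1, ?_⟩, h3, h2.symm⟩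
    rw [hcol y x h2, h4]

private theorem xmi_swap_all (H : SimpleGraph Y) (X : Finset Y) (h : Y → Y → ℝ) :
    ∑ x ∈ X, ∑ y ∈ nbr H X x, h x y = ∑ y ∈ X, ∑ x ∈ nbr H X y, h x y := by
  refine sum_comm' ?_
  intro x y
  rw [xmi_mem, xmi_mem]
  constructor
  · rintro ⟨h1, h3, h4⟩
    exact ⟨⟨h1, h4.symm⟩, h3⟩
  · rintro ⟨⟨h1, h2⟩, h3⟩
    exact ⟨h1, h3, h2.symm⟩

private theorem xmi_split (X : Finset Y) (col : Y → Bool) (b : Bool) (g : Y → ℝ) :
    ∑ x ∈ X, g x = ∑ x ∈ X.filter (fun x => col x = b), g x +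
      ∑ x ∈ X.filter (fun x => col x = !b), g x := by
  rw [← sum_filter_add_sum_filter_not X (fun x => col x = b)]
  have e : X.filter (fun x => ¬ col x = b) = X.filter (fun x => col x = !b) := by
    refine filter_congr fun x _ => ?_
    cases col x <;> cases b <;> simp
  rw [e]

private theorem xmi_pq (H : SimpleGraph Y) (X : Finset Y)
    (hpos : ∀ x ∈ X, 0 < dgr H X x) (f : Y → ℝ) (x : Y) (hx : x ∈ X) :
    dgr H X x * Pq H X f x = ∑ y ∈ nbr H X x, f y := by
  unfold Pq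
  rw [mul_div_cancel₀]
  exact (hpos x hx).ne'

/-- the side mean is preserved: double counting -/
theorem side_sum (H : SimpleGraph Y) (X : Finset Y) (col : Y → Bool)
    (hcol : ∀ x y, H.Adj x y → col y = !(col x)) (hpos : ∀ x ∈ X, 0 < dgr H X x) (b : Bool)
    (f : Y → ℝ) :
    ∑ x ∈ X.filter (fun x => col x = !b), dgr H X x * Pq H X f x =
      ∑ x ∈ X.filter (fun x => col x = b), dgr H X x * f x := by
  have h1 : ∑ x ∈ X.filter (fun x => col x = !b), dgr H X x * Pq H X f x =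
      ∑ x ∈ X.filter (fun x => col x = !b), ∑ y ∈ nbr H X x, f y := by
    refine sum_congr rfl fun x hx => ?_
    exact xmi_pq H X hpos f x (mem_filter.1 hx).1
  rw [h1, xmi_swap H X col hcol b (fun _ y => f y)]
  refine sum_congr rfl fun y _ => ?_
  rw [sum_const, nsmul_eq_mul]
  rfl

/-- Contraction. Let `v = Pq f` on the side `!b`, `A = sqrt (nm b f)`, `B = sqrt (nm (!b) v)`,
`B > 0`. Apply `cheeger` to `F = f` on side `b`, `F = (A / B) v` on side `!b`: the sum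
`∑ dgr F` is `0`, `∑ dgr F ^ 2 = 2 A ^ 2`, `∑ x, ∑ y ∈ nbr x, F x * F y = 2 (A / B) B ^ 2 = 2 A B`,
`∑∑ (F x - F y) ^ 2 = 4 A ^ 2 - 4 A B`. Hence `B ≤ (1 - φ ^ 2 / 2) A`. -/
theorem contract (H : SimpleGraph Y) (X : Finset Y) (col : Y → Bool)
    (hcol : ∀ x y, H.Adj x y → col y = !(col x)) (hpos : ∀ x ∈ X, 0 < dgr H X x)
    {φ : ℝ} (hφ : 0 ≤ φ) (hφ1 : φ ≤ 1)
    (hc : ∀ Z ⊆ X, φ * min (vol H X Z) (vol H X (X \ Z)) ≤ ct H X Z) (b : Bool) (f : Y → ℝ)
    (hf : ∑ x ∈ X.filter (fun x => col x = b), dgr H X x * f x = 0) :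
    nm H X col (!b) (Pq H X f) ≤ ((1 - φ ^ 2 / 2) ^ 2) * nm H X col b f := by
  have hcb : (1 : ℝ) / 2 ≤ 1 - φ ^ 2 / 2 := by nlinarith
  set c : ℝ := 1 - φ ^ 2 / 2 with hcdef
  have hc0 : 0 < c := by linarith
  set v : Y → ℝ := Pq H X f with hv
  set F : Y → ℝ := fun x => if col x = b then f x else 1 / c * v x with hF
  have hFb : ∀ x, col x = b → F x = f x := fun x hx => by rw [hF]; simp only [hx, if_true]
  have hFn : ∀ x, col x = !b → F x = 1 / c * v x := fun x hx => by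
    have h : ¬ col x = b := by rw [hx]; cases b <;> simp
    rw [hF]; simp only [if_neg h]
  have s0 : ∑ x ∈ X, dgr H X x * F x = 0 := by
    rw [xmi_split X col b]
    have e1 : ∑ x ∈ X.filter (fun x => col x = b), dgr H X x * F x = 0 := by
      rw [← hf]
      refine sum_congr rfl fun x hx => ?_
      rw [hFb x (mem_filter.1 hx).2]
    have e2 : ∑ x ∈ X.filter (fun x => col x = !b), dgr H X x * F x = 0 := by
      have e3 : ∑ x ∈ X.filter (fun x => col x = !b), dgr H X x * F x =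
          1 / c * ∑ x ∈ X.filter (fun x => col x = !b), dgr H X x * v x := by
        rw [mul_sum]
        refine sum_congr rfl fun x hx => ?_
        rw [hFn x (mem_filter.1 hx).2]; ring
      rw [e3, hv, side_sum H X col hcol hpos b f, hf, mul_zero]
    rw [e1, e2, add_zero]
  have s2 : ∑ x ∈ X, dgr H X x * F x ^ 2 =
      nm H X col b f + 1 / c ^ 2 * nm H X col (!b) v := by
    rw [xmi_split X col b]
    unfold nm
    congr 1
    · refine sum_congr rfl fun x hx => ?_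
      rw [hFb x (mem_filter.1 hx).2]
    · rw [mul_sum]
      refine sum_congr rfl fun x hx => ?_
      rw [hFn x (mem_filter.1 hx).2]; ring
  have sx : ∑ x ∈ X.filter (fun x => col x = !b), ∑ y ∈ nbr H X x, F x * F y =
      1 / c * nm H X col (!b) v := by
    unfold nm
    rw [mul_sum]
    refine sum_congr rfl fun x hx => ?_
    have hxX := (mem_filter.1 hx).1
    have hxc := (mem_filter.1 hx).2
    rw [← mul_sum, hFn x hxc]
    have e : ∑ y ∈ nbr H X x, F y = ∑ y ∈ nbr H X x, f y := by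
      refine sum_congr rfl fun y hy => ?_
      refine hFb y ?_
      rw [hcol x y ((xmi_mem H X x y).1 hy).2, hxc, Bool.not_not]
    rw [e, ← xmi_pq H X hpos f x hxX]
    ring
  have sx2 : ∑ x ∈ X, ∑ y ∈ nbr H X x, F x * F y = 2 * (1 / c * nm H X col (!b) v) := by
    rw [xmi_split X col b, sx]
    have e : ∑ x ∈ X.filter (fun x => col x = b), ∑ y ∈ nbr H X x, F x * F y =
        ∑ x ∈ X.filter (fun x => col x = !b), ∑ y ∈ nbr H X x, F x * F y := by
      rw [xmi_swap H X col hcol b (fun x y => F x * F y)]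
      refine sum_congr rfl fun y _ => sum_congr rfl fun x _ => mul_comm _ _
    rw [e, sx]; ring
  have sq : ∑ x ∈ X, ∑ y ∈ nbr H X x, (F x - F y) ^ 2 =
      2 * ∑ x ∈ X, dgr H X x * F x ^ 2 - 2 * (2 * (1 / c * nm H X col (!b) v)) := by
    have e1 : ∑ x ∈ X, ∑ y ∈ nbr H X x, F x ^ 2 = ∑ x ∈ X, dgr H X x * F x ^ 2 := by
      refine sum_congr rfl fun x _ => ?_
      rw [sum_const, nsmul_eq_mul]
      rfl
    have e2 : ∑ x ∈ X, ∑ y ∈ nbr H X x, F y ^ 2 = ∑ x ∈ X, dgr H X x * F x ^ 2 := by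
      rw [xmi_swap_all H X (fun _ y => F y ^ 2), e1]
    have e3 : ∑ x ∈ X, ∑ y ∈ nbr H X x, (F x - F y) ^ 2 =
        ∑ x ∈ X, ∑ y ∈ nbr H X x, F x ^ 2 + ∑ x ∈ X, ∑ y ∈ nbr H X x, F y ^ 2
          - 2 * ∑ x ∈ X, ∑ y ∈ nbr H X x, F x * F y := by
      rw [mul_sum, ← sum_add_distrib, ← sum_sub_distrib]
      refine sum_congr rfl fun x _ => ?_
      rw [mul_sum, ← sum_add_distrib, ← sum_sub_distrib]
      refine sum_congr rfl fun y _ => ?_
      ring
    rw [e3, e1, e2, sx2]; ring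
  have key := cheeger H X hφ hc F s0
  rw [sq, s2] at key
  set A := nm H X col b f
  set B := nm H X col (!b) v
  have hφ2 : φ ^ 2 = 2 - 2 * c := by rw [hcdef]; ring
  rw [hφ2] at key
  -- (2 - 2c)(A + B / c^2) ≤ 2 (A + B / c^2) - 4 B / c
  have k2 : 4 * (1 / c * B) ≤ 2 * c * (A + 1 / c ^ 2 * B) := by linarith
  have k3 : 2 * c * (A + 1 / c ^ 2 * B) = 2 * c * A + 2 * (1 / c * B) := by
    field_simp
  rw [k3] at k2
  have k4 : 1 / c * B ≤ c * A := by linarith
  have k5 : c * (1 / c * B) ≤ c * (c * A) := mul_le_mul_of_nonneg_left k4 hc0.le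
  have k6 : c * (1 / c * B) = B := by field_simp
  rw [k6] at k5
  calc B ≤ c * (c * A) := k5
    _ = c ^ 2 * A := by ring

end Pool.Agent.Lib.MP_56e41f_co.LD
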