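import Pool.Agent.Lib.MP_56e41f_co.LD.XChe
import Pool.Agent.Lib.MP_56e41f_co.LD.XMiA

/-!
# Mixing of the random walk in a bipartite graph
-/

open Finset

namespace Pool.Agent.Lib.MP_56e41f_co.LD

variable {Y : Type} [Fintype Y] [DecidableEq Y]

/-- iterate `contract` with `side_sum` -/
theorem contract_iter (H : SimpleGraph Y) (X : Finset Y) (col : Y → Bool)
    (hcol : ∀ x y, H.Adj x y → col y = !(col x)) (hpos : ∀ x ∈ X, 0 < dgr H X x)
    {φ : ℝ} (hφ : 0 ≤ φ) (hφ1 : φ ≤ 1)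
    (hc : ∀ Z ⊆ X, φ * min (vol H X Z) (vol H X (X \ Z)) ≤ ct H X Z) (b : Bool) (f : Y → ℝ)
    (hf : ∑ x ∈ X.filter (fun x => col x = b), dgr H X x * f x = 0) (k : ℕ) :
    nm H X col (not^[k] b) ((Pq H X)^[k] f) ≤
      ((1 - φ ^ 2 / 2) ^ 2) ^ k * nm H X col b f := by
  induction k generalizing b f with
  | zero => simp
  | succ k ih =>
    rw [Function.iterate_succ_apply, Function.iterate_succ_apply]
    have h1 := ih (!b) (Pq H X f) (by rw [side_sum H X col hcol hpos b f, hf])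
    have h2 := contract H X col hcol hpos hφ hφ1 hc b f hf
    refine h1.trans ?_
    have h3 := mul_le_mul_of_nonneg_left h2 (pow_nonneg (sq_nonneg (1 - φ ^ 2 / 2)) k)
    refine h3.trans (le_of_eq ?_)
    rw [pow_succ]; ring

end Pool.Agent.Lib.MP_56e41f_co.LD
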