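import Pool.Agent.Lib.MP_56e41f_co.LD.XChe
import Pool.Agent.Lib.MP_56e41f_co.LD.XMiB

/-!
# Mixing of the random walk in a bipartite graph
-/

open Finset

namespace Pool.Agent.Lib.MP_56e41f_co.LD

variable {Y : Type} [Fintype Y] [DecidableEq Y]

private theorem xmi_const (H : SimpleGraph Y) (X : Finset Y)
    (hpos : ∀ x ∈ X, 0 < dgr H X x) (f : Y → ℝ) (C : ℝ) (k : ℕ) :
    ∀ x ∈ X, (Pq H X)^[k] f x = C + (Pq H X)^[k] (fun z => f z - C) x := by
  induction k with
  | zero => intro x _; simp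
  | succ k ih =>
    intro x hx
    rw [Function.iterate_succ_apply', Function.iterate_succ_apply']
    have hd : dgr H X x ≠ 0 := (hpos x hx).ne'
    unfold Pq at ih ⊢
    have e : ∑ y ∈ nbr H X x, ((fun f x => (∑ y ∈ nbr H X x, f y) / dgr H X x)^[k] f y) =
        ∑ y ∈ nbr H X x,
          (C + ((fun f x => (∑ y ∈ nbr H X x, f y) / dgr H X x)^[k] (fun z => f z - C) y)) := by
      refine sum_congr rfl fun y hy => ih y ?_
      simp only [nbr, mem_filter] at hy
      exact hy.1
    rw [e, sum_add_distrib, sum_const, nsmul_eq_mul, add_div]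
    congr 1
    change dgr H X x * C / dgr H X x = C
    rw [mul_div_assoc, mul_div_cancel₀ _ hd]

private theorem xmi_not (k : ℕ) (b : Bool) : not^[k] (not^[k] b) = b := by
  induction k generalizing b with
  | zero => rfl
  | succ k ih =>
    rw [Function.iterate_succ_apply, Function.iterate_succ_apply']
    rw [Bool.not_not, ih]

/-- Pointwise mixing. On the side `b = not^[k] (col x)` let `C = (∑ dgr f) / (∑ dgr)` be the mean
of `f` and `u = f - C`; `Pq^k f x = C + Pq^k u x` (only the values on the side `b` matter) and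
`dgr x * (Pq^k u x) ^ 2 ≤ nm (Pq^k u) ≤ (1 - φ^2/2)^(2k) nm b u ≤ (1 - φ^2/2)^(2k) nm b f`. -/
theorem mixing (H : SimpleGraph Y) (X : Finset Y) (col : Y → Bool)
    (hcol : ∀ x y, H.Adj x y → col y = !(col x)) (hpos : ∀ x ∈ X, 0 < dgr H X x)
    {φ : ℝ} (hφ : 0 ≤ φ) (hφ1 : φ ≤ 1)
    (hc : ∀ Z ⊆ X, φ * min (vol H X Z) (vol H X (X \ Z)) ≤ ct H X Z) (f : Y → ℝ) (k : ℕ)
    (x : Y) (hx : x ∈ X) :
    (Pq H X)^[k] f x ≤
      (∑ z ∈ X.filter (fun z => col z = not^[k] (col x)), dgr H X z * f z) /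
        (∑ z ∈ X.filter (fun z => col z = not^[k] (col x)), dgr H X z)
      + (1 - φ ^ 2 / 2) ^ k *
        √(nm H X col (not^[k] (col x)) f / dgr H X x) := by
  set b := not^[k] (col x) with hb
  set S := ∑ z ∈ X.filter (fun z => col z = b), dgr H X z * f z with hS
  set T := ∑ z ∈ X.filter (fun z => col z = b), dgr H X z with hT
  have hd : 0 < dgr H X x := hpos x hx
  have hT0 : 0 ≤ T := sum_nonneg fun z _ => Nat.cast_nonneg _
  -- `(S / T) * T = S`
  have hST : S / T * T = S := by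
    rcases hT0.eq_or_lt with h | h
    · have hz : ∀ z ∈ X.filter (fun z => col z = b), dgr H X z = 0 :=
        (sum_eq_zero_iff_of_nonneg (fun z _ => Nat.cast_nonneg _)).1 (hT ▸ h.symm)
      have : S = 0 := by
        rw [hS]
        refine sum_eq_zero fun z hz' => ?_
        rw [hz z hz', zero_mul]
      rw [this, ← h]; ring
    · rw [div_mul_cancel₀ _ h.ne']
  set u : Y → ℝ := fun z => f z - S / T with hu
  have hu0 : ∑ z ∈ X.filter (fun z => col z = b), dgr H X z * u z = 0 := by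
    have e : ∑ z ∈ X.filter (fun z => col z = b), dgr H X z * u z = S - S / T * T := by
      rw [hS, hT, mul_sum, ← sum_sub_distrib]
      refine sum_congr rfl fun z _ => ?_
      rw [hu]; ring
    rw [e, hST, sub_self]
  have hun : nm H X col b u ≤ nm H X col b f := by
    have e : nm H X col b u = nm H X col b f - 2 * (S / T) * S + (S / T) ^ 2 * T := by
      unfold nm
      rw [hS, hT, mul_sum, mul_sum, ← sum_sub_distrib, ← sum_add_distrib]
      refine sum_congr rfl fun z _ => ?_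
      rw [hu]; ring
    have e2 : (S / T) ^ 2 * T = (S / T) * S := by
      rw [pow_two, mul_assoc, hST]
    have e3 : 0 ≤ (S / T) * S := by
      rw [← e2]; exact mul_nonneg (sq_nonneg _) hT0
    rw [e, e2]; linarith
  have hit := contract_iter H X col hcol hpos hφ hφ1 hc b u hu0 k
  have hcx : not^[k] b = col x := by rw [hb, xmi_not]
  rw [hcx] at hit
  have hc0 : (0 : ℝ) ≤ 1 - φ ^ 2 / 2 := by nlinarith
  have hone : dgr H X x * ((Pq H X)^[k] u x) ^ 2 ≤ nm H X col (col x) ((Pq H X)^[k] u) := by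
    unfold nm
    exact single_le_sum (f := fun z => dgr H X z * ((Pq H X)^[k] u z) ^ 2)
      (fun z _ => mul_nonneg (Nat.cast_nonneg _) (sq_nonneg _)) (mem_filter.2 ⟨hx, rfl⟩)
  have hsq : ((Pq H X)^[k] u x) ^ 2 ≤
      ((1 - φ ^ 2 / 2) ^ k * √(nm H X col b f / dgr H X x)) ^ 2 := by
    have hnn : 0 ≤ nm H X col b f :=
      sum_nonneg fun z _ => mul_nonneg (Nat.cast_nonneg _) (sq_nonneg _)
    rw [mul_pow, Real.sq_sqrt (div_nonneg hnn hd.le), ← pow_mul, mul_comm k 2, pow_mul,
      ← mul_div_assoc, le_div_iff₀ hd, mul_comm _ (dgr H X x)]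
    refine hone.trans (hit.trans ?_)
    exact mul_le_mul_of_nonneg_left hun (pow_nonneg (sq_nonneg _) k)
  have hle : (Pq H X)^[k] u x ≤ (1 - φ ^ 2 / 2) ^ k * √(nm H X col b f / dgr H X x) :=
    (abs_le_of_sq_le_sq' hsq (mul_nonneg (pow_nonneg hc0 k) (Real.sqrt_nonneg _))).2
  have e := xmi_const H X hpos f (S / T) k x hx
  rw [e]
  linarith

end Pool.Agent.Lib.MP_56e41f_co.LD
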