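import Pool.Agent.Lib.MP_56e41f_co.LD.PotSt

/-!
# Typical free sets
-/

open Finset

namespace Pool.Agent.Lib.MP_56e41f_co.LD

variable {V : Type} [Fintype V] [DecidableEq V] {t Δ : ℕ}

/-- `Y` for `k = 0` -/
theorem typ_card {G : SimpleGraph V} {X : Finset (V × Bool)} {P : Pm} (hO : P.Ok)
    (hH : Hs G X P) {F : Finset V} {α : ℝ} (hT : Typ G X P F α) {x : V × Bool} (hx : x ∈ X) :
    α * (1 - P.x) * dg G X x ≤ ((nb G X x ∩ F).card : ℝ) := by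
  have hα : 0 < α := lt_of_lt_of_le hO.k0 hT.al
  have h := hT.Y x hx 0 (Nat.zero_le _)
  rw [Ys_zero, Ys_zero_univ] at h
  have h1 := (abs_le.1 h).1
  have h2 : (1 - P.x) * dg G X x ≤ ((nb G X x ∩ F).card : ℝ) / α := by linarith
  rw [le_div_iff₀ hα] at h2
  linarith

private theorem typB_lo {G : SimpleGraph V} {X : Finset (V × Bool)} {P : Pm} (hO : P.Ok)
    (hH : Hs G X P) {F : Finset V} {α : ℝ} (hT : Typ G X P F α) {x : V × Bool} (hx : x ∈ X) :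
    2 / 3 * (P.κ * P.mu) ≤ α * (1 - P.x) * dg G X x := by
  have hα : 0 < α := lt_of_lt_of_le hO.k0 hT.al
  have h1 : P.mu ≤ dg G X x := hH.deg x hx
  have h2 : 2 / 3 ≤ 1 - P.x := by linarith [hO.x1]
  have h3 : P.κ * P.mu ≤ α * dg G X x := mul_le_mul hT.al h1 hO.mu0.le hα.le
  have h4 : 0 ≤ P.κ * P.mu := (mul_pos hO.k0 hO.mu0).le
  calc 2 / 3 * (P.κ * P.mu) ≤ (1 - P.x) * (α * dg G X x) :=
        mul_le_mul h2 h3 h4 (by linarith)
    _ = α * (1 - P.x) * dg G X x := by ring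

theorem typ_nonempty {G : SimpleGraph V} {X : Finset (V × Bool)} {P : Pm} (hO : P.Ok)
    (hH : Hs G X P) {F : Finset V} {α : ℝ} (hT : Typ G X P F α) {x : V × Bool} (hx : x ∈ X) :
    (nb G X x ∩ F).Nonempty := by
  have h1 := typB_lo hO hH hT hx
  have h2 := typ_card hO hH hT hx
  rw [← Finset.card_pos]
  have h3 := hO.kmu
  have h4 : (0 : ℝ) < ((nb G X x ∩ F).card : ℝ) := by linarith
  exact_mod_cast h4

/-- `|nb x ∩ F| ≥ (2/3) κ mu` -/
theorem typ_card' {G : SimpleGraph V} {X : Finset (V × Bool)} {P : Pm} (hO : P.Ok)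
    (hH : Hs G X P) {F : Finset V} {α : ℝ} (hT : Typ G X P F α) {x : V × Bool} (hx : x ∈ X) :
    2 / 3 * (P.κ * P.mu) ≤ ((nb G X x ∩ F).card : ℝ) :=
  (typB_lo hO hH hT hx).trans (typ_card hO hH hT hx)

/-- the average of `P ^ r g` over the free neighbours; `k = r + 1` and `k = 0` in `Y`:
`∑ Gr r ≤ α dg (Gr (r+1) x + x / mu)`, `|nb x ∩ F| ≥ α (1 - x) dg`, `Gr ≤ 1 / mu` -/
theorem typ_avg {G : SimpleGraph V} {X : Finset (V × Bool)} {P : Pm} (hO : P.Ok)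
    (hH : Hs G X P) {F : Finset V} {α : ℝ} (hT : Typ G X P F α) {x : V × Bool} (hx : x ∈ X)
    (r : ℕ) (hr : r < P.L) :
    ∑ u ∈ nb G X x ∩ F, Gr G X r (u, !x.2) ≤
      ((nb G X x ∩ F).card : ℝ) * (Gr G X (r + 1) x + 3 * P.x / P.mu) := by
  have hα : 0 < α := lt_of_lt_of_le hO.k0 hT.al
  have hmu := hO.mu0
  have hd := dg_pos hO hH hx
  have h := hT.Y x hx (r + 1) hr
  have e1 : Ys G X P (r + 1) x F = P.mu * ∑ u ∈ nb G X x ∩ F, Gr G X r (u, !x.2) := by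
    unfold Ys
    rw [Finset.mul_sum]
    refine Finset.sum_congr rfl fun u _ => ?_
    unfold fk
    rw [if_neg (Nat.succ_ne_zero r), Nat.add_sub_cancel]
  rw [Ys_succ_univ hO hH r hx, e1] at h
  obtain ⟨S, hS⟩ : ∃ S, S = ∑ u ∈ nb G X x ∩ F, Gr G X r (u, !x.2) := ⟨_, rfl⟩
  obtain ⟨g, hg⟩ : ∃ g, g = Gr G X (r + 1) x := ⟨_, rfl⟩
  obtain ⟨d, hdd⟩ : ∃ d, d = dg G X x := ⟨_, rfl⟩
  obtain ⟨c, hc⟩ : ∃ c : ℝ, c = ((nb G X x ∩ F).card : ℝ) := ⟨_, rfl⟩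
  have hcd := typ_card hO hH hT hx
  have hg0 : 0 ≤ g := by rw [hg]; exact Gr_nonneg G X (r + 1) x
  have hg1 : g ≤ 1 / P.mu := by rw [hg]; exact Gr_le hO hH (r + 1) hx
  rw [← hS, ← hg, ← hdd] at h
  rw [← hS, ← hg, ← hc]
  rw [← hc, ← hdd] at hcd
  rw [← hdd] at hd
  clear hS hg hdd hc e1
  have hx0 := hO.x0
  have hx1 := hO.x1
  have h1 := (abs_le.1 h).2
  have h2 : P.mu * S / α ≤ P.mu * d * g + P.x * d := by linarith
  rw [div_le_iff₀ hα] at h2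
  have hg2 : P.mu * g ≤ 1 := by
    rw [le_div_iff₀ hmu] at hg1
    linarith
  have h3 : 0 ≤ g + 3 * P.x / P.mu := by positivity
  refine le_trans ?_ (mul_le_mul_of_nonneg_right hcd h3)
  have e2 : α * (1 - P.x) * d * (g + 3 * P.x / P.mu) =
      α * (1 - P.x) * d * (P.mu * g + 3 * P.x) / P.mu := by
    field_simp
  rw [e2, le_div_iff₀ hmu]
  have h5 : 0 ≤ P.x * (3 * (1 - P.x) - 1 - P.mu * g) := mul_nonneg hx0.le (by linarith)
  have h6 : P.mu * g + P.x ≤ (1 - P.x) * (P.mu * g + 3 * P.x) := by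
    have e3 : (1 - P.x) * (P.mu * g + 3 * P.x) - (P.mu * g + P.x) =
      P.x * (3 * (1 - P.x) - 1 - P.mu * g) := by ring
    linarith
  calc S * P.mu ≤ (P.mu * d * g + P.x * d) * α := by linarith
    _ = α * d * (P.mu * g + P.x) := by ring
    _ ≤ α * d * ((1 - P.x) * (P.mu * g + 3 * P.x)) :=
        mul_le_mul_of_nonneg_left h6 (mul_pos hα hd).le
    _ = α * (1 - P.x) * d * (P.mu * g + 3 * P.x) := by ring

/-- the deletion rate: `1 / |C| ≤ ρ ≤ 1 / 2` -/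
theorem typ_rho {G : SimpleGraph V} {X : Finset (V × Bool)} {P : Pm} (hO : P.Ok)
    (hH : Hs G X P) {F : Finset V} {α : ℝ} (hT : Typ G X P F α) {y : V × Bool} (hy : y ∈ X) :
    1 / ((nb G X y ∩ F).card : ℝ) ≤ rho P α (Gr G X 0 y) ∧ rho P α (Gr G X 0 y) ≤ 1 / 2 := by
  have hα : 0 < α := lt_of_lt_of_le hO.k0 hT.al
  have hd := dg_pos hO hH hy
  have h1x : 0 < 1 - P.x := by linarith [hO.x1]
  have e : rho P α (Gr G X 0 y) = 1 / (α * (1 - P.x) * dg G X y) := by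
    unfold rho
    rw [Gr_zero]
    field_simp
  have h0 : 0 < α * (1 - P.x) * dg G X y := by positivity
  have h1 := typB_lo hO hH hT hy
  have h2 := hO.kmu
  rw [e]
  refine ⟨one_div_le_one_div_of_le h0 (typ_card hO hH hT hy), ?_⟩
  exact one_div_le_one_div_of_le (by norm_num) (by linarith)

end Pool.Agent.Lib.MP_56e41f_co.LD
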