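import Pool.Agent.Lib.MP_56e41f_co.LD.AsyD

/-!
# Asymptotics
-/

open Finset

namespace Pool.Agent.Lib.MP_56e41f_co.LD

private theorem asyA_log (T : ℝ) : ∃ n0 : ℕ, 1 ≤ n0 ∧ ∀ n : ℕ, n0 ≤ n → T ≤ Real.log n := by
  refine ⟨⌈Real.exp T⌉₊ + 1, Nat.le_add_left _ _, fun n hn => ?_⟩
  have h1 : Real.exp T ≤ n := by
    have h2 : ((⌈Real.exp T⌉₊ : ℕ) : ℝ) ≤ n := by
      exact_mod_cast (Nat.le_succ _).trans hn
    exact (Nat.le_ceil _).trans h2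
  have h3 := Real.log_le_log (Real.exp_pos T) h1
  rwa [Real.log_exp] at h3

theorem Lc_le {c : ℝ} (hc : 0 < c) (hc1 : c < 1) : ∃ C : ℝ, 0 < C ∧ ∃ n1 : ℕ, ∀ n : ℕ, n1 ≤ n →
    1 ≤ Lc c n ∧ (Lc c n : ℝ) ≤ C * Real.log n ^ 3 := by
  obtain ⟨n0, hn0, H⟩ := asyA_log 1
  obtain ⟨K, hK⟩ : ∃ K, K = Real.log (16 / c) := ⟨_, rfl⟩
  have hK0 : 0 ≤ K := by
    rw [hK]
    refine Real.log_nonneg ?_
    rw [le_div_iff₀ hc]
    linarith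
  refine ⟨18432 * (1 + K) / c ^ 2 + 1, by positivity, n0, fun n hn => ?_⟩
  have hl := H n hn
  have hn1 : (0 : ℝ) < n := by exact_mod_cast lt_of_lt_of_le (Nat.lt_of_lt_of_le one_pos hn0) hn
  obtain ⟨l, hl'⟩ : ∃ l, l = Real.log n := ⟨_, rfl⟩
  rw [← hl'] at hl ⊢
  have h2 : Real.log (2 * n) = Real.log 2 + l := by
    rw [Real.log_mul two_ne_zero hn1.ne', hl']
  have h3 : 0 < Real.log 2 := Real.log_pos one_lt_two
  have h4 : Real.log 2 ≤ 1 := by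
    have := Real.log_le_sub_one_of_pos (two_pos : (0 : ℝ) < 2)
    linarith
  obtain ⟨m, hm⟩ : ∃ m, m = Real.log (2 * n) := ⟨_, rfl⟩
  have hm1 : 1 ≤ m := by rw [hm, h2]; linarith
  have hm2 : m ≤ 2 * l := by rw [hm, h2]; linarith
  have hm0 : 0 < m := by linarith
  have e : 2 / (c / (48 * Real.log (2 * n))) ^ 2 * (Real.log (2 * n) / 2 + Real.log (16 / c)) =
      4608 / c ^ 2 * (m ^ 2 * (m / 2 + K)) := by
    rw [← hm, ← hK]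
    field_simp
    norm_num
  rw [Lc, e]
  have hpos : 0 < 4608 / c ^ 2 * (m ^ 2 * (m / 2 + K)) := by positivity
  refine ⟨Nat.one_le_ceil_iff.2 hpos, ?_⟩
  have h5 := (Nat.ceil_lt_add_one hpos.le).le
  refine h5.trans ?_
  have h6 : m ^ 2 * (m / 2 + K) ≤ (2 * l) ^ 2 * ((1 + K) * l) := by
    refine mul_le_mul (pow_le_pow_left₀ hm0.le hm2 2) ?_ (by positivity) (by positivity)
    nlinarith
  have h7 : 4608 / c ^ 2 * (m ^ 2 * (m / 2 + K)) ≤ 4608 / c ^ 2 * ((2 * l) ^ 2 * ((1 + K) * l)) :=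
    mul_le_mul_of_nonneg_left h6 (by positivity)
  have h8 : (1 : ℝ) ≤ l ^ 3 := one_le_pow₀ hl
  have h9 : 4608 / c ^ 2 * ((2 * l) ^ 2 * ((1 + K) * l)) = 18432 * (1 + K) / c ^ 2 * l ^ 3 := by
    ring
  rw [h9] at h7
  linarith

theorem asyA {ε : ℝ} (hε : 0 < ε) : ∃ n0 : ℕ, ∀ n : ℕ, n0 ≤ n →
    (n : ℝ) * Real.exp (1 - Real.log n ^ 10) ≤ ε ∧ 1 ≤ Real.log n := by
  obtain ⟨n0, hn0, H⟩ := asyA_log (max 2 (1 - Real.log ε))
  refine ⟨n0, fun n hn => ?_⟩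
  have h1 := H n hn
  have hn1 : (0 : ℝ) < n := by exact_mod_cast lt_of_lt_of_le (Nat.lt_of_lt_of_le one_pos hn0) hn
  have h2 : 2 ≤ Real.log n := (le_max_left _ _).trans h1
  have h3 : 1 - Real.log ε ≤ Real.log n := (le_max_right _ _).trans h1
  refine ⟨?_, by linarith⟩
  obtain ⟨l, hl⟩ : ∃ l, l = Real.log n := ⟨_, rfl⟩
  have e : (n : ℝ) = Real.exp l := by rw [hl, Real.exp_log hn1]
  rw [← hl] at h2 h3 ⊢
  rw [e, ← Real.exp_add]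
  have h4 : 2 * l ≤ l ^ 10 := by
    have h5 : (2 : ℝ) ≤ l ^ 9 := by
      calc (2 : ℝ) ≤ 2 ^ 9 := by norm_num
        _ ≤ l ^ 9 := pow_le_pow_left₀ (by norm_num) h2 9
    calc 2 * l ≤ l ^ 9 * l := mul_le_mul_of_nonneg_right h5 (by linarith)
      _ = l ^ 10 := by ring
  calc Real.exp (l + (1 - l ^ 10)) ≤ Real.exp (Real.log ε) := Real.exp_le_exp.2 (by linarith)
    _ = ε := Real.exp_log hε

end Pool.Agent.Lib.MP_56e41f_co.LD
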