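import Pool.Agent.Lib.MP_56e41f_co.LD.AsyD
import Pool.Agent.Lib.MP_56e41f_co.LD.AsyA

/-!
# Asymptotics
-/

open Finset

namespace Pool.Agent.Lib.MP_56e41f_co.LD

theorem asyB {c ε1 ε : ℝ} (hc : 0 < c) (hc1 : c < 1) (hε1 : 0 < ε1) (hε : 0 < ε) :
    ∃ n0 : ℕ, ∀ n : ℕ, n0 ≤ n → ∀ hm : ℕ, (hm : ℝ) ≤ (Lc c n : ℝ) ^ 2 / ε1 + 1 →
      (n : ℝ) * (hm * Real.exp (hm - c ^ 2 * Real.log n ^ 10 / (20736 * Lc c n))) ≤ ε := by
  obtain ⟨C, hC, n1, h1⟩ := Lc_le hc hc1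
  obtain ⟨a, ha⟩ : ∃ a : ℝ, a = c ^ 2 / (20736 * C) := ⟨_, rfl⟩
  have ha0 : 0 < a := by rw [ha]; positivity
  obtain ⟨A, hA⟩ : ∃ A : ℝ, A = 3 + 2 * (C ^ 2 / ε1) := ⟨_, rfl⟩
  have hA0 : 0 < A := by rw [hA]; positivity
  have hab : 0 ≤ |Real.log ε| := abs_nonneg _
  obtain ⟨l0, hl0⟩ : ∃ l0 : ℝ, l0 = 1 + (A + |Real.log ε|) / a := ⟨_, rfl⟩
  have hq : 0 ≤ (A + |Real.log ε|) / a := by positivity
  refine ⟨max n1 ⌈Real.exp l0⌉₊, fun n hn hm hhm => ?_⟩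
  obtain ⟨hL1, hL2⟩ := h1 n (le_trans (le_max_left _ _) hn)
  have hne : Real.exp l0 ≤ n :=
    (Nat.le_ceil _).trans (by exact_mod_cast le_trans (le_max_right _ _) hn)
  have hn0 : (0 : ℝ) < n := (Real.exp_pos _).trans_le hne
  obtain ⟨l, hl⟩ : ∃ l : ℝ, l = Real.log n := ⟨_, rfl⟩
  have hnl : (n : ℝ) = Real.exp l := by rw [hl, Real.exp_log hn0]
  have hl1 : l0 ≤ l := by
    rw [hl, Real.le_log_iff_exp_le hn0]
    exact hne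
  rw [← hl] at hL2 ⊢
  have hL0 : (0 : ℝ) < Lc c n := by exact_mod_cast hL1
  have hl2 : 1 ≤ l := by linarith
  have hl3 : 0 < l := by linarith
  have hal : A + |Real.log ε| ≤ l * a := by
    have h2 : (A + |Real.log ε|) / a ≤ l := by linarith
    rwa [div_le_iff₀ ha0] at h2
  obtain ⟨Q, hQ⟩ : ∃ Q : ℝ, Q = c ^ 2 * l ^ 10 / (20736 * Lc c n) := ⟨_, rfl⟩
  have e1 : a * l ^ 7 ≤ Q := by
    rw [ha, hQ, div_mul_eq_mul_div, div_le_div_iff₀ (by positivity) (by positivity)]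
    have h2 : (Lc c n : ℝ) * l ^ 7 ≤ C * l ^ 3 * l ^ 7 :=
      mul_le_mul_of_nonneg_right hL2 (by positivity)
    calc c ^ 2 * l ^ 7 * (20736 * (Lc c n : ℝ)) = 20736 * c ^ 2 * ((Lc c n : ℝ) * l ^ 7) := by
          ring
      _ ≤ 20736 * c ^ 2 * (C * l ^ 3 * l ^ 7) := mul_le_mul_of_nonneg_left h2 (by positivity)
      _ = c ^ 2 * l ^ 10 * (20736 * C) := by ring
  have e2 : (hm : ℝ) ≤ C ^ 2 / ε1 * l ^ 6 + 1 := by
    have h2 : (Lc c n : ℝ) ^ 2 ≤ (C * l ^ 3) ^ 2 := pow_le_pow_left₀ hL0.le hL2 2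
    have h3 : (Lc c n : ℝ) ^ 2 / ε1 ≤ (C * l ^ 3) ^ 2 / ε1 :=
      div_le_div_of_nonneg_right h2 hε1.le
    have h4 : (C * l ^ 3) ^ 2 / ε1 = C ^ 2 / ε1 * l ^ 6 := by ring
    linarith
  have e3 : (hm : ℝ) ≤ Real.exp hm := by linarith [Real.add_one_le_exp (hm : ℝ)]
  rw [← hQ, hnl]
  have e4 : Real.exp l * (hm * Real.exp (hm - Q)) ≤ Real.exp (l + (hm + (hm - Q))) := by
    rw [Real.exp_add l, Real.exp_add (hm : ℝ)]
    exact mul_le_mul_of_nonneg_left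
      (mul_le_mul_of_nonneg_right e3 (Real.exp_pos _).le) (Real.exp_pos _).le
  refine e4.trans ?_
  rw [← Real.le_log_iff_exp_le hε]
  have f1 : 1 ≤ l ^ 6 := one_le_pow₀ hl2
  have f2 : l ≤ l ^ 6 := le_self_pow₀ hl2 (by norm_num)
  have f3 : l ^ 6 * (A + |Real.log ε|) ≤ l ^ 6 * (l * a) :=
    mul_le_mul_of_nonneg_left hal (by positivity)
  have f4 : |Real.log ε| ≤ l ^ 6 * |Real.log ε| := le_mul_of_one_le_left hab f1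
  have f5 : -|Real.log ε| ≤ Real.log ε := neg_abs_le _
  have f6 : l ^ 6 * (l * a) = a * l ^ 7 := by ring
  have f7 : l ^ 6 * (A + |Real.log ε|) =
      3 * l ^ 6 + 2 * (C ^ 2 / ε1 * l ^ 6) + l ^ 6 * |Real.log ε| := by
    rw [hA]
    ring
  linarith

end Pool.Agent.Lib.MP_56e41f_co.LD
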