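import Pool.Agent.Lib.MP_56e41f_co.LD.AsyD
import Pool.Agent.Lib.MP_56e41f_co.LD.AsyA

/-!
# Asymptotics
-/

open Finset

namespace Pool.Agent.Lib.MP_56e41f_co.LD

private theorem asyc_key (K : ℝ) {C K1 ε : ℝ} (hC : 0 < C) (hK1 : 0 < K1) (hε : 0 < ε) :
    ∃ l0 : ℝ, 1 ≤ l0 ∧ ∀ l : ℝ, l0 ≤ l →
      K ≤ l ∧ 4 * (C * l ^ 3 + 1) * Real.exp (l - K1 * l ^ 4) ≤ ε := by
  refine ⟨max (max 1 K) (max (24 * (C + 1)) (max (3 / K1) (4 / ε))),
    (le_max_left _ _).trans (le_max_left _ _), fun l hl => ?_⟩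
  have a1 : 1 ≤ l := ((le_max_left _ _).trans (le_max_left _ _)).trans hl
  have a2 : K ≤ l := ((le_max_right _ _).trans (le_max_left _ _)).trans hl
  have a3 : 24 * (C + 1) ≤ l := ((le_max_left _ _).trans (le_max_right _ _)).trans hl
  have a4 : 3 / K1 ≤ l :=
    (((le_max_left _ _).trans (le_max_right _ _)).trans (le_max_right _ _)).trans hl
  have a5 : 4 / ε ≤ l :=
    (((le_max_right _ _).trans (le_max_right _ _)).trans (le_max_right _ _)).trans hl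
  have l0 : 0 < l := by linarith
  refine ⟨a2, ?_⟩
  have b1 : 1 ≤ l ^ 3 := one_le_pow₀ a1
  have b2 : C * l ^ 3 + 1 ≤ Real.exp l := by
    have h1 := Real.pow_div_factorial_le_exp l l0.le 4
    have h2 : ((Nat.factorial 4 : ℕ) : ℝ) = 24 := by norm_num [Nat.factorial]
    rw [h2] at h1
    have h3 : 24 * (C + 1) * l ^ 3 ≤ l * l ^ 3 := mul_le_mul_of_nonneg_right a3 (by linarith)
    have h4 : l ^ 4 = l * l ^ 3 := by ring
    rw [h4] at h1
    linarith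
  have b3 : 3 * l ≤ K1 * l ^ 4 := by
    have h1 : 3 ≤ K1 * l := by
      rw [div_le_iff₀ hK1] at a4
      linarith
    have h2 : 3 * l ^ 3 ≤ K1 * l * l ^ 3 := mul_le_mul_of_nonneg_right h1 (by linarith)
    have h3 : l ≤ l ^ 3 := le_self_pow₀ a1 (by norm_num)
    have h4 : K1 * l ^ 4 = K1 * l * l ^ 3 := by ring
    linarith
  have b4 : 4 ≤ ε * Real.exp l := by
    have h1 : 4 ≤ l * ε := by rwa [div_le_iff₀ hε] at a5
    have h2 := Real.add_one_le_exp l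
    have h3 := mul_le_mul_of_nonneg_left h2 hε.le
    linarith
  calc 4 * (C * l ^ 3 + 1) * Real.exp (l - K1 * l ^ 4)
      ≤ 4 * Real.exp l * Real.exp (-(2 * l)) := by
        refine mul_le_mul (by linarith) (Real.exp_le_exp.2 (by linarith)) (Real.exp_pos _).le ?_
        have := Real.exp_pos l
        linarith
    _ = 4 * Real.exp (-l) := by
        rw [mul_assoc, ← Real.exp_add]
        congr 2
        ring
    _ ≤ ε * Real.exp l * Real.exp (-l) := mul_le_mul_of_nonneg_right b4 (Real.exp_pos _).le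
    _ = ε := by
        rw [mul_assoc, ← Real.exp_add, add_neg_cancel, Real.exp_zero, mul_one]

/-- The exponent, with `l = log n` and `L` between `1` and `C l^3`. -/
private theorem asyc_exp {c ε1 C K0 l L mu hm lam x : ℝ} (hc : 0 < c) (hε1 : 0 < ε1) (hC : 0 < C)
    (hK0 : 0 < K0) (h1 : 1 ≤ l) (hL1 : 1 ≤ L) (hL : L ≤ C * l ^ 3)
    (hl : (1 + 8 / c + 8 * C ^ 2 / (c * ε1)) * (2304 * C / c) ≤ l)
    (hhm : hm ≤ L ^ 2 / ε1 + 1) (hmu : l ^ 10 / 3 ≤ mu) (hx : x = c / (192 * L))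
    (hlam : lam = K0 / L) :
    lam - lam * x * mu / 2 + lam / (c / 8) * hm ≤ -(K0 * c / (2304 * C ^ 2) * l ^ 4) := by
  have l0 : 0 < l := by linarith
  have L0 : 0 < L := by linarith
  have e1 : lam - lam * x * mu / 2 + lam / (c / 8) * hm =
      K0 / L * (1 - x * mu / 2 + 8 / c * hm) := by
    rw [hlam]
    field_simp
  -- the bracket
  have hx1 : c / (192 * (C * l ^ 3)) ≤ x := by
    rw [hx]
    exact div_le_div_of_nonneg_left hc.le (by linarith) (by linarith)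
  have hx2 : 2 * (c / (2304 * C) * l ^ 7) ≤ x * mu / 2 := by
    have h2 : c / (192 * (C * l ^ 3)) * (l ^ 10 / 3) ≤ x * mu :=
      mul_le_mul hx1 hmu (by positivity) (le_trans (by positivity) hx1)
    have h3 : c / (192 * (C * l ^ 3)) * (l ^ 10 / 3) = 4 * (c / (2304 * C) * l ^ 7) := by
      field_simp
      ring
    linarith
  have hm2 : 8 / c * hm ≤ 8 / c + 8 * C ^ 2 / (c * ε1) * l ^ 6 := by
    have h2 : L ^ 2 ≤ (C * l ^ 3) ^ 2 := pow_le_pow_left₀ L0.le hL 2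
    have h3 : L ^ 2 / ε1 ≤ (C * l ^ 3) ^ 2 / ε1 := div_le_div_of_nonneg_right h2 hε1.le
    have h4 : 8 / c * hm ≤ 8 / c * ((C * l ^ 3) ^ 2 / ε1 + 1) :=
      mul_le_mul_of_nonneg_left (by linarith) (by positivity)
    have h5 : 8 / c * ((C * l ^ 3) ^ 2 / ε1 + 1) = 8 / c + 8 * C ^ 2 / (c * ε1) * l ^ 6 := by
      field_simp
      ring
    linarith
  have h6 : 1 ≤ l ^ 6 := one_le_pow₀ h1
  have h7 : 1 + 8 / c + 8 * C ^ 2 / (c * ε1) * l ^ 6 ≤
      (1 + 8 / c + 8 * C ^ 2 / (c * ε1)) * l ^ 6 := by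
    have h8 : (0 : ℝ) ≤ 1 + 8 / c := by positivity
    have h9 := mul_le_mul_of_nonneg_left h6 h8
    linarith
  have h8 : (1 + 8 / c + 8 * C ^ 2 / (c * ε1)) * l ^ 6 ≤ c / (2304 * C) * l ^ 7 := by
    have h9 : 1 + 8 / c + 8 * C ^ 2 / (c * ε1) ≤ c / (2304 * C) * l := by
      have h10 := mul_le_mul_of_nonneg_left hl (show (0 : ℝ) ≤ c / (2304 * C) by positivity)
      have h11 : c / (2304 * C) * ((1 + 8 / c + 8 * C ^ 2 / (c * ε1)) * (2304 * C / c)) =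
          1 + 8 / c + 8 * C ^ 2 / (c * ε1) := by
        field_simp
      linarith
    have h12 := mul_le_mul_of_nonneg_right h9 (show (0 : ℝ) ≤ l ^ 6 by positivity)
    have h13 : c / (2304 * C) * l * l ^ 6 = c / (2304 * C) * l ^ 7 := by ring
    linarith
  have hB : 1 - x * mu / 2 + 8 / c * hm ≤ -(c / (2304 * C) * l ^ 7) := by linarith
  have hq : K0 / (C * l ^ 3) ≤ K0 / L := div_le_div_of_nonneg_left hK0.le L0 hL
  rw [e1]
  calc K0 / L * (1 - x * mu / 2 + 8 / c * hm) ≤ K0 / L * -(c / (2304 * C) * l ^ 7) :=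
        mul_le_mul_of_nonneg_left hB (by positivity)
    _ = -(K0 / L * (c / (2304 * C) * l ^ 7)) := by ring
    _ ≤ -(K0 / (C * l ^ 3) * (c / (2304 * C) * l ^ 7)) :=
        neg_le_neg (mul_le_mul_of_nonneg_right hq (by positivity))
    _ = -(K0 * c / (2304 * C ^ 2) * l ^ 4) := by
        field_simp

theorem asyC {c ε1 ε : ℝ} (hc : 0 < c) (hc1 : c < 1) (hε1 : 0 < ε1) (hε : 0 < ε) :
    ∃ n0 : ℕ, ∀ n : ℕ, n0 ≤ n → ∀ (hm : ℕ) (mu : ℝ), (hm : ℝ) ≤ (Lc c n : ℝ) ^ 2 / ε1 + 1 →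
      Real.log n ^ 10 / 3 ≤ mu → ∀ lam x : ℝ, x = c / (192 * Lc c n) →
      lam = c / (192 * Lc c n) * (c / 8) ^ 2 / (8 * Real.log (16 / c)) →
      2 * ((Lc c n : ℝ) + 1) * (2 * n) *
        Real.exp (lam - lam * x * mu / 2 + lam / (c / 8) * hm) ≤ ε := by
  obtain ⟨C, hC, n1, hn1⟩ := Lc_le hc hc1
  have hlog : 0 < Real.log (16 / c) := by
    refine Real.log_pos ?_
    rw [lt_div_iff₀ hc]
    linarith
  obtain ⟨K0, hK0⟩ : ∃ K0, K0 = c / 192 * (c / 8) ^ 2 / (8 * Real.log (16 / c)) := ⟨_, rfl⟩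
  have hK0p : 0 < K0 := by
    rw [hK0]
    positivity
  obtain ⟨l0, hl1, hl0⟩ := asyc_key ((1 + 8 / c + 8 * C ^ 2 / (c * ε1)) * (2304 * C / c)) hC
    (show 0 < K0 * c / (2304 * C ^ 2) by positivity) hε
  refine ⟨max n1 ⌈Real.exp l0⌉₊, fun n hn hm mu hhm hmu lam x hx hlam => ?_⟩
  have m1 : n1 ≤ n := (le_max_left _ _).trans hn
  have m2 : Real.exp l0 ≤ n := (Nat.le_ceil _).trans (by exact_mod_cast (le_max_right _ _).trans hn)
  have m3 : (0 : ℝ) < n := (Real.exp_pos _).trans_le m2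
  have m4 : l0 ≤ Real.log n := (Real.le_log_iff_exp_le m3).2 m2
  obtain ⟨q1, q2⟩ := hn1 n m1
  obtain ⟨r1, r2⟩ := hl0 _ m4
  have q1' : (1 : ℝ) ≤ (Lc c n : ℝ) := by exact_mod_cast q1
  have L0 : (0 : ℝ) < (Lc c n : ℝ) := by linarith
  have hlam' : lam = K0 / (Lc c n : ℝ) := by
    rw [hlam, hK0]
    field_simp
  have hE := asyc_exp hc hε1 hC hK0p (hl1.trans m4) q1' q2 r1 hhm hmu hx hlam'
  have hn : (n : ℝ) = Real.exp (Real.log n) := (Real.exp_log m3).symm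
  calc 2 * ((Lc c n : ℝ) + 1) * (2 * n) *
        Real.exp (lam - lam * x * mu / 2 + lam / (c / 8) * hm)
      ≤ 2 * ((Lc c n : ℝ) + 1) * (2 * n) *
        Real.exp (-(K0 * c / (2304 * C ^ 2) * Real.log n ^ 4)) :=
        mul_le_mul_of_nonneg_left (Real.exp_le_exp.2 hE) (by positivity)
    _ = 4 * ((Lc c n : ℝ) + 1) * (n * Real.exp (-(K0 * c / (2304 * C ^ 2) * Real.log n ^ 4))) := by
        ring
    _ = 4 * ((Lc c n : ℝ) + 1) * Real.exp (Real.log n - K0 * c / (2304 * C ^ 2) * Real.log n ^ 4) := by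
        rw [sub_eq_add_neg, Real.exp_add, ← hn]
    _ ≤ 4 * (C * Real.log n ^ 3 + 1) *
        Real.exp (Real.log n - K0 * c / (2304 * C ^ 2) * Real.log n ^ 4) :=
        mul_le_mul_of_nonneg_right (by linarith) (Real.exp_pos _).le
    _ ≤ ε := r2

end Pool.Agent.Lib.MP_56e41f_co.LD
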