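import Pool.Agent.Lib.MP_56e41f_co.LD.Dbl

/-!
# Existence of the host
-/

open Finset

namespace Pool.Agent.Lib.MP_56e41f_co.LD

variable {V : Type} [Fintype V] [DecidableEq V]

/-- `exists_max` and `conduct` for the double cover (`|V × Bool| = 2 n`, `n ≥ 1`), with
`mu = E2 X / |X| / 2`, `η = c / (16 log (2 n)) ≤ 1`, `φ = η / 3`; then `mix_host`, `|X| ≤ 2 n`.
`E2 (univ) / (2 n) = 2 |E| / n = d`. -/
theorem exists_host {c : ℝ} (hc : 0 < c) (hc1 : c ≤ 1) (G : SimpleGraph V)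
    (E : Finset (Sym2 V)) (hE : ∀ u v, s(u, v) ∈ E ↔ G.Adj u v) {d xi : ℝ} (hd : 0 < d)
    (hn : 1 ≤ Fintype.card V) (hdE : d / 2 * Fintype.card V ≤ E.card) (hxi : 0 < xi)
    (hxi1 : xi ≤ 1) {L : ℕ}
    (hL : 2 / (c / (48 * Real.log (2 * Fintype.card V))) ^ 2 *
      (Real.log (2 * Fintype.card V) / 2 + Real.log (1 / xi)) ≤ L) :
    ∃ (X : Finset (V × Bool)) (mu : ℝ), X.Nonempty ∧ d ≤ 2 * (1 + c / 8) * mu ∧
      (∀ x ∈ X, mu ≤ dg G X x) ∧ mm G X = mu * X.card ∧
      (∀ x ∈ X, Gr G X L x ≤ sz X (sd x.2 L) / mm G X + xi / mu) := by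
  have hcard : Fintype.card (V × Bool) = 2 * Fintype.card V := by
    rw [Fintype.card_prod, Fintype.card_bool, mul_comm]
  have hcardR : ((Fintype.card (V × Bool) : ℕ) : ℝ) = 2 * (Fintype.card V : ℝ) := by
    rw [hcard]; push_cast; ring
  have hN : 2 ≤ Fintype.card (V × Bool) := by omega
  have hnR : (1 : ℝ) ≤ (Fintype.card V : ℝ) := by exact_mod_cast hn
  have hlog2 : (0.69 : ℝ) ≤ Real.log 2 := by
    have := Real.log_two_gt_d9
    linarith
  have hlogN : (0.69 : ℝ) ≤ Real.log (2 * (Fintype.card V : ℝ)) := by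
    have : Real.log 2 ≤ Real.log (2 * (Fintype.card V : ℝ)) :=
      Real.log_le_log (by norm_num) (by linarith)
    linarith
  obtain ⟨X, hXne, h1, h2, h3, h4⟩ := exists_max (DC G) hN hc hc1
  have hXpos : (0 : ℝ) < (X.card : ℝ) := by exact_mod_cast hXne.card_pos
  rw [hcardR] at h1 h4
  rw [E2_DC_univ G E hE] at h1
  have hν : d ≤ (1 + c / 8) * (E2 (DC G) X / (X.card : ℝ)) := by
    refine le_trans ?_ h1
    rw [le_div_iff₀ (by linarith)]
    linarith
  have hνpos : 0 < E2 (DC G) X / (X.card : ℝ) := by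
    by_contra hcon
    have h0 : (1 + c / 8) * (E2 (DC G) X / (X.card : ℝ)) ≤ 0 :=
      mul_nonpos_of_nonneg_of_nonpos (by linarith) (not_lt.1 hcon)
    linarith
  have hηpos : 0 < c / (16 * Real.log (2 * (Fintype.card V : ℝ))) :=
    div_pos hc (by linarith)
  have hη1 : c / (16 * Real.log (2 * (Fintype.card V : ℝ))) ≤ 1 := by
    rw [div_le_one (by linarith)]
    linarith
  have hcon := conduct (DC G) X hνpos.le hηpos hη1 h3 h4
  have hφ : c / (16 * Real.log (2 * (Fintype.card V : ℝ))) / 3 =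
      c / (48 * Real.log (2 * (Fintype.card V : ℝ))) := by
    rw [div_div]
    congr 1
    ring
  have hmm : mm G X = E2 (DC G) X / (X.card : ℝ) / 2 * (X.card : ℝ) := by
    have h5 := E2_DC G X
    have h6 : E2 (DC G) X / (X.card : ℝ) / 2 * (X.card : ℝ) = E2 (DC G) X / 2 := by
      field_simp
    rw [h6, h5]
    ring
  have hdeg : ∀ x ∈ X, E2 (DC G) X / (X.card : ℝ) / 2 ≤ dg G X x := by
    intro x hx
    have := h2 x hx
    rwa [dgr_DC] at this
  refine ⟨X, E2 (DC G) X / (X.card : ℝ) / 2, hXne, ?_, hdeg, hmm, ?_⟩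
  · linarith
  · intro x hx
    refine mix_host G X (half_pos hνpos) hdeg (φ := c / (16 * Real.log (2 * (Fintype.card V : ℝ))) / 3)
      (by positivity) (by linarith) hcon hxi ?_ x hx
    rw [hφ]
    refine le_trans ?_ hL
    have hlogX : Real.log (X.card : ℝ) ≤ Real.log (2 * (Fintype.card V : ℝ)) := by
      refine Real.log_le_log hXpos ?_
      rw [← hcardR]
      exact_mod_cast Finset.card_le_univ X
    refine mul_le_mul_of_nonneg_left (by linarith) (by positivity)

end Pool.Agent.Lib.MP_56e41f_co.LD
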