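import Pool.Agent.Lib.MP_56e41f_co.LD.ParD

/-!
# The parameters
-/

open Finset

namespace Pool.Agent.Lib.MP_56e41f_co.LD

/-- `t / (2 mu) ≤ 1 - 7 c / 8`, `xi t / mu ≤ c / 8`, `(xl + 3 x) L t / mu ≤ 3 c / 32`,
`4 th (hb / mu) L t / mu ≤ c / 100`. -/
theorem par_pot {c ε1 d mu : ℝ} {L : ℕ} (hc : 0 < c) (hc1 : c < 1) (hε : 0 < ε1) (hd : 0 < d)
    (hmu : d ≤ 2 * (1 + c / 8) * mu) (hL : 1 ≤ L) {t : ℝ} (ht : 0 ≤ t) (htd : t ≤ (1 - c) * d) :
    c / (2048 * ε1) * (t / (2 * mu) + c / 16 * t / mu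
      + (c / (32 * L) + 3 * (c / (192 * L)) + 4 * (c / (2048 * ε1)) * (ε1 * d / L / mu))
        * ((L : ℝ) * t / mu) - (1 - c / 4)) ≤ - (c ^ 2 / (8192 * ε1)) := by
  have hmu0 : 0 < mu := by
    by_contra h
    have h1 : 2 * (1 + c / 8) * mu ≤ 0 := mul_nonpos_of_nonneg_of_nonpos (by positivity) (not_lt.1 h)
    linarith
  have hL0 : (0 : ℝ) < L := by exact_mod_cast hL
  obtain ⟨x, hx⟩ : ∃ x, x = t / mu := ⟨_, rfl⟩
  obtain ⟨e, he⟩ : ∃ e, e = d / mu := ⟨_, rfl⟩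
  have hx0 : 0 ≤ x := by
    rw [hx]
    positivity
  have he0 : 0 ≤ e := by
    rw [he]
    positivity
  have he1 : e ≤ 2 * (1 + c / 8) := by
    rw [he, div_le_iff₀ hmu0]
    exact hmu
  have hxe : x ≤ (1 - c) * e := by
    rw [hx, he, ← mul_div_assoc]
    exact div_le_div_of_nonneg_right htd hmu0.le
  have hx1 : x ≤ 2 - 7 / 4 * c := by
    have h1 : (1 - c) * e ≤ (1 - c) * (2 * (1 + c / 8)) :=
      mul_le_mul_of_nonneg_left he1 (by linarith)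
    nlinarith
  have hx2 : x ≤ 2 := by linarith
  have he2 : e ≤ 9 / 4 := by linarith
  have hex : e * x ≤ 9 / 2 := by nlinarith
  have hcx : c * x ≤ 2 * c := by nlinarith
  have hcex : c * (e * x) ≤ 9 / 2 * c := by nlinarith
  have h1 : t / (2 * mu) + c / 16 * t / mu
      + (c / (32 * L) + 3 * (c / (192 * L)) + 4 * (c / (2048 * ε1)) * (ε1 * d / L / mu))
        * ((L : ℝ) * t / mu) - (1 - c / 4) =
      x / 2 + c * x / 16 + 3 / 64 * (c * x) + c * (e * x) / 512 - (1 - c / 4) := by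
    rw [hx, he]
    field_simp
    ring
  rw [h1]
  have h2 : x / 2 + c * x / 16 + 3 / 64 * (c * x) + c * (e * x) / 512 - (1 - c / 4) ≤ -(c / 4) := by
    linarith
  have h3 : 0 ≤ c / (2048 * ε1) := by positivity
  calc c / (2048 * ε1) * (x / 2 + c * x / 16 + 3 / 64 * (c * x) + c * (e * x) / 512 - (1 - c / 4))
      ≤ c / (2048 * ε1) * (-(c / 4)) := mul_le_mul_of_nonneg_left h2 h3
    _ = - (c ^ 2 / (8192 * ε1)) := by
        field_simp
        ring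

/-- the layers: `q = 3 / (2 κ mu)`, `M = ⌊p κ mu / 3⌋ ≥ 8 m - 1`, `2 ^ Δ (3/4) ^ M ≤ exp (1 - m)`
(`log 2 < 0.7`, `log (4/3) > 1/4`) -/
theorem par_lay {c K d mu p m : ℝ} {Δ : ℕ} (hc : 0 < c) (hc1 : c < 1) (hd : 0 < d)
    (hmu : d ≤ 2 * (1 + c / 8) * mu) (hdc : 54 / c ≤ d) (hK : 432 / c ≤ K)
    (hΔ : (Δ : ℝ) ≤ m) (hp : K * m / d ≤ p) (hm : 1 ≤ m) :
    ∃ (q : ℝ) (M : ℕ), 0 ≤ q ∧ q ≤ 1 ∧ 3 / 2 ≤ q * (c / 8 * mu) ∧ M * q ≤ p / 2 ∧
      (2 : ℝ) ^ Δ * (3 / 4) ^ M ≤ Real.exp (1 - m) := by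
  have hmu0 : 0 < mu := by
    by_contra h
    have h1 : 2 * (1 + c / 8) * mu ≤ 0 := mul_nonpos_of_nonneg_of_nonpos (by positivity) (not_lt.1 h)
    linarith
  have hdmu : d ≤ 9 / 4 * mu := by nlinarith
  have hdc' : 54 ≤ d * c := by
    rwa [div_le_iff₀ hc] at hdc
  have hmc : 24 ≤ c * mu := by nlinarith
  have hcm0 : 0 < c * mu := by positivity
  have hK' : 432 ≤ K * c := by
    rwa [div_le_iff₀ hc] at hK
  have hK0 : 0 < K := by
    by_contra h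
    have h1 : K * c ≤ 0 := mul_nonpos_of_nonpos_of_nonneg (not_lt.1 h) hc.le
    linarith
  have hp' : K * m ≤ p * d := by
    rwa [div_le_iff₀ hd] at hp
  have hp0 : 0 < p := by
    by_contra h
    have h1 : p * d ≤ 0 := mul_nonpos_of_nonpos_of_nonneg (not_lt.1 h) hd.le
    have h2 : 0 < K * m := by positivity
    linarith
  have hbig : 8 * m ≤ p * (c * mu) / 24 := by
    have h1 : K * m * c ≤ p * d * c := mul_le_mul_of_nonneg_right hp' hc.le
    have h2 : p * d * c ≤ p * (9 / 4 * mu) * c :=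
      mul_le_mul_of_nonneg_right (mul_le_mul_of_nonneg_left hdmu hp0.le) hc.le
    have h3 : 432 * m ≤ K * c * m := mul_le_mul_of_nonneg_right hK' (by linarith)
    nlinarith
  refine ⟨12 / (c * mu), ⌊p * (c * mu) / 24⌋₊, by positivity, ?_, ?_, ?_, ?_⟩
  · rw [div_le_one hcm0]
    linarith
  · have h1 : 12 / (c * mu) * (c / 8 * mu) = 3 / 2 := by
      field_simp
      norm_num
    rw [h1]
  · have h1 : (⌊p * (c * mu) / 24⌋₊ : ℝ) ≤ p * (c * mu) / 24 := Nat.floor_le (by positivity)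
    calc (⌊p * (c * mu) / 24⌋₊ : ℝ) * (12 / (c * mu)) ≤ p * (c * mu) / 24 * (12 / (c * mu)) :=
          mul_le_mul_of_nonneg_right h1 (by positivity)
      _ = p / 2 := by
          field_simp
          norm_num
  · have h1 : p * (c * mu) / 24 - 1 < (⌊p * (c * mu) / 24⌋₊ : ℝ) := Nat.sub_one_lt_floor _
    obtain ⟨M, hM⟩ : ∃ M, M = ⌊p * (c * mu) / 24⌋₊ := ⟨_, rfl⟩
    rw [← hM] at h1 ⊢
    have h2 : (2 : ℝ) ^ Δ ≤ Real.exp (7 / 10 * m) := by
      have h3 : (2 : ℝ) ≤ Real.exp (7 / 10) := by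
        rw [← Real.log_le_iff_le_exp (by norm_num)]
        have := Real.log_two_lt_d9
        linarith
      calc (2 : ℝ) ^ Δ ≤ Real.exp (7 / 10) ^ Δ := pow_le_pow_left₀ (by norm_num) h3 Δ
        _ = Real.exp (Δ * (7 / 10)) := (Real.exp_nat_mul _ _).symm
        _ ≤ Real.exp (7 / 10 * m) := Real.exp_le_exp.2 (by linarith)
    have h4 : (3 / 4 : ℝ) ^ M ≤ Real.exp (-(M / 4)) := by
      have h5 : (3 / 4 : ℝ) ≤ Real.exp (-(1 / 4)) := by
        have := Real.add_one_le_exp (-(1 / 4) : ℝ)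
        linarith
      calc (3 / 4 : ℝ) ^ M ≤ Real.exp (-(1 / 4)) ^ M := pow_le_pow_left₀ (by norm_num) h5 M
        _ = Real.exp (M * (-(1 / 4))) := (Real.exp_nat_mul _ _).symm
        _ = Real.exp (-(M / 4)) := by
            congr 1
            ring
    calc (2 : ℝ) ^ Δ * (3 / 4) ^ M ≤ Real.exp (7 / 10 * m) * Real.exp (-(M / 4)) :=
          mul_le_mul h2 h4 (by positivity) (Real.exp_pos _).le
      _ = Real.exp (7 / 10 * m + -(M / 4)) := (Real.exp_add _ _).symm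
      _ ≤ Real.exp (1 - m) := Real.exp_le_exp.2 (by linarith)

end Pool.Agent.Lib.MP_56e41f_co.LD
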