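import Pool.Agent.Lib.MP_56e41f_co.LD.Core
import Pool.Agent.Lib.MP_56e41f_co.LD.HostEx
import Pool.Agent.Lib.MP_56e41f_co.LD.Par
import Pool.Agent.Lib.MP_56e41f_co.LD.Asy

/-!
# Trees of large maximum degree in arbitrary hosts
-/

open Finset

namespace Pool.Agent.Lib.MP_56e41f_co.LD

/-- the number of heavy vertices -/
private lemma hm_bd {ε1 d L t : ℝ} (hε : 0 < ε1) (hd : 0 < d) (hL : 1 ≤ L) (ht : 0 ≤ t)
    (htd : t ≤ d) : ((⌈L * t / (ε1 * d / L)⌉₊ : ℕ) : ℝ) ≤ L ^ 2 / ε1 + 1 := by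
  have hL0 : 0 < L := by linarith
  have h0 : 0 ≤ L * t / (ε1 * d / L) := by positivity
  have h1 := (Nat.ceil_lt_add_one h0).le
  have h2 : L * t / (ε1 * d / L) = L ^ 2 / ε1 * (t / d) := by
    field_simp
  have h3 : t / d ≤ 1 := (div_le_one hd).2 htd
  have h4 : 0 ≤ L ^ 2 / ε1 := by positivity
  have h5 : L ^ 2 / ε1 * (t / d) ≤ L ^ 2 / ε1 * 1 := mul_le_mul_of_nonneg_left h3 h4
  rw [h2] at h1 ⊢
  linarith

/-- the exponent of the heavy part -/
private lemma expo_bd {c d mu p L K lg m : ℝ} (hc : 0 < c) (hc1 : c < 1) (hd : 0 < d)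
    (hmu : d ≤ 2 * (1 + c / 8) * mu) (hL : 1 ≤ L) (hK : 1 ≤ K) (hlg : 0 ≤ lg) (hm : lg ≤ m)
    (hp : K * m / d ≤ p) (hmu0 : 0 < mu) :
    c ^ 2 * lg / (20736 * L) ≤ p * (c / (32 * L)) * (c / 8 * mu) / 36 := by
  have hL0 : 0 < L := by linarith
  have h1 : lg / d ≤ p := by
    refine le_trans (div_le_div_of_nonneg_right ?_ hd.le) hp
    nlinarith
  have h2 : d ≤ 9 / 4 * mu := by nlinarith
  have h3 : lg / d * d ≤ p * (9 / 4 * mu) := by
    have hlgd : 0 ≤ lg / d := by positivity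
    have hp0 : 0 ≤ p := le_trans hlgd h1
    calc lg / d * d ≤ p * d := mul_le_mul_of_nonneg_right h1 hd.le
      _ ≤ p * (9 / 4 * mu) := mul_le_mul_of_nonneg_left h2 hp0
  rw [div_mul_cancel₀ _ (ne_of_gt hd)] at h3
  have h4 : c ^ 2 * lg / (20736 * L) ≤ c ^ 2 * (p * (9 / 4 * mu)) / (20736 * L) := by
    refine div_le_div_of_nonneg_right ?_ (by positivity)
    exact mul_le_mul_of_nonneg_left h3 (by positivity)
  refine le_trans h4 (le_of_eq ?_)
  field_simp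
  ring

/-- Choose `ε1 = c ^ 2 / (8192 * log (4 / min ε 1))`, `K0 = 432 / c`; apply `exists_host` with
`xi = c / 16`, `L = Lc c n`, then `core` with `mkP c ε1 d mu L`, `hm = ⌈L t / hb⌉₊`. -/
theorem ld_case (c : ℝ) (hc : 0 < c) (hc1 : c < 1) : ∃ K0 : ℝ, 1 ≤ K0 ∧ ∀ K : ℝ, K0 ≤ K →
    ∀ ε : ℝ, 0 < ε → ∃ n0 : ℕ, ∀ (V : Type) [Fintype V] [DecidableEq V] (t Δ : ℕ) (T : TD t Δ)
      (G : SimpleGraph V) (E : Finset (Sym2 V)) (d p : ℝ), n0 ≤ Fintype.card V → 0 < t → 1 ≤ Δ →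
      (∀ u v, s(u, v) ∈ E ↔ G.Adj u v) →
      0 < d → d ≤ Fintype.card V → d / 2 * Fintype.card V ≤ E.card →
      K * max (Δ : ℝ) (Real.log (Fintype.card V) ^ 10) / d ≤ p → p ≤ 1 →
      (t : ℝ) ≤ (1 - c) * d →
      pr p E (fun F => ¬ Emb T F) ≤ ε := by
  have hK0 : (1 : ℝ) ≤ 432 / c := by
    rw [le_div_iff₀ hc]
    linarith
  refine ⟨432 / c, hK0, fun K hK ε hε => ?_⟩
  have hK1 : 1 ≤ K := le_trans hK0 hK
  obtain ⟨e, he, he1, heε⟩ : ∃ e : ℝ, 0 < e ∧ e ≤ 1 ∧ e ≤ ε :=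
    ⟨min ε 1, lt_min hε one_pos, min_le_right _ _, min_le_left _ _⟩
  have hlog : 0 < Real.log (4 / e) := by
    refine Real.log_pos ?_
    rw [lt_div_iff₀ he]
    linarith
  obtain ⟨ε1, hε1, hε1e⟩ : ∃ ε1 : ℝ, 0 < ε1 ∧ c ^ 2 / (8192 * ε1) = Real.log (4 / e) := by
    refine ⟨c ^ 2 / (8192 * Real.log (4 / e)), by positivity, ?_⟩
    have hl := ne_of_gt hlog
    have hc0 := ne_of_gt hc
    field_simp
  have hexp : Real.exp (-(c ^ 2 / (8192 * ε1))) = e / 4 := by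
    rw [hε1e, Real.exp_neg, Real.exp_log (by positivity), inv_div]
  have he4 : 0 < e / 4 := by positivity
  obtain ⟨nA, hA⟩ := asyA he4
  obtain ⟨nB, hB⟩ := asyB hc hc1 hε1 he4
  obtain ⟨nC, hC⟩ := asyC hc hc1 hε1 he4
  obtain ⟨CL, hCL, nL, hLn⟩ := Lc_le hc hc1
  refine ⟨max (max nA nB) (max nC nL), ?_⟩
  intro V _ _ t Δ T G E d p hn ht hΔ hE hd hdn hdE hp hp1 htd
  have hnA : nA ≤ Fintype.card V := le_trans (le_trans (le_max_left _ _) (le_max_left _ _)) hn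
  have hnB : nB ≤ Fintype.card V := le_trans (le_trans (le_max_right _ _) (le_max_left _ _)) hn
  have hnC : nC ≤ Fintype.card V := le_trans (le_trans (le_max_left _ _) (le_max_right _ _)) hn
  have hnL : nL ≤ Fintype.card V := le_trans (le_trans (le_max_right _ _) (le_max_right _ _)) hn
  obtain ⟨hA1, hA2⟩ := hA _ hnA
  have hB1 := hB _ hnB
  have hC1 := hC _ hnC
  obtain ⟨hL1, -⟩ := hLn _ hnL
  have hL1' : (1 : ℝ) ≤ (Lc c (Fintype.card V) : ℝ) := by exact_mod_cast hL1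
  have hlg1 : 1 ≤ Real.log (Fintype.card V) ^ 10 := one_le_pow₀ hA2
  have hm1 : 1 ≤ max (Δ : ℝ) (Real.log (Fintype.card V) ^ 10) := le_trans hlg1 (le_max_right _ _)
  have hm0 : 0 ≤ max (Δ : ℝ) (Real.log (Fintype.card V) ^ 10) := by linarith
  have hp0 : 0 ≤ p := le_trans (by positivity) hp
  have hKd : K * max (Δ : ℝ) (Real.log (Fintype.card V) ^ 10) ≤ d := by
    have h1 := le_trans hp hp1
    rwa [div_le_one hd] at h1
  have hd432 : 432 / c * Real.log (Fintype.card V) ^ 10 ≤ d := by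
    refine le_trans ?_ hKd
    exact mul_le_mul hK (le_max_right _ _) (by positivity) (by linarith)
  have hdc : 54 / c ≤ d := by
    have h1 : 54 / c ≤ 432 / c := by
      refine div_le_div_of_nonneg_right (by norm_num) hc.le
    have h2 : 432 / c * 1 ≤ 432 / c * Real.log (Fintype.card V) ^ 10 :=
      mul_le_mul_of_nonneg_left hlg1 (by positivity)
    linarith
  have hn1 : 1 ≤ Fintype.card V := by
    have h1 : (0 : ℝ) < Fintype.card V := lt_of_lt_of_le hd hdn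
    exact_mod_cast h1
  have hLle : 2 / (c / (48 * Real.log (2 * Fintype.card V))) ^ 2 *
      (Real.log (2 * Fintype.card V) / 2 + Real.log (1 / (c / 16))) ≤
        (Lc c (Fintype.card V) : ℝ) := by
    rw [one_div_div]
    exact Nat.le_ceil _
  obtain ⟨X, mu, hX, hmu, hdeg, hsum, hmix⟩ := exists_host hc hc1.le G E hE hd hn1 hdE
    (xi := c / 16) (by positivity) (by linarith) hLle
  have hmu0 : 0 < mu := by
    by_contra hneg
    have h1 : mu ≤ 0 := not_lt.1 hneg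
    have h2 : 2 * (1 + c / 8) * mu ≤ 0 := mul_nonpos_of_nonneg_of_nonpos (by positivity) h1
    linarith
  have hO : (mkP c ε1 d mu (Lc c (Fintype.card V))).Ok := par_ok hc hc1 hε1 hd hmu hL1 hdc
  have hH : Hs G X (mkP c ε1 d mu (Lc c (Fintype.card V))) := ⟨hdeg, hsum, hmix⟩
  obtain ⟨q, M, hq0, hq1, hq, hM, hlay⟩ := par_lay (m := max (Δ : ℝ)
    (Real.log (Fintype.card V) ^ 10)) hc hc1 hd hmu hdc hK (le_max_left _ _) hp hm1
  have ht0 : (0 : ℝ) ≤ t := Nat.cast_nonneg _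
  have htd' : (t : ℝ) ≤ d := by nlinarith
  have htn : (t : ℝ) ≤ Fintype.card V := le_trans htd' hdn
  have hhm : ((⌈(Lc c (Fintype.card V) : ℝ) * t / (ε1 * d / (Lc c (Fintype.card V)))⌉₊ : ℕ) : ℝ) ≤
      (Lc c (Fintype.card V) : ℝ) ^ 2 / ε1 + 1 := hm_bd hε1 hd hL1' ht0 htd'
  have hcore := core hO hH hX T ht hp0 hp1 E (fun u v h => (hE u v).2 h) hq0 hq1 hq M hM
    ⌈(Lc c (Fintype.card V) : ℝ) * t / (ε1 * d / (Lc c (Fintype.card V)))⌉₊ (Nat.le_ceil _)
    (par_lam hc hc1 hL1)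
  have hpot := par_pot (ε1 := ε1) hc hc1 hε1 hd hmu hL1 ht0 htd
  have hBB := hB1 _ hhm
  have hmu3 : Real.log (Fintype.card V) ^ 10 / 3 ≤ mu := by
    have h1 : Real.log (Fintype.card V) ^ 10 ≤ d := by nlinarith
    nlinarith
  have hCC := hC1 _ mu hhm hmu3 _ _ rfl rfl
  have hexpo := expo_bd (K := K) hc hc1 hd hmu hL1' hK1 (by positivity)
    (le_max_right (Δ : ℝ) (Real.log (Fintype.card V) ^ 10)) hp hmu0
  have hXn : (X.card : ℝ) ≤ 2 * (Fintype.card V : ℝ) := by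
    have h1 : X.card ≤ Fintype.card (V × Bool) := Finset.card_le_univ X
    rw [Fintype.card_prod, Fintype.card_bool] at h1
    have h2 : (X.card : ℝ) ≤ (Fintype.card V : ℝ) * 2 := by exact_mod_cast h1
    linarith
  refine le_trans hcore ?_
  refine le_trans ?_ heε
  have e1 : Real.exp ((mkP c ε1 d mu (Lc c (Fintype.card V))).th * ((t : ℝ) /
        (2 * (mkP c ε1 d mu (Lc c (Fintype.card V))).mu)
        + (mkP c ε1 d mu (Lc c (Fintype.card V))).xi * t /
          (mkP c ε1 d mu (Lc c (Fintype.card V))).mu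
        + ((mkP c ε1 d mu (Lc c (Fintype.card V))).xl +
          3 * (mkP c ε1 d mu (Lc c (Fintype.card V))).x +
          4 * (mkP c ε1 d mu (Lc c (Fintype.card V))).th *
            ((mkP c ε1 d mu (Lc c (Fintype.card V))).hb /
              (mkP c ε1 d mu (Lc c (Fintype.card V))).mu)) *
            (((mkP c ε1 d mu (Lc c (Fintype.card V))).L : ℝ) * t /
              (mkP c ε1 d mu (Lc c (Fintype.card V))).mu)
          - (mkP c ε1 d mu (Lc c (Fintype.card V))).B)) ≤ e / 4 := by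
    rw [← hexp]
    exact Real.exp_le_exp.2 hpot
  have e2 : 2 * (((mkP c ε1 d mu (Lc c (Fintype.card V))).L : ℝ) + 1) * (X.card : ℝ) *
        Real.exp ((mkP c ε1 d mu (Lc c (Fintype.card V))).lam
          - (mkP c ε1 d mu (Lc c (Fintype.card V))).lam *
            (mkP c ε1 d mu (Lc c (Fintype.card V))).x *
            (mkP c ε1 d mu (Lc c (Fintype.card V))).mu / 2
          + (mkP c ε1 d mu (Lc c (Fintype.card V))).lam /
            (mkP c ε1 d mu (Lc c (Fintype.card V))).κ *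
            (⌈(Lc c (Fintype.card V) : ℝ) * t / (ε1 * d / (Lc c (Fintype.card V)))⌉₊ : ℕ)) ≤
        e / 4 := by
    refine le_trans ?_ hCC
    refine mul_le_mul_of_nonneg_right ?_ (Real.exp_pos _).le
    exact mul_le_mul_of_nonneg_left hXn (by positivity)
  have e3 : (t : ℝ) * (2 ^ Δ * (3 / 4) ^ M) ≤ e / 4 := by
    refine le_trans ?_ hA1
    have h1 : (2 : ℝ) ^ Δ * (3 / 4) ^ M ≤ Real.exp (1 - Real.log (Fintype.card V) ^ 10) := by
      refine le_trans hlay (Real.exp_le_exp.2 ?_)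
      have := le_max_right (Δ : ℝ) (Real.log (Fintype.card V) ^ 10)
      linarith
    exact mul_le_mul htn h1 (by positivity) (by positivity)
  have e4 : (t : ℝ) * ((⌈(Lc c (Fintype.card V) : ℝ) * t /
        (ε1 * d / (Lc c (Fintype.card V)))⌉₊ : ℕ) *
        Real.exp ((⌈(Lc c (Fintype.card V) : ℝ) * t /
          (ε1 * d / (Lc c (Fintype.card V)))⌉₊ : ℕ)
          - p * (mkP c ε1 d mu (Lc c (Fintype.card V))).xl *
            ((mkP c ε1 d mu (Lc c (Fintype.card V))).κ *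
              (mkP c ε1 d mu (Lc c (Fintype.card V))).mu) / 36)) ≤ e / 4 := by
    refine le_trans ?_ hBB
    refine mul_le_mul htn ?_ (by positivity) (by positivity)
    refine mul_le_mul_of_nonneg_left ?_ (by positivity)
    refine Real.exp_le_exp.2 ?_
    exact sub_le_sub_left hexpo _
  rw [mul_add]
  linarith

end Pool.Agent.Lib.MP_56e41f_co.LD
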