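import Pool.Agent.Lib.MP_56e41f_co.LD.Sym

/-!
# Placing the light children with layers: abstract form
-/

open Finset

namespace Pool.Agent.Lib.MP_56e41f_co.LD

variable {V : Type} [Fintype V] [DecidableEq V]

/-- One layer: if `U` is at least `1` nothing is to be shown. Otherwise let `C`, `nx` be as in
`hstep`. For a random `O ⊆ N` with `O ∩ C ≠ ∅` the value of the remaining layers at `i :: l` is at
least the one at `(l, nx u)` for every `u ∈ O ∩ C`, hence at least the average over `u ∈ O ∩ C`,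
`ex_avg`, `ex_inter`; if `O ∩ C = ∅` use the bound for `(i :: l, σ)` with `k` layers. With
`s = 1 - (1 - q) ^ |C| ≥ 1/2` the loss `2 ^ |l| (3/4) ^ k` satisfies
`s (1/2) + (1 - s) ≤ 3/4`. -/
theorem light_abs {S ι : Type*} (N : Finset V) {q : ℝ} (h0 : 0 ≤ q) (h1 : q ≤ 1)
    (I : List ι → S → Prop) (Uf : List ι → S → ℝ) (val : List ι → S → Finset V → ℝ) (δ₁ : ℝ)
    (hδ : 0 ≤ δ₁)
    (hU : ∀ l σ, 0 ≤ Uf l σ) (hval : ∀ l σ O, 0 ≤ val l σ O)
    (hmono : ∀ l σ (O O' : Finset V), O ⊆ O' → val l σ O ≤ val l σ O')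
    (hbase : ∀ σ, I [] σ → ∀ O, 1 - Uf [] σ - δ₁ ≤ val [] σ O)
    (hstep : ∀ i l σ, I (i :: l) σ → Uf (i :: l) σ < 1 → ∃ (C : Finset V) (nx : V → S),
      C ⊆ N ∧ C.Nonempty ∧ (1 - q) ^ C.card ≤ 1 / 2 ∧ (∀ u ∈ C, I l (nx u)) ∧
      (∀ u ∈ C, ∀ O, u ∈ O → val l (nx u) O ≤ val (i :: l) σ O) ∧
      ∑ u ∈ C, Uf l (nx u) ≤ (C.card : ℝ) * Uf (i :: l) σ)
    (k : ℕ) (l : List ι) (σ : S) (hI : I l σ) :
    1 - Uf l σ - 2 ^ l.length * (3 / 4) ^ k - δ₁ ≤ lay q N k (val l σ) := by
  have hnn : ∀ (k : ℕ) (l : List ι) (σ : S) (O : Finset V),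
      0 ≤ lay q N k (fun R => val l σ (O ∪ R)) := fun k l σ O => by
    have h := lay_mono h0 h1 N k (Θ := fun _ => (0 : ℝ)) (Θ' := fun R => val l σ (O ∪ R))
      (fun R _ => hval l σ _)
    rwa [lay_const] at h
  have hnil : ∀ (k : ℕ) (σ : S), I [] σ →
      1 - Uf [] σ - 2 ^ ([] : List ι).length * (3 / 4) ^ k - δ₁ ≤ lay q N k (val [] σ) :=
    fun k σ hI => by
    have h := lay_mono h0 h1 N k (Θ := fun _ => 1 - Uf [] σ - δ₁) (Θ' := val [] σ)
      (fun R _ => hbase σ hI R)
    rw [lay_const] at h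
    have h2 : (0 : ℝ) ≤ 2 ^ ([] : List ι).length * (3 / 4) ^ k := by positivity
    linarith
  induction k generalizing l σ with
  | zero =>
    cases l with
    | nil => exact hnil 0 σ hI
    | cons i l =>
      have h2 : (1 : ℝ) ≤ 2 ^ (i :: l).length * (3 / 4) ^ 0 := by
        rw [pow_zero, mul_one]
        exact one_le_pow₀ (by norm_num)
      have h3 := hU (i :: l) σ
      have h4 : 0 ≤ lay q N 0 (val (i :: l) σ) := hval (i :: l) σ ∅
      linarith
  | succ k ih =>
    cases l with
    | nil => exact hnil (k + 1) σ hI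
    | cons i l =>
      have hE : (0 : ℝ) ≤ 2 ^ l.length * (3 / 4) ^ k := by positivity
      have hlen : (i :: l).length = l.length + 1 := rfl
      have hE1 : (2 : ℝ) ^ (i :: l).length * (3 / 4) ^ (k + 1) =
          3 / 2 * (2 ^ l.length * (3 / 4) ^ k) := by
        rw [hlen, pow_succ, pow_succ]
        ring
      have hE2 : (2 : ℝ) ^ (i :: l).length * (3 / 4) ^ k =
          2 * (2 ^ l.length * (3 / 4) ^ k) := by
        rw [hlen, pow_succ]
        ring
      have hlay : lay q N (k + 1) (val (i :: l) σ) =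
          ex q N (fun O => lay q N k (fun R => val (i :: l) σ (O ∪ R))) := rfl
      by_cases hU1 : Uf (i :: l) σ < 1
      · obtain ⟨C, nx, hCN, hCne, hCp, hCI, hCv, hCs⟩ := hstep i l σ hI hU1
        rw [hlay, hE1]
        set E : ℝ := 2 ^ l.length * (3 / 4) ^ k with hEdef
        have ih0 := ih (i :: l) σ hI
        rw [hE2] at ih0
        have hpt : ∀ O ⊆ N,
            (∑ u ∈ O ∩ C, (1 - Uf l (nx u) - E - δ₁)) / ((O ∩ C).card : ℝ) +
              (1 - Uf (i :: l) σ - 2 * E - δ₁) * ind (O ∩ C = ∅) ≤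
              lay q N k (fun R => val (i :: l) σ (O ∪ R)) := by
          intro O hO
          by_cases hOC : O ∩ C = ∅
          · rw [ind_true hOC, hOC, Finset.sum_empty, zero_div, zero_add, mul_one]
            refine le_trans ih0 (lay_mono h0 h1 N k fun R _ => ?_)
            exact hmono _ _ _ _ Finset.subset_union_right
          · rw [ind_false hOC, mul_zero, add_zero]
            have hne : (O ∩ C).Nonempty := Finset.nonempty_iff_ne_empty.2 hOC
            have hc : (0 : ℝ) < ((O ∩ C).card : ℝ) := by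
              exact_mod_cast Finset.card_pos.2 hne
            rw [div_le_iff₀ hc]
            have hs : ∑ u ∈ O ∩ C, (1 - Uf l (nx u) - E - δ₁) ≤
                ∑ _u ∈ O ∩ C, lay q N k (fun R => val (i :: l) σ (O ∪ R)) := by
              refine Finset.sum_le_sum fun u hu => ?_
              have huO : u ∈ O := (Finset.mem_inter.1 hu).1
              have huC : u ∈ C := (Finset.mem_inter.1 hu).2
              refine le_trans (ih l (nx u) (hCI u huC)) (lay_mono h0 h1 N k fun R _ => ?_)
              refine le_trans (hmono l (nx u) R (O ∪ R) Finset.subset_union_right) ?_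
              exact hCv u huC (O ∪ R) (Finset.mem_union_left R huO)
            rw [Finset.sum_const, nsmul_eq_mul] at hs
            linarith
        have h5 := ex_mono h0 h1 N hpt
        refine le_trans ?_ h5
        have h6 := ex_inter q N C hCN
          (fun O => (∑ u ∈ O, (1 - Uf l (nx u) - E - δ₁)) / (O.card : ℝ) +
              (1 - Uf (i :: l) σ - 2 * E - δ₁) * ind (O = ∅))
        rw [h6, ex_add, ex_mul_left, ex_avg, ex_ind_empty]
        have hCc : (0 : ℝ) < (C.card : ℝ) := by
          exact_mod_cast Finset.card_pos.2 hCne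
        have hav : 1 - Uf (i :: l) σ - E - δ₁ ≤
            (∑ u ∈ C, (1 - Uf l (nx u) - E - δ₁)) / (C.card : ℝ) := by
          rw [le_div_iff₀ hCc]
          have h7 : ∑ u ∈ C, (1 - Uf l (nx u) - E - δ₁) =
              (C.card : ℝ) * (1 - E - δ₁) - ∑ u ∈ C, Uf l (nx u) := by
            rw [← nsmul_eq_mul, ← Finset.sum_const, ← Finset.sum_sub_distrib]
            exact Finset.sum_congr rfl fun u _ => by ring
          rw [h7]
          linarith
        have hr0 : 0 ≤ (1 - q) ^ C.card := pow_nonneg (by linarith) _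
        have h8 : (1 - (1 - q) ^ C.card) * (1 - Uf (i :: l) σ - E - δ₁) ≤
            (1 - (1 - q) ^ C.card) *
              ((∑ u ∈ C, (1 - Uf l (nx u) - E - δ₁)) / (C.card : ℝ)) :=
          mul_le_mul_of_nonneg_left hav (by linarith)
        have h9 : (1 - q) ^ C.card * E ≤ 1 / 2 * E := mul_le_mul_of_nonneg_right hCp hE
        nlinarith
      · have h3 : 0 ≤ lay q N (k + 1) (val (i :: l) σ) := by
          rw [hlay]
          exact ex_nonneg h0 h1 N fun O _ => hnn k _ _ O
        rw [hE1]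
        have h4 : 1 ≤ Uf (i :: l) σ := not_lt.1 hU1
        linarith

end Pool.Agent.Lib.MP_56e41f_co.LD
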