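import Mathlib

/-!
# Asymptotics
-/

open Finset

namespace Pool.Agent.Lib.MP_56e41f_co.LD

/-- mixing time -/
noncomputable def Lc (c : ℝ) (n : ℕ) : ℕ :=
  ⌈2 / (c / (48 * Real.log (2 * n))) ^ 2 *
    (Real.log (2 * n) / 2 + Real.log (16 / c))⌉₊

end Pool.Agent.Lib.MP_56e41f_co.LD
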