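import Pool.Agent.Lib.MP_56e41f_co.LD.Key

/-!
# Stationarity and the choice of the root
-/

open Finset

namespace Pool.Agent.Lib.MP_56e41f_co.LD

variable {V : Type} [Fintype V] [DecidableEq V] {t Δ : ℕ}

open Classical in
private theorem staA_nb (G : SimpleGraph V) (X : Finset (V × Bool)) (x : V × Bool)
    (h : V × Bool → ℝ) : ∑ u ∈ nb G X x, h (u, !x.2) =
      ∑ y ∈ X.filter (fun y => y.2 = !x.2), if G.Adj x.1 y.1 then h y else 0 := by
  rw [← Finset.sum_filter]
  refine Finset.sum_nbij' (fun u => (u, !x.2)) (fun y => y.1) ?_ ?_ ?_ ?_ ?_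
  · intro u hu
    have h1 := (mem_nb G X x u).1 hu
    exact Finset.mem_filter.2 ⟨Finset.mem_filter.2 ⟨h1.2, rfl⟩, h1.1⟩
  · intro y hy
    have h1 := Finset.mem_filter.1 hy
    have h2 := Finset.mem_filter.1 h1.1
    refine (mem_nb G X x y.1).2 ⟨h1.2, ?_⟩
    rw [← h2.2]
    exact h2.1
  · intro u _
    rfl
  · intro y hy
    have h1 := Finset.mem_filter.1 hy
    have h2 := Finset.mem_filter.1 h1.1
    exact Prod.ext rfl h2.2.symm
  · intro u _
    rfl

open Classical in
private theorem staA_dg (G : SimpleGraph V) (X : Finset (V × Bool)) (x : V × Bool) :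
    dg G X x = ∑ y ∈ X.filter (fun y => y.2 = !x.2), if G.Adj x.1 y.1 then (1 : ℝ) else 0 := by
  rw [← staA_nb G X x (fun _ => 1), Finset.sum_const, nsmul_eq_mul, mul_one]
  rfl

/-- double counting of the edges of `X`: `∑ x in side b, ∑ u ∈ nb x, f (u, !b) =
∑ y in side !b, dg y * f y` -/
theorem walk_sum (G : SimpleGraph V) (X : Finset (V × Bool)) (b : Bool) (f : V × Bool → ℝ) :
    ∑ x ∈ X.filter (fun x => x.2 = b), ∑ u ∈ nb G X x, f (u, !x.2) =
      ∑ y ∈ X.filter (fun y => y.2 = !b), dg G X y * f y := by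
  classical
  have h1 : ∀ x ∈ X.filter (fun x => x.2 = b), ∑ u ∈ nb G X x, f (u, !x.2) =
      ∑ y ∈ X.filter (fun y => y.2 = !b), if G.Adj x.1 y.1 then f y else 0 := by
    intro x hx
    rw [staA_nb, (Finset.mem_filter.1 hx).2]
  have h2 : ∀ y ∈ X.filter (fun y => y.2 = !b), dg G X y * f y =
      ∑ x ∈ X.filter (fun x => x.2 = b), if G.Adj x.1 y.1 then f y else 0 := by
    intro y hy
    rw [staA_dg, (Finset.mem_filter.1 hy).2, Bool.not_not, Finset.sum_mul]
    refine Finset.sum_congr rfl fun x _ => ?_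
    rw [ite_mul, one_mul, zero_mul, G.adj_comm]
  rw [Finset.sum_congr rfl h1, Finset.sum_congr rfl h2, Finset.sum_comm]

/-- both sides have the same number of edges -/
theorem mm_side (G : SimpleGraph V) (X : Finset (V × Bool)) (b : Bool) :
    ∑ x ∈ X.filter (fun x => x.2 = b), dg G X x = mm G X := by
  cases b with
  | false => rfl
  | true =>
    have h := walk_sum G X false (fun _ => 1)
    have h1 : ∑ x ∈ X.filter (fun x => x.2 = false), ∑ _u ∈ nb G X x, (1 : ℝ) = mm G X := by
      refine Finset.sum_congr rfl fun x _ => ?_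
      rw [Finset.sum_const, nsmul_eq_mul, mul_one]
      rfl
    rw [h1] at h
    rw [h]
    refine Finset.sum_congr rfl fun x _ => ?_
    rw [mul_one]

/-- induction on `r` with `walk_sum` -/
theorem stat {G : SimpleGraph V} {X : Finset (V × Bool)} {P : Pm} (hO : P.Ok) (hH : Hs G X P)
    (r : ℕ) (b : Bool) :
    ∑ x ∈ X.filter (fun x => x.2 = b), dg G X x * Gr G X r x = sz X (sd b r) := by
  induction r generalizing b with
  | zero =>
    have h1 : ∀ x ∈ X.filter (fun x => x.2 = b), dg G X x * Gr G X 0 x = 1 := by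
      intro x hx
      rw [Gr_zero, mul_one_div, div_self (dg_pos hO hH (Finset.mem_filter.1 hx).1).ne']
    rw [Finset.sum_congr rfl h1, Finset.sum_const, nsmul_eq_mul, mul_one]
    rfl
  | succ r ih =>
    have h1 : ∀ x ∈ X.filter (fun x => x.2 = b), dg G X x * Gr G X (r + 1) x =
        ∑ u ∈ nb G X x, Gr G X r (u, !x.2) := by
      intro x hx
      rw [Gr_succ, mul_div_cancel₀ _ (dg_pos hO hH (Finset.mem_filter.1 hx).1).ne']
    rw [Finset.sum_congr rfl h1, walk_sum G X b (Gr G X r), ih (!b)]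
    rfl

theorem sz_add (X : Finset (V × Bool)) (b : Bool) : sz X b + sz X (!b) = (X.card : ℝ) := by
  have h1 : X.filter (fun x => x.2 = !b) = X.filter (fun x => ¬ x.2 = b) := by
    refine Finset.filter_congr fun x _ => ?_
    cases x.2 <;> cases b <;> simp
  unfold sz
  rw [h1, ← Nat.cast_add, Finset.card_filter_add_card_filter_not]

end Pool.Agent.Lib.MP_56e41f_co.LD
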