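import Pool.Agent.Lib.MP_56e41f_co.LD.Key
import Pool.Agent.Lib.MP_56e41f_co.LD.StaA

/-!
# Stationarity and the choice of the root
-/

open Finset

namespace Pool.Agent.Lib.MP_56e41f_co.LD

variable {V : Type} [Fintype V] [DecidableEq V] {t Δ : ℕ}

private theorem sd_not (s : Bool) (k : ℕ) : sd (!s) k = !(sd s k) := by
  induction k with
  | zero => rfl
  | succ k ih => rw [sd_succ, sd_succ, ih]

private theorem stb_split {M : Type} [AddCommMonoid M] (L t : ℕ) (f : ℕ → M) :
    ∑ r ∈ range L, f r + ∑ r ∈ Ico L t, f r = ∑ r ∈ range (max L t), f r := by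
  rcases le_total L t with h | h
  · rw [max_eq_right h, Finset.sum_range_add_sum_Ico f h]
  · rw [max_eq_left h, Finset.Ico_eq_empty_of_le h, Finset.sum_empty, add_zero]

/-- sum over one side -/
private theorem stb_side {G : SimpleGraph V} {X : Finset (V × Bool)} {P : Pm} (hO : P.Ok)
    (hH : Hs G X P) (D : TD t Δ) (i : Fin t) (s : Bool) :
    ∑ x ∈ X.filter (fun x => x.2 = s), dg G X x * (Fn G X D P.L i x + Fc G X P D s i) =
      ∑ r ∈ range P.L, ((dsc D i r).card : ℝ) * sz X (sd s r) + mm G X * Fc G X P D s i := by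
  have h1 : ∀ x ∈ X.filter (fun x => x.2 = s),
      dg G X x * (Fn G X D P.L i x + Fc G X P D s i) =
      ∑ r ∈ range P.L, ((dsc D i r).card : ℝ) * (dg G X x * Gr G X r x) +
        dg G X x * Fc G X P D s i := by
    intro x _
    rw [mul_add]
    congr 1
    unfold Fn
    rw [Finset.mul_sum]
    refine Finset.sum_congr rfl fun r _ => ?_
    ring
  rw [Finset.sum_congr rfl h1, Finset.sum_add_distrib, Finset.sum_comm, ← Finset.sum_mul,
    mm_side]
  congr 1
  refine Finset.sum_congr rfl fun r _ => ?_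
  rw [← Finset.mul_sum, stat hO hH]

/-- The mean over the stationary distributions of the two sides `s` of `Fn root x + Fc root` is
`(1/2) ∑ r, |dsc root r| * (|X| / mm)` plus at most `xi t / mu`; `|X| / mm = 1 / mu`. Hence some side
and some `x0` on it are at most the mean. (`∑ x in side s, dg x / mm = 1`.) -/
theorem root_exists {G : SimpleGraph V} {X : Finset (V × Bool)} {P : Pm} (hO : P.Ok)
    (hH : Hs G X P) (hX : X.Nonempty) (D : TD t Δ) (ht : 0 < t) :
    ∃ (s : Bool) (x0 : V × Bool), x0 ∈ X ∧ x0.2 = s ∧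
      Fn G X D P.L ⟨0, ht⟩ x0 + Fc G X P D s ⟨0, ht⟩ ≤
        (t : ℝ) / (2 * P.mu) + P.xi * t / P.mu := by
  by_contra hcon
  push Not at hcon
  set i : Fin t := ⟨0, ht⟩ with hi
  set B : ℝ := (t : ℝ) / (2 * P.mu) + P.xi * t / P.mu with hB
  have hmu := hO.mu0
  have hXc : (0 : ℝ) < (X.card : ℝ) := by exact_mod_cast hX.card_pos
  have hmm : mm G X = P.mu * X.card := hH.sum
  have hmm0 : 0 < mm G X := by rw [hmm]; positivity
  have hdep : D.dep i = 0 := (D.dep_zero i).mpr rfl
  -- one side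
  have side : ∀ s : Bool,
      mm G X * B ≤ ∑ r ∈ range P.L, ((dsc D i r).card : ℝ) * sz X (sd s r) +
        mm G X * Fc G X P D s i := by
    intro s
    rw [← stb_side hO hH D i s, ← mm_side G X s, Finset.sum_mul]
    refine Finset.sum_le_sum fun x hx => ?_
    rw [Finset.mem_filter] at hx
    exact mul_le_mul_of_nonneg_left (hcon s x hx.1 hx.2).le (dg_pos hO hH hx.1).le
  obtain ⟨x1, hx1⟩ := hX
  have side1 : mm G X * B < ∑ r ∈ range P.L, ((dsc D i r).card : ℝ) * sz X (sd x1.2 r) +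
        mm G X * Fc G X P D x1.2 i := by
    rw [← stb_side hO hH D i x1.2, ← mm_side G X x1.2, Finset.sum_mul]
    refine Finset.sum_lt_sum (fun x hx => ?_) ⟨x1, ?_, ?_⟩
    · rw [Finset.mem_filter] at hx
      exact mul_le_mul_of_nonneg_left (hcon x1.2 x hx.1 hx.2).le (dg_pos hO hH hx.1).le
    · rw [Finset.mem_filter]; exact ⟨hx1, rfl⟩
    · exact mul_lt_mul_of_pos_left (hcon x1.2 x1 hx1 rfl) (dg_pos hO hH hx1)
  have side2 := side (!x1.2)
  generalize x1.2 = s at side1 side2
  -- sum of the two sides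
  have e1 : ∑ r ∈ range P.L, ((dsc D i r).card : ℝ) * sz X (sd s r) +
      ∑ r ∈ range P.L, ((dsc D i r).card : ℝ) * sz X (sd (!s) r) =
      ∑ r ∈ range P.L, ((dsc D i r).card : ℝ) * X.card := by
    rw [← Finset.sum_add_distrib]
    refine Finset.sum_congr rfl fun r _ => ?_
    rw [← mul_add, sd_not, sz_add]
  have e2 : mm G X * Fc G X P D s i + mm G X * Fc G X P D (!s) i =
      ∑ r ∈ Ico P.L t, ((dsc D i r).card : ℝ) * ((X.card : ℝ) + 2 * P.xi * X.card) := by
    unfold Fc
    rw [Finset.mul_sum, Finset.mul_sum, ← Finset.sum_add_distrib]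
    refine Finset.sum_congr rfl fun r _ => ?_
    rw [hdep, zero_add]
    unfold Cst
    rw [sd_not, ← sz_add X (sd s r)]
    have h1 : mm G X * (P.xi / P.mu) = P.xi * (sz X (sd s r) + sz X (!(sd s r))) := by
      rw [sz_add, hmm]
      field_simp
    have h2 : ∀ b : Bool, mm G X * (sz X b / mm G X) = sz X b := by
      intro b
      field_simp
    have h3 : mm G X * (((dsc D i r).card : ℝ) * (sz X (sd s r) / mm G X + P.xi / P.mu)) +
        mm G X * (((dsc D i r).card : ℝ) * (sz X (!(sd s r)) / mm G X + P.xi / P.mu)) =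
        ((dsc D i r).card : ℝ) * (mm G X * (sz X (sd s r) / mm G X) +
          mm G X * (sz X (!(sd s r)) / mm G X) + 2 * (mm G X * (P.xi / P.mu))) := by ring
    rw [h3, h1, h2, h2]
    ring
  have hS : ∑ r ∈ range (max P.L t), ((dsc D i r).card : ℝ) ≤ t := sum_dsc D i _
  rw [← stb_split] at hS
  have hI0 : 0 ≤ ∑ r ∈ Ico P.L t, ((dsc D i r).card : ℝ) :=
    Finset.sum_nonneg fun r _ => Nat.cast_nonneg _
  have hR0 : 0 ≤ ∑ r ∈ range P.L, ((dsc D i r).card : ℝ) :=
    Finset.sum_nonneg fun r _ => Nat.cast_nonneg _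
  rw [← Finset.sum_mul] at e1 e2
  set R : ℝ := ∑ r ∈ range P.L, ((dsc D i r).card : ℝ) with hR
  set I : ℝ := ∑ r ∈ Ico P.L t, ((dsc D i r).card : ℝ) with hI
  have e3 : 2 * (mm G X * B) = X.card * t + 2 * P.xi * X.card * t := by
    rw [hmm, hB]
    field_simp
  have e4 : 2 * (mm G X * B) < R * X.card + I * ((X.card : ℝ) + 2 * P.xi * X.card) := by
    rw [← e1, ← e2]
    linarith
  rw [e3] at e4
  have hxi := hO.xi0
  have e5 : (R + I) * X.card ≤ X.card * t := by
    rw [mul_comm (X.card : ℝ)]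
    exact mul_le_mul_of_nonneg_right hS hXc.le
  have e6 : I * (2 * P.xi * X.card) ≤ 2 * P.xi * X.card * t := by
    rw [mul_comm]
    exact mul_le_mul_of_nonneg_left (by linarith) (by positivity)
  nlinarith

end Pool.Agent.Lib.MP_56e41f_co.LD
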