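import Pool.Agent.Lib.MP_56e41f_co.LD.StaA
import Pool.Agent.Lib.MP_56e41f_co.LD.StaB

/-!
# Stationarity and the choice of the root
-/
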