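import Pool.Agent.Lib.MP_56e41f_co.LD.Ind
import Pool.Agent.Lib.MP_56e41f_co.LD.Stat

/-!
# The core theorem: a good host contains the tree
-/

open Finset

namespace Pool.Agent.Lib.MP_56e41f_co.LD

variable {V : Type} [Fintype V] [DecidableEq V] {t Δ : ℕ}

/-- one vertex is missing -/
private theorem cora_Ys {G : SimpleGraph V} {X : Finset (V × Bool)} {P : Pm} (hO : P.Ok)
    (hH : Hs G X P) (x0 : V) (k : ℕ) (x : V × Bool) :
    |Ys G X P k x (univ.erase x0) / 1 - Ys G X P k x univ| ≤ 1 := by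
  rw [div_one]
  unfold Ys
  rw [Finset.inter_univ, Finset.inter_erase, Finset.inter_univ]
  by_cases h : x0 ∈ nb G X x
  · rw [← Finset.add_sum_erase _ (fun u => fk G X P k (u, !x.2)) h]
    have h1 := fk_nonneg (G := G) (X := X) hO k (x0, !x.2)
    have h2 := fk_le hO hH k (((mem_nb G X x x0).mp h).2)
    have h3 : ∑ u ∈ (nb G X x).erase x0, fk G X P k (u, !x.2) -
        (fk G X P k (x0, !x.2) + ∑ u ∈ (nb G X x).erase x0, fk G X P k (u, !x.2)) =
        -(fk G X P k (x0, !x.2)) := by ring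
    rw [h3, abs_neg, abs_of_nonneg h1]
    exact h2
  · rw [Finset.erase_eq_of_notMem h, sub_self, abs_zero]
    exact zero_le_one

/-- one exponent -/
private theorem cora_Zt {G : SimpleGraph V} {X : Finset (V × Bool)} {P : Pm} (hO : P.Ok)
    (hH : Hs G X P) (x0 : V) (hlam : 4 / P.κ ^ 2 * P.lam * Real.log (2 / P.κ) ≤ P.x / 2)
    {h h' : ℝ} (hh : h ≤ h') {x : V × Bool} (hx : x ∈ X) (k : ℕ) (e : ℝ) (he : |e| = 1) :
    Zt G X P e k x (univ.erase x0) 1 h ≤
      Real.exp (P.lam - P.lam * P.x * P.mu / 2 + P.lam / P.κ * h') := by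
  unfold Zt
  refine Real.exp_le_exp.mpr ?_
  have hl := hO.lam0
  have hk := hO.k0
  have hx0 := hO.x0
  have hd := dg_pos hO hH hx
  have hmd := hH.deg x hx
  have h1 : e * P.lam * (Ys G X P k x (univ.erase x0) / 1 - Ys G X P k x univ) ≤ P.lam := by
    refine (le_abs_self _).trans ?_
    rw [abs_mul, abs_mul, he, one_mul, abs_of_pos hl]
    exact mul_le_of_le_one_right hl.le (cora_Ys hO hH x0 k x)
  have h2 : 4 / P.κ ^ 2 * P.lam ^ 2 * dg G X x * Real.log (2 * 1 / P.κ) ≤
      P.lam * dg G X x * (P.x / 2) := by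
    have h3 : 4 / P.κ ^ 2 * P.lam ^ 2 * dg G X x * Real.log (2 * 1 / P.κ) =
        P.lam * dg G X x * (4 / P.κ ^ 2 * P.lam * Real.log (2 / P.κ)) := by
      rw [mul_one]; ring
    rw [h3]
    exact mul_le_mul_of_nonneg_left hlam (by positivity)
  have h4 : P.lam / P.κ * h ≤ P.lam / P.κ * h' := mul_le_mul_of_nonneg_left hh (by positivity)
  have h5 : P.lam * P.x * P.mu ≤ P.lam * P.x * dg G X x :=
    mul_le_mul_of_nonneg_left hmd (by positivity)
  have h6 : P.lam * dg G X x * (P.x / 2) = P.lam * P.x * dg G X x / 2 := by ring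
  linarith

/-- initial value of the test function part: every exponent is at most
`lam - lam x dg / 2 + lam / κ * h` (at most one free vertex is missing, `f ≤ 1`) -/
theorem UZ_start {G : SimpleGraph V} {X : Finset (V × Bool)} {P : Pm} (hO : P.Ok)
    (hH : Hs G X P) (x0 : V) (hlam : 4 / P.κ ^ 2 * P.lam * Real.log (2 / P.κ) ≤ P.x / 2)
    {h h' : ℝ} (hh : h ≤ h') :
    UZ G X P (univ.erase x0) 1 h ≤ 2 * ((P.L : ℝ) + 1) * (X.card : ℝ) *
      Real.exp (P.lam - P.lam * P.x * P.mu / 2 + P.lam / P.κ * h') := by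
  unfold UZ
  have h1 : ∀ x ∈ X, ∑ k ∈ range (P.L + 1),
      (Zt G X P 1 k x (univ.erase x0) 1 h + Zt G X P (-1) k x (univ.erase x0) 1 h) ≤
      2 * ((P.L : ℝ) + 1) *
        Real.exp (P.lam - P.lam * P.x * P.mu / 2 + P.lam / P.κ * h') := by
    intro x hx
    have h2 : ∀ k ∈ range (P.L + 1),
        Zt G X P 1 k x (univ.erase x0) 1 h + Zt G X P (-1) k x (univ.erase x0) 1 h ≤
        2 * Real.exp (P.lam - P.lam * P.x * P.mu / 2 + P.lam / P.κ * h') := by
      intro k _
      have h3 := cora_Zt hO hH x0 hlam hh hx k 1 abs_one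
      have h4 := cora_Zt hO hH x0 hlam hh hx k (-1) (by rw [abs_neg, abs_one])
      linarith
    refine (Finset.sum_le_sum h2).trans_eq ?_
    rw [Finset.sum_const, Finset.card_range, nsmul_eq_mul]
    push_cast
    ring
  refine (Finset.sum_le_sum h1).trans_eq ?_
  rw [Finset.sum_const, nsmul_eq_mul]
  ring

end Pool.Agent.Lib.MP_56e41f_co.LD
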