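import Pool.Agent.Lib.MP_56e41f_co.LD.Ind
import Pool.Agent.Lib.MP_56e41f_co.LD.Stat
import Pool.Agent.Lib.MP_56e41f_co.LD.CorA

/-!
# The core theorem: a good host contains the tree
-/

open Finset

namespace Pool.Agent.Lib.MP_56e41f_co.LD

variable {V : Type} [Fintype V] [DecidableEq V] {t Δ : ℕ}

/-- Start at the root `x0` of `root_exists`, `induct` with `a = 0`, `PV_start`. -/
theorem core {G : SimpleGraph V} {X : Finset (V × Bool)} {P : Pm} (hO : P.Ok)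
    (hH : Hs G X P) (hX : X.Nonempty) (D : TD t Δ) (ht : 0 < t) {p : ℝ} (hp0 : 0 ≤ p)
    (hp1 : p ≤ 1) (E : Finset (Sym2 V)) (hE : ∀ u v, G.Adj u v → s(u, v) ∈ E)
    {q : ℝ} (hq0 : 0 ≤ q) (hq1 : q ≤ 1) (hq : 3 / 2 ≤ q * (P.κ * P.mu)) (M : ℕ)
    (hM : M * q ≤ p / 2) (hm : ℕ) (hhm : (P.L : ℝ) * t / P.hb ≤ hm)
    (hlam : 4 / P.κ ^ 2 * P.lam * Real.log (2 / P.κ) ≤ P.x / 2) :
    pr p E (fun ω => ¬ Emb D ω) ≤
      Real.exp (P.th * ((t : ℝ) / (2 * P.mu) + P.xi * t / P.mu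
        + (P.xl + 3 * P.x + 4 * P.th * (P.hb / P.mu)) * ((P.L : ℝ) * t / P.mu) - P.B))
      + 2 * ((P.L : ℝ) + 1) * (X.card : ℝ) *
        Real.exp (P.lam - P.lam * P.x * P.mu / 2 + P.lam / P.κ * hm)
      + t * (2 ^ Δ * (3 / 4) ^ M
        + hm * Real.exp (hm - p * P.xl * (P.κ * P.mu) / 36)) := by
  obtain ⟨s, x0, hx0, hs, hr⟩ := root_exists hO hH hX D ht
  obtain ⟨σ, hσ⟩ : ∃ σ : Sta V t, σ = ⟨fun _ => x0.1, univ.erase x0.1, 1, 0⟩ := ⟨_, rfl⟩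
  have hI : Inv X P D s 0 (chl D P 0) σ := by
    rw [hσ]
    exact Inv_start D s x0 hx0 hs
  have h1 := induct hO hH D s hp0 hp1 E hE hq0 hq1 hq M hM hm hhm 0 (Nat.zero_le _) σ hI
  have h2 := PV_start D hp0 hp1 E x0.1
  have hφ : σ.φ = fun _ => x0.1 := by rw [hσ]
  have hF : σ.F = univ.erase x0.1 := by rw [hσ]
  have hα : σ.α = 1 := by rw [hσ]
  have hp : σ.past = 0 := by rw [hσ]
  rw [hφ, hF] at h1
  -- the root
  have hloc : loc D s σ ⟨0, ht⟩ = x0 := by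
    have h3 : D.dep ⟨0, ht⟩ = 0 := (D.dep_zero ⟨0, ht⟩).2 rfl
    unfold loc
    rw [hφ, h3, sd_zero, ← hs]
  have h4 : Pot G X P D s 0 (chl D P 0) σ ≤ (t : ℝ) / (2 * P.mu) + P.xi * t / P.mu := by
    rw [Pot_start hO G X D s ht σ hp, hloc]
    exact hr
  have h5 : Rs D (bd P D) 0 (chl D P 0) ≤
      (P.xl + 3 * P.x + 4 * P.th * (P.hb / P.mu)) * ((P.L : ℝ) * t / P.mu) :=
    (Rs_start D P (bd_nonneg hO D)).trans (sum_bd hO D)
  have h6 : Rs D (hvi P D) 0 (chl D P 0) ≤ hm :=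
    ((Rs_start D P (hvi_nonneg P D)).trans (sum_hvi P hO.hb0 D)).trans hhm
  have h7 : UP G X P D s 0 (chl D P 0) σ ≤
      Real.exp (P.th * ((t : ℝ) / (2 * P.mu) + P.xi * t / P.mu
        + (P.xl + 3 * P.x + 4 * P.th * (P.hb / P.mu)) * ((P.L : ℝ) * t / P.mu) - P.B)) := by
    unfold UP
    refine Real.exp_le_exp.2 (mul_le_mul_of_nonneg_left ?_ hO.th0.le)
    linarith
  have h8 := UZ_start hO hH x0.1 hlam h6
  have h9 : U G X P D s 0 (chl D P 0) σ = UP G X P D s 0 (chl D P 0) σ +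
      UZ G X P (univ.erase x0.1) 1 (Rs D (hvi P D) 0 (chl D P 0)) := by
    unfold U
    rw [hF, hα]
  rw [h9, Nat.cast_zero, sub_zero] at h1
  linarith

end Pool.Agent.Lib.MP_56e41f_co.LD
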