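import Pool.Agent.Lib.MP_56e41f_co.LD.DblD
import Pool.Agent.Lib.MP_56e41f_co.LD.Stat
import Pool.Agent.Lib.MP_56e41f_co.LD.XMix

/-!
# The double cover
-/

open Finset

namespace Pool.Agent.Lib.MP_56e41f_co.LD

variable {V : Type} [Fintype V] [DecidableEq V]

theorem nbr_DC (G : SimpleGraph V) (X : Finset (V × Bool)) (x : V × Bool) :
    nbr (DC G) X x = (nb G X x).image (fun u => (u, !x.2)) := by
  classical
  ext ⟨u, b⟩
  rw [nbr, nb, Finset.mem_filter, Finset.mem_image]
  constructor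
  · rintro ⟨h1, h2, h3⟩
    change b = !x.2 at h3
    subst h3
    refine ⟨u, ?_, rfl⟩
    rw [Finset.mem_filter]
    exact ⟨Finset.mem_univ _, h2, h1⟩
  · rintro ⟨v, hv, he⟩
    rw [Finset.mem_filter] at hv
    obtain ⟨rfl, rfl⟩ := Prod.mk.inj he
    exact ⟨hv.2.2, hv.2.1, rfl⟩

omit [Fintype V] [DecidableEq V] in
private lemma pair_inj (b : Bool) : Function.Injective (fun u : V => (u, b)) := by
  intro u v h
  exact (Prod.mk.inj h).1

theorem dgr_DC (G : SimpleGraph V) (X : Finset (V × Bool)) (x : V × Bool) :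
    dgr (DC G) X x = dg G X x := by
  rw [dgr, dg, nbr_DC, Finset.card_image_of_injective _ (pair_inj _)]

theorem Pq_DC (G : SimpleGraph V) (X : Finset (V × Bool)) (f : V × Bool → ℝ) :
    Pq (DC G) X f = Pw G X f := by
  funext x
  rw [Pq, Pw, dgr_DC, nbr_DC, Finset.sum_image (fun u _ v _ h => pair_inj _ h)]

end Pool.Agent.Lib.MP_56e41f_co.LD
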