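import Pool.Agent.Lib.MP_56e41f_co.LD.DblD
import Pool.Agent.Lib.MP_56e41f_co.LD.Stat
import Pool.Agent.Lib.MP_56e41f_co.LD.XMix
import Pool.Agent.Lib.MP_56e41f_co.LD.DblA

/-!
# The double cover
-/

open Finset

namespace Pool.Agent.Lib.MP_56e41f_co.LD

variable {V : Type} [Fintype V] [DecidableEq V]

private theorem E2_DC_aux (G : SimpleGraph V) (X : Finset (V × Bool)) :
    E2 (DC G) X = 2 * mm G X := by
  unfold E2
  rw [Finset.sum_congr rfl (fun x _ => dgr_DC G X x)]
  rw [← Finset.sum_filter_add_sum_filter_not X (fun x => x.2 = false)]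
  have h1 : X.filter (fun x => ¬ x.2 = false) = X.filter (fun x => x.2 = true) := by
    apply Finset.filter_congr
    intro x _
    simp
  rw [h1, mm_side, mm_side]
  ring

/-- every edge of `G` gives two edges of the double cover; `E2` counts them twice -/
theorem E2_DC_univ (G : SimpleGraph V) (E : Finset (Sym2 V))
    (hE : ∀ u v, s(u, v) ∈ E ↔ G.Adj u v) : E2 (DC G) univ = 4 * (E.card : ℝ) := by
  classical
  rw [E2_DC_aux]
  have h1 : mm G univ = ∑ u : V, (G.degree u : ℝ) := by
    unfold mm
    have h2 : (univ : Finset (V × Bool)).filter (fun x => x.2 = false) =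
        univ.image (fun u : V => (u, false)) := by
      ext ⟨u, b⟩
      simp
    rw [h2, Finset.sum_image (fun a _ b _ h => (Prod.mk.inj h).1)]
    apply Finset.sum_congr rfl
    intro u _
    unfold dg
    have h3 : nb G univ (u, false) = G.neighborFinset u := by
      ext w
      unfold nb
      simp
    rw [h3, SimpleGraph.card_neighborFinset_eq_degree]
  have h4 : E = G.edgeFinset := by
    ext z
    induction z with
    | _ u v => rw [hE, SimpleGraph.mem_edgeFinset, SimpleGraph.mem_edgeSet]
  have h5 := G.sum_degrees_eq_twice_card_edges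
  have h6 : ∑ u : V, (G.degree u : ℝ) = 2 * (E.card : ℝ) := by
    rw [h4]
    exact_mod_cast h5
  rw [h1, h6]
  ring

theorem E2_DC (G : SimpleGraph V) (X : Finset (V × Bool)) : E2 (DC G) X = 2 * mm G X :=
  E2_DC_aux G X

end Pool.Agent.Lib.MP_56e41f_co.LD
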