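import Pool.Agent.Lib.MP_56e41f_co.LD.DblD
import Pool.Agent.Lib.MP_56e41f_co.LD.Stat
import Pool.Agent.Lib.MP_56e41f_co.LD.XMix
import Pool.Agent.Lib.MP_56e41f_co.LD.DblA

/-!
# The double cover
-/

open Finset

namespace Pool.Agent.Lib.MP_56e41f_co.LD

variable {V : Type} [Fintype V] [DecidableEq V]

/-- Mixing of `g`: `mixing` with `f = 1 / dg`, `col = Prod.snd`. Here `nm f ≤ |X| / mu`, so the
error is at most `(1 - φ ^ 2 / 2) ^ L √|X| / mu ≤ xi / mu`, by
`(1 - y) ^ L ≤ exp (- y L)`. -/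
theorem mix_host (G : SimpleGraph V) (X : Finset (V × Bool)) {mu xi φ : ℝ} {L : ℕ} (hmu : 0 < mu)
    (hdeg : ∀ x ∈ X, mu ≤ dg G X x) (hφ : 0 < φ) (hφ1 : φ ≤ 1)
    (hc : ∀ Z ⊆ X, φ * min (vol (DC G) X Z) (vol (DC G) X (X \ Z)) ≤ ct (DC G) X Z)
    (hxi : 0 < xi)
    (hL : 2 / φ ^ 2 * (Real.log (X.card : ℝ) / 2 + Real.log (1 / xi)) ≤ L) (x : V × Bool)
    (hx : x ∈ X) :
    Gr G X L x ≤ sz X (sd x.2 L) / mm G X + xi / mu := by
  have hdp : ∀ y ∈ X, 0 < dg G X y := fun y hy => hmu.trans_le (hdeg y hy)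
  have h0 := mixing (DC G) X Prod.snd (fun _ _ h => h.2)
    (fun y hy => by rw [dgr_DC]; exact hdp y hy) hφ.le hφ1 hc (fun y => 1 / dg G X y) L x hx
  have hP : Pq (DC G) X = Pw G X := funext fun f => Pq_DC G X f
  rw [hP] at h0
  simp only [dgr_DC] at h0
  have hb : not^[L] x.2 = sd x.2 L := rfl
  rw [hb] at h0
  have e1 : ∑ z ∈ X.filter (fun z => z.2 = sd x.2 L), dg G X z * (1 / dg G X z) =
      sz X (sd x.2 L) := by
    rw [sz, Finset.card_eq_sum_ones, Nat.cast_sum]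
    refine Finset.sum_congr rfl fun z hz => ?_
    have hz' := hdp z (Finset.mem_filter.1 hz).1
    rw [mul_one_div, div_self hz'.ne', Nat.cast_one]
  have e2 := mm_side G X (sd x.2 L)
  rw [e1, e2] at h0
  have hcard : (1 : ℝ) ≤ (X.card : ℝ) := by
    exact_mod_cast Finset.card_pos.2 ⟨x, hx⟩
  have hcp : (0 : ℝ) < (X.card : ℝ) := by linarith
  have e3 : nm (DC G) X Prod.snd (sd x.2 L) (fun y => 1 / dg G X y) ≤ (X.card : ℝ) / mu := by
    rw [nm]
    calc ∑ z ∈ X.filter (fun z => z.2 = sd x.2 L), dgr (DC G) X z * (1 / dg G X z) ^ 2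
        ≤ ∑ z ∈ X.filter (fun z => z.2 = sd x.2 L), 1 / mu := by
          refine Finset.sum_le_sum fun z hz => ?_
          have hzX := (Finset.mem_filter.1 hz).1
          have hz' := hdp z hzX
          rw [dgr_DC]
          have h1 : dg G X z * (1 / dg G X z) ^ 2 = 1 / dg G X z := by
            field_simp
          rw [h1]
          exact one_div_le_one_div_of_le hmu (hdeg z hzX)
      _ ≤ (X.card : ℝ) / mu := by
          rw [Finset.sum_const, nsmul_eq_mul, mul_one_div]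
          gcongr
          exact Finset.filter_subset _ _
  have e4 : √(nm (DC G) X Prod.snd (sd x.2 L) (fun y => 1 / dg G X y) / dg G X x) ≤
      √(X.card : ℝ) / mu := by
    have h1 : √(X.card : ℝ) / mu = √((X.card : ℝ) / mu ^ 2) := by
      rw [Real.sqrt_div hcp.le, Real.sqrt_sq hmu.le]
    rw [h1]
    refine Real.sqrt_le_sqrt ?_
    have h2 : (X.card : ℝ) / mu ^ 2 = (X.card : ℝ) / mu / mu := by
      rw [div_div, sq]
    rw [h2]
    exact div_le_div₀ (by positivity) e3 hmu (hdeg x hx)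
  have e5 : (1 - φ ^ 2 / 2) ^ L ≤ xi / √(X.card : ℝ) := by
    have hφ2 : φ ^ 2 ≤ 1 := by nlinarith
    have hφp : 0 < φ ^ 2 := by positivity
    have h1 : (1 - φ ^ 2 / 2) ^ L ≤ Real.exp (-(φ ^ 2 / 2)) ^ L := by
      refine pow_le_pow_left₀ (by linarith) ?_ L
      have := Real.add_one_le_exp (-(φ ^ 2 / 2))
      linarith
    refine h1.trans ?_
    rw [← Real.exp_nat_mul]
    have h2 : Real.log (X.card : ℝ) / 2 + Real.log (1 / xi) ≤ φ ^ 2 / 2 * L := by
      have h3 : φ ^ 2 / 2 * (2 / φ ^ 2 * (Real.log (X.card : ℝ) / 2 + Real.log (1 / xi))) =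
          Real.log (X.card : ℝ) / 2 + Real.log (1 / xi) := by
        field_simp
      rw [← h3]
      exact mul_le_mul_of_nonneg_left hL (by positivity)
    have h4 : xi / √(X.card : ℝ) =
        Real.exp (-(Real.log (X.card : ℝ) / 2 + Real.log (1 / xi))) := by
      rw [Real.log_div one_ne_zero hxi.ne', Real.log_one, zero_sub, neg_add, neg_neg,
        Real.exp_add, Real.exp_log hxi, Real.exp_neg, ← Real.log_sqrt hcp.le,
        Real.exp_log (Real.sqrt_pos.2 hcp)]
      field_simp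
    rw [h4]
    refine Real.exp_le_exp.2 ?_
    linarith
  have hsp : 0 < √(X.card : ℝ) := Real.sqrt_pos.2 hcp
  have e6 : (1 - φ ^ 2 / 2) ^ L *
      √(nm (DC G) X Prod.snd (sd x.2 L) (fun y => 1 / dg G X y) / dg G X x) ≤ xi / mu := by
    calc (1 - φ ^ 2 / 2) ^ L *
        √(nm (DC G) X Prod.snd (sd x.2 L) (fun y => 1 / dg G X y) / dg G X x)
        ≤ xi / √(X.card : ℝ) * (√(X.card : ℝ) / mu) :=
          mul_le_mul e5 e4 (Real.sqrt_nonneg _) (by positivity)
      _ = xi / mu := by field_simp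
  exact h0.trans (by linarith)

end Pool.Agent.Lib.MP_56e41f_co.LD
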