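import Mathlib

/-!
# Expansion of a dense vertex set: definitions
-/

open Finset

namespace Pool.Agent.Lib.MP_56e41f_co.LD

variable {Y : Type} [Fintype Y] [DecidableEq Y]

open Classical in
/-- neighbours of `x` in `X` -/
noncomputable def nbr (H : SimpleGraph Y) (X : Finset Y) (x : Y) : Finset Y :=
  X.filter (fun y => H.Adj x y)

/-- degree in `X` -/
noncomputable def dgr (H : SimpleGraph Y) (X : Finset Y) (x : Y) : ℝ := ((nbr H X x).card : ℝ)

/-- twice the number of edges inside `X` -/
noncomputable def E2 (H : SimpleGraph Y) (X : Finset Y) : ℝ := ∑ x ∈ X, dgr H X x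

/-- volume of `Z` in `X` -/
noncomputable def vol (H : SimpleGraph Y) (X Z : Finset Y) : ℝ := ∑ x ∈ Z, dgr H X x

/-- number of edges between `Z` and `X \ Z` -/
noncomputable def ct (H : SimpleGraph Y) (X Z : Finset Y) : ℝ :=
  ∑ x ∈ Z, ((nbr H X x \ Z).card : ℝ)

/-- random walk operator on `X` -/
noncomputable def Pq (H : SimpleGraph Y) (X : Finset Y) (f : Y → ℝ) (x : Y) : ℝ :=
  (∑ y ∈ nbr H X x, f y) / dgr H X x

/-- squared norm on one side of a bipartition `col` -/
noncomputable def nm (H : SimpleGraph Y) (X : Finset Y) (col : Y → Bool) (b : Bool)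
    (f : Y → ℝ) : ℝ :=
  ∑ x ∈ X.filter (fun x => col x = b), dgr H X x * f x ^ 2

end Pool.Agent.Lib.MP_56e41f_co.LD
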