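import Pool.Agent.Lib.MP_56e41f_co.LD.Defs
import Pool.Agent.Lib.MP_56e41f_co.LD.XDef

/-!
# The double cover
-/

open Finset

namespace Pool.Agent.Lib.MP_56e41f_co.LD

variable {V : Type} [Fintype V] [DecidableEq V]

/-- the double cover of `G` -/
def DC (G : SimpleGraph V) : SimpleGraph (V × Bool) where
  Adj x y := G.Adj x.1 y.1 ∧ y.2 = !x.2
  symm := ⟨by
    rintro ⟨a, b⟩ ⟨c, d⟩ ⟨h1, h2⟩
    refine ⟨h1.symm, ?_⟩
    simp only at h2 ⊢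
    rw [h2, Bool.not_not]⟩
  loopless := ⟨by
    rintro ⟨a, b⟩ ⟨h1, _⟩
    exact G.irrefl h1⟩

end Pool.Agent.Lib.MP_56e41f_co.LD
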