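import Pool.Agent.Lib.MP_56e41f_co.Ex
import Pool.Agent.Lib.MP_56e41f_co.Tree

/-!
# Definitions for trees of large maximum degree in arbitrary hosts

The host is a set `X` of vertices of the double cover `V × Bool` of `G`.
-/

open Finset

namespace Pool.Agent.Lib.MP_56e41f_co.LD

variable {V : Type} [Fintype V] [DecidableEq V]

/-! ## The host -/

open Classical in
/-- neighbours of `x` in `X`, as vertices of `G` -/
noncomputable def nb (G : SimpleGraph V) (X : Finset (V × Bool)) (x : V × Bool) : Finset V :=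
  univ.filter (fun u => G.Adj x.1 u ∧ (u, !x.2) ∈ X)

/-- degree in `X` -/
noncomputable def dg (G : SimpleGraph V) (X : Finset (V × Bool)) (x : V × Bool) : ℝ :=
  ((nb G X x).card : ℝ)

/-- random walk operator -/
noncomputable def Pw (G : SimpleGraph V) (X : Finset (V × Bool)) (f : V × Bool → ℝ)
    (x : V × Bool) : ℝ :=
  (∑ u ∈ nb G X x, f (u, !x.2)) / dg G X x

/-- `P ^ r g` for `g = 1 / degree` -/
noncomputable def Gr (G : SimpleGraph V) (X : Finset (V × Bool)) (r : ℕ) : V × Bool → ℝ :=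
  (Pw G X)^[r] (fun y => 1 / dg G X y)

/-- side after `k` steps -/
def sd (s : Bool) (k : ℕ) : Bool := not^[k] s

/-- size of a side -/
noncomputable def sz (X : Finset (V × Bool)) (b : Bool) : ℝ :=
  ((X.filter (fun x => x.2 = b)).card : ℝ)

/-- number of edges of `X` -/
noncomputable def mm (G : SimpleGraph V) (X : Finset (V × Bool)) : ℝ :=
  ∑ x ∈ X.filter (fun x => x.2 = false), dg G X x

/-- Parameters. -/
structure Pm where
  κ : ℝ
  x : ℝ
  lam : ℝ
  th : ℝ
  B : ℝ
  xl : ℝ
  hb : ℝ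
  mu : ℝ
  xi : ℝ
  L : ℕ

/-- Conditions on the parameters. -/
structure Pm.Ok (P : Pm) : Prop where
  mu0 : 0 < P.mu
  k0 : 0 < P.κ
  k1 : P.κ ≤ 1 / 2
  x0 : 0 < P.x
  x1 : P.x ≤ 1 / 3
  bB : P.B ≤ (1 - P.κ) * (1 - P.x)
  lam0 : 0 < P.lam
  lam1 : P.lam ≤ P.κ / 2
  th0 : 0 < P.th
  xl1 : P.xl ≤ 1
  xl2 : 6 * P.x ≤ P.xl
  hb0 : 0 < P.hb
  thb : 2 * P.th * (P.hb / P.mu) ≤ 1
  kmu : 3 ≤ P.κ * P.mu
  xi0 : 0 < P.xi
  xi1 : P.xi ≤ 1
  L1 : 1 ≤ P.L

/-- stationary mean of `g` on the side `b`, with an error -/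
noncomputable def Cst (G : SimpleGraph V) (X : Finset (V × Bool)) (P : Pm) (b : Bool) : ℝ :=
  sz X b / mm G X + P.xi / P.mu

/-- Host. -/
structure Hs (G : SimpleGraph V) (X : Finset (V × Bool)) (P : Pm) : Prop where
  deg : ∀ x ∈ X, P.mu ≤ dg G X x
  sum : mm G X = P.mu * X.card
  mix : ∀ x ∈ X, Gr G X P.L x ≤ Cst G X P (sd x.2 P.L)

/-! ## The tree -/

variable {t Δ : ℕ}

/-- vertices at distance `r + 1` below `i` -/
noncomputable def dsc (D : TD t Δ) (i : Fin t) (r : ℕ) : Finset (Fin t) :=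
  univ.filter (fun j => D.dep j = D.dep i + r + 1 ∧ D.par^[r + 1] j = i)

/-- number of vertices within `L` levels below `i` -/
noncomputable def mL (D : TD t Δ) (L : ℕ) (i : Fin t) : ℝ :=
  ∑ r ∈ range L, ((dsc D i r).card : ℝ)

/-- contribution of the first `L` levels below `i`, when `i` is placed at `y` -/
noncomputable def Fn (G : SimpleGraph V) (X : Finset (V × Bool)) (D : TD t Δ) (L : ℕ) (i : Fin t)
    (y : V × Bool) : ℝ :=
  ∑ r ∈ range L, ((dsc D i r).card : ℝ) * Gr G X r y

/-- the same, when only the parent of `i` is placed, at `y` -/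
noncomputable def Fo (G : SimpleGraph V) (X : Finset (V × Bool)) (P : Pm) (D : TD t Δ) (s : Bool)
    (i : Fin t) (y : V × Bool) : ℝ :=
  ∑ r ∈ range P.L, ((dsc D i r).card : ℝ) *
    (if r + 1 < P.L then Gr G X (r + 1) y else Cst G X P (sd s (D.dep i + r)))

/-- contribution of the levels further below -/
noncomputable def Fc (G : SimpleGraph V) (X : Finset (V × Bool)) (P : Pm) (D : TD t Δ) (s : Bool)
    (i : Fin t) : ℝ :=
  ∑ r ∈ Ico P.L t, ((dsc D i r).card : ℝ) * Cst G X P (sd s (D.dep i + r))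

open Classical in
/-- budget of a vertex -/
noncomputable def bd (P : Pm) (D : TD t Δ) (i : Fin t) : ℝ :=
  if P.hb ≤ mL D P.L i then P.xl * (mL D P.L i / P.mu)
  else 3 * P.x * (mL D P.L i / P.mu) + 4 * P.th * (mL D P.L i / P.mu) ^ 2

open Classical in
/-- indicator of heavy vertices -/
noncomputable def hvi (P : Pm) (D : TD t Δ) (i : Fin t) : ℝ :=
  if P.hb ≤ mL D P.L i then 1 else 0

/-- children of the vertex with label `a` -/
noncomputable def kids (D : TD t Δ) (a : ℕ) : Finset (Fin t) :=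
  univ.filter (fun v => v.val ≠ 0 ∧ (D.par v).val = a)

open Classical in
/-- heavy children -/
noncomputable def chH (D : TD t Δ) (P : Pm) (a : ℕ) : List (Fin t) :=
  ((kids D a).filter (fun v => P.hb ≤ mL D P.L v)).toList

open Classical in
/-- light children -/
noncomputable def chL (D : TD t Δ) (P : Pm) (a : ℕ) : List (Fin t) :=
  ((kids D a).filter (fun v => ¬ P.hb ≤ mL D P.L v)).toList

/-- the children of `a`, heavy children first -/
noncomputable def chl (D : TD t Δ) (P : Pm) (a : ℕ) : List (Fin t) := chH D P a ++ chL D P a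

/-- placed vertices, when the vertices below `a` are processed and the children of `a` in `l` are
not yet placed -/
def Pl (D : TD t Δ) (a : ℕ) (l : List (Fin t)) (i : Fin t) : Prop :=
  i.val = 0 ∨ (D.par i).val < a ∨ ((D.par i).val = a ∧ i ∉ l)

/-! ## The process -/

/-- State of the process. -/
structure Sta (V : Type) (t : ℕ) where
  φ : Fin t → V
  F : Finset V
  α : ℝ
  past : ℝ

/-- image of `i` in the double cover -/
def loc (D : TD t Δ) (s : Bool) (σ : Sta V t) (i : Fin t) : V × Bool := (σ.φ i, sd s (D.dep i))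

open Classical in
/-- the potential -/
noncomputable def Pot (G : SimpleGraph V) (X : Finset (V × Bool)) (P : Pm) (D : TD t Δ) (s : Bool)
    (a : ℕ) (l : List (Fin t)) (σ : Sta V t) : ℝ :=
  σ.past + ∑ i ∈ univ.filter (fun i : Fin t => a < i.val ∧ Pl D a l i),
      (Fn G X D P.L i (loc D s σ i) + Fc G X P D s i)
    + (l.map (fun j => Gr G X 0 (loc D s σ (D.par j)) + Fo G X P D s j (loc D s σ (D.par j))
        + Fc G X P D s j)).sum

/-- sum of `w` over the unplaced vertices -/
noncomputable def Rs (D : TD t Δ) (w : Fin t → ℝ) (a : ℕ) (l : List (Fin t)) : ℝ :=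
  (l.map w).sum + ∑ j ∈ univ.filter (fun j : Fin t => j.val ≠ 0 ∧ a < (D.par j).val), w j

/-- test functions -/
noncomputable def fk (G : SimpleGraph V) (X : Finset (V × Bool)) (P : Pm) (k : ℕ)
    (y : V × Bool) : ℝ :=
  if k = 0 then 1 else P.mu * Gr G X (k - 1) y

/-- sum of a test function over the free neighbours -/
noncomputable def Ys (G : SimpleGraph V) (X : Finset (V × Bool)) (P : Pm) (k : ℕ) (x : V × Bool)
    (F : Finset V) : ℝ :=
  ∑ u ∈ nb G X x ∩ F, fk G X P k (u, !x.2)

/-- exponential supermartingale of a test function; `e` is a sign -/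
noncomputable def Zt (G : SimpleGraph V) (X : Finset (V × Bool)) (P : Pm) (e : ℝ) (k : ℕ)
    (x : V × Bool) (F : Finset V) (α h : ℝ) : ℝ :=
  Real.exp (e * P.lam * (Ys G X P k x F / α - Ys G X P k x univ) - P.lam * P.x * dg G X x
    + 4 / P.κ ^ 2 * P.lam ^ 2 * dg G X x * Real.log (2 * α / P.κ) + P.lam / P.κ * h)

/-- all exponential supermartingales of the test functions -/
noncomputable def UZ (G : SimpleGraph V) (X : Finset (V × Bool)) (P : Pm) (F : Finset V)
    (α h : ℝ) : ℝ :=
  ∑ x ∈ X, ∑ k ∈ range (P.L + 1), (Zt G X P 1 k x F α h + Zt G X P (-1) k x F α h)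

/-- exponential supermartingale of the potential -/
noncomputable def UP (G : SimpleGraph V) (X : Finset (V × Bool)) (P : Pm) (D : TD t Δ) (s : Bool)
    (a : ℕ) (l : List (Fin t)) (σ : Sta V t) : ℝ :=
  Real.exp (P.th * (Pot G X P D s a l σ + Rs D (bd P D) a l - P.B))

/-- the pessimistic estimator -/
noncomputable def U (G : SimpleGraph V) (X : Finset (V × Bool)) (P : Pm) (D : TD t Δ) (s : Bool)
    (a : ℕ) (l : List (Fin t)) (σ : Sta V t) : ℝ :=
  UP G X P D s a l σ + UZ G X P σ.F σ.α (Rs D (hvi P D) a l)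

/-- the next state: `i` is placed at `u`, the vertices of `R` are deleted -/
def nxt (σ : Sta V t) (i : Fin t) (u : V) (R : Finset V) (ρ g : ℝ) : Sta V t :=
  ⟨Function.update σ.φ i u, (σ.F.erase u) \ R, σ.α * (1 - ρ), σ.past + g⟩

/-- Invariants. -/
structure Inv (X : Finset (V × Bool)) (P : Pm) (D : TD t Δ) (s : Bool) (a : ℕ)
    (l : List (Fin t)) (σ : Sta V t) : Prop where
  inX : ∀ i : Fin t, a ≤ i.val → Pl D a l i → loc D s σ i ∈ X
  notF : ∀ i : Fin t, a ≤ i.val → Pl D a l i → σ.φ i ∉ σ.F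
  inj : ∀ i j : Fin t, a ≤ i.val → a ≤ j.val → Pl D a l i → Pl D a l j → σ.φ i = σ.φ j → i = j
  pst : (1 - σ.α) * (1 - P.x) ≤ σ.past
  pos : 0 ≤ σ.past

/-- `l` is a list of children of `a` -/
structure Lst (D : TD t Δ) (a : ℕ) (l : List (Fin t)) : Prop where
  nd : l.Nodup
  ch : ∀ i ∈ l, i.val ≠ 0 ∧ (D.par i).val = a

/-- Typical free sets. -/
structure Typ (G : SimpleGraph V) (X : Finset (V × Bool)) (P : Pm) (F : Finset V) (α : ℝ) :
    Prop where
  al : P.κ ≤ α
  Y : ∀ x ∈ X, ∀ k ≤ P.L, |Ys G X P k x F / α - Ys G X P k x univ| ≤ P.x * dg G X x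

/-- One random step: `u` is uniform in `C`, every other vertex is deleted with a probability such
that every vertex of `F` disappears with probability `ρ`. -/
noncomputable def stp (F C : Finset V) (ρ : ℝ) (h : V → Finset V → ℝ) : ℝ :=
  (∑ u ∈ C, ex ((ρ - 1 / (C.card : ℝ)) / (1 - 1 / (C.card : ℝ))) (C.erase u)
    (fun R => ex ρ (F \ C) (fun R' => h u (R ∪ R')))) / (C.card : ℝ)

/-- deletion rate, when a child is placed below a vertex with `g` -/
noncomputable def rho (P : Pm) (α g : ℝ) : ℝ := g / ((1 - P.x) * α)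

/-! ## Percolation -/

/-- unplaced vertices, when the vertices below `a` are processed -/
def Unp (D : TD t Δ) (a : ℕ) (i : Fin t) : Prop := i.val ≠ 0 ∧ a ≤ (D.par i).val

/-- the partial embedding `φ` extends, using free vertices and edges of `ω` -/
def Ext (D : TD t Δ) (a : ℕ) (φ : Fin t → V) (F : Finset V) (ω : Finset (Sym2 V)) : Prop :=
  ∃ ψ : Fin t → V, (∀ i, ¬ Unp D a i → ψ i = φ i) ∧
    (∀ i j, Unp D a i → Unp D a j → ψ i = ψ j → i = j) ∧
    ∀ i, Unp D a i → ψ i ∈ F ∧ s(ψ (D.par i), ψ i) ∈ ω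

/-- probability that the partial embedding extends -/
noncomputable def PV (D : TD t Δ) (p : ℝ) (E : Finset (Sym2 V)) (a : ℕ) (φ : Fin t → V)
    (F : Finset V) : ℝ :=
  pr p E (Ext D a φ F)

open Classical in
/-- maximum over a finite set, `0` if it is empty -/
noncomputable def mx (S : Finset V) (f : V → ℝ) : ℝ :=
  if h : S.Nonempty then S.sup' h f else 0

/-- best placement of the children in `l` in the open set `O` -/
noncomputable def Bst (D : TD t Δ) (p : ℝ) (E : Finset (Sym2 V)) (a : ℕ) :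
    List (Fin t) → (Fin t → V) → Finset V → Finset V → ℝ
  | [], φ, F, _ => PV D p E (a + 1) φ F
  | i :: l, φ, F, O => mx (O ∩ F) (fun u => Bst D p E a l (Function.update φ i u) (F.erase u) O)

/-- `k` independent layers of density `q` -/
noncomputable def lay (q : ℝ) (N : Finset V) : ℕ → (Finset V → ℝ) → ℝ
  | 0, Θ => Θ ∅
  | k + 1, Θ => ex q N (fun O => lay q N k (fun R => Θ (O ∪ R)))

end Pool.Agent.Lib.MP_56e41f_co.LD
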