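import Pool.Agent.Lib.MP_56e41f_co.LD.Vtx

/-!
# Induction over the vertices
-/

open Finset

namespace Pool.Agent.Lib.MP_56e41f_co.LD

variable {V : Type} [Fintype V] [DecidableEq V] {t Δ : ℕ}

private theorem ind_U0 (G : SimpleGraph V) (X : Finset (V × Bool)) (P : Pm) (D : TD t Δ)
    (s : Bool) (a : ℕ) (l : List (Fin t)) (σ : Sta V t) : 0 ≤ U G X P D s a l σ := by
  unfold U UP UZ Zt
  exact add_nonneg (Real.exp_pos _).le (Finset.sum_nonneg fun x _ =>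
    Finset.sum_nonneg fun k _ => add_nonneg (Real.exp_pos _).le (Real.exp_pos _).le)

/-- Downward induction on `a` (`a = t`: `PV_end`), `δ₁ = (t - a - 1) δ` in `vertex`. -/
theorem induct {G : SimpleGraph V} {X : Finset (V × Bool)} {P : Pm} (hO : P.Ok)
    (hH : Hs G X P) (D : TD t Δ) (s : Bool) {p : ℝ} (hp0 : 0 ≤ p) (hp1 : p ≤ 1)
    (E : Finset (Sym2 V)) (hE : ∀ u v, G.Adj u v → s(u, v) ∈ E)
    {q : ℝ} (hq0 : 0 ≤ q) (hq1 : q ≤ 1) (hq : 3 / 2 ≤ q * (P.κ * P.mu)) (M : ℕ)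
    (hM : M * q ≤ p / 2) (hm : ℕ) (hhm : (P.L : ℝ) * t / P.hb ≤ hm)
    (a : ℕ) (ha : a ≤ t) (σ : Sta V t) (hI : Inv X P D s a (chl D P a) σ) :
    1 - U G X P D s a (chl D P a) σ - ((t : ℝ) - a) * (2 ^ Δ * (3 / 4) ^ M
        + hm * Real.exp (hm - p * P.xl * (P.κ * P.mu) / 36)) ≤ PV D p E a σ.φ σ.F := by
  have hd : (0 : ℝ) ≤ 2 ^ Δ * (3 / 4) ^ M
      + hm * Real.exp (hm - p * P.xl * (P.κ * P.mu) / 36) := by positivity
  obtain ⟨k, hk⟩ : ∃ k, a + k = t := ⟨t - a, by omega⟩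
  induction k generalizing a σ with
  | zero =>
    have hat : a = t := by omega
    subst hat
    rw [PV_end D p E a le_rfl, sub_self, zero_mul, sub_zero]
    have h1 := ind_U0 G X P D s a (chl D P a) σ
    linarith
  | succ k ih =>
    have hat : a < t := by omega
    have h1 : (0 : ℝ) ≤ (t : ℝ) - ((a + 1 : ℕ) : ℝ) := by
      have h2 : ((a + 1 : ℕ) : ℝ) ≤ (t : ℝ) := Nat.cast_le.2 hat
      linarith
    have h2 := vertex hO hH D s hp0 hp1 E hE a hat (mul_nonneg h1 hd) hq0 hq1 hq M hM hm hhm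
      (fun σ' hI' => ih (a + 1) hat σ' hI' (by omega)) σ hI
    push_cast at h2 ⊢
    linarith

end Pool.Agent.Lib.MP_56e41f_co.LD
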