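import Pool.Agent.Lib.MP_56e41f_co.LD.Typi

/-!
# The invariants along the process
-/

open Finset

namespace Pool.Agent.Lib.MP_56e41f_co.LD

variable {V : Type} [Fintype V] [DecidableEq V] {t Δ : ℕ}

private theorem invSt_mem_chl {D : TD t Δ} (P : Pm) {a : ℕ} {j : Fin t} (h0 : j.val ≠ 0)
    (hp : (D.par j).val = a) : j ∈ chl D P a := by
  have hk : j ∈ kids D a := by
    rw [kids, Finset.mem_filter]
    exact ⟨Finset.mem_univ _, h0, hp⟩
  rw [chl, List.mem_append, chH, chL, Finset.mem_toList, Finset.mem_toList, Finset.mem_filter,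
    Finset.mem_filter]
  by_cases h : P.hb ≤ mL D P.L j
  · exact Or.inl ⟨hk, h⟩
  · exact Or.inr ⟨hk, h⟩

private theorem invSt_sd (s : Bool) (k : ℕ) : sd s (k + 1) = !sd s k := by
  rw [sd, sd, Function.iterate_succ_apply']

theorem Inv_step {G : SimpleGraph V} {X : Finset (V × Bool)} {P : Pm} {D : TD t Δ} {s : Bool}
    {a : ℕ} {i : Fin t} {l : List (Fin t)} (hl : Lst D a (i :: l)) {σ : Sta V t}
    (hI : Inv X P D s a (i :: l) σ) {u : V} (hu : u ∈ nb G X (loc D s σ (D.par i)) ∩ σ.F)
    (R : Finset V) {ρ g : ℝ} (hg0 : 0 ≤ g) (hg : σ.α * ρ * (1 - P.x) ≤ g) :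
    Inv X P D s a l (nxt σ i u R ρ g) := by
  obtain ⟨hi0, hia⟩ := hl.ch i List.mem_cons_self
  have hil : i ∉ l := (List.nodup_cons.1 hl.nd).1
  obtain ⟨hu1, huF⟩ := Finset.mem_inter.1 hu
  have huX : (u, !(loc D s σ (D.par i)).2) ∈ X := by
    classical
    exact (Finset.mem_filter.1 hu1).2.2
  have hold : ∀ j : Fin t, j ≠ i → Pl D a l j → Pl D a (i :: l) j := by
    intro j hj h
    rcases h with h | h | h
    · exact Or.inl h
    · exact Or.inr (Or.inl h)
    · refine Or.inr (Or.inr ⟨h.1, fun h1 => ?_⟩)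
      rcases List.mem_cons.1 h1 with h2 | h2
      · exact hj h2
      · exact h.2 h2
  have hF : ∀ w, w ∉ σ.F → w ∉ (σ.F.erase u) \ R := fun w hw h =>
    hw (Finset.mem_of_mem_erase (Finset.mem_sdiff.1 h).1)
  have hup : ∀ j : Fin t, j ≠ i → Function.update σ.φ i u j = σ.φ j := fun j hj =>
    Function.update_of_ne hj _ _
  have hui : Function.update σ.φ i u i = u := Function.update_self _ _ _
  refine ⟨fun j hj h => ?_, fun j hj h => ?_, fun j k hj hk h h' he => ?_, ?_, ?_⟩
  · by_cases hji : j = i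
    · subst hji
      change (Function.update σ.φ j u j, sd s (D.dep j)) ∈ X
      rw [hui, ← D.dep_par j hi0, invSt_sd]
      exact huX
    · change (Function.update σ.φ i u j, sd s (D.dep j)) ∈ X
      rw [hup j hji]
      exact hI.inX j hj (hold j hji h)
  · by_cases hji : j = i
    · subst hji
      change Function.update σ.φ j u j ∉ (σ.F.erase u) \ R
      rw [hui]
      exact fun h1 => Finset.notMem_erase u σ.F (Finset.mem_sdiff.1 h1).1
    · change Function.update σ.φ i u j ∉ (σ.F.erase u) \ R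
      rw [hup j hji]
      exact hF _ (hI.notF j hj (hold j hji h))
  · change Function.update σ.φ i u j = Function.update σ.φ i u k at he
    by_cases hji : j = i
    · by_cases hki : k = i
      · rw [hji, hki]
      · exfalso
        rw [hji, hui, hup k hki] at he
        exact hI.notF k hk (hold k hki h') (he ▸ huF)
    · by_cases hki : k = i
      · exfalso
        rw [hki, hui, hup j hji] at he
        exact hI.notF j hj (hold j hji h) (he ▸ huF)
      · rw [hup j hji, hup k hki] at he
        exact hI.inj j k hj hk (hold j hji h) (hold k hki h') he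
  · change (1 - σ.α * (1 - ρ)) * (1 - P.x) ≤ σ.past + g
    have h1 := hI.pst
    nlinarith
  · change 0 ≤ σ.past + g
    exact add_nonneg hI.pos hg0

theorem Inv_next {X : Finset (V × Bool)} {P : Pm} {D : TD t Δ} {s : Bool}
    {a : ℕ} {σ : Sta V t} (hI : Inv X P D s a [] σ) :
    Inv X P D s (a + 1) (chl D P (a + 1)) σ := by
  have hold : ∀ j : Fin t, Pl D (a + 1) (chl D P (a + 1)) j → Pl D a [] j := by
    intro j h
    by_cases h0 : j.val = 0
    · exact Or.inl h0
    · rcases h with h | h | h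
      · exact Or.inl h
      · rcases Nat.lt_succ_iff_lt_or_eq.1 h with h1 | h1
        · exact Or.inr (Or.inl h1)
        · exact Or.inr (Or.inr ⟨h1, List.not_mem_nil⟩)
      · exact absurd (invSt_mem_chl P h0 h.1) h.2
  exact ⟨fun j hj h => hI.inX j (Nat.le_of_succ_le hj) (hold j h),
    fun j hj h => hI.notF j (Nat.le_of_succ_le hj) (hold j h),
    fun j k hj hk h h' he => hI.inj j k (Nat.le_of_succ_le hj) (Nat.le_of_succ_le hk) (hold j h)
      (hold k h') he, hI.pst, hI.pos⟩

/-- the rate `rho` satisfies the condition of `Inv_step` with equality -/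
theorem rho_eq {P : Pm} (hO : P.Ok) {α g : ℝ} (hα : P.κ ≤ α) :
    α * rho P α g * (1 - P.x) = g := by
  have h1 : 0 < α := lt_of_lt_of_le hO.k0 hα
  have h2 : 0 < 1 - P.x := by
    have := hO.x1
    linarith
  rw [rho]
  field_simp

/-- the vertex `a` is placed when it is processed -/
theorem Pl_self {D : TD t Δ} {a : ℕ} {l : List (Fin t)} (hl : Lst D a l) (i : Fin t)
    (hi : i.val = a) : Pl D a l i := by
  by_cases h0 : i.val = 0
  · exact Or.inl h0
  · refine Or.inr (Or.inl ?_)
    have h1 := D.par_lt i h0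
    rw [Fin.lt_def] at h1
    omega

theorem Pl_par {D : TD t Δ} {a : ℕ} {l : List (Fin t)} (hl : Lst D a l) {i : Fin t}
    (hi : i ∈ l) : Pl D a l (D.par i) ∧ (D.par i).val = a := by
  have h := (hl.ch i hi).2
  exact ⟨Pl_self hl _ h, h⟩

/-- invariants at the start -/
theorem Inv_start {X : Finset (V × Bool)} {P : Pm} (D : TD t Δ) (s : Bool) (x0 : V × Bool)
    (hx0 : x0 ∈ X) (hs : x0.2 = s) :
    Inv X P D s 0 (chl D P 0) (⟨fun _ => x0.1, univ.erase x0.1, 1, 0⟩ : Sta V t) := by
  have hz : ∀ j : Fin t, Pl D 0 (chl D P 0) j → j.val = 0 := by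
    intro j h
    by_contra h0
    rcases h with h | h | h
    · exact h0 h
    · exact Nat.not_lt_zero _ h
    · exact h.2 (invSt_mem_chl P h0 h.1)
  refine ⟨fun j _ h => ?_, fun j _ _ => Finset.notMem_erase _ _,
    fun j k _ _ h h' _ => Fin.ext ((hz j h).trans (hz k h').symm), ?_, le_refl _⟩
  · change (x0.1, sd s (D.dep j)) ∈ X
    rw [(D.dep_zero j).2 (hz j h)]
    change (x0.1, s) ∈ X
    rw [← hs]
    exact hx0
  · change ((1 : ℝ) - 1) * (1 - P.x) ≤ 0
    rw [sub_self, zero_mul]

end Pool.Agent.Lib.MP_56e41f_co.LD
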