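import Pool.Agent.Lib.MP_56e41f_co.LD.Defs

/-!
# Counting descendants
-/

open Finset

namespace Pool.Agent.Lib.MP_56e41f_co.LD

variable {t Δ : ℕ}

/-- the sets `dsc D i r`, `r < m`, are disjoint -/
theorem sum_dsc (D : TD t Δ) (i : Fin t) (m : ℕ) :
    ∑ r ∈ range m, ((dsc D i r).card : ℝ) ≤ t := by
  have h : (∑ r ∈ range m, (dsc D i r).card) ≤ t := by
    rw [← card_biUnion]
    · refine (card_le_univ _).trans ?_
      rw [Fintype.card_fin]
    · intro r _ r' _ hne
      refine disjoint_left.2 fun j hj hj' => hne ?_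
      rw [dsc, mem_filter] at hj hj'
      omega
  exact_mod_cast h

theorem mL_nonneg (D : TD t Δ) (L : ℕ) (i : Fin t) : 0 ≤ mL D L i :=
  sum_nonneg fun _ _ => Nat.cast_nonneg _

/-- for every `r` the sets `dsc D i r` are disjoint -/
theorem sum_mL (D : TD t Δ) (L : ℕ) : ∑ i, mL D L i ≤ (L : ℝ) * t := by
  have h1 : ∀ r ∈ range L, ∑ i : Fin t, ((dsc D i r).card : ℝ) ≤ t := by
    intro r _
    have h : (∑ i : Fin t, (dsc D i r).card) ≤ t := by
      rw [← card_biUnion]
      · refine (card_le_univ _).trans ?_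
        rw [Fintype.card_fin]
      · intro i _ i' _ hne
        refine disjoint_left.2 fun j hj hj' => hne ?_
        unfold dsc at hj hj'
        rw [mem_filter] at hj hj'
        exact hj.2.2.symm.trans hj'.2.2
    exact_mod_cast h
  have h2 : ∑ i, mL D L i = ∑ r ∈ range L, ∑ i : Fin t, ((dsc D i r).card : ℝ) := by
    unfold mL
    exact sum_comm
  rw [h2]
  refine (sum_le_sum h1).trans ?_
  rw [sum_const, card_range, nsmul_eq_mul]

end Pool.Agent.Lib.MP_56e41f_co.LD
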