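import Pool.Agent.Lib.MP_56e41f_co.LD.Defs
import Pool.Agent.Lib.MP_56e41f_co.LD.TreB

/-!
# Counting descendants
-/

open Finset

namespace Pool.Agent.Lib.MP_56e41f_co.LD

variable {t Δ : ℕ}

/-- there are at most `L t / hb` heavy vertices -/
theorem sum_hvi (P : Pm) (hb : 0 < P.hb) (D : TD t Δ) :
    ∑ i, hvi P D i ≤ (P.L : ℝ) * t / P.hb := by
  classical
  have h1 : ∀ i ∈ (univ : Finset (Fin t)), hvi P D i ≤ mL D P.L i / P.hb := by
    intro i _
    have h0 := mL_nonneg D P.L i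
    unfold hvi
    split_ifs with h
    · rw [le_div_iff₀ hb]
      linarith
    · exact div_nonneg h0 hb.le
  have h2 : ∑ i, hvi P D i ≤ ∑ i, mL D P.L i / P.hb := Finset.sum_le_sum h1
  rw [← Finset.sum_div] at h2
  exact h2.trans (div_le_div_of_nonneg_right (sum_mL D P.L) hb.le)

theorem bd_nonneg {P : Pm} (hO : P.Ok) (D : TD t Δ) (i : Fin t) : 0 ≤ bd P D i := by
  have h0 := mL_nonneg D P.L i
  have hm := hO.mu0
  have hx := hO.x0
  have h2 := hO.xl2
  have ht := hO.th0
  have h3 : 0 ≤ mL D P.L i / P.mu := div_nonneg h0 hm.le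
  unfold bd
  split_ifs with h
  · exact mul_nonneg (by linarith) h3
  · exact add_nonneg (mul_nonneg (by linarith) h3)
      (mul_nonneg (by linarith) (sq_nonneg _))

theorem hvi_nonneg (P : Pm) (D : TD t Δ) (i : Fin t) : 0 ≤ hvi P D i := by
  unfold hvi
  split_ifs with h
  · exact zero_le_one
  · exact le_rfl

/-- total budget; `bd i ≤ (xl + 3 x + 4 th (hb / mu)) * (mL i / mu)` in both cases -/
theorem sum_bd {P : Pm} (hO : P.Ok) (D : TD t Δ) :
    ∑ i, bd P D i ≤ (P.xl + 3 * P.x + 4 * P.th * (P.hb / P.mu)) * ((P.L : ℝ) * t / P.mu) := by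
  have hm := hO.mu0
  have hx := hO.x0
  have h2 := hO.xl2
  have ht := hO.th0
  have hb := hO.hb0
  have hq : 0 ≤ P.hb / P.mu := div_nonneg hb.le hm.le
  have hc : 0 ≤ P.xl + 3 * P.x + 4 * P.th * (P.hb / P.mu) := by
    have : 0 ≤ 4 * P.th * (P.hb / P.mu) := mul_nonneg (by linarith) hq
    linarith
  have h1 : ∀ i ∈ (univ : Finset (Fin t)), bd P D i ≤
      (P.xl + 3 * P.x + 4 * P.th * (P.hb / P.mu)) * (mL D P.L i / P.mu) := by
    intro i _
    have h0 := mL_nonneg D P.L i
    have h3 : 0 ≤ mL D P.L i / P.mu := div_nonneg h0 hm.le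
    have h4 : 0 ≤ 4 * P.th * (P.hb / P.mu) := mul_nonneg (by linarith) hq
    unfold bd
    split_ifs with h
    · exact mul_le_mul_of_nonneg_right (by linarith) h3
    · have h5 : mL D P.L i / P.mu ≤ P.hb / P.mu :=
        div_le_div_of_nonneg_right (not_le.mp h).le hm.le
      have h6 : 4 * P.th * (mL D P.L i / P.mu) ^ 2 ≤
          4 * P.th * (P.hb / P.mu) * (mL D P.L i / P.mu) := by
        rw [pow_two, ← mul_assoc]
        exact mul_le_mul_of_nonneg_right
          (mul_le_mul_of_nonneg_left h5 (by linarith)) h3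
      have h7 : 0 ≤ P.xl * (mL D P.L i / P.mu) := mul_nonneg (by linarith) h3
      have h8 : (P.xl + 3 * P.x + 4 * P.th * (P.hb / P.mu)) * (mL D P.L i / P.mu) =
          P.xl * (mL D P.L i / P.mu) + 3 * P.x * (mL D P.L i / P.mu) +
            4 * P.th * (P.hb / P.mu) * (mL D P.L i / P.mu) := by ring
      rw [h8]
      linarith
  have h9 := Finset.sum_le_sum h1
  rw [← Finset.mul_sum, ← Finset.sum_div] at h9
  exact h9.trans (mul_le_mul_of_nonneg_left
    (div_le_div_of_nonneg_right (sum_mL D P.L) hm.le) hc)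

end Pool.Agent.Lib.MP_56e41f_co.LD
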