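import Pool.Agent.Lib.MP_56e41f_co.LD.Defs
import Pool.Agent.Lib.MP_56e41f_co.LD.TreC

/-!
# Counting descendants
-/

open Finset

namespace Pool.Agent.Lib.MP_56e41f_co.LD

variable {t Δ : ℕ}

theorem kids_card (D : TD t Δ) (a : ℕ) : (kids D a).card ≤ Δ := by
  by_cases h : a < t
  · refine le_trans (Finset.card_le_card ?_) (D.deg ⟨a, h⟩)
    intro v hv
    rw [kids, Finset.mem_filter] at hv
    rw [Finset.mem_filter]
    exact ⟨Finset.mem_univ _, hv.2.1, Fin.ext hv.2.2⟩
  · have h1 : kids D a = ∅ := by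
      rw [Finset.eq_empty_iff_forall_notMem]
      intro v hv
      rw [kids, Finset.mem_filter] at hv
      have h2 := (D.par v).isLt
      omega
    rw [h1, Finset.card_empty]
    exact Nat.zero_le _

private theorem mem_chH_iff (D : TD t Δ) (P : Pm) (a : ℕ) (i : Fin t) :
    i ∈ chH D P a ↔ i ∈ kids D a ∧ P.hb ≤ mL D P.L i := by
  unfold chH
  rw [Finset.mem_toList, Finset.mem_filter]

private theorem mem_chL_iff (D : TD t Δ) (P : Pm) (a : ℕ) (i : Fin t) :
    i ∈ chL D P a ↔ i ∈ kids D a ∧ ¬ P.hb ≤ mL D P.L i := by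
  unfold chL
  rw [Finset.mem_toList, Finset.mem_filter]

private theorem mem_chl_iff (D : TD t Δ) (P : Pm) (a : ℕ) (i : Fin t) :
    i ∈ chl D P a ↔ i ∈ kids D a := by
  unfold chl
  rw [List.mem_append, mem_chH_iff, mem_chL_iff]
  tauto

private theorem mem_chl' (D : TD t Δ) (P : Pm) (a : ℕ) (i : Fin t) :
    i ∈ chl D P a ↔ i.val ≠ 0 ∧ (D.par i).val = a := by
  rw [mem_chl_iff, kids, Finset.mem_filter]
  simp only [Finset.mem_univ, true_and]

theorem Lst_chl (D : TD t Δ) (P : Pm) (a : ℕ) : Lst D a (chl D P a) := by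
  refine ⟨?_, fun i hi => (mem_chl' D P a i).mp hi⟩
  unfold chl
  rw [List.nodup_append]
  refine ⟨Finset.nodup_toList _, Finset.nodup_toList _, ?_⟩
  intro i hi j hj hij
  rw [mem_chH_iff] at hi
  rw [mem_chL_iff] at hj
  exact hj.2 (hij ▸ hi.2)

theorem mem_chl (D : TD t Δ) (P : Pm) (a : ℕ) (i : Fin t) :
    i ∈ chl D P a ↔ i.val ≠ 0 ∧ (D.par i).val = a :=
  mem_chl' D P a i

theorem mem_chH (D : TD t Δ) (P : Pm) (a : ℕ) (i : Fin t) (h : i ∈ chH D P a) :
    P.hb ≤ mL D P.L i :=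
  ((mem_chH_iff D P a i).mp h).2

theorem mem_chL (D : TD t Δ) (P : Pm) (a : ℕ) (i : Fin t) (h : i ∈ chL D P a) :
    ¬ P.hb ≤ mL D P.L i :=
  ((mem_chL_iff D P a i).mp h).2

/-- at most `∑ hvi` heavy children, at most `Δ` light children -/
theorem chH_length (D : TD t Δ) (P : Pm) (a : ℕ) :
    ((chH D P a).length : ℝ) ≤ ∑ i, hvi P D i := by
  classical
  unfold chH
  rw [Finset.length_toList]
  have h1 : (((kids D a).filter (fun v => P.hb ≤ mL D P.L v)).card : ℝ) =
      ∑ i ∈ (kids D a).filter (fun v => P.hb ≤ mL D P.L v), hvi P D i := by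
    rw [Finset.card_eq_sum_ones, Nat.cast_sum]
    refine Finset.sum_congr rfl (fun i hi => ?_)
    rw [Finset.mem_filter] at hi
    unfold hvi
    rw [if_pos hi.2]
    norm_num
  rw [h1]
  exact Finset.sum_le_sum_of_subset_of_nonneg (Finset.subset_univ _)
    (fun i _ _ => hvi_nonneg P D i)

theorem chL_length (D : TD t Δ) (P : Pm) (a : ℕ) : (chL D P a).length ≤ Δ := by
  unfold chL
  rw [Finset.length_toList]
  exact le_trans (Finset.card_le_card (Finset.filter_subset _ _)) (kids_card D a)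

theorem Lst.tail {D : TD t Δ} {a : ℕ} {i : Fin t} {l : List (Fin t)} (h : Lst D a (i :: l)) :
    Lst D a l :=
  ⟨(List.nodup_cons.mp h.nd).2, fun j hj => h.ch j (List.mem_cons_of_mem i hj)⟩

end Pool.Agent.Lib.MP_56e41f_co.LD
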