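import Pool.Agent.Lib.MP_56e41f_co.LD.Defs
import Pool.Agent.Lib.MP_56e41f_co.LD.TreD

/-!
# Counting descendants
-/

open Finset

namespace Pool.Agent.Lib.MP_56e41f_co.LD

variable {t Δ : ℕ}

theorem Rs_nonneg (D : TD t Δ) {w : Fin t → ℝ} (hw : ∀ i, 0 ≤ w i) (a : ℕ) (l : List (Fin t)) :
    0 ≤ Rs D w a l := by
  refine add_nonneg (List.sum_nonneg fun x hx => ?_) (Finset.sum_nonneg fun i _ => hw i)
  obtain ⟨i, -, rfl⟩ := List.mem_map.1 hx
  exact hw i

theorem Rs_cons (D : TD t Δ) (w : Fin t → ℝ) (a : ℕ) (i : Fin t) (l : List (Fin t)) :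
    Rs D w a (i :: l) = w i + Rs D w a l := by
  rw [Rs, Rs, List.map_cons, List.sum_cons, add_assoc]

private theorem treE_chl (D : TD t Δ) (P : Pm) (w : Fin t → ℝ) (a : ℕ) :
    ((chl D P a).map w).sum = ∑ j ∈ kids D a, w j := by
  classical
  rw [chl, chH, chL, List.map_append, List.sum_append, Finset.sum_map_toList,
    Finset.sum_map_toList]
  exact Finset.sum_filter_add_sum_filter_not _ _ _

/-- passing to the next vertex: the vertices `j` with `a < par j` are the children of `a + 1` and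
those with `a + 1 < par j` -/
theorem Rs_next (D : TD t Δ) (P : Pm) (w : Fin t → ℝ) (a : ℕ) :
    Rs D w a [] = Rs D w (a + 1) (chl D P (a + 1)) := by
  rw [Rs, Rs, treE_chl, List.map_nil, List.sum_nil, zero_add, kids, Finset.sum_filter,
    Finset.sum_filter, Finset.sum_filter, ← Finset.sum_add_distrib]
  refine Finset.sum_congr rfl fun j _ => ?_
  by_cases h0 : j.val = 0
  · rw [if_neg fun h => h.1 h0, if_neg fun h => h.1 h0, if_neg fun h => h.1 h0, add_zero]
  · rcases Nat.lt_trichotomy (D.par j).val (a + 1) with h | h | h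
    · rw [if_neg fun h' => absurd h'.2 (by omega), if_neg fun h' => absurd h'.2 (by omega),
        if_neg fun h' => absurd h'.2 (by omega), add_zero]
    · rw [if_pos ⟨h0, by omega⟩, if_pos ⟨h0, h⟩, if_neg fun h' => absurd h'.2 (by omega),
        add_zero]
    · rw [if_pos ⟨h0, by omega⟩, if_neg fun h' => absurd h'.2 (by omega), if_pos ⟨h0, h⟩,
        zero_add]

theorem Rs_start (D : TD t Δ) (P : Pm) {w : Fin t → ℝ} (hw : ∀ i, 0 ≤ w i) :
    Rs D w 0 (chl D P 0) ≤ ∑ i, w i := by
  rw [Rs, treE_chl, kids, Finset.sum_filter, Finset.sum_filter, ← Finset.sum_add_distrib]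
  refine Finset.sum_le_sum fun j _ => ?_
  by_cases h0 : j.val = 0
  · rw [if_neg fun h => h.1 h0, if_neg fun h => h.1 h0, add_zero]
    exact hw j
  · rcases Nat.eq_zero_or_pos (D.par j).val with h | h
    · rw [if_pos ⟨h0, h⟩, if_neg fun h' => absurd h'.2 (by omega), add_zero]
    · rw [if_neg fun h' => absurd h'.2 (by omega), if_pos ⟨h0, h⟩, zero_add]

end Pool.Agent.Lib.MP_56e41f_co.LD
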