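import Pool.Agent.Lib.MP_56e41f_co.LD.TreA
import Pool.Agent.Lib.MP_56e41f_co.LD.TreB
import Pool.Agent.Lib.MP_56e41f_co.LD.TreC
import Pool.Agent.Lib.MP_56e41f_co.LD.TreD
import Pool.Agent.Lib.MP_56e41f_co.LD.TreE

/-!
# Counting descendants
-/
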