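import Pool.Agent.Lib.MP_56e41f_co.LD.GrB
import Pool.Agent.Lib.MP_56e41f_co.LD.Tre

/-!
# The key identity of the potential
-/

open Finset

namespace Pool.Agent.Lib.MP_56e41f_co.LD

variable {V : Type} [Fintype V] [DecidableEq V] {t Δ : ℕ}

/-- extension of the range by zero terms -/
private theorem keyB_ext (f : ℕ → ℝ) (L t N : ℕ) (hN : t ≤ N) (hf : ∀ r, t ≤ r → f r = 0) :
    ∑ r ∈ Ico L t, f r = ∑ r ∈ Ico L N, f r := by
  refine Finset.sum_subset (fun r hr => ?_) (fun r _ hr' => ?_)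
  · rw [mem_Ico] at hr ⊢
    omega
  · refine hf r ?_
    rw [mem_Ico] at *
    omega

/-- Key identity: write `dsc D i 0` as the children and `dsc D i (r+1)` as the union of the sets
`dsc D j r`, `j` a child (`dsc_succ`); `dsc D j r` is empty for `dep j + r + 1 ≥ t`. -/
theorem key {G : SimpleGraph V} {X : Finset (V × Bool)} {P : Pm} (hO : P.Ok) (D : TD t Δ)
    (s : Bool) (i : Fin t) (y : V × Bool) :
    Fn G X D P.L i y + Fc G X P D s i =
      ∑ j ∈ kids D i.val, (Gr G X 0 y + Fo G X P D s j y + Fc G X P D s j) := by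
  obtain ⟨M, hM⟩ : ∃ M, P.L = M + 1 := ⟨P.L - 1, by have := hO.L1; omega⟩
  have ht : 0 < t := lt_of_le_of_lt (Nat.zero_le _) i.isLt
  have hz : ∀ (j : Fin t) (r : ℕ), t ≤ r + 1 → ((dsc D j r).card : ℝ) = 0 := by
    intro j r hr
    rw [dsc_empty D j r (by omega), card_empty, Nat.cast_zero]
  -- the first levels
  have h1 : Fn G X D P.L i y = ∑ j ∈ kids D i.val, (Gr G X 0 y +
      ∑ r ∈ range M, ((dsc D j r).card : ℝ) * Gr G X (r + 1) y) := by
    rw [Fn, hM, Finset.sum_range_succ', dsc_zero, sum_add_distrib, sum_const, nsmul_eq_mul,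
      add_comm]
    refine congrArg _ ?_
    rw [sum_comm]
    refine sum_congr rfl fun r _ => ?_
    rw [dsc_succ, sum_mul]
  -- the children
  have h2 : ∀ j ∈ kids D i.val, Fo G X P D s j y + Fc G X P D s j =
      ∑ r ∈ range M, ((dsc D j r).card : ℝ) * Gr G X (r + 1) y +
      ∑ r ∈ Ico M (M + t), ((dsc D j r).card : ℝ) * Cst G X P (sd s (D.dep i + (r + 1))) := by
    intro j hj
    have hd := dep_kid D hj
    have e1 : Fo G X P D s j y = ∑ r ∈ range M, ((dsc D j r).card : ℝ) * Gr G X (r + 1) y +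
        ((dsc D j M).card : ℝ) * Cst G X P (sd s (D.dep i + (M + 1))) := by
      rw [Fo, hM, sum_range_succ, if_neg (lt_irrefl _), hd]
      refine congrArg₂ _ (sum_congr rfl fun r hr => ?_) ?_
      · rw [mem_range] at hr
        rw [if_pos (by omega)]
      · rw [show D.dep i + 1 + M = D.dep i + (M + 1) by omega]
    have e2 : Fc G X P D s j = ∑ r ∈ Ico (M + 1) (M + t), ((dsc D j r).card : ℝ) *
        Cst G X P (sd s (D.dep i + (r + 1))) := by
      rw [Fc, hM, keyB_ext _ (M + 1) t (M + t) (Nat.le_add_left _ _) (fun r hr => by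
        rw [hz j r (by omega), zero_mul])]
      refine sum_congr rfl fun r _ => ?_
      rw [hd, show D.dep i + 1 + r = D.dep i + (r + 1) by omega]
    rw [e1, e2, sum_eq_sum_Ico_succ_bot (by omega : M < M + t), add_assoc]
  -- the levels below
  have h3 : Fc G X P D s i = ∑ j ∈ kids D i.val, ∑ r ∈ Ico M (M + t),
      ((dsc D j r).card : ℝ) * Cst G X P (sd s (D.dep i + (r + 1))) := by
    rw [Fc, hM, keyB_ext _ (M + 1) t (M + t + 1) (by omega) (fun r hr => by
      rw [hz i r (by omega), zero_mul]), ← Finset.sum_Ico_add', sum_comm]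
    refine sum_congr rfl fun r _ => ?_
    rw [dsc_succ, sum_mul]
  rw [h1, h3, ← sum_add_distrib]
  refine sum_congr rfl fun j hj => ?_
  rw [add_assoc (Gr G X 0 y) (Fo G X P D s j y), h2 j hj, add_assoc]

end Pool.Agent.Lib.MP_56e41f_co.LD
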