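import Pool.Agent.Lib.MP_56e41f_co.LD.GrB
import Pool.Agent.Lib.MP_56e41f_co.LD.Tre

/-!
# The key identity of the potential
-/

open Finset

namespace Pool.Agent.Lib.MP_56e41f_co.LD

variable {V : Type} [Fintype V] [DecidableEq V] {t Δ : ℕ}

theorem Fn_nonneg (G : SimpleGraph V) (X : Finset (V × Bool)) (D : TD t Δ) (L : ℕ) (i : Fin t)
    (y : V × Bool) : 0 ≤ Fn G X D L i y := by
  refine Finset.sum_nonneg fun r _ => ?_
  exact mul_nonneg (Nat.cast_nonneg _) (Gr_nonneg G X r y)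

theorem Fn_le {G : SimpleGraph V} {X : Finset (V × Bool)} {P : Pm} (hO : P.Ok) (hH : Hs G X P)
    (D : TD t Δ) (i : Fin t) {y : V × Bool} (hy : y ∈ X) :
    Fn G X D P.L i y ≤ mL D P.L i / P.mu := by
  unfold Fn mL
  rw [Finset.sum_div]
  refine Finset.sum_le_sum fun r _ => ?_
  rw [div_eq_mul_one_div]
  exact mul_le_mul_of_nonneg_left (Gr_le hO hH r hy) (Nat.cast_nonneg _)

theorem Fo_bd {G : SimpleGraph V} {X : Finset (V × Bool)} {P : Pm} (hO : P.Ok) (hH : Hs G X P)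
    (D : TD t Δ) (s : Bool) (i : Fin t) {y : V × Bool} (hy : y ∈ X) :
    0 ≤ Fo G X P D s i y ∧ Fo G X P D s i y ≤ 2 * (mL D P.L i / P.mu) := by
  have hmu := hO.mu0
  constructor
  · refine Finset.sum_nonneg fun r _ => mul_nonneg (Nat.cast_nonneg _) ?_
    split_ifs
    · exact Gr_nonneg G X (r + 1) y
    · exact (Cst_bd hO hH _).1
  · unfold Fo mL
    rw [Finset.sum_div, Finset.mul_sum]
    refine Finset.sum_le_sum fun r _ => ?_
    have h1 : 2 * (((dsc D i r).card : ℝ) / P.mu) = ((dsc D i r).card : ℝ) * (2 / P.mu) := by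
      ring
    rw [h1]
    refine mul_le_mul_of_nonneg_left ?_ (Nat.cast_nonneg _)
    split_ifs
    · refine (Gr_le hO hH (r + 1) hy).trans ?_
      exact div_le_div_of_nonneg_right (by norm_num) hmu.le
    · exact (Cst_bd hO hH _).2

/-- here `y` is arbitrary -/
theorem Fo_nonneg {G : SimpleGraph V} {X : Finset (V × Bool)} {P : Pm} (hO : P.Ok)
    (hH : Hs G X P) (D : TD t Δ) (s : Bool) (i : Fin t) (y : V × Bool) :
    0 ≤ Fo G X P D s i y := by
  refine Finset.sum_nonneg fun r _ => mul_nonneg (Nat.cast_nonneg _) ?_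
  split_ifs
  · exact Gr_nonneg G X (r + 1) y
  · exact (Cst_bd hO hH _).1

theorem Fc_nonneg {G : SimpleGraph V} {X : Finset (V × Bool)} {P : Pm} (hO : P.Ok)
    (hH : Hs G X P) (D : TD t Δ) (s : Bool) (i : Fin t) : 0 ≤ Fc G X P D s i := by
  refine Finset.sum_nonneg fun r _ => ?_
  exact mul_nonneg (Nat.cast_nonneg _) (Cst_bd hO hH _).1

end Pool.Agent.Lib.MP_56e41f_co.LD
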