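import Pool.Agent.Lib.MP_56e41f_co.LD.Defs

/-!
# Layers and unions of random sets
-/

open Finset

namespace Pool.Agent.Lib.MP_56e41f_co.LD

variable {V : Type} [Fintype V] [DecidableEq V]

/-- monotone in `p` -/
theorem ex_mono_p {p p' : ℝ} (h0 : 0 ≤ p) (hp : p ≤ p') (h1 : p' ≤ 1) (N : Finset V)
    (Θ : Finset V → ℝ) (hΘ : ∀ O O' : Finset V, O ⊆ O' → O' ⊆ N → Θ O ≤ Θ O') :
    ex p N Θ ≤ ex p' N Θ := by
  induction N using Finset.induction_on generalizing Θ with
  | empty =>
    rw [ex_empty, ex_empty]
  | insert e N he ih =>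
    rw [ex_insert p N e he, ex_insert p' N e he]
    have h2 := ih (fun F => Θ (insert e F)) (fun O O' hO hO' =>
      hΘ _ _ (Finset.insert_subset_insert e hO) (Finset.insert_subset_insert e hO'))
    have h3 := ih Θ (fun O O' hO hO' => hΘ _ _ hO (hO'.trans (Finset.subset_insert e N)))
    have h4 : ex p' N Θ ≤ ex p' N (fun F => Θ (insert e F)) :=
      ex_mono (h0.trans hp) h1 N fun F hF =>
        hΘ _ _ (Finset.subset_insert e F) (Finset.insert_subset_insert e hF)
    have h5 : p * ex p N (fun F => Θ (insert e F)) ≤ p * ex p' N (fun F => Θ (insert e F)) :=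
      mul_le_mul_of_nonneg_left h2 h0
    have h6 : (1 - p) * ex p N Θ ≤ (1 - p) * ex p' N Θ :=
      mul_le_mul_of_nonneg_left h3 (by linarith)
    have h7 : 0 ≤ (p' - p) * (ex p' N (fun F => Θ (insert e F)) - ex p' N Θ) :=
      mul_nonneg (by linarith) (by linarith)
    linarith

/-- the union of two random sets is a random set (induction with `ex_insert`) -/
theorem ex_union_eq (p1 p2 : ℝ) (N : Finset V) (Θ : Finset V → ℝ) :
    ex p1 N (fun O => ex p2 N (fun R => Θ (O ∪ R))) = ex (p1 + p2 - p1 * p2) N Θ := by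
  induction N using Finset.induction_on generalizing Θ with
  | empty =>
    rw [ex_empty, ex_empty, ex_empty, Finset.empty_union]
  | insert e N he ih =>
    rw [ex_insert p1 N e he, ex_insert (p1 + p2 - p1 * p2) N e he, ← ih, ← ih]
    have h1 : ∀ O : Finset V, ex p2 (insert e N) (fun R => Θ (insert e O ∪ R)) =
        ex p2 N (fun R => Θ (insert e (O ∪ R))) := by
      intro O
      rw [ex_insert p2 N e he]
      have h2 : (fun F => Θ (insert e O ∪ insert e F)) = fun F => Θ (insert e (O ∪ F)) := by
        funext F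
        rw [← Finset.insert_union_distrib]
      have h3 : (fun F => Θ (insert e O ∪ F)) = fun F => Θ (insert e (O ∪ F)) := by
        funext F
        rw [Finset.insert_union]
      rw [h2, h3]
      ring
    have h4 : ∀ O : Finset V, ex p2 (insert e N) (fun R => Θ (O ∪ R)) =
        p2 * ex p2 N (fun R => Θ (insert e (O ∪ R))) +
          (1 - p2) * ex p2 N (fun R => Θ (O ∪ R)) := by
      intro O
      rw [ex_insert p2 N e he]
      have h2 : (fun F => Θ (O ∪ insert e F)) = fun F => Θ (insert e (O ∪ F)) := by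
        funext F
        rw [Finset.union_insert]
      rw [h2]
    simp only [h1, h4]
    rw [ex_add, ex_mul_left, ex_mul_left]
    ring

theorem ex_inter (q : ℝ) (N C : Finset V) (hC : C ⊆ N) (f : Finset V → ℝ) :
    ex q N (fun O => f (O ∩ C)) = ex q C f := by
  have h1 : N = C ∪ (N \ C) := (Finset.union_sdiff_of_subset hC).symm
  have h2 : Disjoint C (N \ C) := Finset.disjoint_sdiff
  rw [h1, ex_union q C (N \ C) h2]
  refine ex_congr q C fun F hF => ?_
  rw [ex_congr q (N \ C) (g := fun _ => f F) fun F' hF' => ?_, ex_const]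
  congr 1
  rw [Finset.union_inter_distrib_right, Finset.inter_eq_left.2 hF]
  have h3 : F' ∩ C = ∅ := by
    rw [← Finset.disjoint_iff_inter_eq_empty]
    exact Finset.disjoint_of_subset_left hF' h2.symm
  rw [h3, Finset.union_empty]

end Pool.Agent.Lib.MP_56e41f_co.LD
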