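import Pool.Agent.Lib.MP_56e41f_co.LD.Defs
import Pool.Agent.Lib.MP_56e41f_co.LD.LayA

/-!
# Layers and unions of random sets
-/

open Finset

namespace Pool.Agent.Lib.MP_56e41f_co.LD

variable {V : Type} [Fintype V] [DecidableEq V]

theorem lay_mono {q : ℝ} (h0 : 0 ≤ q) (h1 : q ≤ 1) (N : Finset V) (k : ℕ)
    {Θ Θ' : Finset V → ℝ} (h : ∀ O ⊆ N, Θ O ≤ Θ' O) : lay q N k Θ ≤ lay q N k Θ' := by
  induction k generalizing Θ Θ' with
  | zero => exact h ∅ (empty_subset N)
  | succ k ih =>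
    refine ex_mono h0 h1 N (fun O hO => ih (fun R hR => h _ (union_subset hO hR)))

theorem lay_const (q : ℝ) (N : Finset V) (k : ℕ) (c : ℝ) : lay q N k (fun _ => c) = c := by
  induction k with
  | zero => rfl
  | succ k ih =>
    show ex q N (fun _ => lay q N k (fun _ => c)) = c
    rw [ih, ex_const]

/-- `k` layers of density `q` are at most one of density `p ≥ k q` -/
theorem lay_le {q : ℝ} (h0 : 0 ≤ q) (N : Finset V) (k : ℕ) {p : ℝ}
    (hkp : (k : ℝ) * q ≤ p) (h1 : p ≤ 1) (Θ : Finset V → ℝ)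
    (hΘ : ∀ O O' : Finset V, O ⊆ O' → O' ⊆ N → Θ O ≤ Θ O') :
    lay q N k Θ ≤ ex p N Θ := by
  induction k generalizing p Θ with
  | zero =>
    have hp0 : 0 ≤ p := by simpa using hkp
    show Θ ∅ ≤ ex p N Θ
    have := ex_mono hp0 h1 N (f := fun _ => Θ ∅) (g := Θ)
      (fun O hO => hΘ ∅ O (empty_subset O) hO)
    rwa [ex_const] at this
  | succ k ih =>
    have hk0 : (0 : ℝ) ≤ (k : ℝ) * q := by positivity
    push_cast at hkp
    have hkq : (k : ℝ) * q ≤ 1 := by nlinarith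
    have hq1 : q ≤ 1 := by nlinarith
    show ex q N (fun O => lay q N k (fun R => Θ (O ∪ R))) ≤ ex p N Θ
    have h2 : ex q N (fun O => lay q N k (fun R => Θ (O ∪ R))) ≤
        ex q N (fun O => ex ((k : ℝ) * q) N (fun R => Θ (O ∪ R))) := by
      refine ex_mono h0 hq1 N (fun O hO => ih le_rfl hkq _ ?_)
      intro R R' hR hR'
      exact hΘ _ _ (union_subset_union_right hR) (union_subset hO hR')
    refine h2.trans ?_
    rw [ex_union_eq]
    refine ex_mono_p ?_ ?_ h1 N Θ hΘ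
    · nlinarith
    · nlinarith [mul_nonneg h0 hk0]

end Pool.Agent.Lib.MP_56e41f_co.LD
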