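import Pool.Agent.Lib.MP_56e41f_co.LD.Stp

/-!
# The exponential inequality for one random step
-/

open Finset

namespace Pool.Agent.Lib.MP_56e41f_co.LD

variable {V : Type} [Fintype V] [DecidableEq V]

/-- generating function of a random subset (induction with `ex_insert`) -/
theorem ex_exp (δ : ℝ) (E : Finset V) (f : V → ℝ) :
    ex δ E (fun R => Real.exp (∑ w ∈ R, f w)) = ∏ w ∈ E, (1 + δ * (Real.exp (f w) - 1)) := by
  induction E using Finset.induction_on with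
  | empty => rw [ex_empty, Finset.sum_empty, Real.exp_zero, Finset.prod_empty]
  | insert e E he ih =>
    rw [ex_insert δ E e he, Finset.prod_insert he, ← ih]
    have h1 : ex δ E (fun R => Real.exp (∑ w ∈ insert e R, f w)) =
        Real.exp (f e) * ex δ E (fun R => Real.exp (∑ w ∈ R, f w)) := by
      rw [← ex_mul_left]
      refine ex_congr δ E fun R hR => ?_
      rw [Finset.sum_insert (fun h => he (hR h)), Real.exp_add]
    rw [h1]
    ring

/-- the left side of the exponential inequality -/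
private theorem mgf_eq {F C : Finset V} {ρ δ : ℝ} (f : V → ℝ) {u : V} (hu : u ∈ C) :
    ex δ (C.erase u) (fun R => ex ρ (F \ C)
      (fun R' => Real.exp (∑ w ∈ insert u (R ∪ R'), f w))) =
      Real.exp (f u) * (∏ w ∈ C.erase u, (1 + δ * (Real.exp (f w) - 1))) *
        ∏ w ∈ F \ C, (1 + ρ * (Real.exp (f w) - 1)) := by
  have h1 : ex δ (C.erase u) (fun R => ex ρ (F \ C)
      (fun R' => Real.exp (∑ w ∈ insert u (R ∪ R'), f w))) =
      ex δ (C.erase u) (fun R => (Real.exp (f u) *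
        ∏ w ∈ F \ C, (1 + ρ * (Real.exp (f w) - 1))) * Real.exp (∑ w ∈ R, f w)) := by
    refine ex_congr _ _ fun R hR => ?_
    have h2 : ex ρ (F \ C) (fun R' => Real.exp (∑ w ∈ insert u (R ∪ R'), f w)) =
        ex ρ (F \ C) (fun R' => (Real.exp (f u) * Real.exp (∑ w ∈ R, f w)) *
          Real.exp (∑ w ∈ R', f w)) := by
      refine ex_congr _ _ fun R' hR' => ?_
      have h3 : Disjoint R R' := by
        rw [Finset.disjoint_left]
        intro w hw hw'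
        exact (Finset.mem_sdiff.1 (hR' hw')).2 (Finset.mem_of_mem_erase (hR hw))
      have h4 : u ∉ R ∪ R' := by
        intro h
        rcases Finset.mem_union.1 h with h | h
        · exact Finset.notMem_erase u C (hR h)
        · exact (Finset.mem_sdiff.1 (hR' h)).2 hu
      rw [Finset.sum_insert h4, Finset.sum_union h3, Real.exp_add, Real.exp_add, mul_assoc]
    rw [h2, ex_mul_left, ex_exp]
    ring
  rw [h1, ex_mul_left, ex_exp]
  ring

/-- the deletion rates -/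
private theorem mgf_rate {D ρ : ℝ} (hD : D ≠ 0) (h0 : 1 / D ≤ ρ) (h1 : ρ ≤ 1) :
    (1 - (ρ - 1 / D) / (1 - 1 / D)) / D + (ρ - 1 / D) / (1 - 1 / D) = ρ := by
  by_cases h : 1 - 1 / D = 0
  · have h2 : 1 / D = 1 := by linarith
    have h3 : ρ = 1 := by linarith
    rw [h, div_zero, sub_zero, h2, add_zero, h3]
  · have h2 : (ρ - 1 / D) / (1 - 1 / D) * (1 - 1 / D) = ρ - 1 / D := div_mul_cancel₀ _ h
    generalize (ρ - 1 / D) / (1 - 1 / D) = δ at h2
    have h3 : (1 - δ) / D + δ = 1 / D + δ * (1 - 1 / D) := by ring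
    rw [h3, h2]
    ring

/-- One step. Put `a w = exp (f w) - 1 > -1`, `δ` the deletion probability inside `C`,
`D = |C|`. The left side is
`(1/D) ∑ u ∈ C, (1 + a u) ∏ w ∈ C.erase u, (1 + δ a w) * ∏ w ∈ F \ C, (1 + ρ a w)`.
Use `(1 + a) ≤ (1 + δ a) (1 + (1 - δ) a)` (the difference is `δ (1 - δ) a ^ 2`), so the left side is
at most `(1 + (1 - δ) avg a) * ∏ w ∈ C, (1 + δ a w) * ∏ w ∈ F \ C, (1 + ρ a w)`, then
`1 + y ≤ exp y`; the coefficient of `a w`, `w ∈ C`, is `(1 - δ) / D + δ = ρ`. For `D = 1` one has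
`ρ = 1`, `δ = 0`. -/
theorem stp_mgf {F C : Finset V} {ρ : ℝ} (hCF : C ⊆ F) (hC : C.Nonempty)
    (h0 : 1 / (C.card : ℝ) ≤ ρ) (h1 : ρ ≤ 1) (f : V → ℝ) :
    stp F C ρ (fun u R => Real.exp (∑ w ∈ insert u R, f w)) ≤
      Real.exp (ρ * ∑ w ∈ F, (Real.exp (f w) - 1)) := by
  obtain ⟨δ0, δ1⟩ := stp_rate hC h0 h1
  have hD : (0 : ℝ) < (C.card : ℝ) := Nat.cast_pos.2 hC.card_pos
  have hrate := mgf_rate hD.ne' h0 h1
  have hρ0 : 0 ≤ ρ := le_trans (by positivity) h0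
  unfold stp
  generalize (ρ - 1 / (C.card : ℝ)) / (1 - 1 / (C.card : ℝ)) = δ at *
  have ha : ∀ w, -1 < Real.exp (f w) - 1 := fun w => by linarith [Real.exp_pos (f w)]
  have hf : ∀ τ : ℝ, 0 ≤ τ → τ ≤ 1 → ∀ w, 0 ≤ 1 + τ * (Real.exp (f w) - 1) := by
    intro τ t0 t1 w
    nlinarith [ha w]
  have hQ0 : 0 ≤ ∏ w ∈ F \ C, (1 + ρ * (Real.exp (f w) - 1)) :=
    Finset.prod_nonneg fun w _ => hf ρ hρ0 h1 w
  have hP0 : 0 ≤ ∏ w ∈ C, (1 + δ * (Real.exp (f w) - 1)) :=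
    Finset.prod_nonneg fun w _ => hf δ δ0 δ1 w
  have hterm : ∀ u ∈ C, ex δ (C.erase u) (fun R => ex ρ (F \ C)
      (fun R' => Real.exp (∑ w ∈ insert u (R ∪ R'), f w))) ≤
      (1 + (1 - δ) * (Real.exp (f u) - 1)) * ((∏ w ∈ C, (1 + δ * (Real.exp (f w) - 1))) *
        ∏ w ∈ F \ C, (1 + ρ * (Real.exp (f w) - 1))) := by
    intro u hu
    rw [mgf_eq f hu, ← Finset.mul_prod_erase C _ hu]
    have hE0 : 0 ≤ ∏ w ∈ C.erase u, (1 + δ * (Real.exp (f w) - 1)) :=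
      Finset.prod_nonneg fun w _ => hf δ δ0 δ1 w
    have hkey : Real.exp (f u) ≤ (1 + (1 - δ) * (Real.exp (f u) - 1)) *
        (1 + δ * (Real.exp (f u) - 1)) := by
      have h2 : (1 + (1 - δ) * (Real.exp (f u) - 1)) * (1 + δ * (Real.exp (f u) - 1)) -
          Real.exp (f u) = δ * (1 - δ) * (Real.exp (f u) - 1) ^ 2 := by ring
      have h3 : 0 ≤ δ * (1 - δ) * (Real.exp (f u) - 1) ^ 2 :=
        mul_nonneg (mul_nonneg δ0 (by linarith)) (sq_nonneg _)
      linarith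
    have h4 := mul_le_mul_of_nonneg_right hkey (mul_nonneg hE0 hQ0)
    calc _ = Real.exp (f u) * ((∏ w ∈ C.erase u, (1 + δ * (Real.exp (f w) - 1))) *
        ∏ w ∈ F \ C, (1 + ρ * (Real.exp (f w) - 1))) := by ring
      _ ≤ _ := h4
      _ = _ := by ring
  have hsum := Finset.sum_le_sum hterm
  rw [← Finset.sum_mul, Finset.sum_add_distrib, Finset.sum_const, nsmul_eq_mul, mul_one,
    ← Finset.mul_sum] at hsum
  have hA : -(C.card : ℝ) ≤ ∑ u ∈ C, (Real.exp (f u) - 1) := by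
    have h2 := Finset.sum_le_sum fun w (_ : w ∈ C) => (ha w).le
    rw [Finset.sum_const, nsmul_eq_mul] at h2
    linarith
  have hy : ((C.card : ℝ) + (1 - δ) * ∑ u ∈ C, (Real.exp (f u) - 1)) / (C.card : ℝ) =
      1 + (1 - δ) / (C.card : ℝ) * ∑ u ∈ C, (Real.exp (f u) - 1) := by
    field_simp
  have hy0 : 0 ≤ 1 + (1 - δ) / (C.card : ℝ) * ∑ u ∈ C, (Real.exp (f u) - 1) := by
    rw [← hy]
    refine div_nonneg ?_ hD.le
    nlinarith
  have hP1 : ∏ w ∈ C, (1 + δ * (Real.exp (f w) - 1)) ≤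
      Real.exp (δ * ∑ w ∈ C, (Real.exp (f w) - 1)) := by
    rw [Finset.mul_sum, Real.exp_sum]
    refine Finset.prod_le_prod (fun w _ => hf δ δ0 δ1 w) fun w _ => ?_
    linarith [Real.add_one_le_exp (δ * (Real.exp (f w) - 1))]
  have hQ1 : ∏ w ∈ F \ C, (1 + ρ * (Real.exp (f w) - 1)) ≤
      Real.exp (ρ * ∑ w ∈ F \ C, (Real.exp (f w) - 1)) := by
    rw [Finset.mul_sum, Real.exp_sum]
    refine Finset.prod_le_prod (fun w _ => hf ρ hρ0 h1 w) fun w _ => ?_
    linarith [Real.add_one_le_exp (ρ * (Real.exp (f w) - 1))]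
  have hy1 : 1 + (1 - δ) / (C.card : ℝ) * ∑ u ∈ C, (Real.exp (f u) - 1) ≤
      Real.exp ((1 - δ) / (C.card : ℝ) * ∑ u ∈ C, (Real.exp (f u) - 1)) := by
    linarith [Real.add_one_le_exp ((1 - δ) / (C.card : ℝ) * ∑ u ∈ C, (Real.exp (f u) - 1))]
  calc _ ≤ (((C.card : ℝ) + (1 - δ) * ∑ u ∈ C, (Real.exp (f u) - 1)) *
        ((∏ w ∈ C, (1 + δ * (Real.exp (f w) - 1))) *
          ∏ w ∈ F \ C, (1 + ρ * (Real.exp (f w) - 1)))) / (C.card : ℝ) :=
        div_le_div_of_nonneg_right hsum hD.le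
    _ = (1 + (1 - δ) / (C.card : ℝ) * ∑ u ∈ C, (Real.exp (f u) - 1)) *
        ((∏ w ∈ C, (1 + δ * (Real.exp (f w) - 1))) *
          ∏ w ∈ F \ C, (1 + ρ * (Real.exp (f w) - 1))) := by
        rw [← hy]
        ring
    _ ≤ Real.exp ((1 - δ) / (C.card : ℝ) * ∑ u ∈ C, (Real.exp (f u) - 1)) *
        (Real.exp (δ * ∑ w ∈ C, (Real.exp (f w) - 1)) *
          Real.exp (ρ * ∑ w ∈ F \ C, (Real.exp (f w) - 1))) := by
        refine mul_le_mul hy1 (mul_le_mul hP1 hQ1 hQ0 (Real.exp_pos _).le)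
          (mul_nonneg hP0 hQ0) (Real.exp_pos _).le
    _ = Real.exp (ρ * ∑ w ∈ F, (Real.exp (f w) - 1)) := by
        rw [← Real.exp_add, ← Real.exp_add]
        congr 1
        rw [← Finset.sum_sdiff hCF]
        linear_combination (∑ u ∈ C, (Real.exp (f u) - 1)) * hrate

end Pool.Agent.Lib.MP_56e41f_co.LD
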