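import Pool.Agent.Lib.MP_56e41f_co.LD.ParD

/-!
# The parameters
-/

open Finset

namespace Pool.Agent.Lib.MP_56e41f_co.LD

private theorem pra_log {c : ℝ} (hc : 0 < c) (hc1 : c < 1) : 1 ≤ Real.log (16 / c) := by
  rw [Real.le_log_iff_exp_le (by positivity), le_div_iff₀ hc]
  have h1 : Real.exp 1 ≤ 3 := by
    have := Real.exp_one_lt_d9
    linarith
  have h2 : 0 < Real.exp 1 := Real.exp_pos 1
  nlinarith

theorem par_ok {c ε1 d mu : ℝ} {L : ℕ} (hc : 0 < c) (hc1 : c < 1) (hε : 0 < ε1) (hd : 0 < d)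
    (hmu : d ≤ 2 * (1 + c / 8) * mu) (hL : 1 ≤ L) (hdc : 54 / c ≤ d) :
    (mkP c ε1 d mu L).Ok := by
  have hLr : (1 : ℝ) ≤ L := by exact_mod_cast hL
  have hL0 : (0 : ℝ) < L := by linarith
  have hlog := pra_log hc hc1
  have hmu0 : 0 < mu := by
    by_contra h
    have h1 : 2 * (1 + c / 8) * mu ≤ 0 := mul_nonpos_of_nonneg_of_nonpos (by linarith) (not_lt.1 h)
    linarith
  have hx0 : 0 < c / (192 * L) := by positivity
  have hx1 : c / (192 * L) ≤ c / 192 := by
    apply div_le_div_of_nonneg_left hc.le (by norm_num)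
    linarith
  have hdm : d ≤ 9 / 4 * mu := by
    have h1 : 2 * (1 + c / 8) * mu ≤ 9 / 4 * mu := mul_le_mul_of_nonneg_right (by linarith) hmu0.le
    linarith
  have hcd : 54 ≤ d * c := by
    rwa [div_le_iff₀ hc] at hdc
  have hlam0 : 0 < c / (192 * L) * (c / 8) ^ 2 / (8 * Real.log (16 / c)) := by positivity
  have hlam1 : c / (192 * L) * (c / 8) ^ 2 / (8 * Real.log (16 / c)) ≤ c / 8 / 2 := by
    have h1 : c / (192 * L) * (c / 8) ^ 2 ≤ c / 192 * 1 :=
      mul_le_mul hx1 (by nlinarith) (by positivity) (by positivity)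
    have h2 : c / (192 * L) * (c / 8) ^ 2 / (8 * Real.log (16 / c)) ≤ c / 192 * 1 / 1 := by
      apply div_le_div₀ (by positivity) h1 one_pos
      linarith
    linarith
  have hthb : 2 * (c / (2048 * ε1)) * (ε1 * d / L / mu) ≤ 1 := by
    have h1 : 2 * (c / (2048 * ε1)) * (ε1 * d / L / mu) = c * d / (1024 * L * mu) := by
      field_simp
      ring
    rw [h1, div_le_one (by positivity)]
    have h2 : c * d ≤ 1 * (9 / 4 * mu) := mul_le_mul hc1.le hdm hd.le (by norm_num)
    have h3 : 1 * mu ≤ L * mu := mul_le_mul_of_nonneg_right hLr hmu0.le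
    nlinarith
  have hkmu : 3 ≤ c / 8 * mu := by
    have h2 : d * c ≤ 9 / 4 * mu * c := mul_le_mul_of_nonneg_right hdm hc.le
    linarith
  have hxl : c / (32 * L) ≤ 1 := by
    rw [div_le_one (by positivity)]
    linarith
  have hxl2 : 6 * (c / (192 * L)) ≤ c / (32 * L) := by
    have h1 : 6 * (c / (192 * L)) = c / (32 * L) := by
      field_simp
      norm_num
    exact h1.le
  have hbB : 1 - c / 4 ≤ (1 - c / 8) * (1 - c / (192 * L)) := by nlinarith
  exact {
    mu0 := hmu0
    k0 := by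
      show 0 < c / 8
      positivity
    k1 := by
      show c / 8 ≤ 1 / 2
      linarith
    x0 := hx0
    x1 := by
      show c / (192 * L) ≤ 1 / 3
      linarith
    bB := hbB
    lam0 := hlam0
    lam1 := hlam1
    th0 := by
      show 0 < c / (2048 * ε1)
      positivity
    xl1 := hxl
    xl2 := hxl2
    hb0 := by
      show 0 < ε1 * d / L
      positivity
    thb := hthb
    kmu := hkmu
    xi0 := by
      show 0 < c / 16
      positivity
    xi1 := by
      show c / 16 ≤ 1
      linarith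
    L1 := hL }

theorem par_lam {c : ℝ} {L : ℕ} (hc : 0 < c) (hc1 : c < 1) (hL : 1 ≤ L) :
    4 / (c / 8) ^ 2 * (c / (192 * L) * (c / 8) ^ 2 / (8 * Real.log (16 / c))) *
      Real.log (2 / (c / 8)) ≤ c / (192 * L) / 2 := by
  have hLr : (1 : ℝ) ≤ L := by exact_mod_cast hL
  have hL0 : (0 : ℝ) < L := by linarith
  have hlog := pra_log hc hc1
  have h1 : 2 / (c / 8) = 16 / c := by
    field_simp
    norm_num
  rw [h1]
  have h2 : Real.log (16 / c) ≠ 0 := by linarith
  have h3 : 4 / (c / 8) ^ 2 * (c / (192 * L) * (c / 8) ^ 2 / (8 * Real.log (16 / c))) *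
      Real.log (16 / c) = c / (192 * L) / 2 := by
    generalize Real.log (16 / c) = y at h2
    field_simp
    ring
  exact h3.le

end Pool.Agent.Lib.MP_56e41f_co.LD
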