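import Pool.Agent.Lib.MP_56e41f_co.LD.Defs

/-!
# The parameters
-/

open Finset

namespace Pool.Agent.Lib.MP_56e41f_co.LD

/-- The parameters: `ε1` is small in terms of `c` and `ε`. -/
noncomputable def mkP (c ε1 d mu : ℝ) (L : ℕ) : Pm where
  κ := c / 8
  x := c / (192 * L)
  lam := c / (192 * L) * (c / 8) ^ 2 / (8 * Real.log (16 / c))
  th := c / (2048 * ε1)
  B := 1 - c / 4
  xl := c / (32 * L)
  hb := ε1 * d / L
  mu := mu
  xi := c / 16
  L := L

end Pool.Agent.Lib.MP_56e41f_co.LD
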