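import Pool.Agent.Lib.MP_56e41f_co.LD.Tre

/-!
# Extensions of partial embeddings
-/

open Finset

namespace Pool.Agent.Lib.MP_56e41f_co.LD

variable {V : Type} [Fintype V] [DecidableEq V] {t Δ : ℕ}

theorem PV_nonneg (D : TD t Δ) {p : ℝ} (h0 : 0 ≤ p) (h1 : p ≤ 1) (E : Finset (Sym2 V)) (a : ℕ)
    (φ : Fin t → V) (F : Finset V) : 0 ≤ PV D p E a φ F :=
  pr_nonneg h0 h1 E _

theorem PV_mono (D : TD t Δ) {p : ℝ} (h0 : 0 ≤ p) (h1 : p ≤ 1) (E : Finset (Sym2 V)) (a : ℕ)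
    (φ : Fin t → V) {F F' : Finset V} (h : F ⊆ F') : PV D p E a φ F ≤ PV D p E a φ F' := by
  refine pr_mono h0 h1 E ?_
  rintro ω - ⟨ψ, h2, h3, h4⟩
  exact ⟨ψ, h2, h3, fun i hi => ⟨h (h4 i hi).1, (h4 i hi).2⟩⟩

/-- nothing is left to place -/
theorem PV_end (D : TD t Δ) (p : ℝ) (E : Finset (Sym2 V)) (a : ℕ) (ha : t ≤ a)
    (φ : Fin t → V) (F : Finset V) : PV D p E a φ F = 1 := by
  have hU : ∀ i, ¬ Unp D a i := fun i hi => by
    have h1 := hi.2
    have h2 := (D.par i).isLt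
    omega
  have h : ∀ ω : Finset (Sym2 V), ind (Ext D a φ F ω) = 1 := fun ω =>
    ind_true ⟨φ, fun i _ => rfl, fun i _ hi => absurd hi (hU i), fun i hi => absurd hi (hU i)⟩
  unfold PV pr
  rw [ex_congr p E (g := fun _ => 1) (fun ω _ => h ω), ex_const]

/-- at the start: the root is placed at `x0`, the other vertices avoid `x0` -/
theorem PV_start (D : TD t Δ) {p : ℝ} (h0 : 0 ≤ p) (h1 : p ≤ 1) (E : Finset (Sym2 V)) (x0 : V) :
    pr p E (fun ω => ¬ Emb D ω) ≤ 1 - PV D p E 0 (fun _ => x0) (univ.erase x0) := by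
  have key : ∀ ω : Finset (Sym2 V), Ext D 0 (fun _ => x0) (univ.erase x0) ω → Emb D ω := by
    rintro ω ⟨ψ, h2, h3, h4⟩
    have hz : ∀ i : Fin t, i.val = 0 → ψ i = x0 := fun i hi => h2 i fun hu => hu.1 hi
    have hn : ∀ i : Fin t, i.val ≠ 0 → Unp D 0 i := fun i hi => ⟨hi, Nat.zero_le _⟩
    have hx : ∀ i : Fin t, i.val ≠ 0 → ψ i ≠ x0 := fun i hi =>
      (Finset.mem_erase.1 (h4 i (hn i hi)).1).1
    refine ⟨ψ, fun i j hij => ?_, fun i hi => (h4 i (hn i hi)).2⟩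
    by_cases hi : i.val = 0
    · by_cases hj : j.val = 0
      · exact Fin.ext (hi.trans hj.symm)
      · exact absurd (hij.symm.trans (hz i hi)) (hx j hj)
    · by_cases hj : j.val = 0
      · exact absurd (hij.trans (hz j hj)) (hx i hi)
      · exact h3 i j (hn i hi) (hn j hj) hij
  have h5 : pr p E (fun ω => ¬ Emb D ω) + PV D p E 0 (fun _ => x0) (univ.erase x0) ≤ 1 := by
    unfold PV pr
    rw [← ex_add, ← ex_const p E 1]
    refine ex_mono h0 h1 E fun ω _ => ?_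
    by_cases h : Ext D 0 (fun _ => x0) (univ.erase x0) ω
    · have h6 : ind (¬ Emb D ω) = 0 := ind_false (not_not.2 (key ω h))
      have h7 := ind_le_one (Ext D 0 (fun _ => x0) (univ.erase x0) ω)
      simp only [h6]
      linarith
    · have h6 : ind (Ext D 0 (fun _ => x0) (univ.erase x0) ω) = 0 := ind_false h
      have h7 := ind_le_one (¬ Emb D ω)
      simp only [h6]
      linarith
  linarith

theorem mx_nonneg {S : Finset V} {f : V → ℝ} (h : ∀ u ∈ S, 0 ≤ f u) : 0 ≤ mx S f := by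
  unfold mx
  split_ifs with hS
  · obtain ⟨u, hu⟩ := hS
    exact (h u hu).trans (Finset.le_sup' f hu)
  · exact le_rfl

theorem le_mx {S : Finset V} {f : V → ℝ} {u : V} (hu : u ∈ S) : f u ≤ mx S f := by
  unfold mx
  rw [dif_pos ⟨u, hu⟩]
  exact Finset.le_sup' f hu

theorem mx_mono {S S' : Finset V} {f f' : V → ℝ} (hS : S ⊆ S') (h : ∀ u ∈ S, f u ≤ f' u)
    (h0 : ∀ u ∈ S', 0 ≤ f' u) : mx S f ≤ mx S' f' := by
  by_cases hn : S.Nonempty
  · have e : mx S f = S.sup' hn f := by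
      unfold mx
      rw [dif_pos hn]
    rw [e]
    exact Finset.sup'_le _ _ fun u hu => (h u hu).trans (le_mx (hS hu))
  · have e : mx S f = 0 := by
      unfold mx
      rw [dif_neg hn]
    rw [e]
    exact mx_nonneg h0

theorem mx_att {S : Finset V} (hS : S.Nonempty) (f : V → ℝ) : ∃ u ∈ S, mx S f = f u := by
  obtain ⟨u, hu, h⟩ := Finset.exists_mem_eq_sup' hS f
  refine ⟨u, hu, ?_⟩
  unfold mx
  rw [dif_pos hS, h]

end Pool.Agent.Lib.MP_56e41f_co.LD
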