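import Pool.Agent.Lib.MP_56e41f_co.LD.Tre
import Pool.Agent.Lib.MP_56e41f_co.LD.PexA

/-!
# Extensions of partial embeddings
-/

open Finset

namespace Pool.Agent.Lib.MP_56e41f_co.LD

variable {V : Type} [Fintype V] [DecidableEq V] {t Δ : ℕ}

theorem Bst_nonneg (D : TD t Δ) {p : ℝ} (h0 : 0 ≤ p) (h1 : p ≤ 1) (E : Finset (Sym2 V)) (a : ℕ)
    (l : List (Fin t)) (φ : Fin t → V) (F O : Finset V) : 0 ≤ Bst D p E a l φ F O := by
  cases l with
  | nil => exact PV_nonneg D h0 h1 E (a + 1) φ F
  | cons i l => exact mx_nonneg fun u _ => Bst_nonneg D h0 h1 E a l _ _ _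

/-- monotone in the free set and in the open set -/
theorem Bst_mono (D : TD t Δ) {p : ℝ} (h0 : 0 ≤ p) (h1 : p ≤ 1) (E : Finset (Sym2 V)) (a : ℕ)
    (l : List (Fin t)) (φ : Fin t → V) {F F' O O' : Finset V} (hF : F ⊆ F') (hO : O ⊆ O') :
    Bst D p E a l φ F O ≤ Bst D p E a l φ F' O' := by
  induction l generalizing φ F F' with
  | nil => exact PV_mono D h0 h1 E (a + 1) φ hF
  | cons i l ih =>
    exact mx_mono (Finset.inter_subset_inter hO hF)
      (fun u _ => ih _ (Finset.erase_subset_erase u hF))
      (fun u _ => Bst_nonneg D h0 h1 E a l _ _ _)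

theorem Bst_cons (D : TD t Δ) {p : ℝ} (h0 : 0 ≤ p) (h1 : p ≤ 1) (E : Finset (Sym2 V)) (a : ℕ)
    (i : Fin t) (l : List (Fin t)) (φ : Fin t → V) (F O R : Finset V) {u : V} (hO : u ∈ O)
    (hF : u ∈ F) :
    Bst D p E a l (Function.update φ i u) ((F.erase u) \ R) O ≤ Bst D p E a (i :: l) φ F O := by
  refine (Bst_mono D h0 h1 E a l _ (Finset.sdiff_subset (t := R)) (Finset.Subset.refl O)).trans ?_
  exact le_mx (S := O ∩ F)
    (f := fun v => Bst D p E a l (Function.update φ i v) (F.erase v) O)
    (Finset.mem_inter.2 ⟨hO, hF⟩)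

/-- the value is `0` or attained by a placement of `l` -/
theorem Bst_att (D : TD t Δ) {p : ℝ} (h0 : 0 ≤ p) (h1 : p ≤ 1) (E : Finset (Sym2 V)) (a : ℕ)
    (l : List (Fin t)) (hl : l.Nodup) (φ : Fin t → V) (F O : Finset V) :
    Bst D p E a l φ F O = 0 ∨ ∃ φ' : Fin t → V, (∀ j ∉ l, φ' j = φ j) ∧
      (∀ i ∈ l, ∀ j ∈ l, φ' i = φ' j → i = j) ∧ (∀ j ∈ l, φ' j ∈ O ∧ φ' j ∈ F) ∧
      Bst D p E a l φ F O = PV D p E (a + 1) φ' (F \ l.toFinset.image φ') := by
  induction l generalizing φ F with
  | nil =>
    refine Or.inr ⟨φ, fun j _ => rfl, fun i hi => absurd hi List.not_mem_nil,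
      fun i hi => absurd hi List.not_mem_nil, ?_⟩
    have h : F \ (([] : List (Fin t)).toFinset.image φ) = F := by simp
    rw [h]
    rfl
  | cons i l ih =>
    have hi : i ∉ l := (List.nodup_cons.1 hl).1
    by_cases hn : (O ∩ F).Nonempty
    · obtain ⟨u, hu, he⟩ := mx_att hn
        (fun v => Bst D p E a l (Function.update φ i v) (F.erase v) O)
      have huO := (Finset.mem_inter.1 hu).1
      have huF := (Finset.mem_inter.1 hu).2
      have he' : Bst D p E a (i :: l) φ F O =
          Bst D p E a l (Function.update φ i u) (F.erase u) O := he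
      rcases ih (List.nodup_cons.1 hl).2 (Function.update φ i u) (F.erase u) with h | h
      · exact Or.inl (he'.trans h)
      · obtain ⟨φ', h1', h2, h3, h4⟩ := h
        have hiu : φ' i = u := by
          rw [h1' i hi, Function.update_self]
        refine Or.inr ⟨φ', ?_, ?_, ?_, ?_⟩
        · intro j hj
          have hji : j ≠ i := fun h => hj (h ▸ List.mem_cons_self)
          have hjl : j ∉ l := fun h => hj (List.mem_cons_of_mem i h)
          rw [h1' j hjl, Function.update_of_ne hji]
        · intro j hj k hk hjk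
          rcases List.mem_cons.1 hj with hj | hj
          · rcases List.mem_cons.1 hk with hk | hk
            · exact hj.trans hk.symm
            · exfalso
              have h5 := (Finset.mem_erase.1 (h3 k hk).2).1
              rw [hj, hiu] at hjk
              exact h5 hjk.symm
          · rcases List.mem_cons.1 hk with hk | hk
            · exfalso
              have h5 := (Finset.mem_erase.1 (h3 j hj).2).1
              rw [hk, hiu] at hjk
              exact h5 hjk
            · exact h2 j hj k hk hjk
        · intro j hj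
          rcases List.mem_cons.1 hj with hj | hj
          · rw [hj, hiu]
            exact ⟨huO, huF⟩
          · exact ⟨(h3 j hj).1, (Finset.mem_erase.1 (h3 j hj).2).2⟩
        · have hs : F \ (i :: l).toFinset.image φ' = F.erase u \ l.toFinset.image φ' := by
            rw [List.toFinset_cons, Finset.image_insert, hiu]
            ext x
            simp only [Finset.mem_sdiff, Finset.mem_insert, Finset.mem_erase]
            tauto
          rw [hs, he', h4]
    · refine Or.inl ?_
      have e : mx (O ∩ F) (fun v => Bst D p E a l (Function.update φ i v) (F.erase v) O) = 0 := by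
        unfold mx
        rw [dif_neg hn]
      exact e

end Pool.Agent.Lib.MP_56e41f_co.LD
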