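import Pool.Agent.Lib.MP_56e41f_co.LD.Key

/-!
# The potential along the process
-/

open Finset

namespace Pool.Agent.Lib.MP_56e41f_co.LD

variable {V : Type} [Fintype V] [DecidableEq V] {t Δ : ℕ}

theorem past_le_Pot {G : SimpleGraph V} {X : Finset (V × Bool)} {P : Pm} (hO : P.Ok)
    (hH : Hs G X P) (D : TD t Δ) (s : Bool) (a : ℕ) (l : List (Fin t)) (σ : Sta V t) :
    σ.past ≤ Pot G X P D s a l σ := by
  unfold Pot
  rw [add_assoc]
  refine le_add_of_nonneg_right (add_nonneg ?_ ?_)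
  · exact Finset.sum_nonneg fun i _ => add_nonneg (Fn_nonneg G X D P.L i _) (Fc_nonneg hO hH D s i)
  · refine List.sum_nonneg fun x hx => ?_
    obtain ⟨j, -, rfl⟩ := List.mem_map.1 hx
    exact add_nonneg (add_nonneg (Gr_nonneg G X 0 _) (Fo_nonneg hO hH D s j _))
      (Fc_nonneg hO hH D s j)

theorem UZ_nonneg (G : SimpleGraph V) (X : Finset (V × Bool)) (P : Pm) (F : Finset V)
    (α h : ℝ) : 0 ≤ UZ G X P F α h := by
  exact Finset.sum_nonneg fun x _ => Finset.sum_nonneg fun k _ =>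
    add_nonneg (Real.exp_pos _).le (Real.exp_pos _).le

theorem U_nonneg (G : SimpleGraph V) (X : Finset (V × Bool)) (P : Pm) (D : TD t Δ) (s : Bool)
    (a : ℕ) (l : List (Fin t)) (σ : Sta V t) : 0 ≤ U G X P D s a l σ := by
  exact add_nonneg (Real.exp_pos _).le (UZ_nonneg G X P _ _ _)

end Pool.Agent.Lib.MP_56e41f_co.LD
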