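import Pool.Agent.Lib.MP_56e41f_co.LD.Key

/-!
# The potential along the process
-/

open Finset

namespace Pool.Agent.Lib.MP_56e41f_co.LD

variable {V : Type} [Fintype V] [DecidableEq V] {t Δ : ℕ}

/-- Placing `i` at `u`. The set of placed vertices with label above `a` gains exactly `i`; the
images of the others and of `par j`, `j ∈ l`, do not change. -/
theorem Pot_step (G : SimpleGraph V) (X : Finset (V × Bool)) (P : Pm) (D : TD t Δ)
    (s : Bool) (a : ℕ) (i : Fin t) (l : List (Fin t)) (hl : Lst D a (i :: l)) (σ : Sta V t)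
    (u : V) (R : Finset V) (ρ : ℝ) :
    Pot G X P D s a l (nxt σ i u R ρ (Gr G X 0 (loc D s σ (D.par i)))) =
      Pot G X P D s a (i :: l) σ + Fn G X D P.L i (u, sd s (D.dep i))
        - Fo G X P D s i (loc D s σ (D.par i)) := by
  classical
  obtain ⟨hi0, hia⟩ := hl.ch i List.mem_cons_self
  have hnl : i ∉ l := (List.nodup_cons.1 hl.nd).1
  have hlt : a < i.val := by
    rw [← hia]
    by_contra h
    push Not at h
    have h1 := D.mono i (D.par i) h
    have h2 := D.dep_par i hi0
    omega
  have hloc : ∀ j : Fin t, j ≠ i →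
      loc D s (nxt σ i u R ρ (Gr G X 0 (loc D s σ (D.par i)))) j = loc D s σ j := by
    intro j hj
    unfold loc nxt
    simp only [Function.update_of_ne hj]
  have hloc' : loc D s (nxt σ i u R ρ (Gr G X 0 (loc D s σ (D.par i)))) i =
      (u, sd s (D.dep i)) := by
    unfold loc nxt
    simp only [Function.update_self]
  have hset : univ.filter (fun j : Fin t => a < j.val ∧ Pl D a l j) =
      insert i (univ.filter (fun j : Fin t => a < j.val ∧ Pl D a (i :: l) j)) := by
    ext j
    simp only [mem_filter, mem_univ, true_and, mem_insert]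
    unfold Pl
    constructor
    · rintro ⟨h1, h2⟩
      by_cases hj : j = i
      · exact Or.inl hj
      · refine Or.inr ⟨h1, ?_⟩
        rcases h2 with h2 | h2 | ⟨h2, h3⟩
        · exact Or.inl h2
        · exact Or.inr (Or.inl h2)
        · refine Or.inr (Or.inr ⟨h2, fun h4 => ?_⟩)
          rcases List.mem_cons.1 h4 with h4 | h4
          · exact hj h4
          · exact h3 h4
    · rintro (h1 | ⟨h1, h2⟩)
      · rw [h1]
        exact ⟨hlt, Or.inr (Or.inr ⟨hia, hnl⟩)⟩
      · refine ⟨h1, ?_⟩
        rcases h2 with h2 | h2 | ⟨h2, h3⟩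
        · exact Or.inl h2
        · exact Or.inr (Or.inl h2)
        · exact Or.inr (Or.inr ⟨h2, fun h4 => h3 (List.mem_cons_of_mem _ h4)⟩)
  have hni : i ∉ univ.filter (fun j : Fin t => a < j.val ∧ Pl D a (i :: l) j) := by
    simp only [mem_filter, mem_univ, true_and]
    rintro ⟨-, h2⟩
    rcases h2 with h2 | h2 | ⟨h2, h3⟩
    · exact hi0 h2
    · omega
    · exact h3 List.mem_cons_self
  have hsum : ∑ j ∈ univ.filter (fun j : Fin t => a < j.val ∧ Pl D a l j),
      (Fn G X D P.L j (loc D s (nxt σ i u R ρ (Gr G X 0 (loc D s σ (D.par i)))) j)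
        + Fc G X P D s j) =
      (Fn G X D P.L i (u, sd s (D.dep i)) + Fc G X P D s i) +
      ∑ j ∈ univ.filter (fun j : Fin t => a < j.val ∧ Pl D a (i :: l) j),
        (Fn G X D P.L j (loc D s σ j) + Fc G X P D s j) := by
    rw [hset, sum_insert hni, hloc']
    refine congrArg _ (sum_congr rfl fun j hj => ?_)
    rw [hloc j (fun h => hni (h ▸ hj))]
  have hlist : l.map (fun j => Gr G X 0 (loc D s (nxt σ i u R ρ
        (Gr G X 0 (loc D s σ (D.par i)))) (D.par j))
        + Fo G X P D s j (loc D s (nxt σ i u R ρ (Gr G X 0 (loc D s σ (D.par i)))) (D.par j))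
        + Fc G X P D s j) =
      l.map (fun j => Gr G X 0 (loc D s σ (D.par j)) + Fo G X P D s j (loc D s σ (D.par j))
        + Fc G X P D s j) := by
    refine List.map_congr_left fun j hj => ?_
    have h1 := (hl.ch j (List.mem_cons_of_mem _ hj)).2
    rw [hloc (D.par j) (fun h => by rw [h] at h1; omega)]
  have hpast : (nxt σ i u R ρ (Gr G X 0 (loc D s σ (D.par i)))).past =
      σ.past + Gr G X 0 (loc D s σ (D.par i)) := rfl
  unfold Pot
  rw [hpast, hlist, List.map_cons, List.sum_cons]
  have e : ∀ (S S' : Finset (Fin t)) (f : Fin t → ℝ), S = S' → ∑ j ∈ S, f j = ∑ j ∈ S', f j :=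
    fun S S' f h => by rw [h]
  have hs1 : ∀ (l' : List (Fin t)) (τ : Sta V t) (inst : DecidablePred
      (fun j : Fin t => a < j.val ∧ Pl D a l' j)),
      ∑ j ∈ @Finset.filter _ (fun j : Fin t => a < j.val ∧ Pl D a l' j) inst univ,
        (Fn G X D P.L j (loc D s τ j) + Fc G X P D s j) =
      ∑ j ∈ univ.filter (fun j : Fin t => a < j.val ∧ Pl D a l' j),
        (Fn G X D P.L j (loc D s τ j) + Fc G X P D s j) := by
    intro l' τ inst
    exact e _ _ _ (by ext j; simp only [mem_filter])
  rw [hs1, hs1, hsum]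
  ring

end Pool.Agent.Lib.MP_56e41f_co.LD
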