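import Pool.Agent.Lib.MP_56e41f_co.LD.Key

/-!
# The potential along the process
-/

open Finset

namespace Pool.Agent.Lib.MP_56e41f_co.LD

variable {V : Type} [Fintype V] [DecidableEq V] {t Δ : ℕ}

private theorem potC_chl (D : TD t Δ) (P : Pm) (a : ℕ) (g : Fin t → ℝ) :
    ((chl D P a).map g).sum = ∑ j ∈ kids D a, g j := by
  classical
  rw [chl, List.map_append, List.sum_append, chH, chL, Finset.sum_map_toList,
    Finset.sum_map_toList]
  exact Finset.sum_filter_add_sum_filter_not _ _ _

private theorem potC_key {P : Pm} (hO : P.Ok) (G : SimpleGraph V) (X : Finset (V × Bool))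
    (D : TD t Δ) (s : Bool) (σ : Sta V t) (v : Fin t) :
    ∑ j ∈ kids D v.val, (Gr G X 0 (loc D s σ (D.par j)) + Fo G X P D s j (loc D s σ (D.par j))
      + Fc G X P D s j) = Fn G X D P.L v (loc D s σ v) + Fc G X P D s v := by
  rw [key hO D s v (loc D s σ v)]
  refine Finset.sum_congr rfl fun j hj => ?_
  have h1 : D.par j = v := Fin.ext (Finset.mem_filter.1 hj).2.2
  rw [h1]

private theorem potC_pl (D : TD t Δ) (P : Pm) (a : ℕ) (i : Fin t) (hi : i.val ≠ 0) :
    Pl D a (chl D P a) i ↔ (D.par i).val < a := by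
  constructor
  · rintro (h | h | h)
    · exact absurd h hi
    · exact h
    · exact absurd ((mem_chl D P a i).2 ⟨hi, h.1⟩) h.2
  · intro h
    exact Or.inr (Or.inl h)

private theorem potC_pl2 (D : TD t Δ) (a : ℕ) (i : Fin t) (hi : i.val ≠ 0) :
    Pl D a [] i ↔ (D.par i).val < a + 1 := by
  constructor
  · rintro (h | h | h)
    · exact absurd h hi
    · omega
    · have := h.1
      omega
  · intro h
    rcases Nat.lt_succ_iff_lt_or_eq.1 h with h1 | h1
    · exact Or.inr (Or.inl h1)
    · exact Or.inr (Or.inr ⟨h1, List.not_mem_nil⟩)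

/-- Passing to the next vertex: `key` for the vertex `a + 1` (if `a + 1 < t`). -/
theorem Pot_next {P : Pm} (hO : P.Ok) (G : SimpleGraph V) (X : Finset (V × Bool)) (D : TD t Δ)
    (s : Bool) (a : ℕ) (σ : Sta V t) :
    Pot G X P D s a [] σ = Pot G X P D s (a + 1) (chl D P (a + 1)) σ := by
  classical
  rw [Pot, Pot, potC_chl, List.map_nil, List.sum_nil, add_zero, add_assoc]
  congr 1
  by_cases ha : a + 1 < t
  · obtain ⟨v, hv⟩ : ∃ v : Fin t, v.val = a + 1 := ⟨⟨a + 1, ha⟩, rfl⟩
    have h1 := potC_key hO G X D s σ v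
    rw [hv] at h1
    have hset : (univ.filter fun i : Fin t => a < i.val ∧ Pl D a [] i) =
        insert v (univ.filter fun i : Fin t => a + 1 < i.val ∧
          Pl D (a + 1) (chl D P (a + 1)) i) := by
      ext i
      rw [mem_insert, mem_filter, mem_filter]
      constructor
      · rintro ⟨-, h2, h3⟩
        rw [potC_pl2 D a i (by omega)] at h3
        rcases Nat.lt_or_ge (a + 1) i.val with h4 | h4
        · exact Or.inr ⟨mem_univ _, h4, (potC_pl D P (a + 1) i (by omega)).2 h3⟩
        · exact Or.inl (Fin.ext (by omega))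
      · rintro (rfl | ⟨-, h2, h3⟩)
        · have h4 : i.val ≠ 0 := by omega
          have h5 := D.par_lt i h4
          rw [Fin.lt_def] at h5
          exact ⟨mem_univ _, by omega, (potC_pl2 D a i h4).2 (by omega)⟩
        · rw [potC_pl D P (a + 1) i (by omega)] at h3
          exact ⟨mem_univ _, by omega, (potC_pl2 D a i (by omega)).2 h3⟩
    have hnot : v ∉ univ.filter fun i : Fin t => a + 1 < i.val ∧
        Pl D (a + 1) (chl D P (a + 1)) i := by
      intro h2
      have h3 := (mem_filter.1 h2).2.1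
      omega
    rw [h1, hset, sum_insert hnot, add_comm]
  · have hk : kids D (a + 1) = ∅ := by
      refine filter_eq_empty_iff.2 fun v _ h2 => ?_
      have h3 := (D.par v).isLt
      omega
    rw [hk, sum_empty, add_zero]
    refine sum_congr (Finset.ext fun i => ?_) fun _ _ => rfl
    rw [mem_filter, mem_filter]
    have h2 := i.isLt
    constructor
    · rintro ⟨-, h3, -⟩
      omega
    · rintro ⟨-, h3, -⟩
      omega

theorem U_next {P : Pm} (hO : P.Ok) (G : SimpleGraph V) (X : Finset (V × Bool)) (D : TD t Δ)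
    (s : Bool) (a : ℕ) (σ : Sta V t) :
    U G X P D s a [] σ = U G X P D s (a + 1) (chl D P (a + 1)) σ := by
  rw [U, U, UP, UP, Pot_next hO, Rs_next D P (bd P D) a, Rs_next D P (hvi P D) a]

/-- At the start: `key` for the root. -/
theorem Pot_start {P : Pm} (hO : P.Ok) (G : SimpleGraph V) (X : Finset (V × Bool)) (D : TD t Δ)
    (s : Bool) (ht : 0 < t) (σ : Sta V t) (h0 : σ.past = 0) :
    Pot G X P D s 0 (chl D P 0) σ =
      Fn G X D P.L ⟨0, ht⟩ (loc D s σ ⟨0, ht⟩) + Fc G X P D s ⟨0, ht⟩ := by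
  classical
  have h1 := potC_key hO G X D s σ ⟨0, ht⟩
  have h2 : (univ.filter fun i : Fin t => 0 < i.val ∧ Pl D 0 (chl D P 0) i) = ∅ := by
    refine filter_eq_empty_iff.2 fun i _ h3 => ?_
    exact absurd ((potC_pl D P 0 i (by omega)).1 h3.2) (Nat.not_lt_zero _)
  rw [Pot, potC_chl, h0, h2, sum_empty, add_zero, zero_add]
  exact h1

end Pool.Agent.Lib.MP_56e41f_co.LD
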