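import Pool.Agent.Lib.MP_56e41f_co.LD.Pex

/-!
# Exposing the edges at one vertex
-/

open Finset

namespace Pool.Agent.Lib.MP_56e41f_co.LD

variable {V : Type} [Fintype V] [DecidableEq V] {t Δ : ℕ}

/-- edges which cannot be used may be forgotten: the edges of `S` contain `z`, and `z` is neither
free nor the image of a vertex `j ≥ a` which is placed (`ex_union` for `S ∪ (E \ S)`) -/
theorem PV_indep (D : TD t Δ) {p : ℝ} (E S : Finset (Sym2 V)) (hS : S ⊆ E) (a : ℕ)
    (φ : Fin t → V) (F : Finset V) (z : V) (hz : z ∉ F) (hSz : ∀ e ∈ S, z ∈ e)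
    (hφ : ∀ j : Fin t, a ≤ j.val → ¬ Unp D a j → φ j ≠ z) :
    pr p (E \ S) (Ext D a φ F) = PV D p E a φ F := by
  have hd : Disjoint S (E \ S) := Finset.disjoint_sdiff
  have hE : S ∪ (E \ S) = E := Finset.union_sdiff_of_subset hS
  have key : ∀ A ⊆ S, ∀ B : Finset (Sym2 V), Ext D a φ F (A ∪ B) ↔ Ext D a φ F B := by
    intro A hA B
    constructor
    · rintro ⟨ψ, h2, h3, h4⟩
      refine ⟨ψ, h2, h3, fun i hi => ⟨(h4 i hi).1, ?_⟩⟩
      rcases Finset.mem_union.1 (h4 i hi).2 with h | h
      · exfalso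
        rcases Sym2.mem_iff.1 (hSz _ (hA h)) with h5 | h5
        · by_cases hu : Unp D a (D.par i)
          · exact hz (h5 ▸ (h4 _ hu).1)
          · exact hφ (D.par i) hi.2 hu ((h2 _ hu).symm.trans h5.symm)
        · exact hz (h5 ▸ (h4 i hi).1)
      · exact h
    · rintro ⟨ψ, h2, h3, h4⟩
      exact ⟨ψ, h2, h3, fun i hi => ⟨(h4 i hi).1, Finset.mem_union_right _ (h4 i hi).2⟩⟩
  have h1 : PV D p E a φ F = ex p S (fun _ => pr p (E \ S) (Ext D a φ F)) := by
    unfold PV pr
    conv_lhs => rw [← hE, ex_union p S (E \ S) hd]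
    refine ex_congr p S fun A hA => ex_congr p (E \ S) fun B _ => ?_
    have h2 : Ext D a φ F (A ∪ B) = Ext D a φ F B := propext (key A hA B)
    rw [h2]
  rw [h1, ex_const]

/-- random subsets of an injective image -/
theorem ex_image {α β : Type*} [DecidableEq α] [DecidableEq β] (p : ℝ) (N : Finset α)
    (f : α → β) (hf : Set.InjOn f N) (Θ : Finset β → ℝ) :
    ex p (N.image f) Θ = ex p N (fun O => Θ (O.image f)) := by
  induction N using Finset.induction_on generalizing Θ with
  | empty => rw [Finset.image_empty, ex_empty, ex_empty, Finset.image_empty]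
  | insert a N ha ih =>
    have hf' : Set.InjOn f (N : Set α) :=
      hf.mono (by rw [Finset.coe_insert]; exact Set.subset_insert a _)
    have hfa : f a ∉ N.image f := by
      intro h
      obtain ⟨b, hb, hab⟩ := Finset.mem_image.1 h
      have h1 : b = a := hf (Finset.mem_coe.2 (Finset.mem_insert_of_mem hb))
        (Finset.mem_coe.2 (Finset.mem_insert_self a N)) hab
      exact ha (h1 ▸ hb)
    rw [Finset.image_insert, ex_insert p (N.image f) (f a) hfa, ex_insert p N a ha,
      ih hf', ih hf']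
    simp only [Finset.image_insert]

end Pool.Agent.Lib.MP_56e41f_co.LD
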