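import Pool.Agent.Lib.MP_56e41f_co.LD.Pex
import Pool.Agent.Lib.MP_56e41f_co.LD.PstA

/-!
# Exposing the edges at one vertex
-/

open Finset

namespace Pool.Agent.Lib.MP_56e41f_co.LD

variable {V : Type} [Fintype V] [DecidableEq V] {t Δ : ℕ}

/-- Exposing the edges from the image `z` of the vertex `a` to `N`. Split `E = S ∪ (E \ S)`,
`S` the image of `N` under `u ↦ s(z, u)`. For an open set `O` take the placement `φ'` of
`Bst_att`; an extension `ψ` of `φ'` (after `a`) is an extension of `φ`, since `par i = a` for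
`i ∈ l` and the edge `s(z, ψ i)` is open. By `PV_indep` the edges of `S` do not matter for it. -/
theorem PV_step (D : TD t Δ) {p : ℝ} (h0 : 0 ≤ p) (h1 : p ≤ 1) (E : Finset (Sym2 V)) (a : ℕ)
    (ha : a < t) (l : List (Fin t)) (hl : Lst D a l)
    (hl' : ∀ i : Fin t, i.val ≠ 0 → (D.par i).val = a → i ∈ l) (φ : Fin t → V) (F : Finset V)
    (hφ : φ ⟨a, ha⟩ ∉ F)
    (hact : ∀ j : Fin t, a < j.val → ¬ Unp D a j → φ j ≠ φ ⟨a, ha⟩) (N : Finset V)
    (hNF : N ⊆ F) (hN : ∀ u ∈ N, s(φ ⟨a, ha⟩, u) ∈ E) :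
    ex p N (fun O => Bst D p E a l φ F O) ≤ PV D p E a φ F := by
  classical
  obtain ⟨z, hz⟩ : ∃ z, z = φ ⟨a, ha⟩ := ⟨_, rfl⟩
  rw [← hz] at hφ
  have hNE : ∀ u ∈ N, s(z, u) ∈ E := fun u hu => by
    rw [hz]
    exact hN u hu
  have hact' : ∀ j : Fin t, a < j.val → ¬ Unp D a j → φ j ≠ z := fun j h2 h3 => by
    rw [hz]
    exact hact j h2 h3
  have hinj : Function.Injective (fun u : V => s(z, u)) := by
    intro u v huv
    exact Sym2.congr_right.1 huv
  obtain ⟨S, hS⟩ : ∃ S, S = N.image (fun u : V => s(z, u)) := ⟨_, rfl⟩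
  have hSE : S ⊆ E := by
    rw [hS]
    intro e he
    obtain ⟨u, hu, rfl⟩ := Finset.mem_image.1 he
    exact hNE u hu
  have hSz : ∀ e ∈ S, z ∈ e := by
    rw [hS]
    intro e he
    obtain ⟨u, hu, rfl⟩ := Finset.mem_image.1 he
    exact Sym2.mem_mk_left z u
  have hE : S ∪ (E \ S) = E := Finset.union_sdiff_of_subset hSE
  have h2 : PV D p E a φ F = ex p N (fun O => ex p (E \ S) (fun ω' =>
      ind (Ext D a φ F (O.image (fun u : V => s(z, u)) ∪ ω')))) := by
    have h3 : PV D p E a φ F = ex p (S ∪ (E \ S)) (fun ω => ind (Ext D a φ F ω)) := by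
      rw [hE]
      rfl
    rw [h3, ex_union p S (E \ S) Finset.disjoint_sdiff, hS,
      ex_image p N (fun u : V => s(z, u)) (hinj.injOn)]
  rw [h2]
  refine ex_mono h0 h1 N fun O hO => ?_
  rcases Bst_att D h0 h1 E a l hl.nd φ F O with h3 | ⟨φ', h3, h4, h5, h6⟩
  · rw [h3]
    exact ex_nonneg h0 h1 _ fun ω' _ => ind_nonneg _
  · have hpa : ∀ i ∈ l, D.par i = ⟨a, ha⟩ := fun i hi => Fin.ext (hl.ch i hi).2
    have hal : (⟨a, ha⟩ : Fin t) ∉ l := by
      intro hi
      have h7 := hl.ch _ hi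
      have h8 := D.par_lt ⟨a, ha⟩ h7.1
      rw [Fin.lt_def, h7.2] at h8
      exact lt_irrefl _ h8
    have hφa : φ' ⟨a, ha⟩ = z := by
      rw [h3 _ hal, hz]
    have hind : pr p (E \ S) (Ext D (a + 1) φ' (F \ l.toFinset.image φ')) =
        PV D p E (a + 1) φ' (F \ l.toFinset.image φ') := by
      refine PV_indep D E S hSE (a + 1) φ' _ z (fun h7 => hφ (Finset.mem_sdiff.1 h7).1) hSz ?_
      intro j hj hU
      by_cases hjl : j ∈ l
      · intro h7
        exact hφ (h7 ▸ (h5 j hjl).2)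
      · rw [h3 j hjl]
        refine hact' j (by omega) fun hU' => ?_
        have h7 : (D.par j).val ≠ a := fun h8 => hjl (hl' j hU'.1 h8)
        have h8 := hU'.2
        exact hU ⟨hU'.1, by omega⟩
    rw [h6, ← hind]
    refine pr_mono h0 h1 (E \ S) (P := Ext D (a + 1) φ' (F \ l.toFinset.image φ'))
      (Q := fun ω' => Ext D a φ F (O.image (fun u : V => s(z, u)) ∪ ω')) ?_
    rintro ω' _ ⟨ψ, k1, k2, k3⟩
    have hnl : ∀ i ∈ l, ¬ Unp D (a + 1) i := by
      intro i hi hU
      have h7 := (hl.ch i hi).2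
      have h8 := hU.2
      omega
    have hcase : ∀ i, Unp D a i → i ∈ l ∨ Unp D (a + 1) i := by
      intro i hi
      by_cases h7 : (D.par i).val = a
      · exact Or.inl (hl' i hi.1 h7)
      · right
        have h8 := hi.2
        exact ⟨hi.1, by omega⟩
    refine ⟨ψ, ?_, ?_, ?_⟩
    · intro i hi
      have h7 : i ∉ l := fun h8 => hi ⟨(hl.ch i h8).1, (hl.ch i h8).2.ge⟩
      rw [k1 i (fun hU => hi ⟨hU.1, by have := hU.2; omega⟩), h3 i h7]
    · intro i j hi hj hij
      rcases hcase i hi with hi' | hi' <;> rcases hcase j hj with hj' | hj'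
      · rw [k1 i (hnl i hi'), k1 j (hnl j hj')] at hij
        exact h4 i hi' j hj' hij
      · exfalso
        rw [k1 i (hnl i hi')] at hij
        have h7 := (k3 j hj').1
        rw [← hij] at h7
        exact (Finset.mem_sdiff.1 h7).2 (Finset.mem_image_of_mem φ' (List.mem_toFinset.2 hi'))
      · exfalso
        rw [k1 j (hnl j hj')] at hij
        have h7 := (k3 i hi').1
        rw [hij] at h7
        exact (Finset.mem_sdiff.1 h7).2 (Finset.mem_image_of_mem φ' (List.mem_toFinset.2 hj'))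
      · exact k2 i j hi' hj' hij
    · intro i hi
      rcases hcase i hi with hi' | hi'
      · have h7 : ψ (D.par i) = z := by
          rw [hpa i hi', ← hφa]
          refine k1 _ fun hU => ?_
          have h8 := D.par_lt ⟨a, ha⟩ hU.1
          rw [Fin.lt_def] at h8
          have h9 := hU.2
          change (D.par ⟨a, ha⟩).val < a at h8
          omega
        rw [k1 i (hnl i hi'), h7]
        exact ⟨(h5 i hi').2, Finset.mem_union_left _ (Finset.mem_image_of_mem
          (fun u : V => s(z, u)) (h5 i hi').1)⟩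
      · have h7 := k3 i hi'
        exact ⟨(Finset.mem_sdiff.1 h7.1).1, Finset.mem_union_right _ h7.2⟩

end Pool.Agent.Lib.MP_56e41f_co.LD
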