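import Pool.Agent.Lib.MP_56e41f_co.LD.PstA
import Pool.Agent.Lib.MP_56e41f_co.LD.PstB

/-!
# Exposing the edges at one vertex
-/
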