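import Pool.Agent.Lib.MP_56e41f_co.LD.Defs

/-!
# The random step: basic properties and the exponential inequality
-/

open Finset

namespace Pool.Agent.Lib.MP_56e41f_co.LD

variable {V : Type} [Fintype V] [DecidableEq V]

/-- the deletion probability inside `C` is a probability. If `|C| = 1` it is `0 / 0 = 0`. -/
theorem stp_rate {C : Finset V} {ρ : ℝ} (hC : C.Nonempty) (h0 : 1 / (C.card : ℝ) ≤ ρ)
    (h1 : ρ ≤ 1) :
    0 ≤ (ρ - 1 / (C.card : ℝ)) / (1 - 1 / (C.card : ℝ)) ∧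
      (ρ - 1 / (C.card : ℝ)) / (1 - 1 / (C.card : ℝ)) ≤ 1 := by
  have hq : 1 / (C.card : ℝ) ≤ 1 := h0.trans h1
  rcases eq_or_lt_of_le hq with h | h
  · rw [h, sub_self, div_zero]
    exact ⟨le_rfl, zero_le_one⟩
  · have hpos : 0 < 1 - 1 / (C.card : ℝ) := by linarith
    refine ⟨div_nonneg (by linarith) hpos.le, ?_⟩
    rw [div_le_one hpos]
    linarith

private lemma stp_sub {F C : Finset V} (hCF : C ⊆ F) {u : V} (hu : u ∈ C) {R R' : Finset V}
    (hR : R ⊆ C.erase u) (hR' : R' ⊆ F \ C) : R ∪ R' ⊆ F.erase u := by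
  intro x hx
  rw [Finset.mem_union] at hx
  rw [Finset.mem_erase]
  rcases hx with hx | hx
  · have h := Finset.mem_erase.1 (hR hx)
    exact ⟨h.1, hCF h.2⟩
  · have h := Finset.mem_sdiff.1 (hR' hx)
    refine ⟨?_, h.1⟩
    rintro rfl
    exact h.2 hu

private lemma stp_inner {F C : Finset V} {ρ : ℝ} (hCF : C ⊆ F) (hC : C.Nonempty)
    (h0 : 1 / (C.card : ℝ) ≤ ρ) (h1 : ρ ≤ 1) {u : V} (hu : u ∈ C) {h h' : Finset V → ℝ}
    (H : ∀ R ⊆ F.erase u, h R ≤ h' R) :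
    ex ((ρ - 1 / (C.card : ℝ)) / (1 - 1 / (C.card : ℝ))) (C.erase u)
      (fun R => ex ρ (F \ C) (fun R' => h (R ∪ R'))) ≤
    ex ((ρ - 1 / (C.card : ℝ)) / (1 - 1 / (C.card : ℝ))) (C.erase u)
      (fun R => ex ρ (F \ C) (fun R' => h' (R ∪ R'))) := by
  have hr := stp_rate hC h0 h1
  have hρ : 0 ≤ ρ := le_trans (by positivity) h0
  refine ex_mono hr.1 hr.2 _ fun R hR => ?_
  exact ex_mono hρ h1 _ fun R' hR' => H _ (stp_sub hCF hu hR hR')

theorem stp_mono {F C : Finset V} {ρ : ℝ} (hCF : C ⊆ F) (hC : C.Nonempty)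
    (h0 : 1 / (C.card : ℝ) ≤ ρ) (h1 : ρ ≤ 1) {h h' : V → Finset V → ℝ}
    (H : ∀ u ∈ C, ∀ R ⊆ F.erase u, h u R ≤ h' u R) : stp F C ρ h ≤ stp F C ρ h' := by
  unfold stp
  refine div_le_div_of_nonneg_right (Finset.sum_le_sum fun u hu => ?_) (Nat.cast_nonneg _)
  exact stp_inner hCF hC h0 h1 hu (H u hu)

theorem stp_add (F C : Finset V) (ρ : ℝ) (h h' : V → Finset V → ℝ) :
    stp F C ρ (fun u R => h u R + h' u R) = stp F C ρ h + stp F C ρ h' := by
  unfold stp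
  rw [← add_div, ← Finset.sum_add_distrib]
  congr 1
  refine Finset.sum_congr rfl fun u _ => ?_
  rw [← ex_add]
  congr 1
  funext R
  rw [ex_add]

theorem stp_sum {ι : Type*} (F C : Finset V) (ρ : ℝ) (I : Finset ι)
    (h : ι → V → Finset V → ℝ) :
    stp F C ρ (fun u R => ∑ i ∈ I, h i u R) = ∑ i ∈ I, stp F C ρ (h i) := by
  unfold stp
  rw [← Finset.sum_div]
  congr 1
  rw [Finset.sum_comm]
  refine Finset.sum_congr rfl fun u _ => ?_
  rw [← ex_sum]
  congr 1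
  funext R
  rw [ex_sum]

theorem stp_mul (F C : Finset V) (ρ c : ℝ) (h : V → Finset V → ℝ) :
    stp F C ρ (fun u R => c * h u R) = c * stp F C ρ h := by
  unfold stp
  rw [← mul_div_assoc, Finset.mul_sum]
  congr 1
  refine Finset.sum_congr rfl fun u _ => ?_
  rw [← ex_mul_left]
  congr 1
  funext R
  rw [ex_mul_left]

theorem stp_fst (F C : Finset V) (ρ : ℝ) (f : V → ℝ) :
    stp F C ρ (fun u _ => f u) = (∑ u ∈ C, f u) / (C.card : ℝ) := by
  unfold stp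
  congr 1
  refine Finset.sum_congr rfl fun u _ => ?_
  rw [ex_const, ex_const]

/-- the deleted sets can be chosen: for every `u` take the best set `R` (the value at some subset
is at most the expectation `ex`) -/
theorem stp_choose {F C : Finset V} {ρ : ℝ} (hCF : C ⊆ F) (hC : C.Nonempty)
    (h0 : 1 / (C.card : ℝ) ≤ ρ) (h1 : ρ ≤ 1) (h : V → Finset V → ℝ) :
    ∃ Rf : V → Finset V, (∀ u ∈ C, Rf u ⊆ F.erase u) ∧
      ∑ u ∈ C, h u (Rf u) ≤ (C.card : ℝ) * stp F C ρ h := by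
  have hmin : ∀ u : V, ∃ R : Finset V, R ⊆ F.erase u ∧ ∀ R' ⊆ F.erase u, h u R ≤ h u R' := by
    intro u
    obtain ⟨R, hR, hR'⟩ := Finset.exists_min_image (F.erase u).powerset (h u)
      ⟨∅, Finset.empty_mem_powerset _⟩
    exact ⟨R, Finset.mem_powerset.1 hR, fun R' hR2 => hR' R' (Finset.mem_powerset.2 hR2)⟩
  choose Rf hRf hRf' using hmin
  refine ⟨Rf, fun u _ => hRf u, ?_⟩
  have hc : (C.card : ℝ) ≠ 0 := by
    have : C.card ≠ 0 := Finset.card_ne_zero.2 hC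
    exact_mod_cast this
  unfold stp
  rw [mul_div_cancel₀ _ hc]
  refine Finset.sum_le_sum fun u hu => ?_
  have key := stp_inner hCF hC h0 h1 hu (h := fun _ => h u (Rf u)) (h' := h u) (hRf' u)
  rwa [ex_const, ex_const] at key

end Pool.Agent.Lib.MP_56e41f_co.LD
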