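import Pool.Agent.Lib.MP_56e41f_co.LD.Lay

/-!
# A uniform element of a random set, and a Chernoff bound
-/

open Finset

namespace Pool.Agent.Lib.MP_56e41f_co.LD

variable {V : Type} [Fintype V] [DecidableEq V]

private theorem symb_ex (p : ℝ) (A : Finset V) :
    ex p A (fun O => Real.exp (-(O.card : ℝ))) = (p * Real.exp (-1) + (1 - p)) ^ A.card := by
  unfold ex
  rw [← Finset.sum_pow_mul_eq_add_pow]
  refine Finset.sum_congr rfl (fun F _ => ?_)
  have h1 : Real.exp (-(F.card : ℝ)) = Real.exp (-1) ^ F.card := by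
    rw [← Real.exp_nat_mul]
    congr 1
    ring
  beta_reduce
  rw [h1, mul_pow]
  ring

private theorem symb_base {p : ℝ} (h0 : 0 ≤ p) :
    p * Real.exp (-1) + (1 - p) ≤ Real.exp (-(p / 2)) := by
  have h1 : Real.exp (-1) ≤ 1 / 2 := by
    rw [Real.exp_neg, one_div]
    refine inv_anti₀ (by norm_num) ?_
    have := Real.add_one_le_exp (1 : ℝ)
    linarith
  have h2 := Real.add_one_le_exp (-(p / 2))
  have h3 := mul_le_mul_of_nonneg_left h1 h0
  linarith

/-- Chernoff: few elements of `A` in a random subset of `N ⊇ A`.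
`ind (|O ∩ A| < h) ≤ exp (h - |O ∩ A|)`, `ex p A (exp (- |O|)) = (1 - p (1 - 1/e)) ^ |A|`,
`1 - 1/e ≥ 1/2`. -/
theorem chernoff {p : ℝ} (h0 : 0 ≤ p) (h1 : p ≤ 1) (N A : Finset V) (hA : A ⊆ N) (h : ℕ) :
    pr p N (fun O => (O ∩ A).card < h) ≤ Real.exp ((h : ℝ) - p / 2 * (A.card : ℝ)) := by
  have h2 : pr p N (fun O => (O ∩ A).card < h) ≤
      ex p N (fun O => Real.exp (h : ℝ) * Real.exp (-((O ∩ A).card : ℝ))) := by
    unfold pr
    refine ex_mono h0 h1 N (fun O _ => ?_)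
    rw [← Real.exp_add]
    by_cases hc : (O ∩ A).card < h
    · rw [ind_true hc]
      refine Real.one_le_exp ?_
      have h3 : ((O ∩ A).card : ℝ) ≤ (h : ℝ) := by exact_mod_cast hc.le
      linarith
    · rw [ind_false hc]
      exact (Real.exp_pos _).le
  refine h2.trans ?_
  rw [ex_mul_left, ex_inter p N A hA (fun O => Real.exp (-(O.card : ℝ))), symb_ex]
  have h6 : Real.exp ((h : ℝ) - p / 2 * (A.card : ℝ)) =
      Real.exp (h : ℝ) * Real.exp (-(p / 2 * (A.card : ℝ))) := by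
    rw [← Real.exp_add, ← sub_eq_add_neg]
  rw [h6]
  refine mul_le_mul_of_nonneg_left ?_ (Real.exp_pos _).le
  have h4 : Real.exp (-(p / 2 * (A.card : ℝ))) = Real.exp (-(p / 2)) ^ A.card := by
    rw [← Real.exp_nat_mul]
    congr 1
    ring
  rw [h4]
  refine pow_le_pow_left₀ ?_ (symb_base h0) _
  have h5 := mul_nonneg h0 (Real.exp_pos (-1)).le
  linarith

end Pool.Agent.Lib.MP_56e41f_co.LD
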