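import Pool.Agent.Lib.MP_56e41f_co.LD.SymA
import Pool.Agent.Lib.MP_56e41f_co.LD.SymB

/-!
# A uniform element of a random set, and a Chernoff bound
-/
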