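import Pool.Agent.Lib.MP_56e41f_co.LD.Lay

/-!
# A uniform element of a random set, and a Chernoff bound
-/

open Finset

namespace Pool.Agent.Lib.MP_56e41f_co.LD

variable {V : Type} [Fintype V] [DecidableEq V]

private theorem sa_main (W : ℕ → ℝ) (C : Finset V) (ψ : V → ℝ) :
    ∑ F ∈ C.powerset, W F.card * ∑ u ∈ F, ψ u =
      (∑ m ∈ range C.card, ((C.card - 1).choose m : ℝ) * W (m + 1)) * ∑ u ∈ C, ψ u := by
  have h1 : ∀ F ∈ C.powerset, W F.card * ∑ u ∈ F, ψ u =
      ∑ u ∈ C, if u ∈ F then W F.card * ψ u else 0 := by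
    intro F hF
    rw [← Finset.sum_filter, Finset.filter_mem_eq_inter,
      Finset.inter_eq_right.2 (Finset.mem_powerset.1 hF), Finset.mul_sum]
  rw [Finset.sum_congr rfl h1, Finset.sum_comm, Finset.mul_sum]
  refine Finset.sum_congr rfl fun u hu => ?_
  have h2 : ∑ F ∈ C.powerset, (if u ∈ F then W F.card * ψ u else 0) =
      ∑ F ∈ (insert u (C.erase u)).powerset, (if u ∈ F then W F.card * ψ u else 0) := by
    rw [Finset.insert_erase hu]
  rw [h2, Finset.sum_powerset_insert (Finset.notMem_erase u C)]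
  have h3 : ∑ F ∈ (C.erase u).powerset, (if u ∈ F then W F.card * ψ u else 0) = 0 := by
    refine Finset.sum_eq_zero fun F hF => ?_
    rw [if_neg fun h => Finset.notMem_erase u C (Finset.mem_powerset.1 hF h)]
  have h4 : ∑ F ∈ (C.erase u).powerset,
      (if u ∈ insert u F then W (insert u F).card * ψ u else 0) =
      ∑ F ∈ (C.erase u).powerset, W (F.card + 1) * ψ u := by
    refine Finset.sum_congr rfl fun F hF => ?_
    rw [if_pos (Finset.mem_insert_self u F), Finset.card_insert_of_notMem fun h =>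
      Finset.notMem_erase u C (Finset.mem_powerset.1 hF h)]
  have hc : 0 < C.card := Finset.card_pos.2 ⟨u, hu⟩
  rw [h3, h4, zero_add, Finset.sum_powerset_apply_card (fun m => W (m + 1) * ψ u),
    Finset.card_erase_of_mem hu, Nat.sub_add_cancel hc, Finset.sum_mul]
  refine Finset.sum_congr rfl fun m _ => ?_
  rw [nsmul_eq_mul]
  ring

/-- probability of the empty set -/
theorem ex_ind_empty (q : ℝ) (C : Finset V) :
    ex q C (fun O => ind (O = ∅)) = (1 - q) ^ C.card := by
  unfold ex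
  rw [Finset.sum_eq_single ∅]
  · beta_reduce
    rw [ind_true rfl, Finset.card_empty, pow_zero, one_mul, mul_one, Nat.sub_zero]
  · intro F _ hF
    beta_reduce
    rw [ind_false hF, mul_zero]
  · intro h
    exact absurd (Finset.empty_mem_powerset C) h

/-- A uniform element of a random subset of `C` is uniform in `C`: `ex q C (1[u ∈ O] / |O|)` does
not depend on `u ∈ C` (swap two elements) and the sum over `u` is `1 - (1 - q) ^ |C|`. For
`O = ∅` the quotient is `0`. -/
theorem ex_avg (q : ℝ) (C : Finset V) (ψ : V → ℝ) :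
    ex q C (fun O => (∑ u ∈ O, ψ u) / (O.card : ℝ)) =
      (1 - (1 - q) ^ C.card) * ((∑ u ∈ C, ψ u) / (C.card : ℝ)) := by
  obtain ⟨W, hW⟩ : ∃ W : ℕ → ℝ, W = fun k => q ^ k * (1 - q) ^ (C.card - k) / (k : ℝ) := ⟨_, rfl⟩
  obtain ⟨S, hS⟩ : ∃ S : ℝ, S = ∑ m ∈ range C.card, ((C.card - 1).choose m : ℝ) * W (m + 1) :=
    ⟨_, rfl⟩
  have h1 : ∀ ψ : V → ℝ, ex q C (fun O => (∑ u ∈ O, ψ u) / (O.card : ℝ)) = S * ∑ u ∈ C, ψ u := by
    intro ψ
    rw [hS, ← sa_main]
    unfold ex
    refine Finset.sum_congr rfl fun F _ => ?_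
    rw [hW]
    ring
  have h2 : ex q C (fun O => (∑ u ∈ O, (fun _ => (1 : ℝ)) u) / (O.card : ℝ)) =
      1 - (1 - q) ^ C.card := by
    rw [← ex_ind_empty q C]
    rw [ex_congr q C (g := fun O => 1 - ind (O = ∅)), ex_sub, ex_const]
    intro F _
    simp only [Finset.sum_const, nsmul_eq_mul, mul_one]
    by_cases hF : F = ∅
    · rw [ind_true hF, hF, Finset.card_empty, Nat.cast_zero, div_zero, sub_self]
    · have h3 : (F.card : ℝ) ≠ 0 := by
        rw [Ne, Nat.cast_eq_zero, Finset.card_eq_zero]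
        exact hF
      rw [ind_false hF, div_self h3, sub_zero]
  rw [h1] at h2
  simp only [Finset.sum_const, nsmul_eq_mul, mul_one] at h2
  rw [h1, ← h2]
  rcases Finset.eq_empty_or_nonempty C with hC | hC
  · rw [hC, Finset.card_empty, Finset.sum_empty]
    ring
  · have h3 : (C.card : ℝ) ≠ 0 := by
      rw [Ne, Nat.cast_eq_zero, Finset.card_eq_zero]
      exact hC.ne_empty
    field_simp

/-- `(1 - q) ^ m ≤ 1 / 2` if `q m ≥ 1` -/
theorem pow_half {q : ℝ} (h0 : 0 ≤ q) (h1 : q ≤ 1) (m : ℕ) (hm : 1 ≤ q * m) :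
    (1 - q) ^ m ≤ 1 / 2 := by
  have h2 : (1 - q) ^ m ≤ Real.exp (-q) ^ m :=
    pow_le_pow_left₀ (by linarith) (Real.one_sub_le_exp_neg q) m
  have h3 : Real.exp (-q) ^ m = Real.exp (-(q * m)) := by
    rw [← Real.exp_nat_mul]
    congr 1
    ring
  have h4 : Real.exp (-(q * m)) ≤ Real.exp (-1) := Real.exp_le_exp.2 (by linarith)
  have h5 : (2 : ℝ) ≤ Real.exp 1 := by
    have := Real.add_one_le_exp (1 : ℝ)
    linarith
  have h6 : Real.exp (-1) ≤ 1 / 2 := by
    rw [Real.exp_neg, ← one_div]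
    exact one_div_le_one_div_of_le (by norm_num) h5
  rw [h3] at h2
  linarith

end Pool.Agent.Lib.MP_56e41f_co.LD
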