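import Pool.Agent.Lib.MP_56e41f_co.LD.Defs

/-!
# Counting descendants
-/

open Finset

namespace Pool.Agent.Lib.MP_56e41f_co.LD

variable {t Δ : ℕ}

private theorem trea_kid (D : TD t Δ) {i j : Fin t} (h : j ∈ kids D i.val) :
    j.val ≠ 0 ∧ D.par j = i := by
  rw [kids, mem_filter] at h
  exact ⟨h.2.1, Fin.ext h.2.2⟩

theorem dep_kid (D : TD t Δ) {i j : Fin t} (h : j ∈ kids D i.val) : D.dep j = D.dep i + 1 := by
  obtain ⟨h1, h2⟩ := trea_kid D h
  have h3 := D.dep_par j h1
  rw [h2] at h3
  exact h3.symm

theorem dsc_zero (D : TD t Δ) (i : Fin t) : dsc D i 0 = kids D i.val := by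
  ext j
  constructor
  · intro h
    rw [dsc, mem_filter] at h
    obtain ⟨-, h1, h2⟩ := h
    rw [kids, mem_filter]
    refine ⟨mem_univ _, ?_, ?_⟩
    · intro h0
      have h3 := (D.dep_zero j).mpr h0
      omega
    · rw [zero_add, Function.iterate_one] at h2
      rw [h2]
  · intro h
    obtain ⟨h1, h2⟩ := trea_kid D h
    rw [dsc, mem_filter]
    refine ⟨mem_univ _, ?_, ?_⟩
    · rw [add_zero]
      exact dep_kid D h
    · rw [zero_add, Function.iterate_one]
      exact h2

/-- depth along the iterated parent, as long as it is positive -/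
private theorem trea_dep (D : TD t Δ) (j : Fin t) (k : ℕ) (h : k ≤ D.dep j) :
    D.dep (D.par^[k] j) + k = D.dep j := by
  induction k with
  | zero => rfl
  | succ k ih =>
    have h1 := ih (by omega)
    rw [Function.iterate_succ_apply']
    have h2 : (D.par^[k] j).val ≠ 0 := by
      intro h0
      have h3 := (D.dep_zero _).mpr h0
      omega
    have h3 := D.dep_par _ h2
    omega

/-- the descendants at distance `r + 2` are the disjoint union over the children -/
theorem dsc_succ (D : TD t Δ) (i : Fin t) (r : ℕ) :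
    ((dsc D i (r + 1)).card : ℝ) = ∑ j ∈ kids D i.val, ((dsc D j r).card : ℝ) := by
  classical
  have h : dsc D i (r + 1) = (kids D i.val).biUnion (fun j => dsc D j r) := by
    ext k
    rw [mem_biUnion]
    constructor
    · intro hk
      rw [dsc, mem_filter] at hk
      obtain ⟨-, h1, h2⟩ := hk
      have h3 := trea_dep D k (r + 1) (by omega)
      have h4 : D.par^[r + 1] k ∈ kids D i.val := by
        rw [kids, mem_filter]
        refine ⟨mem_univ _, ?_, ?_⟩
        · intro h0
          have h5 := (D.dep_zero _).mpr h0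
          omega
        · rw [← Function.iterate_succ_apply' D.par (r + 1) k, h2]
      refine ⟨D.par^[r + 1] k, h4, ?_⟩
      rw [dsc, mem_filter]
      refine ⟨mem_univ _, ?_, rfl⟩
      omega
    · rintro ⟨j, hj, hk⟩
      rw [dsc, mem_filter] at hk
      obtain ⟨-, h1, h2⟩ := hk
      have h3 := dep_kid D hj
      rw [dsc, mem_filter]
      refine ⟨mem_univ _, by omega, ?_⟩
      rw [Function.iterate_succ_apply', h2]
      exact (trea_kid D hj).2
  rw [h, card_biUnion]
  · push_cast
    rfl
  · intro a _ b _ hab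
    rw [Function.onFun, disjoint_left]
    intro k hk hk'
    rw [dsc, mem_filter] at hk hk'
    exact hab (hk.2.2.symm.trans hk'.2.2)

/-- depths are less than `t` -/
theorem dsc_empty (D : TD t Δ) (i : Fin t) (r : ℕ) (h : t ≤ D.dep i + r + 1) :
    dsc D i r = ∅ := by
  rw [dsc, filter_eq_empty_iff]
  rintro j - ⟨h1, -⟩
  have h2 := D.dep_le j
  have h3 := j.isLt
  omega

end Pool.Agent.Lib.MP_56e41f_co.LD
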