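import Pool.Agent.Lib.MP_56e41f_co.LD.PotSt

/-!
# Typical free sets
-/

open Finset

namespace Pool.Agent.Lib.MP_56e41f_co.LD

variable {V : Type} [Fintype V] [DecidableEq V] {t Δ : ℕ}

private theorem mLnn (D : TD t Δ) (L : ℕ) (i : Fin t) : 0 ≤ mL D L i :=
  Finset.sum_nonneg fun _ _ => Nat.cast_nonneg _

private theorem bdnn {P : Pm} (hO : P.Ok) (D : TD t Δ) (i : Fin t) : 0 ≤ bd P D i := by
  have h1 := mLnn D P.L i
  have h2 := hO.mu0
  have h3 := hO.x0
  have h4 := hO.th0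
  have h5 : 0 ≤ P.xl := by linarith [hO.xl2]
  rw [bd]
  split_ifs
  · positivity
  · positivity

private theorem hvinn (P : Pm) (D : TD t Δ) (i : Fin t) : 0 ≤ hvi P D i := by
  rw [hvi]
  split_ifs
  · exact zero_le_one
  · exact le_rfl

private theorem Rsnn (D : TD t Δ) {w : Fin t → ℝ} (hw : ∀ i, 0 ≤ w i) (a : ℕ)
    (l : List (Fin t)) : 0 ≤ Rs D w a l := by
  refine add_nonneg (List.sum_nonneg fun y hy => ?_) (Finset.sum_nonneg fun i _ => hw i)
  obtain ⟨i, -, rfl⟩ := List.mem_map.1 hy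
  exact hw i

/-- If `U < 1`, then `Pot + Rs (bd) < B`, so `(1 - α) (1 - x) ≤ past < B ≤ (1 - κ) (1 - x)` and
`κ < α`; every `Zt` is less than `1`, its exponent is negative, the logarithm is nonnegative. -/
theorem typ_of_U {G : SimpleGraph V} {X : Finset (V × Bool)} {P : Pm} (hO : P.Ok) (hH : Hs G X P)
    (D : TD t Δ) (s : Bool) (a : ℕ) (l : List (Fin t)) (σ : Sta V t)
    (hI : Inv X P D s a l σ) (hU : U G X P D s a l σ < 1) : Typ G X P σ.F σ.α := by
  have h1 := UZ_nonneg G X P σ.F σ.α (Rs D (hvi P D) a l)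
  have h2 : 0 ≤ UP G X P D s a l σ := (Real.exp_pos _).le
  rw [U] at hU
  have h3 : UP G X P D s a l σ < 1 := by linarith
  have h4 : UZ G X P σ.F σ.α (Rs D (hvi P D) a l) < 1 := by linarith
  have h5 : Pot G X P D s a l σ + Rs D (bd P D) a l - P.B < 0 := by
    rw [UP, Real.exp_lt_one_iff] at h3
    by_contra hc
    exact absurd h3 (not_lt.2 (mul_nonneg hO.th0.le (not_lt.1 hc)))
  have h6 := Rsnn D (bdnn hO D) a l
  have h7 := past_le_Pot hO hH D s a l σ
  have hx : 0 < 1 - P.x := by linarith [hO.x1]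
  have hα : P.κ < σ.α := by
    have h8 : (1 - σ.α) * (1 - P.x) < (1 - P.κ) * (1 - P.x) := by
      linarith [hI.pst, hO.bB]
    linarith [lt_of_mul_lt_mul_right h8 hx.le]
  refine ⟨hα.le, fun y hy k hk => ?_⟩
  have hh := Rsnn D (hvinn P D) a l
  have hlog : 0 ≤ Real.log (2 * σ.α / P.κ) := by
    refine Real.log_nonneg ?_
    rw [le_div_iff₀ hO.k0]
    linarith [hO.k0]
  have hd : 0 ≤ dg G X y := Nat.cast_nonneg _
  have hpos : ∀ (e : ℝ) (k : ℕ) (x : V × Bool),
      0 < Zt G X P e k x σ.F σ.α (Rs D (hvi P D) a l) := fun _ _ _ => Real.exp_pos _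
  have h9 : Zt G X P 1 k y σ.F σ.α (Rs D (hvi P D) a l) +
      Zt G X P (-1) k y σ.F σ.α (Rs D (hvi P D) a l) ≤
      UZ G X P σ.F σ.α (Rs D (hvi P D) a l) := by
    rw [UZ]
    refine le_trans ?_ (Finset.single_le_sum (f := fun x => ∑ k ∈ range (P.L + 1),
      (Zt G X P 1 k x σ.F σ.α (Rs D (hvi P D) a l) +
        Zt G X P (-1) k x σ.F σ.α (Rs D (hvi P D) a l)))
      (fun x _ => Finset.sum_nonneg fun j _ => (add_pos (hpos _ _ _) (hpos _ _ _)).le) hy)
    exact Finset.single_le_sum (f := fun k => Zt G X P 1 k y σ.F σ.α (Rs D (hvi P D) a l) +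
        Zt G X P (-1) k y σ.F σ.α (Rs D (hvi P D) a l))
      (fun j _ => (add_pos (hpos _ _ _) (hpos _ _ _)).le)
      (Finset.mem_range.2 (Nat.lt_succ_of_le hk))
  have key : ∀ e : ℝ, Zt G X P e k y σ.F σ.α (Rs D (hvi P D) a l) < 1 →
      e * (Ys G X P k y σ.F / σ.α - Ys G X P k y univ) ≤ P.x * dg G X y := by
    intro e he
    rw [Zt, Real.exp_lt_one_iff] at he
    have h10 : 0 ≤ 4 / P.κ ^ 2 * P.lam ^ 2 * dg G X y * Real.log (2 * σ.α / P.κ) := by
      have := hO.k0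
      positivity
    have h11 : 0 ≤ P.lam / P.κ * Rs D (hvi P D) a l :=
      mul_nonneg (div_nonneg hO.lam0.le hO.k0.le) hh
    have h12 : P.lam * (e * (Ys G X P k y σ.F / σ.α - Ys G X P k y univ)) ≤
        P.lam * (P.x * dg G X y) := by
      have h13 : P.lam * (e * (Ys G X P k y σ.F / σ.α - Ys G X P k y univ)) =
          e * P.lam * (Ys G X P k y σ.F / σ.α - Ys G X P k y univ) := by ring
      have h14 : P.lam * (P.x * dg G X y) = P.lam * P.x * dg G X y := by ring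
      rw [h13, h14]
      linarith
    exact le_of_mul_le_mul_left h12 hO.lam0
  have k1 := key 1 (by linarith [hpos (-1) k y])
  have k2 := key (-1) (by linarith [hpos 1 k y])
  rw [abs_le]
  constructor <;> linarith

end Pool.Agent.Lib.MP_56e41f_co.LD
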