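import Pool.Agent.Lib.MP_56e41f_co.LD.PotSt
import Pool.Agent.Lib.MP_56e41f_co.LD.TypB

/-!
# Typical free sets
-/

open Finset

namespace Pool.Agent.Lib.MP_56e41f_co.LD

variable {V : Type} [Fintype V] [DecidableEq V] {t Δ : ℕ}

private theorem tyc_succ (s : Bool) (k : ℕ) : sd s (k + 1) = !(sd s k) := by
  rw [sd, sd, Function.iterate_succ_apply']

private theorem tyc_add (s : Bool) (k m : ℕ) : sd (sd s k) m = sd s (k + m) := by
  rw [sd, sd, sd, Nat.add_comm, Function.iterate_add_apply]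

/-- sum of `typ_avg` with the weights `(dsc D i r).card`; for `r + 1 = L` use `Hs.mix` -/
theorem typ_Fn {G : SimpleGraph V} {X : Finset (V × Bool)} {P : Pm} (hO : P.Ok)
    (hH : Hs G X P) {F : Finset V} {α : ℝ} (hT : Typ G X P F α) {y : V × Bool} (hy : y ∈ X)
    (D : TD t Δ) (s : Bool) (i : Fin t) (e : ℕ) (he : D.dep i = e + 1) (hys : y.2 = sd s e) :
    ∑ u ∈ nb G X y ∩ F, Fn G X D P.L i (u, sd s (D.dep i)) ≤
      ((nb G X y ∩ F).card : ℝ) * (Fo G X P D s i y + 3 * P.x * (mL D P.L i / P.mu)) := by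
  have hsd : sd s (D.dep i) = !y.2 := by
    rw [he, tyc_succ, hys]
  rw [hsd]
  simp only [Fn]
  rw [Finset.sum_comm]
  have hR : ((nb G X y ∩ F).card : ℝ) * (Fo G X P D s i y + 3 * P.x * (mL D P.L i / P.mu)) =
      ∑ r ∈ range P.L, ((dsc D i r).card : ℝ) * (((nb G X y ∩ F).card : ℝ) *
        ((if r + 1 < P.L then Gr G X (r + 1) y else Cst G X P (sd s (D.dep i + r))) +
          3 * P.x / P.mu)) := by
    have h1 : 3 * P.x * (mL D P.L i / P.mu) =
        ∑ r ∈ range P.L, ((dsc D i r).card : ℝ) * (3 * P.x / P.mu) := by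
      rw [← Finset.sum_mul, mL]
      ring
    rw [h1, Fo, ← Finset.sum_add_distrib, Finset.mul_sum]
    refine Finset.sum_congr rfl fun r _ => ?_
    ring
  rw [hR]
  refine Finset.sum_le_sum fun r hr => ?_
  rw [Finset.mem_range] at hr
  rw [← Finset.mul_sum]
  refine mul_le_mul_of_nonneg_left ?_ (Nat.cast_nonneg _)
  refine (typ_avg hO hH hT hy r hr).trans (mul_le_mul_of_nonneg_left ?_ (Nat.cast_nonneg _))
  refine add_le_add ?_ le_rfl
  split_ifs with h
  · exact le_rfl
  · have hrL : r + 1 = P.L := by omega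
    have h2 := hH.mix y hy
    have h3 : sd y.2 P.L = sd s (D.dep i + r) := by
      rw [hys, tyc_add, he, ← hrL]
      congr 1
      omega
    rw [hrL, ← h3]
    exact h2

end Pool.Agent.Lib.MP_56e41f_co.LD
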