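import Pool.Agent.Lib.MP_56e41f_co.LD.PotSt
import Pool.Agent.Lib.MP_56e41f_co.LD.TypC

/-!
# Typical free sets
-/

open Finset

namespace Pool.Agent.Lib.MP_56e41f_co.LD

variable {V : Type} [Fintype V] [DecidableEq V] {t Δ : ℕ}

/-- many good places for a heavy child: Markov, with `Fn ≥ 0`, `Fo ≤ 2 (mL / mu)`: if more than
`(1 - xl / 6)` of the places were bad, the average would be too large. (`mL = 0` is trivial.) -/
theorem typ_heavy {G : SimpleGraph V} {X : Finset (V × Bool)} {P : Pm} (hO : P.Ok)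
    (hH : Hs G X P) {F : Finset V} {α : ℝ} (hT : Typ G X P F α) {y : V × Bool} (hy : y ∈ X)
    (D : TD t Δ) (s : Bool) (i : Fin t) (e : ℕ) (he : D.dep i = e + 1) (hys : y.2 = sd s e) :
    P.xl / 6 * ((nb G X y ∩ F).card : ℝ) ≤
      (((nb G X y ∩ F).filter (fun u => Fn G X D P.L i (u, sd s (D.dep i)) ≤
        Fo G X P D s i y + P.xl * (mL D P.L i / P.mu))).card : ℝ) := by
  have h1 := typ_Fn hO hH hT hy D s i e he hys
  have hFo := Fo_bd hO hH D s i hy
  have hm : 0 ≤ mL D P.L i / P.mu := div_nonneg (mL_nonneg D P.L i) hO.mu0.le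
  have hxl := hO.xl1
  have hxl2 := hO.xl2
  have hx0 := hO.x0
  set m := mL D P.L i / P.mu with hmdef
  set A := Fo G X P D s i y with hA
  set S := nb G X y ∩ F with hS
  have hxl0 : 0 ≤ P.xl := by linarith
  by_contra hcon
  push Not at hcon
  set g := S.filter (fun u => Fn G X D P.L i (u, sd s (D.dep i)) ≤ A + P.xl * m) with hg
  set b := S.filter (fun u => ¬ Fn G X D P.L i (u, sd s (D.dep i)) ≤ A + P.xl * m) with hb
  have hcard : (g.card : ℝ) + b.card = S.card := by
    rw [hg, hb]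
    exact_mod_cast Finset.card_filter_add_card_filter_not
      (s := S) (fun u => Fn G X D P.L i (u, sd s (D.dep i)) ≤ A + P.xl * m)
  have hn0 : (0 : ℝ) ≤ S.card := Nat.cast_nonneg _
  have hg0 : (0 : ℝ) ≤ g.card := Nat.cast_nonneg _
  have hn : (0 : ℝ) < S.card := by
    rcases hn0.lt_or_eq with h | h
    · exact h
    · rw [← h] at hcon
      linarith
  have hbc : (1 - P.xl / 6) * S.card < b.card := by linarith
  have hb0 : (0 : ℝ) < b.card := lt_of_le_of_lt (mul_nonneg (by linarith) hn0) hbc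
  have hbne : b.Nonempty := by
    rw [← Finset.card_pos]
    exact_mod_cast hb0
  have hAm : 0 ≤ A + P.xl * m := add_nonneg hFo.1 (mul_nonneg hxl0 hm)
  have h2 : (b.card : ℝ) * (A + P.xl * m) < ∑ u ∈ b, Fn G X D P.L i (u, sd s (D.dep i)) := by
    rw [← nsmul_eq_mul, ← Finset.sum_const]
    refine Finset.sum_lt_sum_of_nonempty hbne fun u hu => ?_
    rw [hb, Finset.mem_filter] at hu
    exact not_le.mp hu.2
  have h3 : ∑ u ∈ b, Fn G X D P.L i (u, sd s (D.dep i)) ≤
      ∑ u ∈ S, Fn G X D P.L i (u, sd s (D.dep i)) :=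
    Finset.sum_le_sum_of_subset_of_nonneg (Finset.filter_subset _ _)
      fun u _ _ => Fn_nonneg G X D P.L i _
  have h4 : (1 - P.xl / 6) * S.card * (A + P.xl * m) ≤ (b.card : ℝ) * (A + P.xl * m) :=
    mul_le_mul_of_nonneg_right hbc.le hAm
  have h5 : (1 - P.xl / 6) * (A + P.xl * m) * S.card < (A + 3 * P.x * m) * S.card := by
    have h6 : ((S.card : ℕ) : ℝ) * (A + 3 * P.x * m) = (A + 3 * P.x * m) * S.card := by ring
    have h7 : (1 - P.xl / 6) * (A + P.xl * m) * S.card =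
        (1 - P.xl / 6) * S.card * (A + P.xl * m) := by ring
    rw [h7, ← h6]
    exact lt_of_le_of_lt h4 (lt_of_lt_of_le h2 (h3.trans h1))
  have h8 : (1 - P.xl / 6) * (A + P.xl * m) < A + 3 * P.x * m := lt_of_mul_lt_mul_right h5 hn0
  have h9 : 0 ≤ (P.xl * m) * (1 / 6 - P.xl / 6) :=
    mul_nonneg (mul_nonneg hxl0 hm) (by linarith)
  have h10 : P.xl / 6 * A ≤ P.xl / 6 * (2 * m) :=
    mul_le_mul_of_nonneg_left hFo.2 (by linarith)
  have h11 : 6 * P.x * m ≤ P.xl * m := mul_le_mul_of_nonneg_right hxl2 hm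
  nlinarith [h8, h9, h10, h11]

end Pool.Agent.Lib.MP_56e41f_co.LD
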