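import Pool.Agent.Lib.MP_56e41f_co.LD.ZSt
import Pool.Agent.Lib.MP_56e41f_co.LD.Typi

/-!
# One step of the process
-/

open Finset

namespace Pool.Agent.Lib.MP_56e41f_co.LD

variable {V : Type} [Fintype V] [DecidableEq V] {t Δ : ℕ}

/-- `C` nonempty, `0 ≤ f ≤ b`, `0 ≤ A ≤ 2 b`, `2 th b ≤ 1`, `∑ f ≤ |C| (A + τ)`: with
`y = th (f u - A)`, `|y| ≤ 2 th b ≤ 1`, `exp y ≤ 1 + y + y ^ 2`, the mean of `exp y` is at most
`1 + th τ + 4 th^2 b^2 ≤ exp (th (τ + 4 th b^2))` -/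
theorem avg_exp {C : Finset V} (f : V → ℝ) {b A τ th : ℝ} (hth : 0 < th)
    (hb : 0 ≤ b) (hf : ∀ u ∈ C, 0 ≤ f u ∧ f u ≤ b) (hA : 0 ≤ A ∧ A ≤ 2 * b)
    (h1 : 2 * th * b ≤ 1) (hs : ∑ u ∈ C, f u ≤ (C.card : ℝ) * (A + τ)) :
    ∑ u ∈ C, Real.exp (th * (f u - A)) ≤
      (C.card : ℝ) * Real.exp (th * (τ + 4 * th * b ^ 2)) := by
  have hpt : ∀ u ∈ C, Real.exp (th * (f u - A)) ≤
      (1 + 4 * th ^ 2 * b ^ 2) + th * (f u - A) := by
    intro u hu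
    obtain ⟨hf0, hfb⟩ := hf u hu
    obtain ⟨hA0, hA2⟩ := hA
    have hthb : 0 ≤ th * b := mul_nonneg hth.le hb
    have hup : th * (f u - A) ≤ 2 * th * b := by
      have h := mul_le_mul_of_nonneg_left (show f u - A ≤ b by linarith) hth.le
      nlinarith [h, hthb]
    have hlo : -(2 * th * b) ≤ th * (f u - A) := by
      have h := mul_le_mul_of_nonneg_left (show -(2 * b) ≤ f u - A by linarith) hth.le
      nlinarith [h]
    have habs : |th * (f u - A)| ≤ 2 * th * b := abs_le.2 ⟨hlo, hup⟩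
    have h1' : |th * (f u - A)| ≤ 1 := habs.trans h1
    have hE := Real.abs_exp_sub_one_sub_id_le h1'
    have hE2 := (abs_le.1 hE).2
    have hsq : (th * (f u - A)) ^ 2 ≤ (2 * th * b) ^ 2 := by
      rw [← sq_abs (th * (f u - A))]
      exact pow_le_pow_left₀ (abs_nonneg _) habs 2
    nlinarith [hE2, hsq]
  have hsum : ∑ u ∈ C, Real.exp (th * (f u - A)) ≤
      ∑ u ∈ C, ((1 + 4 * th ^ 2 * b ^ 2) + th * (f u - A)) := Finset.sum_le_sum hpt
  have heq : ∑ u ∈ C, ((1 + 4 * th ^ 2 * b ^ 2) + th * (f u - A)) =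
      (C.card : ℝ) * (1 + 4 * th ^ 2 * b ^ 2) + th * (∑ u ∈ C, f u - (C.card : ℝ) * A) := by
    rw [Finset.sum_add_distrib, ← Finset.mul_sum, Finset.sum_sub_distrib]
    simp only [Finset.sum_const, nsmul_eq_mul]
  have hC : (0 : ℝ) ≤ (C.card : ℝ) := Nat.cast_nonneg _
  have h2 : th * (∑ u ∈ C, f u - (C.card : ℝ) * A) ≤ th * ((C.card : ℝ) * τ) := by
    apply mul_le_mul_of_nonneg_left _ hth.le
    nlinarith [hs]
  have h3 : 1 + th * (τ + 4 * th * b ^ 2) ≤ Real.exp (th * (τ + 4 * th * b ^ 2)) := by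
    have := Real.add_one_le_exp (th * (τ + 4 * th * b ^ 2))
    linarith
  have h4 := mul_le_mul_of_nonneg_left h3 hC
  rw [heq] at hsum
  nlinarith [hsum, h2, h4]

end Pool.Agent.Lib.MP_56e41f_co.LD
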