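import Pool.Agent.Lib.MP_56e41f_co.LD.ZSt
import Pool.Agent.Lib.MP_56e41f_co.LD.Typi
import Pool.Agent.Lib.MP_56e41f_co.LD.UStA

/-!
# One step of the process
-/

open Finset

namespace Pool.Agent.Lib.MP_56e41f_co.LD

variable {V : Type} [Fintype V] [DecidableEq V] {t Δ : ℕ}

/-- The potential in a light step (`Pot_step`, `Rs_cons`, `typ_Fn`, `avg_exp`, `stp_fst`). -/
theorem UP_light {G : SimpleGraph V} {X : Finset (V × Bool)} {P : Pm} (hO : P.Ok)
    (hH : Hs G X P) (D : TD t Δ) (s : Bool) (a : ℕ) (i : Fin t) (l : List (Fin t))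
    (hl : Lst D a (i :: l)) (σ : Sta V t) (hT : Typ G X P σ.F σ.α)
    (hy : loc D s σ (D.par i) ∈ X) (hi : ¬ P.hb ≤ mL D P.L i) (ρ : ℝ) :
    stp σ.F (nb G X (loc D s σ (D.par i)) ∩ σ.F) ρ (fun u R => UP G X P D s a l
        (nxt σ i u R ρ (Gr G X 0 (loc D s σ (D.par i))))) ≤ UP G X P D s a (i :: l) σ := by
  have hi0 := (hl.ch i List.mem_cons_self).1
  have hdep : D.dep i = D.dep (D.par i) + 1 := (D.dep_par i hi0).symm
  obtain ⟨y, hy0⟩ : ∃ y, y = loc D s σ (D.par i) := ⟨_, rfl⟩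
  have hys : y.2 = sd s (D.dep (D.par i)) := by
    rw [hy0]
    rfl
  have hUP : (fun (u : V) (R : Finset V) =>
      UP G X P D s a l (nxt σ i u R ρ (Gr G X 0 (loc D s σ (D.par i))))) =
      fun u _ => Real.exp (P.th * (Pot G X P D s a (i :: l) σ + Rs D (bd P D) a l - P.B)) *
        Real.exp (P.th * (Fn G X D P.L i (u, sd s (D.dep i)) - Fo G X P D s i y)) := by
    funext u R
    unfold UP
    rw [hy0, Pot_step G X P D s a i l hl σ u R ρ, ← Real.exp_add]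
    congr 1
    ring
  rw [hUP, ← hy0, stp_fst, ← Finset.mul_sum]
  rw [← hy0] at hy
  have hmu := hO.mu0
  have hm0 := mL_nonneg D P.L i
  have hb0 : 0 ≤ mL D P.L i / P.mu := div_nonneg hm0 hmu.le
  have hf : ∀ u ∈ nb G X y ∩ σ.F, 0 ≤ Fn G X D P.L i (u, sd s (D.dep i)) ∧
      Fn G X D P.L i (u, sd s (D.dep i)) ≤ mL D P.L i / P.mu := by
    intro u hu
    refine ⟨Fn_nonneg G X D P.L i _, Fn_le hO hH D i ?_⟩
    have h1 := ((mem_nb G X y u).1 (Finset.mem_inter.1 hu).1).2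
    rw [hys, ← sd_succ, ← hdep] at h1
    exact h1
  have h2th : 2 * P.th * (mL D P.L i / P.mu) ≤ 1 := by
    refine le_trans ?_ hO.thb
    have h1 : mL D P.L i / P.mu ≤ P.hb / P.mu :=
      div_le_div_of_nonneg_right (not_le.1 hi).le hmu.le
    have h2 := hO.th0
    exact mul_le_mul_of_nonneg_left h1 (by positivity)
  have hav := avg_exp (C := nb G X y ∩ σ.F) (fun u => Fn G X D P.L i (u, sd s (D.dep i)))
    hO.th0 hb0 hf (Fo_bd hO hH D s i hy) h2th
    (typ_Fn hO hH hT hy D s i (D.dep (D.par i)) hdep hys)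
  have hc : (0 : ℝ) < ((nb G X y ∩ σ.F).card : ℝ) := by
    exact_mod_cast Finset.card_pos.2 (typ_nonempty hO hH hT hy)
  have hbd : bd P D i = 3 * P.x * (mL D P.L i / P.mu) + 4 * P.th * (mL D P.L i / P.mu) ^ 2 := by
    unfold bd
    rw [if_neg hi]
  rw [div_le_iff₀ hc]
  refine (mul_le_mul_of_nonneg_left hav (Real.exp_pos _).le).trans (le_of_eq ?_)
  unfold UP
  rw [Rs_cons, hbd]
  have e : P.th * (Pot G X P D s a (i :: l) σ + (3 * P.x * (mL D P.L i / P.mu) +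
      4 * P.th * (mL D P.L i / P.mu) ^ 2 + Rs D (bd P D) a l) - P.B) =
      P.th * (Pot G X P D s a (i :: l) σ + Rs D (bd P D) a l - P.B) +
        P.th * (3 * P.x * (mL D P.L i / P.mu) + 4 * P.th * (mL D P.L i / P.mu) ^ 2) := by ring
  rw [e, Real.exp_add]
  ring

end Pool.Agent.Lib.MP_56e41f_co.LD
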