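import Pool.Agent.Lib.MP_56e41f_co.LD.ZSt
import Pool.Agent.Lib.MP_56e41f_co.LD.Typi
import Pool.Agent.Lib.MP_56e41f_co.LD.UStB

/-!
# One step of the process
-/

open Finset

namespace Pool.Agent.Lib.MP_56e41f_co.LD

variable {V : Type} [Fintype V] [DecidableEq V] {t Δ : ℕ}

/-- Light step: for every `u` the deleted set can be chosen such that the average of `U` over the
free neighbours `u` does not increase (`stp_choose`, `stp_add`, `UP_light`, `UZ_light`). -/
theorem U_light {G : SimpleGraph V} {X : Finset (V × Bool)} {P : Pm} (hO : P.Ok)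
    (hH : Hs G X P) (D : TD t Δ) (s : Bool) (a : ℕ) (i : Fin t) (l : List (Fin t))
    (hl : Lst D a (i :: l)) (σ : Sta V t) (hT : Typ G X P σ.F σ.α)
    (hy : loc D s σ (D.par i) ∈ X) (hi : ¬ P.hb ≤ mL D P.L i) :
    ∃ Rf : V → Finset V,
      ∑ u ∈ nb G X (loc D s σ (D.par i)) ∩ σ.F, U G X P D s a l (nxt σ i u (Rf u)
          (rho P σ.α (Gr G X 0 (loc D s σ (D.par i)))) (Gr G X 0 (loc D s σ (D.par i)))) ≤
        ((nb G X (loc D s σ (D.par i)) ∩ σ.F).card : ℝ) * U G X P D s a (i :: l) σ := by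
  have hrho := typ_rho hO hH hT hy
  have hC := typ_nonempty hO hH hT hy
  have hCF : nb G X (loc D s σ (D.par i)) ∩ σ.F ⊆ σ.F := Finset.inter_subset_right
  obtain ⟨Rf, -, hRf⟩ := stp_choose hCF hC hrho.1 (hrho.2.trans (by norm_num))
    (fun u R => U G X P D s a l (nxt σ i u R
      (rho P σ.α (Gr G X 0 (loc D s σ (D.par i)))) (Gr G X 0 (loc D s σ (D.par i)))))
  refine ⟨Rf, hRf.trans (mul_le_mul_of_nonneg_left ?_ (Nat.cast_nonneg _))⟩
  have h1 := UP_light hO hH D s a i l hl σ hT hy hi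
    (rho P σ.α (Gr G X 0 (loc D s σ (D.par i))))
  have h2 := UZ_light hO hH (F := σ.F) (α := σ.α) (Rs D (hvi P D) a l) hCF hC hrho.1 hrho.2 hT.al
  have h3 : hvi P D i = 0 := by
    unfold hvi
    rw [if_neg hi]
  have h4 : Rs D (hvi P D) a (i :: l) = Rs D (hvi P D) a l := by
    rw [Rs_cons, h3, zero_add]
  have h5 := stp_add σ.F (nb G X (loc D s σ (D.par i)) ∩ σ.F)
    (rho P σ.α (Gr G X 0 (loc D s σ (D.par i))))
    (fun u R => UP G X P D s a l (nxt σ i u R
      (rho P σ.α (Gr G X 0 (loc D s σ (D.par i)))) (Gr G X 0 (loc D s σ (D.par i)))))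
    (fun u R => UZ G X P ((σ.F.erase u) \ R)
      (σ.α * (1 - rho P σ.α (Gr G X 0 (loc D s σ (D.par i))))) (Rs D (hvi P D) a l))
  have h6 : stp σ.F (nb G X (loc D s σ (D.par i)) ∩ σ.F)
      (rho P σ.α (Gr G X 0 (loc D s σ (D.par i))))
      (fun u R => U G X P D s a l (nxt σ i u R
        (rho P σ.α (Gr G X 0 (loc D s σ (D.par i)))) (Gr G X 0 (loc D s σ (D.par i))))) =
      stp σ.F (nb G X (loc D s σ (D.par i)) ∩ σ.F)
        (rho P σ.α (Gr G X 0 (loc D s σ (D.par i))))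
        (fun u R => UP G X P D s a l (nxt σ i u R
          (rho P σ.α (Gr G X 0 (loc D s σ (D.par i)))) (Gr G X 0 (loc D s σ (D.par i)))) +
          UZ G X P ((σ.F.erase u) \ R)
            (σ.α * (1 - rho P σ.α (Gr G X 0 (loc D s σ (D.par i))))) (Rs D (hvi P D) a l)) := rfl
  rw [h6, h5]
  unfold U
  rw [h4]
  exact add_le_add h1 h2

/-- Heavy step: any place `u` with `Fn ≤ Fo + xl (mL / mu)`, no deletions, rate `0`. -/
theorem U_heavy {G : SimpleGraph V} {X : Finset (V × Bool)} {P : Pm} (hO : P.Ok)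
    (hH : Hs G X P) (D : TD t Δ) (s : Bool) (a : ℕ) (i : Fin t) (l : List (Fin t))
    (hl : Lst D a (i :: l)) (σ : Sta V t) (hT : Typ G X P σ.F σ.α)
    (hi : P.hb ≤ mL D P.L i) (u : V)
    (hu : Fn G X D P.L i (u, sd s (D.dep i)) ≤
      Fo G X P D s i (loc D s σ (D.par i)) + P.xl * (mL D P.L i / P.mu)) :
    U G X P D s a l (nxt σ i u ∅ 0 (Gr G X 0 (loc D s σ (D.par i)))) ≤
      U G X P D s a (i :: l) σ := by
  have h3 : hvi P D i = 1 := by
    unfold hvi
    rw [if_pos hi]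
  have h4 : bd P D i = P.xl * (mL D P.L i / P.mu) := by
    unfold bd
    rw [if_pos hi]
  have h2 := UZ_heavy hO hH (F := σ.F) (α := σ.α) (Rs D (hvi P D) a l) u hT.al
  have h1 : UP G X P D s a l (nxt σ i u ∅ 0 (Gr G X 0 (loc D s σ (D.par i)))) ≤
      UP G X P D s a (i :: l) σ := by
    unfold UP
    rw [Pot_step G X P D s a i l hl σ u ∅ 0, Rs_cons, h4]
    refine Real.exp_le_exp.2 (mul_le_mul_of_nonneg_left ?_ hO.th0.le)
    linarith
  have h5 : Rs D (hvi P D) a (i :: l) = 1 + Rs D (hvi P D) a l := by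
    rw [Rs_cons, h3]
  unfold U
  rw [h5]
  exact add_le_add h1 h2

end Pool.Agent.Lib.MP_56e41f_co.LD
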