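import Pool.Agent.Lib.MP_56e41f_co.LD.Abs
import Pool.Agent.Lib.MP_56e41f_co.LD.Pst
import Pool.Agent.Lib.MP_56e41f_co.LD.USt
import Pool.Agent.Lib.MP_56e41f_co.LD.InvSt

/-!
# Processing one vertex
-/

open Finset

namespace Pool.Agent.Lib.MP_56e41f_co.LD

variable {V : Type} [Fintype V] [DecidableEq V] {t Δ : ℕ}

/-- Heavy children (deterministic, induction on `lh`; every good set meets the open set in at
least `hm` vertices, fewer than `hm` of which are used). -/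
theorem heavy_part {G : SimpleGraph V} {X : Finset (V × Bool)} {P : Pm} (hO : P.Ok)
    (hH : Hs G X P) (D : TD t Δ) (s : Bool) {p : ℝ} (hp0 : 0 ≤ p) (hp1 : p ≤ 1)
    (E : Finset (Sym2 V)) (a : ℕ) (ha : a < t) (F0 : Finset V) (y : V × Bool) (O : Finset V)
    (hm : ℕ) (ll : List (Fin t)) (lh : List (Fin t)) (hl : Lst D a (lh ++ ll))
    (hheavy : ∀ i ∈ lh, P.hb ≤ mL D P.L i)
    (hgood : ∀ i ∈ lh, hm ≤ (O ∩ ((nb G X y ∩ F0).filter (fun u =>
      Fn G X D P.L i (u, sd s (D.dep i)) ≤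
        Fo G X P D s i y + P.xl * (mL D P.L i / P.mu)))).card)
    (σ : Sta V t) (hI : Inv X P D s a (lh ++ ll) σ) (hU : U G X P D s a (lh ++ ll) σ < 1)
    (hF : σ.F ⊆ F0) (hcard : (F0 \ σ.F).card + lh.length ≤ hm)
    (hy : loc D s σ ⟨a, ha⟩ = y) :
    ∃ σ' : Sta V t, Inv X P D s a ll σ' ∧ U G X P D s a ll σ' ≤ U G X P D s a (lh ++ ll) σ ∧
      σ'.F ⊆ F0 ∧ loc D s σ' ⟨a, ha⟩ = y ∧
      ∀ O' : Finset V, O ⊆ O' →
        Bst D p E a ll σ'.φ σ'.F O' ≤ Bst D p E a (lh ++ ll) σ.φ σ.F O' := by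
  induction lh generalizing σ with
  | nil =>
    exact ⟨σ, hI, le_refl _, hF, hy, fun O' _ => le_refl _⟩
  | cons i lh ih =>
    have hl' : Lst D a (i :: (lh ++ ll)) := hl
    have hI' : Inv X P D s a (i :: (lh ++ ll)) σ := hI
    have hU' : U G X P D s a (i :: (lh ++ ll)) σ < 1 := hU
    have hT := typ_of_U hO hH D s a (i :: (lh ++ ll)) σ hI' hU'
    have hch := hl'.ch i List.mem_cons_self
    have hpar : D.par i = ⟨a, ha⟩ := Fin.ext hch.2
    have hia : i ≠ ⟨a, ha⟩ := by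
      intro h
      have h1 := D.par_lt i hch.1
      rw [hpar, h] at h1
      exact lt_irrefl _ h1
    have hloc : loc D s σ (D.par i) = y := by rw [hpar, hy]
    have hcard' : (F0 \ σ.F).card + (lh.length + 1) ≤ hm := hcard
    -- a good vertex which is free
    obtain ⟨u, hu, huF⟩ : ∃ u ∈ (O ∩ ((nb G X y ∩ F0).filter (fun u =>
        Fn G X D P.L i (u, sd s (D.dep i)) ≤
          Fo G X P D s i y + P.xl * (mL D P.L i / P.mu)))), u ∈ σ.F := by
      by_contra hcon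
      push Not at hcon
      have hsub : (O ∩ ((nb G X y ∩ F0).filter (fun u =>
          Fn G X D P.L i (u, sd s (D.dep i)) ≤
            Fo G X P D s i y + P.xl * (mL D P.L i / P.mu)))) ⊆ F0 \ σ.F := by
        intro u hu
        refine Finset.mem_sdiff.2 ⟨?_, hcon u hu⟩
        exact (Finset.mem_inter.1 (Finset.mem_filter.1 (Finset.mem_inter.1 hu).2).1).2
      have h1 := Finset.card_le_card hsub
      have h2 := hgood i List.mem_cons_self
      omega
    obtain ⟨huO, hu2⟩ := Finset.mem_inter.1 hu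
    obtain ⟨hu3, hu4⟩ := Finset.mem_filter.1 hu2
    obtain ⟨hunb, huF0⟩ := Finset.mem_inter.1 hu3
    have hI1 : Inv X P D s a (lh ++ ll) (nxt σ i u ∅ 0 (Gr G X 0 (loc D s σ (D.par i)))) := by
      refine Inv_step (G := G) hl' hI' ?_ ∅ (Gr_nonneg G X 0 _) ?_
      · rw [hloc]
        exact Finset.mem_inter.2 ⟨hunb, huF⟩
      · rw [mul_zero, zero_mul]
        exact Gr_nonneg G X 0 _
    have hU1 := U_heavy hO hH D s a i (lh ++ ll) hl' σ hT (hheavy i List.mem_cons_self) u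
      (by rw [hloc]; exact hu4)
    have hFe : (nxt σ i u ∅ 0 (Gr G X 0 (loc D s σ (D.par i)))).F = σ.F.erase u := by
      simp [nxt]
    have hφe : (nxt σ i u ∅ 0 (Gr G X 0 (loc D s σ (D.par i)))).φ =
        Function.update σ.φ i u := rfl
    have hF1 : (nxt σ i u ∅ 0 (Gr G X 0 (loc D s σ (D.par i)))).F ⊆ F0 := by
      rw [hFe]
      exact (Finset.erase_subset _ _).trans hF
    have hcard1 : (F0 \ (nxt σ i u ∅ 0 (Gr G X 0 (loc D s σ (D.par i)))).F).card +
        lh.length ≤ hm := by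
      rw [hFe]
      have h1 : F0 \ σ.F.erase u ⊆ insert u (F0 \ σ.F) := by
        intro z hz
        rcases Finset.mem_sdiff.1 hz with ⟨hz1, hz2⟩
        by_cases hzu : z = u
        · exact Finset.mem_insert.2 (Or.inl hzu)
        · refine Finset.mem_insert.2 (Or.inr (Finset.mem_sdiff.2 ⟨hz1, fun hz3 => hz2 ?_⟩))
          exact Finset.mem_erase.2 ⟨hzu, hz3⟩
      have h2 := (Finset.card_le_card h1).trans (Finset.card_insert_le _ _)
      omega
    have hy1 : loc D s (nxt σ i u ∅ 0 (Gr G X 0 (loc D s σ (D.par i)))) ⟨a, ha⟩ = y := by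
      rw [← hy]
      change (Function.update σ.φ i u ⟨a, ha⟩, sd s (D.dep ⟨a, ha⟩)) =
        (σ.φ ⟨a, ha⟩, sd s (D.dep ⟨a, ha⟩))
      rw [Function.update_of_ne (Ne.symm hia)]
    obtain ⟨σ', h1, h2, h3, h4, h5⟩ := ih hl'.tail
      (fun j hj => hheavy j (List.mem_cons_of_mem _ hj))
      (fun j hj => hgood j (List.mem_cons_of_mem _ hj))
      (nxt σ i u ∅ 0 (Gr G X 0 (loc D s σ (D.par i)))) hI1 (lt_of_le_of_lt hU1 hU') hF1
      hcard1 hy1
    refine ⟨σ', h1, h2.trans hU1, h3, h4, fun O' hO' => (h5 O' hO').trans ?_⟩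
    exact Bst_cons D hp0 hp1 E a i (lh ++ ll) σ.φ σ.F O' ∅ (hO' huO) huF

end Pool.Agent.Lib.MP_56e41f_co.LD
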