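import Pool.Agent.Lib.MP_56e41f_co.LD.Abs
import Pool.Agent.Lib.MP_56e41f_co.LD.Pst
import Pool.Agent.Lib.MP_56e41f_co.LD.USt
import Pool.Agent.Lib.MP_56e41f_co.LD.InvSt

/-!
# Processing one vertex
-/

open Finset

namespace Pool.Agent.Lib.MP_56e41f_co.LD

variable {V : Type} [Fintype V] [DecidableEq V] {t Δ : ℕ}

/-- Light children (`light_abs` with `I l σ` : `Inv`, `Lst`, all members of `l` light,
`σ.F ⊆ F0`, `loc D s σ i = y` for the vertex `i` with label `a`; `C = nb y ∩ σ.F`,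
`nx u = nxt σ i u (Rf u) ρ g` from `U_light`; `q |C| ≥ q (2/3) κ mu ≥ 1`). -/
theorem light_part {G : SimpleGraph V} {X : Finset (V × Bool)} {P : Pm} (hO : P.Ok)
    (hH : Hs G X P) (D : TD t Δ) (s : Bool) {p : ℝ} (hp0 : 0 ≤ p) (hp1 : p ≤ 1)
    (E : Finset (Sym2 V)) (a : ℕ) (ha : a < t) {q δ₁ : ℝ} (hδ : 0 ≤ δ₁) (hq0 : 0 ≤ q) (hq1 : q ≤ 1)
    (hq : 3 / 2 ≤ q * (P.κ * P.mu))
    (hnext : ∀ σ : Sta V t, Inv X P D s (a + 1) (chl D P (a + 1)) σ →
      1 - U G X P D s (a + 1) (chl D P (a + 1)) σ - δ₁ ≤ PV D p E (a + 1) σ.φ σ.F)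
    (F0 : Finset V) (y : V × Bool) (k : ℕ) (l : List (Fin t)) (hl : Lst D a l)
    (hlight : ∀ i ∈ l, ¬ P.hb ≤ mL D P.L i) (σ : Sta V t) (hI : Inv X P D s a l σ)
    (hF : σ.F ⊆ F0) (hy : loc D s σ ⟨a, ha⟩ = y) :
    1 - U G X P D s a l σ - 2 ^ l.length * (3 / 4) ^ k - δ₁ ≤
      lay q (nb G X y ∩ F0) k (fun O => Bst D p E a l σ.φ σ.F O) := by
  have hpa : ∀ {i : Fin t} {l : List (Fin t)}, Lst D a (i :: l) → D.par i = ⟨a, ha⟩ := by
    intro i l h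
    exact Fin.ext (h.ch i (List.mem_cons_self)).2
  refine light_abs (nb G X y ∩ F0) hq0 hq1
    (fun l σ => Inv X P D s a l σ ∧ Lst D a l ∧ (∀ i ∈ l, ¬ P.hb ≤ mL D P.L i) ∧ σ.F ⊆ F0 ∧
      loc D s σ ⟨a, ha⟩ = y)
    (fun l σ => U G X P D s a l σ) (fun l σ O => Bst D p E a l σ.φ σ.F O) δ₁ hδ
    (fun l σ => U_nonneg G X P D s a l σ) (fun l σ O => Bst_nonneg D hp0 hp1 E a l σ.φ σ.F O)
    (fun l σ O O' hOO => Bst_mono D hp0 hp1 E a l σ.φ (Subset.refl _) hOO) ?_ ?_ k l σ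
    ⟨hI, hl, hlight, hF, hy⟩
  · intro σ h O
    have h1 := hnext σ (Inv_next h.1)
    rw [← U_next hO] at h1
    exact h1
  · rintro i l σ ⟨hI, hl, hli, hF, hy⟩ hU
    have hT := typ_of_U hO hH D s a (i :: l) σ hI hU
    have hp := hpa hl
    have hpl := Pl_par hl (List.mem_cons_self (a := i) (l := l))
    have hyp : loc D s σ (D.par i) = y := by rw [hp]; exact hy
    have hyX : loc D s σ (D.par i) ∈ X := hI.inX (D.par i) hpl.2.ge hpl.1
    have hyX' : y ∈ X := hyp ▸ hyX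
    have hli' : ¬ P.hb ≤ mL D P.L i := hli i (List.mem_cons_self)
    obtain ⟨Rf, hR⟩ := U_light hO hH D s a i l hl σ hT hyX hli'
    have hg0 : 0 ≤ Gr G X 0 (loc D s σ (D.par i)) := Gr_nonneg G X 0 _
    have hi0 : i.val ≠ 0 := (hl.ch i (List.mem_cons_self)).1
    have hne : (⟨a, ha⟩ : Fin t) ≠ i := by
      intro h
      have h1 := D.par_lt i hi0
      rw [hp, h] at h1
      exact lt_irrefl _ h1
    refine ⟨nb G X y ∩ σ.F, fun u => nxt σ i u (Rf u)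
      (rho P σ.α (Gr G X 0 (loc D s σ (D.par i)))) (Gr G X 0 (loc D s σ (D.par i))),
      inter_subset_inter (Subset.refl _) hF, typ_nonempty hO hH hT hyX', ?_, ?_, ?_, ?_⟩
    · refine pow_half hq0 hq1 _ ?_
      have h1 := typ_card' hO hH hT hyX'
      have h2 := mul_le_mul_of_nonneg_left h1 hq0
      linarith
    · intro u hu
      have hu' : u ∈ nb G X (loc D s σ (D.par i)) ∩ σ.F := by rw [hyp]; exact hu
      refine ⟨Inv_step hl hI hu' (Rf u) hg0 (rho_eq hO hT.al).le,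
        ⟨(List.nodup_cons.1 hl.nd).2, fun j hj => hl.ch j (List.mem_cons_of_mem _ hj)⟩,
        fun j hj => hli j (List.mem_cons_of_mem _ hj), ?_, ?_⟩
      · exact (sdiff_subset.trans (erase_subset _ _)).trans hF
      · rw [← hy]
        change (Function.update σ.φ i u ⟨a, ha⟩, sd s (D.dep ⟨a, ha⟩)) =
          (σ.φ ⟨a, ha⟩, sd s (D.dep ⟨a, ha⟩))
        rw [Function.update_of_ne hne]
    · intro u hu O hO'
      exact Bst_cons D hp0 hp1 E a i l σ.φ σ.F O (Rf u) hO' (mem_inter.1 hu).2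
    · rw [hyp] at hR ⊢
      exact hR

end Pool.Agent.Lib.MP_56e41f_co.LD
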