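import Pool.Agent.Lib.MP_56e41f_co.LD.Abs
import Pool.Agent.Lib.MP_56e41f_co.LD.Pst
import Pool.Agent.Lib.MP_56e41f_co.LD.USt
import Pool.Agent.Lib.MP_56e41f_co.LD.InvSt
import Pool.Agent.Lib.MP_56e41f_co.LD.VtxA
import Pool.Agent.Lib.MP_56e41f_co.LD.VtxB

/-!
# Processing one vertex
-/

open Finset

namespace Pool.Agent.Lib.MP_56e41f_co.LD

variable {V : Type} [Fintype V] [DecidableEq V] {t Δ : ℕ}

/-- One vertex: `PV_step` with `N = nb y ∩ σ.F`, the union of a random set of density `p / 2` (for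
the heavy children, `chernoff` and `typ_heavy`, `typ_card'`: the good sets have at least
`xl / 6 * (2/3) κ mu` elements) and `M` layers of density `q`, `M q ≤ p / 2`. -/
theorem vertex {G : SimpleGraph V} {X : Finset (V × Bool)} {P : Pm} (hO : P.Ok)
    (hH : Hs G X P) (D : TD t Δ) (s : Bool) {p : ℝ} (hp0 : 0 ≤ p) (hp1 : p ≤ 1)
    (E : Finset (Sym2 V)) (hE : ∀ u v, G.Adj u v → s(u, v) ∈ E) (a : ℕ) (ha : a < t)
    {q δ₁ : ℝ} (hδ : 0 ≤ δ₁) (hq0 : 0 ≤ q) (hq1 : q ≤ 1) (hq : 3 / 2 ≤ q * (P.κ * P.mu)) (M : ℕ)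
    (hM : M * q ≤ p / 2) (hm : ℕ) (hhm : (P.L : ℝ) * t / P.hb ≤ hm)
    (hnext : ∀ σ : Sta V t, Inv X P D s (a + 1) (chl D P (a + 1)) σ →
      1 - U G X P D s (a + 1) (chl D P (a + 1)) σ - δ₁ ≤ PV D p E (a + 1) σ.φ σ.F)
    (σ : Sta V t) (hI : Inv X P D s a (chl D P a) σ) :
    1 - U G X P D s a (chl D P a) σ - 2 ^ Δ * (3 / 4) ^ M
        - hm * Real.exp (hm - p * P.xl * (P.κ * P.mu) / 36) - δ₁ ≤
      PV D p E a σ.φ σ.F := by
  have hU0 := U_nonneg G X P D s a (chl D P a) σ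
  have hl := Lst_chl D P a
  have hpow : (0 : ℝ) ≤ 2 ^ Δ * (3 / 4) ^ M := by positivity
  have hexp : (0 : ℝ) ≤ hm * Real.exp (hm - p * P.xl * (P.κ * P.mu) / 36) :=
    mul_nonneg (Nat.cast_nonneg _) (Real.exp_pos _).le
  by_cases hU : U G X P D s a (chl D P a) σ < 1
  swap
  · have h1 := PV_nonneg D hp0 hp1 E a σ.φ σ.F
    rw [not_lt] at hU
    linarith
  have hT := typ_of_U hO hH D s a (chl D P a) σ hI hU
  have hPl : Pl D a (chl D P a) ⟨a, ha⟩ := Pl_self hl ⟨a, ha⟩ rfl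
  have hyX : loc D s σ ⟨a, ha⟩ ∈ X := hI.inX ⟨a, ha⟩ (le_refl a) hPl
  have hzF : σ.φ ⟨a, ha⟩ ∉ σ.F := hI.notF ⟨a, ha⟩ (le_refl a) hPl
  obtain ⟨y, hy⟩ : ∃ y, loc D s σ ⟨a, ha⟩ = y := ⟨_, rfl⟩
  rw [hy] at hyX
  have hy1 : y.1 = σ.φ ⟨a, ha⟩ := by rw [← hy]; rfl
  have hy2 : y.2 = sd s (D.dep ⟨a, ha⟩) := by rw [← hy]; rfl
  obtain ⟨N, hN⟩ : ∃ N, nb G X y ∩ σ.F = N := ⟨_, rfl⟩
  have hNF : N ⊆ σ.F := by rw [← hN]; exact inter_subset_right
  have hNE : ∀ u ∈ N, s(σ.φ ⟨a, ha⟩, u) ∈ E := by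
    classical
    intro u hu
    rw [← hN, mem_inter] at hu
    have h1 := hu.1
    unfold nb at h1
    have h3 := (Finset.mem_filter.mp h1).2.1
    rw [← hy1]
    exact hE _ _ h3
  have hstep := PV_step D hp0 hp1 E a ha (chl D P a) hl
    (fun i h0 h1 => (mem_chl D P a i).mpr ⟨h0, h1⟩) σ.φ σ.F hzF
    (by
      intro j hj hun he
      have hj0 : j.val ≠ 0 := by omega
      have hpj : (D.par j).val < a := by
        by_contra hc
        exact hun ⟨hj0, not_lt.mp hc⟩
      have hij := hI.inj j ⟨a, ha⟩ hj.le (le_refl a) (Or.inr (Or.inl hpj)) hPl he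
      rw [hij] at hj
      exact lt_irrefl a hj) N hNF hNE
  refine le_trans ?_ hstep
  have hp2 : p / 2 ≤ 1 := by linarith
  have hp20 : 0 ≤ p / 2 := by linarith
  have hmonoΘ : ∀ O O' : Finset V, O ⊆ O' → O' ⊆ N →
      Bst D p E a (chl D P a) σ.φ σ.F O ≤ Bst D p E a (chl D P a) σ.φ σ.F O' :=
    fun O O' hO1 _ => Bst_mono D hp0 hp1 E a _ _ (Finset.Subset.refl _) hO1
  have h2 : ex (p / 2) N (fun O => lay q N M (fun R =>
      Bst D p E a (chl D P a) σ.φ σ.F (O ∪ R))) ≤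
      ex p N (fun O => Bst D p E a (chl D P a) σ.φ σ.F O) := by
    have h3 : ex (p / 2) N (fun O => lay q N M (fun R =>
        Bst D p E a (chl D P a) σ.φ σ.F (O ∪ R))) ≤
        ex (p / 2) N (fun O => ex (p / 2) N (fun R =>
          Bst D p E a (chl D P a) σ.φ σ.F (O ∪ R))) := by
      refine ex_mono hp20 hp2 N (fun O _ => ?_)
      refine lay_le hq0 N M hM hp2 _ (fun R R' hR _ => ?_)
      exact Bst_mono D hp0 hp1 E a _ _ (Finset.Subset.refl _)
        (Finset.union_subset_union (Finset.Subset.refl _) hR)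
    rw [ex_union_eq (p / 2) (p / 2) N
      (fun O => Bst D p E a (chl D P a) σ.φ σ.F O)] at h3
    refine h3.trans (ex_mono_p (by nlinarith) (by nlinarith) hp1 N _ hmonoΘ)
  refine le_trans ?_ h2
  -- the bad event
  obtain ⟨A, hA⟩ : ∃ A : Fin t → Finset V, A = fun i => N.filter (fun u =>
      Fn G X D P.L i (u, sd s (D.dep i)) ≤
        Fo G X P D s i y + P.xl * (mL D P.L i / P.mu)) := ⟨_, rfl⟩
  have hAN : ∀ i, A i ⊆ N := by
    intro i
    rw [hA]
    exact filter_subset _ _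
  have hlen : (chH D P a).length ≤ hm := by
    have h3 := chH_length D P a
    have h4 := sum_hvi P hO.hb0 D
    exact_mod_cast h3.trans (h4.trans hhm)
  have hlenL : (chL D P a).length ≤ Δ := chL_length D P a
  have hAc : ∀ i ∈ (chH D P a).toFinset,
      P.xl * (P.κ * P.mu) / 9 ≤ ((A i).card : ℝ) := by
    intro i hi
    rw [List.mem_toFinset] at hi
    have hi2 : i ∈ chl D P a := by
      unfold chl
      exact List.mem_append.mpr (Or.inl hi)
    have hi3 := (mem_chl D P a i).mp hi2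
    have hpar : D.par i = ⟨a, ha⟩ := Fin.ext hi3.2
    have hdep := D.dep_par i hi3.1
    rw [hpar] at hdep
    have h3 := typ_heavy hO hH hT hyX D s i (D.dep ⟨a, ha⟩) hdep.symm hy2
    have h4 := typ_card' hO hH hT hyX
    rw [hN] at h3 h4
    rw [hA]
    have hxl : 0 ≤ P.xl / 6 := by
      have h5 := hO.xl2
      have h6 := hO.x0
      linarith
    have h7 := mul_le_mul_of_nonneg_left h4 hxl
    refine le_trans ?_ h3
    refine le_trans (le_of_eq ?_) h7
    ring
  have hbad : pr (p / 2) N (fun O => ∃ i ∈ (chH D P a).toFinset, (O ∩ A i).card < hm) ≤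
      hm * Real.exp (hm - p * P.xl * (P.κ * P.mu) / 36) := by
    have h3 : pr (p / 2) N (fun O => ∃ i ∈ (chH D P a).toFinset, (O ∩ A i).card < hm) ≤
        ex (p / 2) N (fun O => ∑ i ∈ (chH D P a).toFinset, ind ((O ∩ A i).card < hm)) :=
      ex_mono hp20 hp2 N (fun O _ => ind_exists_le _ _)
    rw [ex_sum] at h3
    refine h3.trans ?_
    have h4 : ∀ i ∈ (chH D P a).toFinset,
        ex (p / 2) N (fun O => ind ((O ∩ A i).card < hm)) ≤
          Real.exp (hm - p * P.xl * (P.κ * P.mu) / 36) := by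
      intro i hi
      refine (chernoff hp20 hp2 N (A i) (hAN i) hm).trans (Real.exp_le_exp.mpr ?_)
      have h5 := mul_le_mul_of_nonneg_left (hAc i hi) (show 0 ≤ p / 2 / 2 by linarith)
      have h6 : p / 2 / 2 * (P.xl * (P.κ * P.mu) / 9) = p * P.xl * (P.κ * P.mu) / 36 := by
        ring
      rw [h6] at h5
      linarith
    refine (Finset.sum_le_sum h4).trans ?_
    rw [sum_const, nsmul_eq_mul]
    refine mul_le_mul_of_nonneg_right ?_ (Real.exp_pos _).le
    exact_mod_cast (List.toFinset_card_le _).trans hlen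
  -- the good event
  have hkey : ∀ O ⊆ N, (1 - U G X P D s a (chl D P a) σ - 2 ^ Δ * (3 / 4) ^ M - δ₁) -
      ind (∃ i ∈ (chH D P a).toFinset, (O ∩ A i).card < hm) ≤
      lay q N M (fun R => Bst D p E a (chl D P a) σ.φ σ.F (O ∪ R)) := by
    intro O hON
    by_cases hb : ∃ i ∈ (chH D P a).toFinset, (O ∩ A i).card < hm
    · rw [ind_true hb]
      have h3 : (0 : ℝ) ≤ lay q N M (fun R => Bst D p E a (chl D P a) σ.φ σ.F (O ∪ R)) := by
        have h4 := lay_mono hq0 hq1 N M (Θ := fun _ => (0 : ℝ))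
          (Θ' := fun R => Bst D p E a (chl D P a) σ.φ σ.F (O ∪ R))
          (fun R _ => Bst_nonneg D hp0 hp1 E a _ _ _ _)
        rwa [lay_const] at h4
      linarith
    · rw [ind_false hb]
      have hI' : Inv X P D s a (chH D P a ++ chL D P a) σ := hI
      have hU' : U G X P D s a (chH D P a ++ chL D P a) σ < 1 := hU
      have hl' : Lst D a (chH D P a ++ chL D P a) := hl
      obtain ⟨σ', hI2, hU2, hF2, hy2', hB2⟩ := heavy_part hO hH D s hp0 hp1 E a ha σ.F y O hm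
        (chL D P a) (chH D P a) hl' (fun i hi => mem_chH D P a i hi)
        (by
          intro i hi
          by_contra hc
          refine hb ⟨i, List.mem_toFinset.mpr hi, ?_⟩
          rw [hA]
          rw [hN] at hc
          exact not_le.mp hc) σ hI' hU' (Finset.Subset.refl _)
        (by rw [Finset.sdiff_self, Finset.card_empty, zero_add]; exact hlen) hy
      have hlL : Lst D a (chL D P a) := by
        refine ⟨(List.nodup_append.mp hl'.nd).2.1, fun i hi => ?_⟩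
        exact hl'.ch i (List.mem_append.mpr (Or.inr hi))
      have h3 := light_part hO hH D s hp0 hp1 E a ha hδ hq0 hq1 hq hnext σ.F y M (chL D P a)
        hlL (fun i hi => mem_chL D P a i hi) σ' hI2 hF2 hy2'
      rw [hN] at h3
      have h4 : lay q N M (fun R => Bst D p E a (chL D P a) σ'.φ σ'.F R) ≤
          lay q N M (fun R => Bst D p E a (chl D P a) σ.φ σ.F (O ∪ R)) := by
        refine lay_mono hq0 hq1 N M (fun R _ => ?_)
        refine le_trans ?_ (hB2 (O ∪ R) Finset.subset_union_left)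
        exact Bst_mono D hp0 hp1 E a _ _ (Finset.Subset.refl _) Finset.subset_union_right
      have h5 : U G X P D s a (chL D P a) σ' ≤ U G X P D s a (chl D P a) σ := hU2
      have h6 : (2 : ℝ) ^ (chL D P a).length * (3 / 4) ^ M ≤ 2 ^ Δ * (3 / 4) ^ M :=
        mul_le_mul_of_nonneg_right (pow_le_pow_right₀ (by norm_num) hlenL) (by positivity)
      linarith
  have hfin := ex_mono hp20 hp2 N hkey
  rw [ex_sub, ex_const] at hfin
  have hb2 : ex (p / 2) N (fun O => ind (∃ i ∈ (chH D P a).toFinset, (O ∩ A i).card < hm)) ≤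
      hm * Real.exp (hm - p * P.xl * (P.κ * P.mu) / 36) := hbad
  linarith

end Pool.Agent.Lib.MP_56e41f_co.LD
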