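import Pool.Agent.Lib.MP_56e41f_co.LD.VtxA
import Pool.Agent.Lib.MP_56e41f_co.LD.VtxB
import Pool.Agent.Lib.MP_56e41f_co.LD.VtxC

/-!
# Processing one vertex
-/
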