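import Pool.Agent.Lib.MP_56e41f_co.LD.XMax

/-!
# Cheeger's inequality
-/

open Finset

namespace Pool.Agent.Lib.MP_56e41f_co.LD

variable {Y : Type} [Fintype Y] [DecidableEq Y]

omit [Fintype Y] in
private lemma coarea_vol_mono (H : SimpleGraph Y) (X : Finset Y) {A B : Finset Y} (h : A ⊆ B) :
    vol H X A ≤ vol H X B :=
  Finset.sum_le_sum_of_subset_of_nonneg h fun _ _ _ => Nat.cast_nonneg _

omit [Fintype Y] in
/-- the indicator of a set -/
private lemma coarea_ind (H : SimpleGraph Y) (X S : Finset Y) (hS : S ⊆ X) :
    ∑ x ∈ X, ∑ y ∈ nbr H X x, |(if x ∈ S then (1:ℝ) else 0) - (if y ∈ S then 1 else 0)| =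
      2 * ct H X S := by
  classical
  have h1 : ∀ x ∈ X, ∑ y ∈ nbr H X x, |(if x ∈ S then (1:ℝ) else 0) - (if y ∈ S then 1 else 0)| =
      (if x ∈ S then ((nbr H X x \ S).card : ℝ) else 0) +
      (if x ∈ S then 0 else ((nbr H X x ∩ S).card : ℝ)) := by
    intro x _
    by_cases hx : x ∈ S
    · simp only [if_pos hx, add_zero]
      have : ∀ y ∈ nbr H X x, |(1:ℝ) - (if y ∈ S then 1 else 0)| = if y ∈ S then 0 else 1 := by
        intro y _
        split_ifs <;> norm_num
      rw [Finset.sum_congr rfl this, Finset.card_eq_sum_ones, Finset.sdiff_eq_filter,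
        Nat.cast_sum, Finset.sum_filter]
      refine Finset.sum_congr rfl fun y _ => ?_
      by_cases hy : y ∈ S
      · simp [hy]
      · simp [hy]
    · simp only [if_neg hx, zero_add]
      have : ∀ y ∈ nbr H X x, |(0:ℝ) - (if y ∈ S then 1 else 0)| = if y ∈ S then 1 else 0 := by
        intro y _
        split_ifs <;> norm_num
      rw [Finset.sum_congr rfl this, Finset.card_eq_sum_ones, ← Finset.filter_mem_eq_inter,
        Nat.cast_sum, Finset.sum_filter]
      refine Finset.sum_congr rfl fun y _ => ?_
      by_cases hy : y ∈ S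
      · simp [hy]
      · simp [hy]
  rw [Finset.sum_congr rfl h1, Finset.sum_add_distrib]
  have h2 : ∑ x ∈ X, (if x ∈ S then ((nbr H X x \ S).card : ℝ) else 0) = ct H X S := by
    unfold ct
    rw [← Finset.sum_filter, Finset.filter_mem_eq_inter, Finset.inter_eq_right.mpr hS]
  have h3 : ∑ x ∈ X, (if x ∈ S then 0 else ((nbr H X x ∩ S).card : ℝ)) = ct H X S := by
    have e1 : ∑ x ∈ X, (if x ∈ S then 0 else ((nbr H X x ∩ S).card : ℝ)) =
        ∑ x ∈ X \ S, ((nbr H X x ∩ S).card : ℝ) := by
      rw [Finset.sdiff_eq_filter, Finset.sum_filter]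
      refine Finset.sum_congr rfl fun x _ => ?_
      by_cases hx : x ∈ S
      · simp [hx]
      · simp [hx]
    have e2 : ∀ x ∈ X \ S, ((nbr H X x ∩ S).card : ℝ) =
        ∑ y ∈ S, if H.Adj x y then (1:ℝ) else 0 := by
      intro x _
      have : nbr H X x ∩ S = S.filter (fun y => H.Adj x y) := by
        ext y
        simp only [nbr, Finset.mem_inter, Finset.mem_filter]
        constructor
        · rintro ⟨⟨_, h⟩, hy⟩; exact ⟨hy, h⟩
        · rintro ⟨hy, h⟩; exact ⟨⟨hS hy, h⟩, hy⟩
      rw [this, Finset.sum_boole]
    have e3 : ∀ y ∈ S, ((nbr H X y \ S).card : ℝ) =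
        ∑ x ∈ X \ S, if H.Adj x y then (1:ℝ) else 0 := by
      intro y _
      have : nbr H X y \ S = (X \ S).filter (fun x => H.Adj x y) := by
        ext x
        simp only [nbr, Finset.mem_sdiff, Finset.mem_filter]
        constructor
        · rintro ⟨⟨hx, h⟩, hy⟩; exact ⟨⟨hx, hy⟩, h.symm⟩
        · rintro ⟨⟨hx, hy⟩, h⟩; exact ⟨⟨hx, h.symm⟩, hy⟩
      rw [this, Finset.sum_boole]
    rw [e1, Finset.sum_congr rfl e2, Finset.sum_comm]
    unfold ct
    exact (Finset.sum_congr rfl e3).symm
  rw [h2, h3]
  ring

/-- Coarea inequality. Strong induction on the number of `x ∈ X` with `h x ≠ 0`: let `S` be this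
set, `c > 0` the minimum of `h` on `S`, `h' = h - c 1_S`. Then `|h x - h y| = |h' x - h' y| +
c |1_S x - 1_S y|`, the second terms sum to `2 c ct S ≥ 2 c φ vol S`, since
`vol S ≤ vol (X \ S)` (`S ⊆ Z0`). -/
theorem coarea (H : SimpleGraph Y) (X : Finset Y) {φ : ℝ} (hφ : 0 ≤ φ)
    (hc : ∀ Z ⊆ X, φ * min (vol H X Z) (vol H X (X \ Z)) ≤ ct H X Z)
    (Z0 : Finset Y) (hZ0 : Z0 ⊆ X) (hv : vol H X Z0 ≤ vol H X (X \ Z0)) (h : Y → ℝ)
    (h0 : ∀ x, 0 ≤ h x) (hs : ∀ x ∈ X, x ∉ Z0 → h x = 0) :
    2 * φ * ∑ x ∈ X, dgr H X x * h x ≤ ∑ x ∈ X, ∑ y ∈ nbr H X x, |h x - h y| := by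
  classical
  have key : ∀ n : ℕ, ∀ h : Y → ℝ, (∀ x, 0 ≤ h x) → (∀ x ∈ X, x ∉ Z0 → h x = 0) →
      (X.filter (fun x => h x ≠ 0)).card ≤ n →
      2 * φ * ∑ x ∈ X, dgr H X x * h x ≤ ∑ x ∈ X, ∑ y ∈ nbr H X x, |h x - h y| := by
    intro n
    induction n with
    | zero =>
      intro h _ _ hcard
      have hem : X.filter (fun x => h x ≠ 0) = ∅ := Finset.card_eq_zero.mp (Nat.le_zero.mp hcard)
      have hz : ∀ x ∈ X, h x = 0 := by
        intro x hx
        by_contra hne
        have : x ∈ X.filter (fun x => h x ≠ 0) := Finset.mem_filter.mpr ⟨hx, hne⟩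
        rw [hem] at this
        exact absurd this (Finset.notMem_empty x)
      have e1 : ∑ x ∈ X, dgr H X x * h x = 0 :=
        Finset.sum_eq_zero fun x hx => by rw [hz x hx, mul_zero]
      rw [e1, mul_zero]
      exact Finset.sum_nonneg fun x _ => Finset.sum_nonneg fun y _ => abs_nonneg _
    | succ n ih =>
      intro h h0 hs hcard
      set S := X.filter (fun x => h x ≠ 0) with hS
      by_cases hne : S.Nonempty
      · obtain ⟨x0, hx0, hmin⟩ := Finset.exists_min_image S h hne
        have hx0' := (Finset.mem_filter.mp hx0)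
        set c := h x0 with hcdef
        have hc0 : 0 < c := lt_of_le_of_ne (h0 x0) (Ne.symm hx0'.2)
        have hSX : S ⊆ X := Finset.filter_subset _ _
        have hSZ : S ⊆ Z0 := by
          intro x hx
          have hx' := Finset.mem_filter.mp hx
          by_contra hxz
          exact hx'.2 (hs x hx'.1 hxz)
        have hnS : ∀ x ∈ X, x ∉ S → h x = 0 := by
          intro x hx hxS
          by_contra hne
          exact hxS (Finset.mem_filter.mpr ⟨hx, hne⟩)
        set h' : Y → ℝ := fun x => if x ∈ S then h x - c else h x with hh'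
        have h0' : ∀ x, 0 ≤ h' x := by
          intro x
          simp only [hh']
          split_ifs with hx
          · have := hmin x hx
            linarith
          · exact h0 x
        have hs' : ∀ x ∈ X, x ∉ Z0 → h' x = 0 := by
          intro x hx hxz
          have : x ∉ S := fun h => hxz (hSZ h)
          simp only [hh', if_neg this]
          exact hs x hx hxz
        have hcard' : (X.filter (fun x => h' x ≠ 0)).card ≤ n := by
          have hsub : X.filter (fun x => h' x ≠ 0) ⊆ S.erase x0 := by
            intro x hx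
            have hx' := Finset.mem_filter.mp hx
            rw [Finset.mem_erase]
            constructor
            · rintro rfl
              apply hx'.2
              simp only [hh', if_pos hx0]
              exact sub_self _
            · by_contra hxS
              apply hx'.2
              simp only [hh', if_neg hxS]
              exact hnS x hx'.1 hxS
          have h1 := Finset.card_le_card hsub
          rw [Finset.card_erase_of_mem hx0] at h1
          omega
        have hI := ih h' h0' hs' hcard'
        have e1 : ∑ x ∈ X, dgr H X x * h x = ∑ x ∈ X, dgr H X x * h' x + c * vol H X S := by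
          have : vol H X S = ∑ x ∈ X, if x ∈ S then dgr H X x else 0 := by
            unfold vol
            rw [← Finset.sum_filter, Finset.filter_mem_eq_inter, Finset.inter_eq_right.mpr hSX]
          rw [this, Finset.mul_sum, ← Finset.sum_add_distrib]
          refine Finset.sum_congr rfl fun x _ => ?_
          simp only [hh']
          split_ifs <;> ring
        have e2 : ∑ x ∈ X, ∑ y ∈ nbr H X x, |h x - h y| =
            ∑ x ∈ X, ∑ y ∈ nbr H X x, |h' x - h' y| + c * (2 * ct H X S) := by
          rw [← coarea_ind H X S hSX, Finset.mul_sum, ← Finset.sum_add_distrib]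
          refine Finset.sum_congr rfl fun x hx => ?_
          rw [Finset.mul_sum, ← Finset.sum_add_distrib]
          refine Finset.sum_congr rfl fun y hy => ?_
          have hyX : y ∈ X := (Finset.mem_filter.mp hy).1
          simp only [hh']
          by_cases hxS : x ∈ S
          · by_cases hyS : y ∈ S
            · simp only [if_pos hxS, if_pos hyS, sub_self, abs_zero, mul_zero, add_zero]
              congr 1
              ring
            · have hy0 := hnS y hyX hyS
              have hm := hmin x hxS
              simp only [if_pos hxS, if_neg hyS, hy0, sub_zero, abs_one, mul_one]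
              rw [abs_of_nonneg (h0 x), abs_of_nonneg (by linarith)]
              ring
          · have hx0 := hnS x hx hxS
            by_cases hyS : y ∈ S
            · have hm := hmin y hyS
              simp only [if_neg hxS, if_pos hyS, hx0, zero_sub, abs_neg, abs_one, mul_one]
              rw [abs_of_nonneg (h0 y), abs_of_nonneg (by linarith)]
              ring
            · have hy0 := hnS y hyX hyS
              simp only [if_neg hxS, if_neg hyS, hx0, hy0, sub_self, abs_zero, mul_zero, add_zero]
        have e3 : vol H X S ≤ vol H X (X \ S) :=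
          (coarea_vol_mono H X hSZ).trans (hv.trans (coarea_vol_mono H X
            (Finset.sdiff_subset_sdiff (Finset.Subset.refl X) hSZ)))
        have e4 := hc S hSX
        rw [min_eq_left e3] at e4
        rw [e1, e2]
        have e5 := mul_le_mul_of_nonneg_left e4 hc0.le
        nlinarith
      · rw [Finset.not_nonempty_iff_eq_empty] at hne
        refine ih h h0 hs ?_
        rw [← hS, hne]
        simp
  exact key _ h h0 hs le_rfl

end Pool.Agent.Lib.MP_56e41f_co.LD
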