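import Pool.Agent.Lib.MP_56e41f_co.LD.XMax
import Pool.Agent.Lib.MP_56e41f_co.LD.XChA

/-!
# Cheeger's inequality
-/

open Finset

namespace Pool.Agent.Lib.MP_56e41f_co.LD

variable {Y : Type} [Fintype Y] [DecidableEq Y]

omit [Fintype Y] [DecidableEq Y] in
private theorem xchb_symm (H : SimpleGraph Y) (X : Finset Y) (F : Y → ℝ) :
    ∑ x ∈ X, ∑ y ∈ nbr H X x, F y = ∑ x ∈ X, dgr H X x * F x := by
  have h1 : ∑ x ∈ X, ∑ y ∈ nbr H X x, F y = ∑ y ∈ X, ∑ _x ∈ nbr H X y, F y := by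
    refine Finset.sum_comm' fun x y => ?_
    simp only [nbr, Finset.mem_filter]
    constructor
    · rintro ⟨hx, hy, ha⟩
      exact ⟨⟨hx, ha.symm⟩, hy⟩
    · rintro ⟨⟨hx, ha⟩, hy⟩
      exact ⟨hx, hy, ha.symm⟩
  rw [h1]
  refine Finset.sum_congr rfl fun y _ => ?_
  rw [Finset.sum_const, nsmul_eq_mul]
  rfl

omit [Fintype Y] [DecidableEq Y] in
private theorem xchb_diag (H : SimpleGraph Y) (X : Finset Y) (F : Y → ℝ) :
    ∑ x ∈ X, ∑ _y ∈ nbr H X x, F x = ∑ x ∈ X, dgr H X x * F x := by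
  refine Finset.sum_congr rfl fun y _ => ?_
  rw [Finset.sum_const, nsmul_eq_mul]
  rfl

/-- Cauchy-Schwarz: apply `coarea` to `g ^ 2`; `∑ |g x ^ 2 - g y ^ 2| ≤
sqrt (∑ (g x - g y) ^ 2) * sqrt (∑ (g x + g y) ^ 2)`, the last sum is at most
`4 ∑ dgr g ^ 2`. -/
theorem half_cheeger (H : SimpleGraph Y) (X : Finset Y) {φ : ℝ} (hφ : 0 ≤ φ)
    (hc : ∀ Z ⊆ X, φ * min (vol H X Z) (vol H X (X \ Z)) ≤ ct H X Z)
    (Z0 : Finset Y) (hZ0 : Z0 ⊆ X) (hv : vol H X Z0 ≤ vol H X (X \ Z0)) (g : Y → ℝ)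
    (h0 : ∀ x, 0 ≤ g x) (hs : ∀ x ∈ X, x ∉ Z0 → g x = 0) :
    φ ^ 2 * ∑ x ∈ X, dgr H X x * g x ^ 2 ≤ ∑ x ∈ X, ∑ y ∈ nbr H X x, (g x - g y) ^ 2 := by
  have h1 := coarea H X hφ hc Z0 hZ0 hv (fun x => g x ^ 2) (fun x => sq_nonneg _)
    (fun x hx hx' => by rw [hs x hx hx']; norm_num)
  obtain ⟨W, hW⟩ : ∃ W, W = ∑ x ∈ X, dgr H X x * g x ^ 2 := ⟨_, rfl⟩
  obtain ⟨D, hD⟩ : ∃ D, D = ∑ x ∈ X, ∑ y ∈ nbr H X x, (g x - g y) ^ 2 := ⟨_, rfl⟩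
  obtain ⟨S, hS⟩ : ∃ S, S = ∑ x ∈ X, ∑ y ∈ nbr H X x, (g x + g y) ^ 2 := ⟨_, rfl⟩
  obtain ⟨A, hA⟩ : ∃ A, A = ∑ x ∈ X, ∑ y ∈ nbr H X x, |g x ^ 2 - g y ^ 2| := ⟨_, rfl⟩
  have h2 : 2 * φ * W ≤ A := by rw [hW, hA]; exact h1
  rw [← hW, ← hD]
  have hW0 : 0 ≤ W := by
    rw [hW]
    exact Finset.sum_nonneg fun x _ => mul_nonneg (Nat.cast_nonneg _) (sq_nonneg _)
  have hD0 : 0 ≤ D := by
    rw [hD]
    exact Finset.sum_nonneg fun x _ => Finset.sum_nonneg fun y _ => sq_nonneg _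
  have hsum : D + S = 4 * W := by
    have e1 : D + S = 2 * (∑ x ∈ X, ∑ _y ∈ nbr H X x, g x ^ 2) +
        2 * (∑ x ∈ X, ∑ y ∈ nbr H X x, g y ^ 2) := by
      rw [hD, hS, ← Finset.sum_add_distrib, Finset.mul_sum, Finset.mul_sum,
        ← Finset.sum_add_distrib]
      refine Finset.sum_congr rfl fun x _ => ?_
      rw [← Finset.sum_add_distrib, Finset.mul_sum, Finset.mul_sum, ← Finset.sum_add_distrib]
      refine Finset.sum_congr rfl fun y _ => ?_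
      ring
    rw [e1, xchb_symm H X (fun y => g y ^ 2), xchb_diag H X (fun y => g y ^ 2), ← hW]
    ring
  have hcs : A ^ 2 ≤ D * S := by
    have e1 : A = ∑ q ∈ X.sigma (nbr H X), |g q.1 - g q.2| * |g q.1 + g q.2| := by
      rw [hA, Finset.sum_sigma]
      refine Finset.sum_congr rfl fun x _ => Finset.sum_congr rfl fun y _ => ?_
      rw [← abs_mul]
      congr 1
      ring
    have e2 : D = ∑ q ∈ X.sigma (nbr H X), |g q.1 - g q.2| ^ 2 := by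
      rw [hD, Finset.sum_sigma]
      refine Finset.sum_congr rfl fun x _ => Finset.sum_congr rfl fun y _ => ?_
      rw [sq_abs]
    have e3 : S = ∑ q ∈ X.sigma (nbr H X), |g q.1 + g q.2| ^ 2 := by
      rw [hS, Finset.sum_sigma]
      refine Finset.sum_congr rfl fun x _ => Finset.sum_congr rfl fun y _ => ?_
      rw [sq_abs]
    rw [e1, e2, e3]
    exact Finset.sum_mul_sq_le_sq_mul_sq _ _ _
  rcases hW0.eq_or_lt with hz | hp
  · rw [← hz, mul_zero]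
    exact hD0
  · have h3 : (2 * φ * W) ^ 2 ≤ A ^ 2 := by
      have h4 : 0 ≤ 2 * φ * W := by positivity
      exact pow_le_pow_left₀ h4 h2 2
    have h5 : D * S ≤ D * (4 * W) := mul_le_mul_of_nonneg_left (by linarith) hD0
    have h6 : (4 * W) * (φ ^ 2 * W) ≤ (4 * W) * D := by nlinarith
    exact le_of_mul_le_mul_left h6 (by positivity)

end Pool.Agent.Lib.MP_56e41f_co.LD
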