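import Pool.Agent.Lib.MP_56e41f_co.LD.XMax

/-!
# Cheeger's inequality
-/

open Finset

namespace Pool.Agent.Lib.MP_56e41f_co.LD

variable {Y : Type} [Fintype Y] [DecidableEq Y]

private lemma vol_split (H : SimpleGraph Y) (X Z : Finset Y) (hZ : Z ⊆ X) :
    vol H X (X \ Z) + vol H X Z = vol H X X := by
  unfold vol
  exact Finset.sum_sdiff hZ

private lemma vol_nonneg (H : SimpleGraph Y) (X Z : Finset Y) : 0 ≤ vol H X Z := by
  unfold vol
  refine Finset.sum_nonneg (fun x _ => ?_)
  unfold dgr
  exact Nat.cast_nonneg _

private lemma vol_mono (H : SimpleGraph Y) (X Z W : Finset Y) (h : Z ⊆ W) :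
    vol H X Z ≤ vol H X W := by
  unfold vol
  refine Finset.sum_le_sum_of_subset_of_nonneg h (fun x _ _ => ?_)
  unfold dgr
  exact Nat.cast_nonneg _

private lemma vol_empty' (H : SimpleGraph Y) (X Z : Finset Y) (h : Z = ∅) :
    vol H X Z = 0 := by
  subst h
  unfold vol
  exact Finset.sum_empty

/-- a median with respect to the volume -/
theorem exists_median (H : SimpleGraph Y) (X : Finset Y) (f : Y → ℝ) :
    ∃ m : ℝ, vol H X (X.filter (fun x => m < f x)) ≤
        vol H X (X \ (X.filter (fun x => m < f x))) ∧
      vol H X (X.filter (fun x => f x < m)) ≤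
        vol H X (X \ (X.filter (fun x => f x < m))) := by
  rcases X.eq_empty_or_nonempty with hX | hX
  · refine ⟨0, ?_, ?_⟩
    · rw [vol_empty' H X (X.filter (fun x => (0 : ℝ) < f x)) (by rw [hX]; exact Finset.filter_empty _)]
      exact vol_nonneg H X _
    · rw [vol_empty' H X (X.filter (fun x => f x < (0 : ℝ))) (by rw [hX]; exact Finset.filter_empty _)]
      exact vol_nonneg H X _
  · obtain ⟨xM, hxM, hM⟩ := X.exists_max_image f hX
    have hne : (X.filter (fun z => 2 * vol H X (X.filter (fun x => f z < f x)) ≤
        vol H X X)).Nonempty := by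
      refine ⟨xM, Finset.mem_filter.2 ⟨hxM, ?_⟩⟩
      have he : X.filter (fun x => f xM < f x) = ∅ := by
        refine Finset.filter_eq_empty_iff.2 (fun y hy => ?_)
        exact not_lt.2 (hM y hy)
      rw [vol_empty' H X _ he]
      have := vol_nonneg H X X
      linarith
    obtain ⟨x0, hx0, h0⟩ := (X.filter (fun z => 2 * vol H X (X.filter (fun x => f z < f x)) ≤
        vol H X X)).exists_min_image f hne
    obtain ⟨hx0X, hx0v⟩ := Finset.mem_filter.1 hx0
    refine ⟨f x0, ?_, ?_⟩
    · have := vol_split H X (X.filter (fun x => f x0 < f x)) (Finset.filter_subset _ _)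
      linarith
    · have hs := vol_split H X (X.filter (fun x => f x < f x0)) (Finset.filter_subset _ _)
      rcases (X.filter (fun x => f x < f x0)).eq_empty_or_nonempty with he | hn
      · rw [vol_empty' H X _ he]
        exact vol_nonneg H X _
      · obtain ⟨x1, hx1, h1⟩ := (X.filter (fun x => f x < f x0)).exists_max_image f hn
        obtain ⟨hx1X, hx1l⟩ := Finset.mem_filter.1 hx1
        have hnot : ¬ 2 * vol H X (X.filter (fun x => f x1 < f x)) ≤ vol H X X := by
          intro hc
          have := h0 x1 (Finset.mem_filter.2 ⟨hx1X, hc⟩)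
          linarith
        have hsub : X.filter (fun x => f x < f x0) ⊆ X \ (X.filter (fun x => f x1 < f x)) := by
          intro y hy
          refine Finset.mem_sdiff.2 ⟨(Finset.mem_filter.1 hy).1, fun hy' => ?_⟩
          have h2 := h1 y hy
          have h3 := (Finset.mem_filter.1 hy').2
          linarith
        have hm := vol_mono H X _ _ hsub
        have hs1 := vol_split H X (X.filter (fun x => f x1 < f x)) (Finset.filter_subset _ _)
        have hnot' := not_le.1 hnot
        linarith

end Pool.Agent.Lib.MP_56e41f_co.LD
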