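import Pool.Agent.Lib.MP_56e41f_co.LD.XMax
import Pool.Agent.Lib.MP_56e41f_co.LD.XChB
import Pool.Agent.Lib.MP_56e41f_co.LD.XChC

/-!
# Cheeger's inequality
-/

open Finset

namespace Pool.Agent.Lib.MP_56e41f_co.LD

variable {Y : Type} [Fintype Y] [DecidableEq Y]

/-- Cheeger: with the median `m`, apply `half_cheeger` to the positive and negative parts of
`f - m`; `∑ dgr (f - m) ^ 2 ≥ ∑ dgr f ^ 2` since `∑ dgr f = 0`, and
`(g₊ x - g₊ y) ^ 2 + (g₋ x - g₋ y) ^ 2 ≤ (f x - f y) ^ 2`. -/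
theorem cheeger (H : SimpleGraph Y) (X : Finset Y) {φ : ℝ} (hφ : 0 ≤ φ)
    (hc : ∀ Z ⊆ X, φ * min (vol H X Z) (vol H X (X \ Z)) ≤ ct H X Z) (f : Y → ℝ)
    (hf : ∑ x ∈ X, dgr H X x * f x = 0) :
    φ ^ 2 * ∑ x ∈ X, dgr H X x * f x ^ 2 ≤ ∑ x ∈ X, ∑ y ∈ nbr H X x, (f x - f y) ^ 2 := by
  obtain ⟨m, hm1, hm2⟩ := exists_median H X f
  have hp := half_cheeger H X hφ hc (X.filter (fun x => m < f x)) (filter_subset _ _) hm1
    (fun x => max (f x - m) 0) (fun x => le_max_right _ _) (by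
      intro x hx hxn
      have h : ¬ m < f x := fun h => hxn (mem_filter.2 ⟨hx, h⟩)
      exact max_eq_right (by linarith))
  have hn := half_cheeger H X hφ hc (X.filter (fun x => f x < m)) (filter_subset _ _) hm2
    (fun x => max (m - f x) 0) (fun x => le_max_right _ _) (by
      intro x hx hxn
      have h : ¬ f x < m := fun h => hxn (mem_filter.2 ⟨hx, h⟩)
      exact max_eq_right (by linarith))
  have h1 : ∑ x ∈ X, dgr H X x * f x ^ 2 ≤
      ∑ x ∈ X, dgr H X x * (max (f x - m) 0) ^ 2 +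
        ∑ x ∈ X, dgr H X x * (max (m - f x) 0) ^ 2 := by
    have e : ∀ x, (max (f x - m) 0) ^ 2 + (max (m - f x) 0) ^ 2 = (f x - m) ^ 2 := by
      intro x
      rcases le_total (f x) m with h | h
      · rw [max_eq_right (by linarith), max_eq_left (by linarith)]; ring
      · rw [max_eq_left (by linarith), max_eq_right (by linarith)]; ring
    have e2 : ∑ x ∈ X, dgr H X x * (max (f x - m) 0) ^ 2 +
        ∑ x ∈ X, dgr H X x * (max (m - f x) 0) ^ 2 =
        ∑ x ∈ X, dgr H X x * f x ^ 2 - 2 * m * ∑ x ∈ X, dgr H X x * f x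
          + m ^ 2 * ∑ x ∈ X, dgr H X x := by
      rw [← sum_add_distrib, mul_sum, mul_sum, ← sum_sub_distrib, ← sum_add_distrib]
      refine sum_congr rfl fun x _ => ?_
      rw [← mul_add, e]; ring
    rw [e2, hf]
    have e3 : 0 ≤ ∑ x ∈ X, dgr H X x := sum_nonneg fun x _ => Nat.cast_nonneg _
    nlinarith [mul_nonneg (sq_nonneg m) e3]
  have h2 : (∑ x ∈ X, ∑ y ∈ nbr H X x, (max (f x - m) 0 - max (f y - m) 0) ^ 2) +
      (∑ x ∈ X, ∑ y ∈ nbr H X x, (max (m - f x) 0 - max (m - f y) 0) ^ 2) ≤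
      ∑ x ∈ X, ∑ y ∈ nbr H X x, (f x - f y) ^ 2 := by
    rw [← sum_add_distrib]
    refine sum_le_sum fun x _ => ?_
    rw [← sum_add_distrib]
    refine sum_le_sum fun y _ => ?_
    rcases le_total (f x) m with h | h <;> rcases le_total (f y) m with h' | h'
    · rw [max_eq_right (by linarith : f x - m ≤ 0), max_eq_right (by linarith : f y - m ≤ 0),
        max_eq_left (by linarith : (0 : ℝ) ≤ m - f x),
        max_eq_left (by linarith : (0 : ℝ) ≤ m - f y)]
      nlinarith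
    · rw [max_eq_right (by linarith : f x - m ≤ 0),
        max_eq_left (by linarith : (0 : ℝ) ≤ f y - m),
        max_eq_left (by linarith : (0 : ℝ) ≤ m - f x),
        max_eq_right (by linarith : m - f y ≤ 0)]
      nlinarith [mul_nonneg (sub_nonneg.2 h) (sub_nonneg.2 h')]
    · rw [max_eq_left (by linarith : (0 : ℝ) ≤ f x - m),
        max_eq_right (by linarith : f y - m ≤ 0),
        max_eq_right (by linarith : m - f x ≤ 0),
        max_eq_left (by linarith : (0 : ℝ) ≤ m - f y)]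
      nlinarith [mul_nonneg (sub_nonneg.2 h) (sub_nonneg.2 h')]
    · rw [max_eq_left (by linarith : (0 : ℝ) ≤ f x - m),
        max_eq_left (by linarith : (0 : ℝ) ≤ f y - m),
        max_eq_right (by linarith : m - f x ≤ 0),
        max_eq_right (by linarith : m - f y ≤ 0)]
      nlinarith
  have h3 := mul_le_mul_of_nonneg_left h1 (sq_nonneg φ)
  rw [mul_add] at h3
  linarith

end Pool.Agent.Lib.MP_56e41f_co.LD
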