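import Pool.Agent.Lib.MP_56e41f_co.LD.XChA
import Pool.Agent.Lib.MP_56e41f_co.LD.XChB
import Pool.Agent.Lib.MP_56e41f_co.LD.XChC
import Pool.Agent.Lib.MP_56e41f_co.LD.XChD

/-!
# Cheeger's inequality
-/
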