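import Pool.Agent.Lib.MP_56e41f_co.LD.Mgf
import Pool.Agent.Lib.MP_56e41f_co.LD.GrB

/-!
# The exponential supermartingales of the test functions
-/

open Finset

namespace Pool.Agent.Lib.MP_56e41f_co.LD

variable {V : Type} [Fintype V] [DecidableEq V]

/-- Light step. Let `α' = α (1 - ρ)`, `f w = fk k (w, !x.2)` on `nb x`, and let `S` be the set of
disappearing vertices. Then `Y' / α' - Y / α = (ρ Y - ∑ w ∈ S ∩ nb x, f w) / α'`, so by `stp_mgf`
(with `- e lam f w / α'`, zero off `nb x`) the mean of `exp (e lam (Y'/α' - Y/α))` is at most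
`exp (ρ ∑ w, (exp (- e lam f w / α') - 1 + e lam f w / α')) ≤ exp (ρ lam^2 dg / α'^2)`
(`exp y - 1 - y ≤ y ^ 2` for `|y| ≤ 1`; `lam / α' ≤ 1` as `α' ≥ κ / 2`), and
`log (2 α' / κ) = log (2 α / κ) + log (1 - ρ) ≤ log (2 α / κ) - ρ` pays for it. -/
theorem Zt_light {G : SimpleGraph V} {X : Finset (V × Bool)} {P : Pm} (hO : P.Ok)
    (hH : Hs G X P) (e : ℝ) (he : e = 1 ∨ e = -1) (k : ℕ) {x : V × Bool} (hx : x ∈ X)
    {F C : Finset V} {α ρ : ℝ} (h : ℝ) (hCF : C ⊆ F) (hC : C.Nonempty)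
    (h0 : 1 / (C.card : ℝ) ≤ ρ) (h1 : ρ ≤ 1 / 2) (hα : P.κ ≤ α) :
    stp F C ρ (fun u R => Zt G X P e k x ((F.erase u) \ R) (α * (1 - ρ)) h) ≤
      Zt G X P e k x F α h := by
  classical
  have hρ0 : 0 ≤ ρ := le_trans (by positivity) h0
  have hκ := hO.k0
  have hα0 : 0 < α := lt_of_lt_of_le hκ hα
  have hα' : P.κ / 2 ≤ α * (1 - ρ) := by nlinarith
  have hα'0 : 0 < α * (1 - ρ) := by linarith
  have hρ1 : 0 < 1 - ρ := by linarith
  have hlam := hO.lam0
  have hlam1 := hO.lam1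
  have hdg : 0 ≤ dg G X x := Nat.cast_nonneg _
  set f : V → ℝ := fun w => fk G X P k (w, !x.2) with hf
  set φ : V → ℝ := fun w => if w ∈ nb G X x then -(e * P.lam * f w / (α * (1 - ρ))) else 0
    with hφ
  have he2 : |e| = 1 := by rcases he with h | h <;> simp [h]
  have hf0 : ∀ w, 0 ≤ f w := fun w => fk_nonneg hO k _
  have hf1 : ∀ w ∈ nb G X x, f w ≤ 1 := fun w hw =>
    fk_le hO hH k ((mem_nb G X x w).1 hw).2
  have hφabs : ∀ w ∈ nb G X x, |φ w| ≤ P.lam / (α * (1 - ρ)) := by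
    intro w hw
    have h3 : φ w = -(e * P.lam * f w / (α * (1 - ρ))) := by simp [hφ, hw]
    rw [h3, abs_neg, abs_div, abs_mul, abs_mul, he2, one_mul, abs_of_pos hlam,
      abs_of_nonneg (hf0 w), abs_of_pos hα'0]
    apply div_le_div_of_nonneg_right _ hα'0.le
    nlinarith [hf1 w hw]
  have hq : P.lam / (α * (1 - ρ)) ≤ 1 := by
    rw [div_le_one hα'0]
    linarith
  have hq2 : P.lam / (α * (1 - ρ)) ≤ 2 * P.lam / P.κ := by
    rw [div_le_div_iff₀ hα'0 hκ]
    nlinarith
  set A : ℝ := e * P.lam * (Ys G X P k x F / (α * (1 - ρ)) - Ys G X P k x univ)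
    - P.lam * P.x * dg G X x
    + 4 / P.κ ^ 2 * P.lam ^ 2 * dg G X x * Real.log (2 * (α * (1 - ρ)) / P.κ)
    + P.lam / P.κ * h with hA
  have hstep : ∀ u ∈ C, ∀ R ⊆ F.erase u,
      Zt G X P e k x ((F.erase u) \ R) (α * (1 - ρ)) h ≤
        Real.exp A * Real.exp (∑ w ∈ insert u R, φ w) := by
    intro u hu R hR
    have huF : u ∈ F := hCF hu
    have hin : insert u R ⊆ F := by
      intro w hw
      rcases Finset.mem_insert.1 hw with h | h
      · exact h ▸ huF
      · exact Finset.mem_of_mem_erase (hR h)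
    have hset : (F.erase u) \ R = F \ insert u R := by
      ext w
      simp only [Finset.mem_sdiff, Finset.mem_erase, Finset.mem_insert, not_or]
      tauto
    have hY : Ys G X P k x ((F.erase u) \ R) =
        Ys G X P k x F - ∑ w ∈ insert u R, (if w ∈ nb G X x then f w else 0) := by
      rw [hset]
      unfold Ys
      have h5 : ∀ T : Finset V, ∑ u ∈ nb G X x ∩ T, fk G X P k (u, !x.2) =
          ∑ w ∈ T, (if w ∈ nb G X x then f w else 0) := by
        intro T
        rw [Finset.inter_comm, ← Finset.sum_filter, Finset.filter_mem_eq_inter]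
      rw [h5, h5, ← Finset.sum_sdiff hin]
      ring
    have hφs : ∑ w ∈ insert u R, φ w =
        -(e * P.lam * (∑ w ∈ insert u R, (if w ∈ nb G X x then f w else 0)) /
          (α * (1 - ρ))) := by
      rw [Finset.mul_sum, Finset.sum_div, ← Finset.sum_neg_distrib]
      apply Finset.sum_congr rfl
      intro w _
      by_cases hw : w ∈ nb G X x <;> simp [hφ, hw]
    rw [← Real.exp_add, hφs]
    unfold Zt
    apply le_of_eq
    congr 1
    rw [hY, hA]
    ring
  have h6 := stp_mono (F := F) hCF hC h0 (by linarith) hstep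
  refine h6.trans ?_
  rw [stp_mul]
  have h7 := stp_mgf hCF hC h0 (by linarith) φ
  refine (mul_le_mul_of_nonneg_left h7 (Real.exp_pos A).le).trans ?_
  rw [← Real.exp_add]
  unfold Zt
  apply Real.exp_le_exp.2
  have h8 : ∑ w ∈ F, (Real.exp (φ w) - 1) ≤
      -(e * P.lam * Ys G X P k x F / (α * (1 - ρ))) +
        4 / P.κ ^ 2 * P.lam ^ 2 * dg G X x := by
    have h9 : ∑ w ∈ F, (Real.exp (φ w) - 1) = ∑ w ∈ nb G X x ∩ F, (Real.exp (φ w) - 1) := by
      rw [Finset.inter_comm, ← Finset.filter_mem_eq_inter, Finset.sum_filter]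
      apply Finset.sum_congr rfl
      intro w _
      by_cases hw : w ∈ nb G X x <;> simp [hφ, hw]
    have h10 : ∀ w ∈ nb G X x ∩ F, Real.exp (φ w) - 1 ≤
        -(e * P.lam * f w / (α * (1 - ρ))) + 4 / P.κ ^ 2 * P.lam ^ 2 := by
      intro w hw
      have hw' := (Finset.mem_inter.1 hw).1
      have h11 := hφabs w hw'
      have h12 := Real.abs_exp_sub_one_sub_id_le (h11.trans hq)
      have h13 := (abs_le.1 h12).2
      have h14 : φ w ^ 2 ≤ 4 / P.κ ^ 2 * P.lam ^ 2 := by
        have h15 : |φ w| ≤ 2 * P.lam / P.κ := h11.trans hq2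
        have h16 : φ w ^ 2 = |φ w| ^ 2 := (sq_abs _).symm
        have h17 : 4 / P.κ ^ 2 * P.lam ^ 2 = (2 * P.lam / P.κ) ^ 2 := by
          field_simp
          ring
        rw [h16, h17]
        exact pow_le_pow_left₀ (abs_nonneg _) h15 2
      have h18 : φ w = -(e * P.lam * f w / (α * (1 - ρ))) := by simp [hφ, hw']
      rw [← h18]
      linarith
    rw [h9]
    refine (Finset.sum_le_sum h10).trans ?_
    rw [Finset.sum_add_distrib, Finset.sum_neg_distrib, ← Finset.sum_div, ← Finset.mul_sum,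
      Finset.sum_const, nsmul_eq_mul]
    have h19 : ((nb G X x ∩ F).card : ℝ) ≤ dg G X x := by
      unfold dg
      exact_mod_cast Finset.card_le_card Finset.inter_subset_left
    have h20 : 0 ≤ 4 / P.κ ^ 2 * P.lam ^ 2 := by positivity
    have h21 : ∑ i ∈ nb G X x ∩ F, f i = Ys G X P k x F := rfl
    rw [h21]
    nlinarith [mul_le_mul_of_nonneg_right h19 h20]
  have h22 : Real.log (2 * (α * (1 - ρ)) / P.κ) ≤ Real.log (2 * α / P.κ) - ρ := by
    have h23 : 2 * (α * (1 - ρ)) / P.κ = (2 * α / P.κ) * (1 - ρ) := by ring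
    rw [h23, Real.log_mul (by positivity) hρ1.ne']
    have := Real.log_le_sub_one_of_pos hρ1
    linarith
  have h24 : 0 ≤ 4 / P.κ ^ 2 * P.lam ^ 2 * dg G X x := by positivity
  have h25 := mul_le_mul_of_nonneg_left h22 h24
  have h26 := mul_le_mul_of_nonneg_left h8 hρ0
  have h27 : e * P.lam * (Ys G X P k x F / (α * (1 - ρ))) -
      ρ * (e * P.lam * Ys G X P k x F / (α * (1 - ρ))) = e * P.lam * (Ys G X P k x F / α) := by
    field_simp
  rw [hA]
  nlinarith

end Pool.Agent.Lib.MP_56e41f_co.LD
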