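import Pool.Agent.Lib.MP_56e41f_co.LD.Mgf
import Pool.Agent.Lib.MP_56e41f_co.LD.GrB
import Pool.Agent.Lib.MP_56e41f_co.LD.ZSa

/-!
# The exponential supermartingales of the test functions
-/

open Finset

namespace Pool.Agent.Lib.MP_56e41f_co.LD

variable {V : Type} [Fintype V] [DecidableEq V]

/-- Heavy step: `Y` decreases by at most `1`, `lam / α ≤ lam / κ`. -/
theorem Zt_heavy {G : SimpleGraph V} {X : Finset (V × Bool)} {P : Pm} (hO : P.Ok)
    (hH : Hs G X P) (e : ℝ) (he : e = 1 ∨ e = -1) (k : ℕ) {x : V × Bool} (hx : x ∈ X)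
    {F : Finset V} {α : ℝ} (h : ℝ) (u : V) (hα : P.κ ≤ α) :
    Zt G X P e k x ((F.erase u) \ ∅) (α * (1 - 0)) h ≤ Zt G X P e k x F α (1 + h) := by
  have hα0 : 0 < α := lt_of_lt_of_le hO.k0 hα
  have hk0 := hO.k0
  have hl0 := hO.lam0
  -- the change of the sum
  have hY : 0 ≤ Ys G X P k x F - Ys G X P k x (F.erase u) ∧
      Ys G X P k x F - Ys G X P k x (F.erase u) ≤ 1 := by
    have e1 : nb G X x ∩ F.erase u = (nb G X x ∩ F).erase u := by
      ext w
      simp only [Finset.mem_inter, Finset.mem_erase]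
      constructor
      · rintro ⟨h1, h2, h3⟩
        exact ⟨h2, h1, h3⟩
      · rintro ⟨h1, h2, h3⟩
        exact ⟨h2, h1, h3⟩
    unfold Ys
    rw [e1]
    by_cases hu : u ∈ nb G X x ∩ F
    · rw [← Finset.add_sum_erase _ _ hu, add_sub_cancel_right]
      have h2 := (mem_nb G X x u).1 (Finset.mem_inter.1 hu).1
      exact ⟨fk_nonneg hO k _, fk_le hO hH k h2.2⟩
    · rw [Finset.erase_eq_of_notMem hu, sub_self]
      exact ⟨le_rfl, zero_le_one⟩
  unfold Zt
  rw [Finset.sdiff_empty, sub_zero, mul_one]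
  apply Real.exp_le_exp.2
  have h3 : e * P.lam * (Ys G X P k x (F.erase u) / α - Ys G X P k x univ) -
      e * P.lam * (Ys G X P k x F / α - Ys G X P k x univ) =
      P.lam * (-e * (Ys G X P k x F - Ys G X P k x (F.erase u)) / α) := by
    ring
  have h4 : -e * (Ys G X P k x F - Ys G X P k x (F.erase u)) / α ≤ 1 / P.κ := by
    have h5 : -e * (Ys G X P k x F - Ys G X P k x (F.erase u)) ≤ 1 := by
      rcases he with rfl | rfl
      · linarith [hY.1]
      · linarith [hY.2]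
    exact (div_le_div_of_nonneg_right h5 hα0.le).trans
      (one_div_le_one_div_of_le hk0 hα)
  have h6 := mul_le_mul_of_nonneg_left h4 hl0.le
  have h7 : P.lam / P.κ * (1 + h) = P.lam * (1 / P.κ) + P.lam / P.κ * h := by ring
  rw [h7]
  linarith

theorem UZ_light {G : SimpleGraph V} {X : Finset (V × Bool)} {P : Pm} (hO : P.Ok)
    (hH : Hs G X P) {F C : Finset V} {α ρ : ℝ} (h : ℝ) (hCF : C ⊆ F) (hC : C.Nonempty)
    (h0 : 1 / (C.card : ℝ) ≤ ρ) (h1 : ρ ≤ 1 / 2) (hα : P.κ ≤ α) :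
    stp F C ρ (fun u R => UZ G X P ((F.erase u) \ R) (α * (1 - ρ)) h) ≤ UZ G X P F α h := by
  unfold UZ
  rw [stp_sum F C ρ X (fun x u R => ∑ k ∈ range (P.L + 1),
    (Zt G X P 1 k x ((F.erase u) \ R) (α * (1 - ρ)) h +
      Zt G X P (-1) k x ((F.erase u) \ R) (α * (1 - ρ)) h))]
  refine Finset.sum_le_sum fun x hx => ?_
  rw [stp_sum F C ρ (range (P.L + 1)) (fun k u R =>
    (Zt G X P 1 k x ((F.erase u) \ R) (α * (1 - ρ)) h +
      Zt G X P (-1) k x ((F.erase u) \ R) (α * (1 - ρ)) h))]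
  refine Finset.sum_le_sum fun k _ => ?_
  rw [stp_add F C ρ (fun u R => Zt G X P 1 k x ((F.erase u) \ R) (α * (1 - ρ)) h)
    (fun u R => Zt G X P (-1) k x ((F.erase u) \ R) (α * (1 - ρ)) h)]
  exact add_le_add (Zt_light hO hH 1 (Or.inl rfl) k hx h hCF hC h0 h1 hα)
    (Zt_light hO hH (-1) (Or.inr rfl) k hx h hCF hC h0 h1 hα)

theorem UZ_heavy {G : SimpleGraph V} {X : Finset (V × Bool)} {P : Pm} (hO : P.Ok)
    (hH : Hs G X P) {F : Finset V} {α : ℝ} (h : ℝ) (u : V) (hα : P.κ ≤ α) :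
    UZ G X P ((F.erase u) \ ∅) (α * (1 - 0)) h ≤ UZ G X P F α (1 + h) := by
  unfold UZ
  refine Finset.sum_le_sum fun x hx => Finset.sum_le_sum fun k _ => ?_
  exact add_le_add (Zt_heavy hO hH 1 (Or.inl rfl) k hx h u hα)
    (Zt_heavy hO hH (-1) (Or.inr rfl) k hx h u hα)

end Pool.Agent.Lib.MP_56e41f_co.LD
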